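import Mathlib

/-!
# Integral points of a box which avoid residue classes
-/

set_option autoImplicit false
set_option linter.all false

open scoped Classical

namespace Pool.Agent.R939.EI

section sieve

variable {ι : Type} [Fintype ι]

/-- The points of a box whose residues avoid the sets `Ω p`. -/
def avoid (P : Finset ℕ) (Ω : (p : ℕ) → Set (ι → ZMod p)) (H : ℕ) : Set (ι → ℤ) :=
  {x | (∀ i, |x i| ≤ (H : ℤ)) ∧ ∀ p ∈ P, (fun i => (x i : ZMod p)) ∉ Ω p}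

theorem card_avoid (P : Finset ℕ) (hP : ∀ p ∈ P, p.Prime) (Ω : (p : ℕ) → Set (ι → ZMod p)) (H : ℕ) :
    (avoid P Ω H).ncard ≤ (2 * H / (∏ p ∈ P, p) + 1) ^ Fintype.card ι *
      ∏ p : P, Nat.card {y : ι → ZMod p // y ∉ Ω p} := by
  set Q := ∏ p ∈ P, p with hQ
  have hQ0 : 0 < Q := Finset.prod_pos fun p hp => (hP p hp).pos
  haveI : ∀ p : P, NeZero (p : ℕ) := fun p => ⟨(hP p p.2).ne_zero⟩
  have hb : ∀ x ∈ avoid P Ω H, ∀ i, 0 ≤ x i + H ∧ (x i + H) / (Q : ℤ) < (2 * H / Q + 1 : ℕ) := by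
    intro x hx i
    have h1 := abs_le.1 (hx.1 i)
    refine ⟨by omega, ?_⟩
    have h3 : x i + H ≤ ((2 * H : ℕ) : ℤ) := by push_cast; omega
    have h4 : (x i + H) / (Q : ℤ) ≤ ((2 * H : ℕ) : ℤ) / (Q : ℤ) :=
      Int.ediv_le_ediv (by exact_mod_cast hQ0) h3
    rw [← Int.natCast_ediv] at h4
    push_cast at h4 ⊢
    omega
  let f : avoid P Ω H → (ι → Fin (2 * H / Q + 1)) × ((p : P) → {y : ι → ZMod p // y ∉ Ω p}) :=
    fun x => (fun i => ⟨((x.1 i + H) / (Q : ℤ)).toNat, by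
      have h1 := hb x.1 x.2 i
      have h3 : 0 ≤ (x.1 i + H) / (Q : ℤ) := Int.ediv_nonneg h1.1 (by positivity)
      omega⟩, fun p => ⟨fun i => (x.1 i : ZMod p), x.2.2 p p.2⟩)
  have hf : Function.Injective f := by
    intro x y hxy
    apply Subtype.ext
    funext i
    have h1 := congrArg (fun z => (z.1 i).1) hxy
    have h3 : (x.1 i + H) / (Q : ℤ) = (y.1 i + H) / (Q : ℤ) := by
      have hx := Int.ediv_nonneg (hb x.1 x.2 i).1 (by positivity : (0 : ℤ) ≤ (Q : ℤ))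
      have hy := Int.ediv_nonneg (hb y.1 y.2 i).1 (by positivity : (0 : ℤ) ≤ (Q : ℤ))
      have h4 : ((x.1 i + H) / (Q : ℤ)).toNat = ((y.1 i + H) / (Q : ℤ)).toNat := h1
      omega
    have h5 : ∀ p ∈ P, (p : ℤ) ∣ x.1 i - y.1 i := by
      intro p hp
      have h6 := congrArg (fun z => ((z.2 ⟨p, hp⟩).1 : ι → ZMod p) i) hxy
      have h7 : ((x.1 i : ℤ) : ZMod p) = ((y.1 i : ℤ) : ZMod p) := h6
      rw [eq_comm, ZMod.intCast_eq_intCast_iff_dvd_sub] at h7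
      exact h7
    have h8 : (Q : ℤ) ∣ x.1 i - y.1 i := by
      rw [hQ, Nat.cast_prod]
      refine Finset.prod_dvd_of_coprime ?_ h5
      intro p hp q hq hpq
      exact Nat.isCoprime_iff_coprime.2 ((Nat.coprime_primes (hP p hp) (hP q hq)).2 hpq)
    have hQ' : (0 : ℤ) < (Q : ℤ) := by exact_mod_cast hQ0
    have e1 := Int.emod_add_mul_ediv (x.1 i + H) (Q : ℤ)
    have e2 := Int.emod_add_mul_ediv (y.1 i + H) (Q : ℤ)
    have e3 := Int.emod_nonneg (x.1 i + H) hQ'.ne'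
    have e4 := Int.emod_nonneg (y.1 i + H) hQ'.ne'
    have e5 := Int.emod_lt_of_pos (x.1 i + H) hQ'
    have e6 := Int.emod_lt_of_pos (y.1 i + H) hQ'
    rw [h3] at e1
    have h9 : x.1 i - y.1 i = 0 := by
      apply Int.eq_zero_of_abs_lt_dvd h8
      rw [abs_lt]
      constructor <;> linarith
    linarith
  have h1 := Nat.card_le_card_of_injective f hf
  rw [Nat.card_prod, Nat.card_pi, Nat.card_pi] at h1
  simp only [Nat.card_eq_fintype_card, Fintype.card_fin, Finset.prod_const, Finset.card_univ] at h1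
  rw [← Nat.card_coe_set_eq]
  simpa only [Nat.card_eq_fintype_card] using h1

theorem sieve (P : Finset ℕ) (hP : ∀ p ∈ P, p.Prime) (Ω : (p : ℕ) → Set (ι → ZMod p)) {δ : ℝ}
    (hδ : δ ≤ 1) (hΩ : ∀ p ∈ P, δ * (p : ℝ) ^ Fintype.card ι ≤ (Ω p).ncard) (H : ℕ) :
    ((avoid P Ω H).ncard : ℝ) ≤
      (1 - δ) ^ P.card * (2 * H + (∏ p ∈ P, p : ℕ)) ^ Fintype.card ι := by
  set Q := ∏ p ∈ P, p with hQ
  have hQ0 : 0 < Q := Finset.prod_pos fun p hp => (hP p hp).pos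
  have h1 : ((avoid P Ω H).ncard : ℝ) ≤ (((2 * H / Q + 1) ^ Fintype.card ι *
      ∏ p : P, Nat.card {y : ι → ZMod p // y ∉ Ω p} : ℕ) : ℝ) := by
    exact_mod_cast card_avoid P hP Ω H
  refine h1.trans ?_
  rw [Nat.cast_mul, Nat.cast_pow, Nat.cast_prod]
  have h3 : ∀ p : P, (Nat.card {y : ι → ZMod p // y ∉ Ω p} : ℝ) ≤
      (1 - δ) * ((p : ℕ) : ℝ) ^ Fintype.card ι := by
    intro p
    haveI : NeZero (p : ℕ) := ⟨(hP p p.2).ne_zero⟩
    have h4 := hΩ p p.2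
    have h5 : Nat.card {y : ι → ZMod p // y ∉ Ω p} = (Ω p)ᶜ.ncard := by
      rw [← Nat.card_coe_set_eq]
      rfl
    have h6 := Set.ncard_add_ncard_compl (Ω p)
    have h7 : Nat.card (ι → ZMod p) = (p : ℕ) ^ Fintype.card ι := by
      rw [Nat.card_eq_fintype_card, Fintype.card_fun, ZMod.card]
    rw [h7] at h6
    rw [h5]
    have h8 : ((Ω p).ncard : ℝ) + ((Ω p)ᶜ.ncard : ℝ) = ((p : ℕ) : ℝ) ^ Fintype.card ι := by
      exact_mod_cast h6
    linarith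
  have h9 : ∏ p : P, (Nat.card {y : ι → ZMod p // y ∉ Ω p} : ℝ) ≤
      (1 - δ) ^ P.card * (Q : ℝ) ^ Fintype.card ι := by
    calc ∏ p : P, (Nat.card {y : ι → ZMod p // y ∉ Ω p} : ℝ)
        ≤ ∏ p : P, ((1 - δ) * ((p : ℕ) : ℝ) ^ Fintype.card ι) :=
          Finset.prod_le_prod (fun _ _ => Nat.cast_nonneg _) fun p _ => h3 p
      _ = (1 - δ) ^ P.card * (Q : ℝ) ^ Fintype.card ι := by
          rw [Finset.prod_mul_distrib, Finset.prod_const, Finset.card_univ, Fintype.card_coe,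
            Finset.prod_pow, hQ, Nat.cast_prod, ← Finset.prod_coe_sort P (fun p => (p : ℝ))]
  have h10 : ((2 * H / Q + 1 : ℕ) : ℝ) * Q ≤ 2 * H + Q := by
    have : (2 * H / Q + 1) * Q ≤ 2 * H + Q := by
      have := Nat.div_mul_le_self (2 * H) Q
      nlinarith
    exact_mod_cast this
  calc ((2 * H / Q + 1 : ℕ) : ℝ) ^ Fintype.card ι *
        ∏ p : P, (Nat.card {y : ι → ZMod p // y ∉ Ω p} : ℝ)
      ≤ ((2 * H / Q + 1 : ℕ) : ℝ) ^ Fintype.card ι *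
        ((1 - δ) ^ P.card * (Q : ℝ) ^ Fintype.card ι) :=
        mul_le_mul_of_nonneg_left h9 (by positivity)
    _ = (1 - δ) ^ P.card * (((2 * H / Q + 1 : ℕ) : ℝ) * Q) ^ Fintype.card ι := by
        rw [mul_pow]; ring
    _ ≤ (1 - δ) ^ P.card * (2 * H + Q) ^ Fintype.card ι :=
        mul_le_mul_of_nonneg_left (pow_le_pow_left₀ (by positivity) h10 _)
          (pow_nonneg (by linarith) _)

/-- **The sieve.** -/
theorem sieve_small {δ : ℝ} (hδ0 : 0 < δ) (hδ : δ ≤ 1) (Ω : (p : ℕ) → Set (ι → ZMod p)) (p0 : ℕ)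
    (hΩ : ∀ p, p.Prime → p0 ≤ p → δ * (p : ℝ) ^ Fintype.card ι ≤ (Ω p).ncard) {η : ℝ}
    (hη : 0 < η) : ∃ H0 : ℕ, ∀ H : ℕ, H0 ≤ H →
      (({x : ι → ℤ | (∀ i, |x i| ≤ (H : ℤ)) ∧ ∀ p, p.Prime → p0 ≤ p →
        (fun i => (x i : ZMod p)) ∉ Ω p}.ncard : ℕ) : ℝ) ≤ η * (2 * H + 1) ^ Fintype.card ι := by
  obtain ⟨m, hm⟩ := exists_pow_lt_of_lt_one
    (show 0 < η / 2 ^ Fintype.card ι by positivity) (show 1 - δ < 1 by linarith)
  obtain ⟨P, hPs, hPc⟩ := (Nat.infinite_setOf_prime.diff (Set.finite_Iio p0)).exists_subset_card_eq m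
  have hP : ∀ p ∈ P, p.Prime ∧ p0 ≤ p := by
    intro p hp
    have := hPs hp
    exact ⟨this.1, not_lt.1 this.2⟩
  refine ⟨∏ p ∈ P, p, fun H hH => ?_⟩
  have h1 : {x : ι → ℤ | (∀ i, |x i| ≤ (H : ℤ)) ∧ ∀ p, p.Prime → p0 ≤ p →
      (fun i => (x i : ZMod p)) ∉ Ω p} ⊆ avoid P Ω H := by
    intro x hx
    exact ⟨hx.1, fun p hp => hx.2 p (hP p hp).1 (hP p hp).2⟩
  have hfin : (avoid P Ω H).Finite := by
    have : (Set.pi Set.univ fun _ : ι => Set.Icc (-(H : ℤ)) H).Finite :=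
      Set.Finite.pi fun _ => Set.finite_Icc _ _
    refine this.subset ?_
    intro x hx i _
    exact abs_le.1 (hx.1 i)
  have h3 : (({x : ι → ℤ | (∀ i, |x i| ≤ (H : ℤ)) ∧ ∀ p, p.Prime → p0 ≤ p →
      (fun i => (x i : ZMod p)) ∉ Ω p}.ncard : ℕ) : ℝ) ≤ ((avoid P Ω H).ncard : ℝ) := by
    exact_mod_cast Set.ncard_le_ncard h1 hfin
  refine h3.trans ((sieve P (fun p hp => (hP p hp).1) Ω hδ
    (fun p hp => hΩ p (hP p hp).1 (hP p hp).2) H).trans ?_)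
  have h4 : (2 * (H : ℝ) + (∏ p ∈ P, p : ℕ)) ≤ 2 * (2 * H + 1) := by
    have : ((∏ p ∈ P, p : ℕ) : ℝ) ≤ (H : ℝ) := by exact_mod_cast hH
    have h0 : (0 : ℝ) ≤ (H : ℝ) := Nat.cast_nonneg _
    linarith
  calc (1 - δ) ^ P.card * (2 * (H : ℝ) + (∏ p ∈ P, p : ℕ)) ^ Fintype.card ι
      ≤ (1 - δ) ^ P.card * (2 * (2 * (H : ℝ) + 1)) ^ Fintype.card ι :=
        mul_le_mul_of_nonneg_left (pow_le_pow_left₀ (by positivity) h4 _)
          (pow_nonneg (by linarith) _)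
    _ = ((1 - δ) ^ m * 2 ^ Fintype.card ι) * (2 * (H : ℝ) + 1) ^ Fintype.card ι := by
        rw [hPc, mul_pow]; ring
    _ ≤ η * (2 * (H : ℝ) + 1) ^ Fintype.card ι := by
        refine mul_le_mul_of_nonneg_right ?_ (by positivity)
        have := hm.le
        rw [le_div_iff₀ (by positivity)] at this
        exact this

end sieve

end Pool.Agent.R939.EI
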