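import Pool.Agent.R939.EI.Fam5

/-!
# The criterion
-/

set_option autoImplicit false
set_option linter.all false

open Polynomial IsDedekindDomain WeierstrassCurve WeierstrassCurve.Affine
open scoped Classical

namespace Pool.Agent.R939.EI

open Pool.Agent.TH115.GD

/-- There is a constant `ε ≠ 0` such that `ε A` is a norm from `K(√d)`, `K = k(t)` (and so a square
modulo all the irreducible polynomials which divide `d` to an odd power). -/
def IsNormUpTo {k : Type} [Field k] (d A : k[X]) : Prop :=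
  ∃ ε : k, ε ≠ 0 ∧ (∃ x y z : k[X], z ≠ 0 ∧ C ε * A * z ^ 2 = x ^ 2 - d * y ^ 2) ∧
    ∀ (ρ δ : k[X]) (m : ℕ), Irreducible ρ → d = ρ ^ (2 * m + 1) * δ → ¬ ρ ∣ δ →
      ∃ r, ρ ∣ C ε * A - r ^ 2

/-- For all the monic squarefree divisors `A` of `b` (of even degree if the degree of `b` is
divisible by 4 and not smaller than twice the degree of `a`) such that `IsNormUpTo (a² - 4 b) A`, there
is a point `P` over `K` of `y² = x (x² + a x + b)` with `x(P) = A` up to squares of `F`. -/
def PointsForNorms (K F : Type) {k : Type} [Field k] [Field K] [Algebra k[X] K] [Field F]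
    [Algebra K F] (a b : k[X]) : Prop :=
  ∀ A : k[X], A.Monic → Squarefree A → A ∣ b →
    (4 ∣ b.natDegree → 2 * a.natDegree ≤ b.natDegree → Even A.natDegree) →
    IsNormUpTo (a ^ 2 - 4 * b) A →
      ∃ P : Pt (crvT (algebraMap k[X] K a) (algebraMap k[X] K b)) K,
        Represents K F A (dT (algebraMap k[X] K b) P)

section

variable {k k' K F : Type} [Field k] [Field k'] [Algebra k k'] [Field K] [Algebra k[X] K]
    [Field F] [Algebra k'[X] F] [IsFractionRing k'[X] F] [Algebra K F]

theorem PointsForNorms.enough {a b : k[X]} (h : PointsForNorms K F a b) : EnoughNorm K F a b := by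
  intro ε A hε hA hs hd hinf hsp
  refine h A hA hs hd hinf ⟨ε, hε, hsp, ?_⟩
  intro ρ δ m hρ hdd hδ
  exact hsp.sq_mod hε hA.ne_zero hρ hdd hδ

/-- **The criterion.** -/
theorem criterion (hT : IsTower k k' K F) (h2 : (2 : k) ≠ 0) {a b : k[X]} (hb : b ≠ 0)
    (hd : a ^ 2 - 4 * b ≠ 0)
    (hsep : ∀ π : k[X], Irreducible π → π ∣ b * (a ^ 2 - 4 * b) → π.Separable)
    (hNb : NotNorm b) (hNd : NotNorm (a ^ 2 - 4 * b))
    (hpA : PointsForNorms K F a b) (hpB : PointsForNorms K F (-2 * a) (a ^ 2 - 4 * b)) :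
    TateAtTwo (F := F) k' (crvT (algebraMap k[X] K a) (algebraMap k[X] K b)) :=
  mainN hT h2 hb hd hsep hNb hNd hpA.enough hpB.enough

end

end Pool.Agent.R939.EI
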