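import Pool.Agent.R939.EI.Gen4
import Pool.Agent.R939.EI.Crit

/-!
# Quadratic twists by polynomials: primes of the twist, norms
-/

set_option autoImplicit false
set_option linter.all false

open Polynomial IsDedekindDomain WeierstrassCurve WeierstrassCurve.Affine
open scoped Classical

namespace Pool.Agent.R939.EI

open Pool.Agent.TH115.GD

section norm

variable {k : Type} [Field k]

/-- If `ε A` is a norm from `K(√d)`, then `d` is a square modulo the primes dividing `A` once. -/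
theorem Splits.not_prime {d A π : k[X]} {ε : k} (h : Splits d ε A) (hε : ε ≠ 0)
    (hA : Squarefree A) (hπ : Irreducible π) (hπA : π ∣ A) (hns : ∀ r, ¬ π ∣ d - r ^ 2) :
    False := by
  obtain ⟨A', rfl⟩ := hπA
  have hA' : ¬ π ∣ A' := by
    rintro ⟨A'', rfl⟩
    exact hπ.not_isUnit (hA π ⟨A'', by ring⟩)
  have key : ∀ (n : ℕ) (x y z : k[X]), z ≠ 0 → z.natDegree = n →
      C ε * (π * A') * z ^ 2 = x ^ 2 - d * y ^ 2 → False := by
    intro n
    induction n using Nat.strong_induction_on with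
    | _ n ih =>
      intro x y z hz hn e
      have h1 : π ∣ x ^ 2 - d * y ^ 2 := by
        rw [← e]
        exact ⟨C ε * A' * z ^ 2, by ring⟩
      have hy : π ∣ y := by
        by_contra hy
        obtain ⟨u, v, huv⟩ := (hπ.coprime_iff_not_dvd.2 hy)
        apply hns (x * v)
        have e2 : d - (x * v) ^ 2 = π * (d * u * (1 + v * y)) - v ^ 2 * (x ^ 2 - d * y ^ 2) := by
          have h3 : u * π = 1 - v * y := by linear_combination huv
          linear_combination (-d * (1 + v * y)) * h3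
        rw [e2]
        exact dvd_sub (dvd_mul_right _ _) (h1.mul_left _)
      have hx : π ∣ x := by
        have h2 : π ∣ x ^ 2 := by
          have : x ^ 2 = (x ^ 2 - d * y ^ 2) + d * y * y := by ring
          rw [this]
          exact dvd_add h1 (hy.mul_left _)
        exact hπ.prime.dvd_of_dvd_pow h2
      obtain ⟨x', rfl⟩ := hx
      obtain ⟨y', rfl⟩ := hy
      have e3 : C ε * A' * z ^ 2 = π * (x' ^ 2 - d * y' ^ 2) := by
        apply mul_left_cancel₀ hπ.ne_zero
        linear_combination e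
      have hz' : π ∣ z := by
        have h4 : π ∣ C ε * A' * z ^ 2 := ⟨_, e3⟩
        rcases hπ.prime.dvd_or_dvd h4 with h5 | h5
        · rw [(isUnit_C.2 (isUnit_iff_ne_zero.2 hε)).dvd_mul_left] at h5
          exact absurd h5 hA'
        · exact hπ.prime.dvd_of_dvd_pow h5
      obtain ⟨z', rfl⟩ := hz'
      have hz1 : z' ≠ 0 := by
        rintro rfl
        exact hz (mul_zero _)
      have e4 : C ε * (π * A') * z' ^ 2 = x' ^ 2 - d * y' ^ 2 := by
        apply mul_left_cancel₀ hπ.ne_zero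
        linear_combination e3
      refine ih z'.natDegree ?_ x' y' z' hz1 rfl e4
      rw [← hn, natDegree_mul hπ.ne_zero hz1]
      have := hπ.natDegree_pos
      omega
  obtain ⟨x, y, z, hz, e⟩ := h
  exact key z.natDegree x y z hz rfl e

/-- Norms from quadratic extensions of the constants and square factors. -/
theorem notNorm_mul_sq {p q : k[X]} {c : k} (hc : c ≠ 0) (hp : p ≠ 0) (hq : q ≠ 0)
    (hN : NotNorm p) : NotNorm (C c * p * q ^ 2) := by
  obtain ⟨r, S, T, hr, hS, hS', hT, hpe⟩ := sq_dec _ p rfl hp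
  have hS1 : ¬ IsUnit S := by
    intro hu
    have : S = 1 := hS.eq_one_of_isUnit hu
    obtain ⟨h3, -⟩ := hN r 1 T 0 (by rw [hpe, this]; ring)
    exact h3 rfl
  -- descent of an equation
  have key : ∀ (u D : k) (U V : k[X]), C c * p * q ^ 2 = C u * (U ^ 2 - C D * V ^ 2) →
      ∃ (v : k) (x y z : k[X]), v ≠ 0 ∧ z ≠ 0 ∧ C v * S * z ^ 2 = x ^ 2 - C D * y ^ 2 := by
    intro u D U V e
    have hu : u ≠ 0 := by
      rintro rfl
      rw [C_0, zero_mul] at e
      exact mul_ne_zero (mul_ne_zero (C_ne_zero.2 hc) hp) (pow_ne_zero _ hq) e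
    refine ⟨u⁻¹ * c * r, U, V, T * q, mul_ne_zero (mul_ne_zero (inv_ne_zero hu) hc) hr,
      mul_ne_zero hT hq, ?_⟩
    have h1 : C u⁻¹ * C u = (1 : k[X]) := by rw [← C_mul, inv_mul_cancel₀ hu, C_1]
    rw [hpe] at e
    rw [C_mul, C_mul]
    linear_combination (C u⁻¹) * e + (U ^ 2 - C D * V ^ 2) * h1
  have hno : ∀ (v : k) (x z : k[X]), v ≠ 0 → z ≠ 0 → C v * S * z ^ 2 ≠ x ^ 2 := by
    intro v x z hv hz e
    apply hS1
    refine unit_of_sq hS' hS.ne_zero (inv_ne_zero hv) _ x z hz rfl ?_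
    have : C v⁻¹ * C v = (1 : k[X]) := by rw [← C_mul, inv_mul_cancel₀ hv, C_1]
    rw [← e]
    linear_combination (-(S * z ^ 2)) * this
  intro u D U V e
  constructor
  · rintro rfl
    obtain ⟨v, x, y, z, hv, hz, e'⟩ := key u 0 U 0 (by rw [e]; ring)
    exact hno v x z hv hz (by rw [e', C_0]; ring)
  · by_contra hD
    obtain ⟨v, x, y, z, hv, hz, e'⟩ := key u D U V e
    have hy : y ≠ 0 := by
      rintro rfl
      exact hno v x z hv hz (by rw [e']; ring)
    have hD0 : D ≠ 0 := by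
      rintro rfl
      exact hD ⟨0, by ring⟩
    have hsp : Splits (C v * S) D 1 := ⟨x, z, y, hy, by rw [mul_one]; linear_combination e'⟩
    have hprimes : ∀ π : k[X], Irreducible π → π ∣ S →
        ∃ (c : k) (A B : k[X]), π = C c * (A ^ 2 - C D * B ^ 2) := by
      rintro π hπ ⟨S', hS''⟩
      have hnd : ¬ π ∣ C v * S' := by
        rw [(isUnit_C.2 (isUnit_iff_ne_zero.2 hv)).dvd_mul_left]
        rintro ⟨S3, rfl⟩
        have h5 : π * π ∣ S := ⟨S3, by rw [hS'']; ring⟩
        exact hπ.not_isUnit (hS' π h5)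
      obtain ⟨g, hg⟩ := hsp.sq_mod hD0 one_ne_zero hπ (m := 0) (δ := C v * S')
        (by rw [hS'']; ring) hnd
      rw [mul_one] at hg
      exact norm_of_sq_mod hπ hD hg
    obtain ⟨c, A, B, hc⟩ := norm_of_primes hS.ne_zero hprimes
    obtain ⟨-, h5⟩ := hN (r * c) D (A * T) (B * T) (by
      rw [hpe, hc, C_mul]
      ring)
    exact hD h5

end norm

/-- `1` and `b`, up to squares and constants, are the only monic squarefree divisors `A` of `b` with
`IsNormUpTo (a² - 4 b) A`. -/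
def OnlyTrivial {k : Type} [Field k] (a b : k[X]) : Prop :=
  ∀ A : k[X], A.Monic → Squarefree A → A ∣ b → IsNormUpTo (a ^ 2 - 4 * b) A →
    A = 1 ∨ ∃ (e : k) (q : k[X]), e ≠ 0 ∧ A * b = C e * q ^ 2

/-- `D ≠ 0`, and `b` and `a² - 4 b` are not squares modulo any prime which divides `D`. -/
def InertIn {k : Type} [Field k] (a b D : k[X]) : Prop :=
  D ≠ 0 ∧ ∀ π : k[X], Irreducible π → π ∣ D →
    ∀ r : k[X], ¬ π ∣ b - r ^ 2 ∧ ¬ π ∣ (a ^ 2 - 4 * b) - r ^ 2

section twist

variable {k k' K F : Type} [Field k] [Field k'] [Algebra k k'] [Field K] [Algebra k[X] K]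
    [Field F] [Algebra k'[X] F] [IsFractionRing k'[X] F] [Algebra K F]

theorem enough_twist (hT : IsTower k k' K F) (h2 : (2 : k) ≠ 0) {a b D : k[X]} {c : k}
    (hb : b ≠ 0) (hO : OnlyTrivial a b) (hD : D ≠ 0)
    (hns : ∀ π : k[X], Irreducible π → π ∣ D → ∀ r : k[X], ¬ π ∣ (a ^ 2 - 4 * b) - r ^ 2)
    (hc : c ≠ 0) : EnoughNorm K F (C c * (a * D)) (C (c ^ 2) * (b * D ^ 2)) := by
  haveI := hT.sep
  haveI := hT.fracK
  haveI : IsSepClosed k' := IsSepClosure.sep_closed k
  have hKF := hT.map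
  have hc2 : c ^ 2 ≠ 0 := pow_ne_zero 2 hc
  have h2' : (2 : k') ≠ 0 := by
    rw [← map_ofNat (algebraMap k k') 2]
    exact (_root_.map_ne_zero _).2 h2
  haveI : NeZero ((2 : ℕ) : k') := ⟨by exact_mod_cast h2'⟩
  have ed : (C c * (a * D)) ^ 2 - 4 * (C (c ^ 2) * (b * D ^ 2)) =
      (C c * D) ^ 2 * (a ^ 2 - 4 * b) := by
    rw [C_pow]; ring
  intro ε A hε hA hs hdv hinf hsp
  rw [ed] at hsp
  -- the divisor is prime to the twist
  have hsp' : Splits (a ^ 2 - 4 * b) ε A := by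
    obtain ⟨x, y, z, hz, e⟩ := hsp
    exact ⟨x, C c * D * y, z, hz, by rw [e]; ring⟩
  have hcop : IsCoprime A D := by
    refine isCoprime_of_irreducible_dvd (fun h => hD h.2) ?_
    intro π hπ hπA hπD
    exact hsp'.not_prime hε hs hπ hπA (hns π hπ hπD)
  have hAb : A ∣ b := by
    have h3 : A ∣ b * D ^ 2 := by
      rwa [(isUnit_C.2 (isUnit_iff_ne_zero.2 hc2)).dvd_mul_left] at hdv
    exact (hcop.pow_right (n := 2)).dvd_of_dvd_mul_right h3
  have hN : IsNormUpTo (a ^ 2 - 4 * b) A := by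
    refine ⟨ε, hε, hsp', ?_⟩
    intro ρ δ m hρ hdd hδ
    exact hsp'.sq_mod hε hA.ne_zero hρ hdd hδ
  have hb0 : C (c ^ 2) * (b * D ^ 2) ≠ 0 :=
    mul_ne_zero (C_ne_zero.2 hc2) (mul_ne_zero hb (pow_ne_zero _ hD))
  have hbK : algebraMap k[X] K (C (c ^ 2) * (b * D ^ 2)) ≠ 0 := by
    rw [Ne, IsFractionRing.to_map_eq_zero_iff]
    exact hb0
  rcases hO A hA hs hAb hN with hA1 | ⟨e, q, he, hq⟩
  · refine ⟨0, 1, one_ne_zero, ?_⟩
    show algebraMap K F (algebraMap k[X] K A) = 1 ^ 2 * algebraMap K F 1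
    rw [hA1, map_one, one_pow, one_mul]
  · have hq0 : q ≠ 0 := by
      rintro rfl
      rw [zero_pow two_ne_zero, mul_zero] at hq
      exact mul_ne_zero hA.ne_zero hb hq
    refine ⟨Point.some 0 0 (nons_zero _ hbK), ?_⟩
    obtain ⟨t, ht⟩ := IsSepClosed.exists_pow_nat_eq (algebraMap k k' e) 2
    have ht0 : t ≠ 0 := by
      rintro rfl
      rw [zero_pow two_ne_zero] at ht
      exact (_root_.map_ne_zero _).2 he ht.symm
    have htF : algebraMap k'[X] F (C t) ≠ 0 := by simpa using ht0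
    have hinj : Function.Injective (fun p : k[X] => algebraMap K F (algebraMap k[X] K p)) :=
      (algebraMap K F).injective.comp (IsFractionRing.injective k[X] K)
    have hne : ∀ p : k[X], p ≠ 0 → algebraMap K F (algebraMap k[X] K p) ≠ 0 := by
      intro p hp h0
      exact hp (hinj (by simpa using h0))
    have hsq : algebraMap k'[X] F (C t) ^ 2 =
        algebraMap K F (algebraMap k[X] K (C e)) := by
      rw [← map_pow, ← C_pow, ht, hKF, map_C]
    have hdd : dT (algebraMap k[X] K (C (c ^ 2) * (b * D ^ 2)))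
        (Point.some 0 0 (nons_zero (algebraMap k[X] K (C c * (a * D))) hbK)) =
        algebraMap k[X] K (C (c ^ 2) * (b * D ^ 2)) := by
      simp [dT]
    refine ⟨algebraMap k'[X] F (C t) * algebraMap K F (algebraMap k[X] K q) /
      algebraMap K F (algebraMap k[X] K (b * C c * D)), ?_, ?_⟩
    · exact div_ne_zero (mul_ne_zero htF (hne q hq0))
        (hne _ (mul_ne_zero (mul_ne_zero hb (C_ne_zero.2 hc)) hD))
    · rw [hdd]
      have h5 := congrArg (fun p : k[X] => algebraMap K F (algebraMap k[X] K p)) hq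
      simp only [map_mul, map_pow] at h5
      have hbF := hne b hb
      have hDF := hne D hD
      have hcF := hne (C c) (C_ne_zero.2 hc)
      simp only [map_mul, map_pow, C_pow]
      rw [div_pow, mul_pow, hsq]
      field_simp
      linear_combination h5

/-- **Quadratic twists by inert primes.** -/
theorem twist_main (hT : IsTower k k' K F) (h2 : (2 : k) ≠ 0) {a b D h : k[X]} {c : k} (hb : b ≠ 0)
    (hd : a ^ 2 - 4 * b ≠ 0) (hNb : NotNorm b) (hNd : NotNorm (a ^ 2 - 4 * b))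
    (hO : OnlyTrivial a b) (hO' : OnlyTrivial (-2 * a) (a ^ 2 - 4 * b)) (hD : InertIn a b D)
    (hc : c ≠ 0) (hodd : Odd h.natDegree) (hi : Inert (b * (a ^ 2 - 4 * b) * D) h) :
    TateAtTwo (F := F) k' (crvT (algebraMap k[X] K ((C c * (a * D)).comp h))
      (algebraMap k[X] K ((C (c ^ 2) * (b * D ^ 2)).comp h))) := by
  obtain ⟨hD0, hD'⟩ := hD
  have hc2 : c ^ 2 ≠ 0 := pow_ne_zero 2 hc
  have h4 : (4 : k) ≠ 0 := by
    have : (4 : k) = 2 ^ 2 := by norm_num
    rw [this]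
    exact pow_ne_zero 2 h2
  have ed : (C c * (a * D)) ^ 2 - 4 * (C (c ^ 2) * (b * D ^ 2)) =
      C (c ^ 2) * (a ^ 2 - 4 * b) * D ^ 2 := by
    rw [C_pow]; ring
  have eb : C (c ^ 2) * (b * D ^ 2) = C (c ^ 2) * b * D ^ 2 := by ring
  refine mainN_odd hT h2 (mul_ne_zero (C_ne_zero.2 hc2) (mul_ne_zero hb (pow_ne_zero _ hD0)))
    ?_ ?_ ?_ (enough_twist hT h2 hb hO hD0 (fun π hπ hdv r => (hD' π hπ hdv r).2) hc) ?_ hodd ?_
  · rw [ed]
    exact mul_ne_zero (mul_ne_zero (C_ne_zero.2 hc2) hd) (pow_ne_zero _ hD0)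
  · rw [eb]
    exact notNorm_mul_sq hc2 hb hD0 hNb
  · rw [ed]
    exact notNorm_mul_sq hc2 hd hD0 hNd
  · have e1 : -2 * (C c * (a * D)) = C c * ((-2 * a) * D) := by ring
    have e2 : (C c * (a * D)) ^ 2 - 4 * (C (c ^ 2) * (b * D ^ 2)) =
        C (c ^ 2) * ((a ^ 2 - 4 * b) * D ^ 2) := by
      rw [C_pow]; ring
    rw [e1, e2]
    refine enough_twist hT h2 hd hO' hD0 ?_ hc
    intro π hπ hdv r hr
    apply (hD' π hπ hdv (C (4⁻¹) * r)).1
    have e3 : b - (C (4⁻¹) * r) ^ 2 =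
        C ((16 : k)⁻¹) * ((-2 * a) ^ 2 - 4 * (a ^ 2 - 4 * b) - r ^ 2) := by
      have h16 : (16 : k) ≠ 0 := by
        have : (16 : k) = 4 ^ 2 := by norm_num
        rw [this]
        exact pow_ne_zero 2 h4
      have e5 : (C (16 : k)⁻¹ : k[X]) * 16 = 1 := by
        have : (16 : k[X]) = C 16 := by rw [map_ofNat]
        rw [this, ← C_mul, inv_mul_cancel₀ h16, C_1]
      have e6 : (C (4 : k)⁻¹ : k[X]) ^ 2 = C (16 : k)⁻¹ := by
        rw [← C_pow]
        congr 1
        rw [inv_pow]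
        norm_num
      rw [mul_pow, e6]
      linear_combination (-b) * e5
    rw [e3]
    exact hr.mul_left _
  · intro π hπ hdv
    refine hi π hπ ?_
    rw [ed, eb] at hdv
    have e3 : C (c ^ 2) * b * D ^ 2 * (C (c ^ 2) * (a ^ 2 - 4 * b) * D ^ 2) =
        (C (c ^ 2) * C (c ^ 2)) * ((b * (a ^ 2 - 4 * b)) * (D ^ 2 * D ^ 2)) := by
      ring
    have hU : IsUnit (C (c ^ 2) * C (c ^ 2) : k[X]) :=
      (isUnit_C.2 (isUnit_iff_ne_zero.2 hc2)).mul (isUnit_C.2 (isUnit_iff_ne_zero.2 hc2))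
    rw [e3, hU.dvd_mul_left] at hdv
    rcases hπ.prime.dvd_or_dvd hdv with h5 | h5
    · exact h5.mul_right _
    · rcases hπ.prime.dvd_or_dvd h5 with h6 | h6 <;>
      exact (hπ.prime.dvd_of_dvd_pow h6).mul_left _

end twist

end Pool.Agent.R939.EI
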