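import Pool.Agent.R939.EI.Odd3

/-!
# Norms from quadratic extensions of the constants and base change of odd degree
-/

set_option autoImplicit false
set_option linter.all false

open Polynomial IsDedekindDomain WeierstrassCurve WeierstrassCurve.Affine
open scoped Classical

namespace Pool.Agent.R939.EI

open Pool.Agent.TH115.GD

section norm

variable {k : Type} [Field k]

/-- A prime modulo which the constant `D` is a square is a norm up to a constant. -/
theorem norm_of_sq_mod {π r : k[X]} {D : k} (hπ : Irreducible π) (hD : ¬ IsSquare D)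
    (h : π ∣ C D - r ^ 2) : ∃ (c : k) (A B : k[X]), π = C c * (A ^ 2 - C D * B ^ 2) := by
  set n := π.natDegree with hn
  set m := n / 2 with hm
  haveI : FiniteDimensional k (AdjoinRoot π) := (AdjoinRoot.powerBasis hπ.ne_zero).finite
  have hfr : Module.finrank k (AdjoinRoot π) = n := by
    rw [(AdjoinRoot.powerBasis hπ.ne_zero).finrank, AdjoinRoot.powerBasis_dim]
  let φ : k[X] →ₗ[k] AdjoinRoot π := (Ideal.Quotient.mkₐ k (Ideal.span {π})).toLinearMap
  have hφ : ∀ p : k[X], φ p = AdjoinRoot.mk π p := fun p => rfl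
  let f : (degreeLT k (m + 1) × degreeLT k (m + 1)) →ₗ[k] AdjoinRoot π :=
    { toFun := fun z => AdjoinRoot.mk π ((z.1 : k[X]) - r * (z.2 : k[X]))
      map_add' := by
        intro x y
        rw [← map_add]
        congr 1
        simp only [Prod.fst_add, Prod.snd_add, Submodule.coe_add]
        ring
      map_smul' := by
        intro c x
        simp only [Prod.smul_fst, Prod.smul_snd, Submodule.coe_smul, RingHom.id_apply]
        rw [← hφ, ← hφ, ← map_smul]
        congr 1
        rw [smul_sub, mul_smul_comm] }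
  have hfd : Module.finrank k (AdjoinRoot π) <
      Module.finrank k (degreeLT k (m + 1) × degreeLT k (m + 1)) := by
    rw [hfr, Module.finrank_prod, (degreeLTEquiv k (m + 1)).finrank_eq, Module.finrank_fin_fun]
    omega
  haveI : Module.Finite k (degreeLT k (m + 1)) := Module.Finite.equiv (degreeLTEquiv k (m + 1)).symm
  obtain ⟨z, hz, hz0⟩ := (Submodule.ne_bot_iff _).1 (LinearMap.ker_ne_bot_of_finrank_lt (f := f) hfd)
  have hz' : f z = 0 := LinearMap.mem_ker.1 hz
  obtain ⟨⟨x, hx⟩, ⟨y, hy⟩⟩ := z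
  have h1 : π ∣ x - r * y := AdjoinRoot.mk_eq_zero.1 hz'
  rw [mem_degreeLT] at hx hy
  have h2 : π ∣ x ^ 2 - C D * y ^ 2 := by
    have e : x ^ 2 - C D * y ^ 2 = (x - r * y) * (x + r * y) - (C D - r ^ 2) * y ^ 2 := by ring
    rw [e]
    exact dvd_sub (h1.mul_right _) (h.mul_right _)
  have h3 : x ^ 2 - C D * y ^ 2 ≠ 0 := by
    intro h0
    have hxy : x ^ 2 = C D * y ^ 2 := sub_eq_zero.1 h0
    by_cases hy0 : y = 0
    · rw [hy0, zero_pow two_ne_zero, mul_zero] at hxy
      have hx0 : x = 0 := pow_eq_zero_iff two_ne_zero |>.1 hxy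
      subst hy0 hx0
      exact hz0 rfl
    · apply hD
      have h5 := congrArg leadingCoeff hxy
      rw [leadingCoeff_mul, leadingCoeff_C, leadingCoeff_pow, leadingCoeff_pow] at h5
      have hl : y.leadingCoeff ≠ 0 := leadingCoeff_ne_zero.2 hy0
      refine ⟨x.leadingCoeff / y.leadingCoeff, ?_⟩
      field_simp
      exact h5.symm
  have hxd : x.natDegree ≤ m := by
    by_cases hx0 : x = 0
    · rw [hx0, natDegree_zero]; exact Nat.zero_le _
    · have := (natDegree_lt_iff_degree_lt hx0).2 hx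
      omega
  have hyd : y.natDegree ≤ m := by
    by_cases hy0 : y = 0
    · rw [hy0, natDegree_zero]; exact Nat.zero_le _
    · have := (natDegree_lt_iff_degree_lt hy0).2 hy
      omega
  obtain ⟨q, hq⟩ := h2
  have hdeg : (x ^ 2 - C D * y ^ 2).natDegree ≤ n := by
    refine (natDegree_sub_le _ _).trans (max_le ?_ ?_)
    · rw [natDegree_pow]; omega
    · refine (natDegree_C_mul_le _ _).trans ?_
      rw [natDegree_pow]; omega
  have hq0 : q ≠ 0 := by
    rintro rfl
    rw [mul_zero] at hq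
    exact h3 hq
  have hqd : q.natDegree = 0 := by
    have h5 := natDegree_mul hπ.ne_zero hq0
    rw [← hq] at h5
    omega
  have hqC := eq_C_of_natDegree_eq_zero hqd
  have hqc : q.coeff 0 ≠ 0 := by
    intro h0
    rw [h0, C_0] at hqC
    exact hq0 hqC
  refine ⟨(q.coeff 0)⁻¹, x, y, ?_⟩
  rw [hq, hqC, coeff_C_zero]
  have : C (q.coeff 0)⁻¹ * C (q.coeff 0) = (1 : k[X]) := by
    rw [← C_mul, inv_mul_cancel₀ hqc, C_1]
  linear_combination (-π) * this

/-- Products of norms. -/
theorem norm_of_primes {D : k} {S : k[X]} (hS : S ≠ 0)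
    (h : ∀ π : k[X], Irreducible π → π ∣ S →
      ∃ (c : k) (A B : k[X]), π = C c * (A ^ 2 - C D * B ^ 2)) :
    ∃ (c : k) (A B : k[X]), S = C c * (A ^ 2 - C D * B ^ 2) := by
  induction S using UniqueFactorizationMonoid.induction_on_prime with
  | h₁ => exact absurd rfl hS
  | h₂ S hu =>
    obtain ⟨c, -, hc⟩ := Polynomial.isUnit_iff.1 hu
    exact ⟨c, 1, 0, by rw [← hc]; ring⟩
  | h₃ S π hS0 hπ ih =>
    obtain ⟨c, A, B, e⟩ := h π hπ.irreducible (dvd_mul_right _ _)
    obtain ⟨c', A', B', e'⟩ := ih hS0 fun q hq hd => h q hq (hd.mul_left _)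
    refine ⟨c * c', A * A' + C D * B * B', A * B' + B * A', ?_⟩
    rw [e, e', C_mul]
    ring

/-- A squarefree polynomial which is a square up to squares and constants. -/
theorem unit_of_sq {S : k[X]} (hS : Squarefree S) (hS0 : S ≠ 0) {c : k} (hc : c ≠ 0) :
    ∀ (n : ℕ) (x z : k[X]), z ≠ 0 → z.natDegree = n → S * z ^ 2 = C c * x ^ 2 → IsUnit S := by
  intro n
  induction n using Nat.strong_induction_on with
  | _ n ih =>
    intro x z hz hn e
    have hCc : IsUnit (C c) := isUnit_C.2 (isUnit_iff_ne_zero.2 hc)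
    by_contra hu
    have h1 : S ∣ x := by
      have : S ∣ x ^ 2 := by
        rw [← hCc.dvd_mul_left, ← e]
        exact dvd_mul_right _ _
      exact (hS.dvd_pow_iff_dvd two_ne_zero).1 this
    obtain ⟨x1, rfl⟩ := h1
    have e1 : z ^ 2 = C c * S * x1 ^ 2 := by
      apply mul_left_cancel₀ hS0
      rw [e]; ring
    have h3 : S ∣ z := by
      have : S ∣ z ^ 2 := ⟨C c * x1 ^ 2, by rw [e1]; ring⟩
      exact (hS.dvd_pow_iff_dvd two_ne_zero).1 this
    obtain ⟨z1, rfl⟩ := h3
    have hz1 : z1 ≠ 0 := right_ne_zero_of_mul hz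
    have e3 : S * z1 ^ 2 = C c * x1 ^ 2 := by
      apply mul_left_cancel₀ hS0
      linear_combination e1
    have hSd : 0 < S.natDegree := by
      rw [Nat.pos_iff_ne_zero]
      intro h0
      apply hu
      rw [eq_C_of_natDegree_eq_zero h0] at hS0 ⊢
      exact isUnit_C.2 (isUnit_iff_ne_zero.2 (C_ne_zero.1 hS0))
    rw [natDegree_mul hS0 hz1] at hn
    exact hu (ih z1.natDegree (by omega) x1 z1 hz1 rfl e3)

/-- **Norms and base change of odd degree.** -/
theorem notNorm_comp {p h : k[X]} (hp : p ≠ 0) (hodd : Odd h.natDegree) (hN : NotNorm p) :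
    NotNorm (p.comp h) := by
  obtain ⟨r, S, T, hr, hS, hS', hT, hpe⟩ := sq_dec _ p rfl hp
  have hS1 : ¬ IsUnit S := by
    intro hu
    have : S = 1 := hS.eq_one_of_isUnit hu
    obtain ⟨h3, -⟩ := hN r 1 T 0 (by rw [hpe, this]; ring)
    exact h3 rfl
  -- descent of an equation
  have key : ∀ (u D : k) (U V : k[X]), p.comp h = C u * (U ^ 2 - C D * V ^ 2) →
      ∃ (v : k) (x y z : k[X]), v ≠ 0 ∧ z ≠ 0 ∧ C v * S * z ^ 2 = x ^ 2 - C D * y ^ 2 := by
    intro u D U V e
    have hu : u ≠ 0 := by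
      rintro rfl
      rw [C_0, zero_mul] at e
      exact comp_ne hodd.pos hp e
    have h1 : Splits ((C D).comp h) u⁻¹ (p.comp h) := by
      refine ⟨U, V, 1, one_ne_zero, ?_⟩
      rw [C_comp, e]
      have : C u⁻¹ * C u = (1 : k[X]) := by rw [← C_mul, inv_mul_cancel₀ hu, C_1]
      linear_combination (U ^ 2 - C D * V ^ 2) * this
    obtain ⟨x, y, z, hz, e'⟩ := splits_of_comp hodd (inv_ne_zero hu) hp h1
    refine ⟨u⁻¹ * r, x, y, T * z, mul_ne_zero (inv_ne_zero hu) hr, mul_ne_zero hT hz, ?_⟩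
    rw [← e', hpe, C_mul]
    ring
  have hno : ∀ (v : k) (x z : k[X]), v ≠ 0 → z ≠ 0 → C v * S * z ^ 2 ≠ x ^ 2 := by
    intro v x z hv hz e
    apply hS1
    refine unit_of_sq hS' hS.ne_zero (inv_ne_zero hv) _ x z hz rfl ?_
    have : C v⁻¹ * C v = (1 : k[X]) := by rw [← C_mul, inv_mul_cancel₀ hv, C_1]
    rw [← e]
    linear_combination (-(S * z ^ 2)) * this
  intro u D U V e
  constructor
  · rintro rfl
    obtain ⟨v, x, y, z, hv, hz, e'⟩ := key u 0 U 0 (by rw [e]; ring)
    exact hno v x z hv hz (by rw [e', C_0]; ring)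
  · by_contra hD
    obtain ⟨v, x, y, z, hv, hz, e'⟩ := key u D U V e
    have hy : y ≠ 0 := by
      rintro rfl
      exact hno v x z hv hz (by rw [e']; ring)
    have hD0 : D ≠ 0 := by
      rintro rfl
      exact hD ⟨0, by ring⟩
    have hsp : Splits (C v * S) D 1 := ⟨x, z, y, hy, by rw [mul_one]; linear_combination e'⟩
    have hprimes : ∀ π : k[X], Irreducible π → π ∣ S →
        ∃ (c : k) (A B : k[X]), π = C c * (A ^ 2 - C D * B ^ 2) := by
      rintro π hπ ⟨S', hS''⟩
      have hnd : ¬ π ∣ C v * S' := by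
        rw [(isUnit_C.2 (isUnit_iff_ne_zero.2 hv)).dvd_mul_left]
        rintro ⟨S3, rfl⟩
        have h5 : π * π ∣ S := ⟨S3, by rw [hS'']; ring⟩
        exact hπ.not_isUnit (hS' π h5)
      obtain ⟨g, hg⟩ := hsp.sq_mod hD0 one_ne_zero hπ (m := 0) (δ := C v * S')
        (by rw [hS'']; ring) hnd
      rw [mul_one] at hg
      exact norm_of_sq_mod hπ hD hg
    obtain ⟨c, A, B, hc⟩ := norm_of_primes hS.ne_zero hprimes
    obtain ⟨-, h5⟩ := hN (r * c) D (A * T) (B * T) (by
      rw [hpe, hc, C_mul]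
      ring)
    exact hD h5

end norm

end Pool.Agent.R939.EI
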