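import Pool.Agent.R939.EI.Fam5

/-!
# Surfaces given by conditions at places of the field of constants
-/

set_option autoImplicit false
set_option linter.all false

open Polynomial IsDedekindDomain WeierstrassCurve WeierstrassCurve.Affine
open scoped Classical

namespace Pool.Agent.R939.EI

open Pool.Agent.TH115.GD

section family

variable {k k' K F : Type} [Field k] [Field k'] [Algebra k k'] [Field K] [Algebra k[X] K]
    [Field F] [Algebra k'[X] F] [IsFractionRing k'[X] F] [Algebra K F]

/-- **Surfaces given by conditions at places.** -/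
theorem family_places (hT : IsTower k k' K F) {n : ℕ} (hn : Odd n) (h3 : 3 ≤ n)
    (hnk : (n : k) ≠ 0) {c : Fin n → k} (hc : Function.Injective c) {u : k} {a : k[X]}
    (hdeg : 2 * a.natDegree < n) (hZ : ∃ w : ValuationSubring k, PlaceZ w a u c)
    (hS : ∀ S : Finset (Fin n), S ≠ ∅ → S ≠ Finset.univ →
      ∃ w : ValuationSubring k, PlaceA w a u c S ∨ ∃ i ∈ S, ∃ j ∉ S, PlaceB w a u c i j) :
    TateAtTwo (F := F) k' (crvT (algebraMap k[X] K a)
      (algebraMap k[X] K (C u * ∏ l, (X - C (c l))))) := by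
  obtain ⟨w, hw⟩ := hZ
  have h2 : (2 : k) ≠ 0 := by
    intro h
    have := hw.two
    rw [h, map_zero] at this
    exact zero_ne_one this
  have hu : u ≠ 0 := by
    intro h
    have := hw.unit
    rw [h, map_zero] at this
    exact zero_ne_one this
  have h4 : (-(4 * u) : k) ≠ 0 := by
    have : (4 : k) = 2 ^ 2 := by norm_num
    rw [this]
    exact neg_ne_zero.2 (mul_ne_zero (pow_ne_zero 2 h2) hu)
  have hirr := hw.irred hn h3 hdeg
  set P : k[X] := ∏ l, (X - C (c l)) with hP
  have hPm : P.Monic := monic_prod_of_monic _ _ fun l _ => monic_X_sub_C _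
  have hPd : P.natDegree = n := by
    rw [hP, natDegree_prod_of_monic _ _ fun l _ => monic_X_sub_C _]
    simp
  have e1 : a ^ 2 - 4 * (C u * P) = C (-(4 * u)) * P + a ^ 2 := by
    rw [C_neg, C_mul, map_ofNat]; ring
  have hd1 : (C (-(4 * u)) * P).natDegree = n := by rw [natDegree_C_mul h4, hPd]
  have hlt : (a ^ 2).natDegree < (C (-(4 * u)) * P).natDegree := by
    rw [hd1, natDegree_pow]; exact hdeg
  have hnd : (a ^ 2 - 4 * (C u * P)).natDegree = n := by
    rw [e1, natDegree_add_eq_left_of_natDegree_lt hlt, hd1]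
  have hlc : (a ^ 2 - 4 * (C u * P)).coeff n = -(4 * u) := by
    rw [e1, coeff_add, coeff_eq_zero_of_natDegree_lt (p := a ^ 2) (by rw [← hd1]; exact hlt),
      add_zero, coeff_C_mul, ← hPd, hPm.coeff_natDegree, mul_one]
  have hsep : (a ^ 2 - 4 * (C u * P)).Separable := by
    rw [separable_iff_derivative_ne_zero hirr]
    intro h
    have h5 := congrArg (fun q => q.coeff (n - 1)) h
    simp only [coeff_derivative, coeff_zero] at h5
    have h6 : n - 1 + 1 = n := by omega
    rw [h6, hlc] at h5
    have h7 : (((n - 1 : ℕ) : k) + 1) = (n : k) := by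
      rw [← Nat.cast_add_one, h6]
    rw [h7] at h5
    exact mul_ne_zero h4 hnk h5
  refine family hT h2 (by omega) hc hu one_ne_zero (ρ := a ^ 2 - 4 * (C u * P)) (m := 0) hirr hsep
    (by rw [C_1]; ring) (Or.inl (by rw [hnd]; exact hn)) ?_
  intro S h0 h1 _
  exact Or.inr (hS S h0 h1)

end family

end Pool.Agent.R939.EI
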