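import Pool.Agent.R939.EI.Odd5
import Pool.Agent.R939.EI.Fam6

/-!
# Explicit towers
-/

set_option autoImplicit false
set_option linter.all false

open Polynomial IsDedekindDomain WeierstrassCurve WeierstrassCurve.Affine
open scoped Classical

namespace Pool.Agent.R939.EI

open Pool.Agent.TH115.GD

section irr

variable {R : Type} [CommRing R] [IsDomain R] [IsDiscreteValuationRing R]

/-- The criterion `irred_two` for `d (X ^ m)`. -/
theorem irred_two_expand {ϖ : R} (hϖ : Irreducible ϖ) {d : R[X]} (hm : d.Monic)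
    (hodd : Odd d.natDegree) (h1 : ∀ i < d.natDegree, ϖ ∣ d.coeff i)
    (h2 : ∀ i, 2 * i < d.natDegree → ϖ ^ 2 ∣ d.coeff i) (h0 : ¬ ϖ ^ 3 ∣ d.coeff 0) {m : ℕ}
    (hmo : Odd m) : Irreducible (expand R m d) := by
  have hm0 : 0 < m := hmo.pos
  have hnd : (expand R m d).natDegree = d.natDegree * m := natDegree_expand _ _
  refine irred_two hϖ (hm.expand hm0) (by rw [hnd]; exact hodd.mul hmo) ?_ ?_ ?_
  · intro i hi
    rw [coeff_expand hm0]
    split_ifs with h
    · obtain ⟨j, rfl⟩ := h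
      rw [Nat.mul_div_cancel_left _ hm0]
      apply h1
      rw [hnd, Nat.mul_comm] at hi
      exact Nat.lt_of_mul_lt_mul_right hi
    · exact dvd_zero _
  · intro i hi
    rw [coeff_expand hm0]
    split_ifs with h
    · obtain ⟨j, rfl⟩ := h
      rw [Nat.mul_div_cancel_left _ hm0]
      apply h2
      rw [hnd] at hi
      have : 2 * j * m < d.natDegree * m := by
        calc 2 * j * m = 2 * (m * j) := by ring
          _ < d.natDegree * m := hi
      exact Nat.lt_of_mul_lt_mul_right this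
    · exact dvd_zero _
  · rw [coeff_expand hm0, if_pos (dvd_zero _), Nat.zero_div]
    exact h0

theorem irred_place_expand {k : Type} [Field k] [Algebra R k] [IsFractionRing R k] {ϖ : R}
    (hϖ : Irreducible ϖ) (h2 : IsUnit (2 : R)) {u : R} (hu : IsUnit u) {n : ℕ} (hn : Odd n)
    (h3 : 3 ≤ n) {e : Fin n → R} {a : R[X]} (hdeg : 2 * a.natDegree < n)
    (ha : IsUnit (a.coeff 0)) {m : ℕ} (hmo : Odd m) :
    Irreducible ((((C ϖ * a) ^ 2 - 4 * (C u * ∏ l, (X - C (ϖ * e l)))).map
      (algebraMap R k)).comp (X ^ m)) := by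
  set P : R[X] := ∏ l, (X - C (ϖ * e l)) with hP
  have hPm : P.Monic := monic_prod_of_monic _ _ fun l _ => monic_X_sub_C _
  have hPd : P.natDegree = n := by
    rw [hP, natDegree_prod_of_monic _ _ fun l _ => monic_X_sub_C _]
    simp only [natDegree_X_sub_C, Finset.sum_const, Finset.card_univ, Fintype.card_fin,
      smul_eq_mul, mul_one]
  have h4 : IsUnit (4 : R) := by
    have : (4 : R) = 2 * 2 := by norm_num
    rw [this]; exact h2.mul h2
  obtain ⟨w, hw⟩ := (h4.mul hu).neg
  set w' : R := ((w⁻¹ : Rˣ) : R) with hw'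
  have hww : w' * (-(4 * u)) = 1 := by rw [← hw, Units.inv_mul]
  have hw'u : IsUnit w' := Units.isUnit _
  set Q : R[X] := C (w' * ϖ ^ 2) * a ^ 2 with hQ
  have h4C : (C 4 : R[X]) = 4 := by rw [map_ofNat]
  have hd : C w' * ((C ϖ * a) ^ 2 - 4 * (C u * P)) = P + Q := by
    have e1 : C w' * (-(4 * C u)) = (1 : R[X]) := by
      rw [← h4C, ← C_mul, ← C_neg, ← C_mul, hww, C_1]
    rw [hQ, C_mul, C_pow]
    linear_combination P * e1
  have hQd : Q.natDegree < P.natDegree := by
    rw [hPd, hQ]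
    refine lt_of_le_of_lt (natDegree_C_mul_le _ _) (lt_of_le_of_lt natDegree_pow_le ?_)
    exact hdeg
  have hQdd : Q.degree < P.degree := by
    by_cases hQ0 : Q = 0
    · rw [hQ0, degree_zero, bot_lt_iff_ne_bot]
      exact fun h => hPm.ne_zero (degree_eq_bot.1 h)
    · exact degree_lt_degree hQd
  have hmon : (P + Q).Monic := hPm.add_of_left hQdd
  have hnd : (P + Q).natDegree = n := by
    rw [natDegree_add_eq_left_of_natDegree_lt hQd, hPd]
  have hQc : ∀ m, ϖ ^ 2 ∣ Q.coeff m := by
    intro m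
    rw [hQ, coeff_C_mul]
    exact ⟨w' * (a ^ 2).coeff m, by ring⟩
  have hPc : ∀ m, ϖ ^ (n - m) ∣ P.coeff m := by
    intro m
    have := coeff_prod_small (ϖ := ϖ) e Finset.univ m
    rwa [Finset.card_univ, Fintype.card_fin] at this
  have hirr : Irreducible (expand R m (P + Q)) := by
    refine irred_two_expand hϖ hmon (by rw [hnd]; exact hn) ?_ ?_ ?_ hmo
    · intro i hi
      rw [hnd] at hi
      rw [coeff_add]
      refine dvd_add ((dvd_pow_self ϖ (by omega)).trans (hPc i)) ?_
      exact (dvd_pow_self ϖ two_ne_zero).trans (hQc i)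
    · intro i hi
      rw [hnd] at hi
      rw [coeff_add]
      exact dvd_add ((pow_dvd_pow ϖ (by omega)).trans (hPc i)) (hQc i)
    · rw [coeff_add]
      intro h
      have h5 : ϖ ^ 3 ∣ Q.coeff 0 := by
        refine (dvd_add_right ?_).1 h
        exact (pow_dvd_pow ϖ (by omega)).trans (hPc 0)
      rw [hQ, coeff_C_mul, pow_two a, mul_coeff_zero] at h5
      obtain ⟨f, hf⟩ := h5
      have h6 : w' * (a.coeff 0 * a.coeff 0) = ϖ * f := by
        apply mul_left_cancel₀ (pow_ne_zero 2 hϖ.ne_zero)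
        linear_combination hf
      exact hϖ.not_isUnit (isUnit_of_dvd_unit ⟨f, h6⟩ (hw'u.mul (ha.mul ha)))
  have h7 := ((hmon.expand hmo.pos).irreducible_iff_irreducible_map_fraction_map (K := k)).1 hirr
  rw [map_expand, ← hd, Polynomial.map_mul, map_C, map_mul, expand_C, irreducible_isUnit_mul] at h7
  · rw [← expand_eq_comp_X_pow]
    exact h7
  · exact isUnit_C.2 (hw'u.map (algebraMap R k))

end irr

section place

variable {k : Type} [Field k] {n : ℕ} {w : ValuationSubring k}

theorem PlaceZ.irred_expand {a : k[X]} {u : k} {c : Fin n → k} (h : PlaceZ w a u c) (hn : Odd n)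
    (h3 : 3 ≤ n) (hdeg : 2 * a.natDegree < n) {m : ℕ} (hmo : Odd m) :
    Irreducible ((a ^ 2 - 4 * (C u * ∏ l, (X - C (c l)))).comp (X ^ m)) := by
  haveI := h.dvr
  set ϖ := a.coeff 0 with hϖ
  have hϖ1 : w.valuation ϖ < 1 := h.red 0
  set p : w := ⟨ϖ, (w.valuation_le_one_iff _).1 hϖ1.le⟩ with hp
  have hdv : ∀ x : w, w.valuation (x : k) ≤ w.valuation ϖ → ∃ y : w, x = p * y := by
    intro x hx
    obtain ⟨y, hy⟩ := (w.valuation_le_iff _ _).1 hx
    refine ⟨y, Subtype.ext ?_⟩
    rw [← hy]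
    exact mul_comm _ _
  have hp' : Irreducible p := by
    rw [IsDiscreteValuationRing.irreducible_iff_uniformizer]
    ext x
    rw [Ideal.mem_span_singleton, w.valuation_lt_one_iff]
    constructor
    · intro hx
      exact hdv x (h.zero _ hx)
    · rintro ⟨y, rfl⟩
      have : ((p * y : w) : k) = ϖ * (y : k) := rfl
      rw [this, map_mul]
      exact mul_lt_one_of_lt_of_le hϖ1 (w.valuation_le_one y)
  obtain ⟨a', ha'⟩ := lift_poly fun m => (h.red m).le
  have hac : ∀ m, ((a'.coeff m : w) : k) = a.coeff m := by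
    intro m
    rw [← ha', coeff_map]; rfl
  have hda : C p ∣ a' := by
    rw [C_dvd_iff_dvd_coeff]
    intro m
    obtain ⟨y, hy⟩ := hdv (a'.coeff m) (by rw [hac]; exact h.zero _ (h.red m))
    exact ⟨y, hy⟩
  obtain ⟨a1, rfl⟩ := hda
  set u' : w := ⟨u, (w.valuation_le_one_iff _).1 h.unit.le⟩ with hu'
  have hce : ∀ i, ∃ y : w, c i = ϖ * (y : k) := by
    intro i
    obtain ⟨y, hy⟩ := (w.valuation_le_iff _ _).1 (h.zero _ (h.small i))
    exact ⟨y, by rw [← hy, mul_comm]⟩
  choose e he using hce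
  have e1 : a ^ 2 - 4 * (C u * ∏ l, (X - C (c l))) =
      ((C p * a1) ^ 2 - 4 * (C u' * ∏ l, (X - C (p * e l)))).map (algebraMap w k) := by
    have e0 : (4 * (C u' * ∏ l, (X - C (p * e l)))).map (algebraMap w k) =
        4 * (C u * ∏ l, (X - C (c l))) := by
      rw [Polynomial.map_mul, Polynomial.map_mul, Polynomial.map_prod, Polynomial.map_ofNat, map_C]
      simp only [Polynomial.map_sub, map_X, map_C]
      congr 2
      refine Finset.prod_congr rfl fun l _ => ?_
      rw [he l]
      rfl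
    rw [Polynomial.map_sub, Polynomial.map_pow, e0, ha']
  rw [e1]
  have hp0 : p ≠ 0 := hp'.ne_zero
  refine irred_place_expand hp' (unit_of h.two) (unit_of h.unit) hn h3 ?_ ?_ hmo
  · have h5 : (C p * a1).natDegree = a.natDegree := by
      rw [← ha']
      exact (natDegree_map_eq_of_injective (IsFractionRing.injective w k) _).symm
    rw [natDegree_C_mul hp0] at h5
    rw [h5]; exact hdeg
  · have h6 : (C p * a1).coeff 0 = p := Subtype.ext (by rw [hac])
    rw [coeff_C_mul] at h6
    have h7 : a1.coeff 0 = 1 := mul_left_cancel₀ hp0 (by rw [h6, mul_one])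
    rw [h7]; exact isUnit_one

end place

section family

variable {k k' K F : Type} [Field k] [Field k'] [Algebra k k'] [Field K] [Algebra k[X] K]
    [Field F] [Algebra k'[X] F] [IsFractionRing k'[X] F] [Algebra K F]

/-- **Towers of surfaces given by conditions at places.** -/
theorem tower_places (hT : IsTower k k' K F) {n : ℕ} (hn : Odd n) (h3 : 3 ≤ n)
    (hnk : (n : k) ≠ 0) {c : Fin n → k} (hc : Function.Injective c) {u : k} {a : k[X]}
    (hdeg : 2 * a.natDegree < n) (hZ : ∃ w : ValuationSubring k, PlaceZ w a u c)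
    (hS : ∀ S : Finset (Fin n), S ≠ ∅ → S ≠ Finset.univ →
      ∃ w : ValuationSubring k, PlaceA w a u c S ∨ ∃ i ∈ S, ∃ j ∉ S, PlaceB w a u c i j)
    {m : ℕ} (hm : Odd m) (hmk : (m : k) ≠ 0)
    (hp : ∀ i p, p.Prime → p ∣ m → ∀ g : k, g ^ p ≠ c i) :
    TateAtTwo (F := F) k' (crvT (algebraMap k[X] K (a.comp (X ^ m)))
      (algebraMap k[X] K ((C u * ∏ l, (X - C (c l))).comp (X ^ m)))) := by
  haveI := hT.fracK
  obtain ⟨w, hw⟩ := hZ
  have h2 : (2 : k) ≠ 0 := by
    intro h
    have := hw.two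
    rw [h, map_zero] at this
    exact zero_ne_one this
  have hu : u ≠ 0 := by
    intro h
    have := hw.unit
    rw [h, map_zero] at this
    exact zero_ne_one this
  have h4 : (-(4 * u) : k) ≠ 0 := by
    have : (4 : k) = 2 ^ 2 := by norm_num
    rw [this]
    exact neg_ne_zero.2 (mul_ne_zero (pow_ne_zero 2 h2) hu)
  have hirr := hw.irred hn h3 hdeg
  have hirr' := hw.irred_expand hn h3 hdeg hm
  set P : k[X] := ∏ l, (X - C (c l)) with hP
  have hPm : P.Monic := monic_prod_of_monic _ _ fun l _ => monic_X_sub_C _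
  have hPd : P.natDegree = n := by
    rw [hP, natDegree_prod_of_monic _ _ fun l _ => monic_X_sub_C _]
    simp
  have e1 : a ^ 2 - 4 * (C u * P) = C (-(4 * u)) * P + a ^ 2 := by
    rw [C_neg, C_mul, map_ofNat]; ring
  have hd1 : (C (-(4 * u)) * P).natDegree = n := by rw [natDegree_C_mul h4, hPd]
  have hlt : (a ^ 2).natDegree < (C (-(4 * u)) * P).natDegree := by
    rw [hd1, natDegree_pow]; exact hdeg
  have hnd : (a ^ 2 - 4 * (C u * P)).natDegree = n := by
    rw [e1, natDegree_add_eq_left_of_natDegree_lt hlt, hd1]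
  have hlc : (a ^ 2 - 4 * (C u * P)).coeff n = -(4 * u) := by
    rw [e1, coeff_add, coeff_eq_zero_of_natDegree_lt (p := a ^ 2) (by rw [← hd1]; exact hlt),
      add_zero, coeff_C_mul, ← hPd, hPm.coeff_natDegree, mul_one]
  have hder : derivative (a ^ 2 - 4 * (C u * P)) ≠ 0 := by
    intro h
    have h5 := congrArg (fun q => q.coeff (n - 1)) h
    simp only [coeff_derivative, coeff_zero] at h5
    have h6 : n - 1 + 1 = n := by omega
    rw [h6, hlc] at h5
    have h7 : (((n - 1 : ℕ) : k) + 1) = (n : k) := by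
      rw [← Nat.cast_add_one, h6]
    rw [h7] at h5
    exact mul_ne_zero h4 hnk h5
  have hXm : (X ^ m : k[X]).natDegree = m := natDegree_X_pow m
  have hodd : Odd (X ^ m : k[X]).natDegree := by rw [hXm]; exact hm
  have hderc : ∀ q : k[X], derivative q ≠ 0 → derivative (q.comp (X ^ m)) ≠ 0 := by
    intro q hq
    rw [derivative_comp, derivative_X_pow]
    refine mul_ne_zero (mul_ne_zero ?_ (pow_ne_zero _ X_ne_zero)) (comp_ne hodd.pos hq)
    exact_mod_cast C_ne_zero.2 hmk
  have hb0 : C u * P ≠ 0 := mul_ne_zero (C_ne_zero.2 hu) hPm.ne_zero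
  have hd0 : a ^ 2 - 4 * (C u * P) ≠ 0 := hirr.ne_zero
  have hbn : Odd (C u * P).natDegree := by rw [natDegree_C_mul hu, hPd]; exact hn
  refine mainN_odd hT h2 hb0 hd0 (notNorm_of_odd hbn) (notNorm_of_odd (by rw [hnd]; exact hn))
    (enough_prod hT h2 hu hc ?_) ?_ hodd ?_
  · intro S h0 h1 _
    refine Or.inr fun ε hε hs => ?_
    obtain ⟨w', hw' | ⟨i, hi, j, hj, hw'⟩⟩ := hS S h0 h1
    · exact hw'.not_splits hε hs
    · exact hw'.not_splits hi hj hε hs
  · intro ε A _ hA hs hdv _ _
    exact enough_pow hT h2 one_ne_zero hirr (n := 0) (by rw [C_1]; ring) A hA hs hdv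
  · intro π hπ hdv
    rcases hπ.prime.dvd_or_dvd hdv with h | h
    · have hCu : IsUnit (C u) := isUnit_C.2 (isUnit_iff_ne_zero.2 hu)
      rw [hCu.dvd_mul_left, hP, hπ.prime.dvd_finset_prod_iff] at h
      obtain ⟨l, -, hl⟩ := h
      obtain ⟨v, hv⟩ := (hπ.associated_of_dvd (irreducible_X_sub_C _) hl).symm
      obtain ⟨e, he, hev⟩ := Polynomial.isUnit_iff.1 v.isUnit
      have e2 : π.comp (X ^ m) = (X ^ m - C (c l)) * C e := by
        rw [← hv, ← hev, Polynomial.mul_comp, C_comp, sub_comp, X_comp, C_comp]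
      have h8 : Irreducible (X ^ m - C (c l)) :=
        X_pow_sub_C_irreducible_of_odd hm fun p hp1 hp2 g => hp l p hp1 hp2 g
      have h9 : Irreducible (π.comp (X ^ m)) := by
        rw [e2, irreducible_mul_isUnit (isUnit_C.2 he)]
        exact h8
      refine ⟨h9, (separable_iff_derivative_ne_zero h9).2 (hderc π ?_)⟩
      rw [← hv, ← hev, derivative_mul, derivative_C, mul_zero, add_zero, derivative_sub,
        derivative_X, derivative_C, sub_zero, one_mul]
      exact C_ne_zero.2 he.ne_zero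
    · obtain ⟨v, hv⟩ := (hπ.associated_of_dvd hirr h).symm
      obtain ⟨e, he, hev⟩ := Polynomial.isUnit_iff.1 v.isUnit
      have e2 : π.comp (X ^ m) = ((a ^ 2 - 4 * (C u * P)).comp (X ^ m)) * C e := by
        rw [← hv, ← hev, Polynomial.mul_comp, C_comp]
      have h9 : Irreducible (π.comp (X ^ m)) := by
        rw [e2, irreducible_mul_isUnit (isUnit_C.2 he)]
        exact hirr'
      refine ⟨h9, (separable_iff_derivative_ne_zero h9).2 (hderc π ?_)⟩
      rw [← hv, ← hev, derivative_mul, derivative_C, mul_zero, add_zero]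
      exact mul_ne_zero hder (C_ne_zero.2 he.ne_zero)

end family

end Pool.Agent.R939.EI
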