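import Pool.Agent.R939.EI.Main

/-!
# The constants, and points up to constants
-/

set_option autoImplicit false
set_option linter.all false

open Polynomial IsDedekindDomain WeierstrassCurve WeierstrassCurve.Affine
open scoped Classical

namespace Pool.Agent.R939.EI

open Pool.Agent.TH115.GD

section const

variable {k : Type} [Field k]

/-- Constants which are norms are squares. -/
theorem const_sq (k' : Type) [Field k'] [Algebra k k'] [IsSepClosure k k'] (h2 : (2 : k) ≠ 0)
    {d : k[X]} (hd : d ≠ 0) (hsep : ∀ π : k[X], Irreducible π → π ∣ d → π.Separable)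
    (hN : NotNorm d) {ε : k} (h : Splits d ε 1) : IsSquare ε := by
  haveI : IsSepClosed k' := IsSepClosure.sep_closed k
  haveI : IsGalois k k' := inferInstance
  by_contra hns
  obtain ⟨x, y, z, hz, he⟩ := h
  rw [mul_one] at he
  have injk := (algebraMap k k').injective
  have h2' : (2 : k') ≠ 0 := by
    rw [← map_ofNat (algebraMap k k') 2]
    exact (_root_.map_ne_zero _).2 h2
  have hlc : ∀ x : k[X], C ε * z ^ 2 ≠ x ^ 2 := by
    intro x hx
    apply hns
    have h1 := congrArg leadingCoeff hx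
    rw [leadingCoeff_mul, leadingCoeff_C, leadingCoeff_pow, leadingCoeff_pow] at h1
    have hz' : z.leadingCoeff ≠ 0 := leadingCoeff_ne_zero.2 hz
    refine ⟨x.leadingCoeff / z.leadingCoeff, ?_⟩
    field_simp
    exact h1
  have hy : y ≠ 0 := by
    rintro rfl
    exact hlc x (by rw [he]; ring)
  haveI : NeZero ((2 : ℕ) : k') := ⟨by exact_mod_cast h2'⟩
  obtain ⟨e, hee⟩ := IsSepClosed.exists_pow_nat_eq (algebraMap k k' ε) 2
  set x' := x.map (algebraMap k k') with hx'
  set z' := z.map (algebraMap k k') with hz'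
  have hprod : (x' - C e * z') * (x' + C e * z') =
      d.map (algebraMap k k') * y.map (algebraMap k k') ^ 2 := by
    have h1 := congrArg (Polynomial.map (algebraMap k k')) he
    rw [Polynomial.map_mul, Polynomial.map_pow, Polynomial.map_sub, Polynomial.map_mul,
      Polynomial.map_pow, Polynomial.map_pow, map_C, ← hee, C_pow] at h1
    linear_combination -h1
  have hdn : d.map (algebraMap k k') ≠ 0 := (Polynomial.map_ne_zero_iff injk).2 hd
  have hyn : y.map (algebraMap k k') ≠ 0 := (Polynomial.map_ne_zero_iff injk).2 hy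
  have hpn : (x' - C e * z') * (x' + C e * z') ≠ 0 := by
    rw [hprod]
    exact mul_ne_zero hdn (pow_ne_zero 2 hyn)
  have hmul : ∀ θ, (rootMultiplicity θ (x' - C e * z') : ZMod 2) +
      (rootMultiplicity θ (x' + C e * z') : ZMod 2) =
      (rootMultiplicity θ (d.map (algebraMap k k')) : ZMod 2) := by
    intro θ
    have h1 := rootMultiplicity_mul (x := θ) hpn
    rw [hprod, rootMultiplicity_mul (mul_ne_zero hdn (pow_ne_zero 2 hyn)), pow_two,
      rootMultiplicity_mul (mul_ne_zero hyn hyn)] at h1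
    have h3 := congrArg (Nat.cast : ℕ → ZMod 2) h1
    rw [Nat.cast_add, Nat.cast_add, Nat.cast_add] at h3
    rw [← h3]
    have : ∀ z : ZMod 2, z + z = 0 := by decide
    rw [this, add_zero]
  have hse : ∀ s : k' ≃ₐ[k] k', s e = e ∨ s e = -e := by
    intro s
    apply sq_eq_sq_iff_eq_or_eq_neg.1
    rw [← map_pow, hee, s.commutes]
  have hmx : ∀ (s : k' ≃ₐ[k] k') (q : k[X]),
      (q.map (algebraMap k k')).map (s : k' →+* k') = q.map (algebraMap k k') := by
    intro s q
    rw [Polynomial.map_map]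
    congr 1
    ext c
    exact s.commutes c
  have hrm : ∀ (s : k' ≃ₐ[k] k') (q : k'[X]) (θ : k'),
      rootMultiplicity (s θ) (q.map (s : k' →+* k')) = rootMultiplicity θ q := by
    intro s q θ
    exact (eq_rootMultiplicity_map (f := (s : k' →+* k')) s.injective θ).symm
  have hms : ∀ s : k' ≃ₐ[k] k', (x' - C e * z').map (s : k' →+* k') = x' - C (s e) * z' := by
    intro s
    rw [Polynomial.map_sub, Polynomial.map_mul, map_C, hx', hz', hmx, hmx]
    rfl
  have key := no_swapN h2 hd hsep hN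
    (fun θ => (rootMultiplicity θ (x' - C e * z') : ZMod 2)) (fun s => by
      rcases hse s with h | h
      · left
        intro θ
        show (rootMultiplicity (s θ) (x' - C e * z') : ZMod 2) =
          (rootMultiplicity θ (x' - C e * z') : ZMod 2)
        rw [← hrm s (x' - C e * z') θ, hms, h]
      · right
        intro θ
        show (rootMultiplicity θ (x' - C e * z') : ZMod 2) =
          (rootMultiplicity (s θ) (x' - C e * z') : ZMod 2) +
            (rootMultiplicity (s θ) (d.map (algebraMap k k')) : ZMod 2)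
        rw [← hrm s (x' - C e * z') θ, hms, h, C_neg, neg_mul, sub_neg_eq_add, ← hmul (s θ)]
        have : ∀ z w : ZMod 2, w = z + (z + w) := by decide
        exact this _ _)
  -- an automorphism which moves `e`
  obtain ⟨s, hs⟩ : ∃ s : k' ≃ₐ[k] k', s e ≠ e := by
    by_contra hcon
    push Not at hcon
    have h3 : e ∈ Set.range (algebraMap k k') := by
      rw [InfiniteGalois.mem_range_algebraMap_iff_fixed]
      exact hcon
    obtain ⟨g, hg⟩ := h3
    apply hns
    refine ⟨g, injk ?_⟩
    rw [map_mul, hg, ← hee, pow_two]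
  have hs' := (hse s).resolve_left hs
  have hev : ∀ θ, (rootMultiplicity θ (d.map (algebraMap k k')) : ZMod 2) = 0 := by
    intro θ
    have h1 : (rootMultiplicity (s (s.symm θ)) (x' - C e * z') : ZMod 2) =
      (rootMultiplicity (s.symm θ) (x' - C e * z') : ZMod 2) := key s (s.symm θ)
    rw [← hrm s (x' - C e * z') (s.symm θ), hms, hs', C_neg, neg_mul, sub_neg_eq_add,
      AlgEquiv.apply_symm_apply] at h1
    rw [← hmul θ, h1]
    have : ∀ z : ZMod 2, z + z = 0 := by decide
    exact this _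
  -- `d` is a constant times a square
  obtain ⟨r, S, T, hr, hS, hS', hT, hpe⟩ := sq_dec _ d rfl hd
  have hS1 : S ≠ 1 := by
    rintro rfl
    obtain ⟨h3, -⟩ := hN r 1 T 0 (by rw [hpe]; ring)
    exact h3 rfl
  have hu : ¬ IsUnit S := fun h => hS1 (hS.eq_one_of_isUnit h)
  obtain ⟨π, hπ, hdv⟩ := WfDvdMonoid.exists_irreducible_factor hu hS.ne_zero
  have hSp : S ∣ d := ⟨C r * T ^ 2, by rw [hpe]; ring⟩
  have hπs : π.Separable := hsep π hπ (hdv.trans hSp)
  have hdeg : (π.map (algebraMap k k')).degree ≠ 0 := by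
    rw [degree_map]
    exact (Irreducible.degree_pos hπ).ne'
  obtain ⟨θ, hθ⟩ := IsSepClosed.exists_root _ hdeg (hπs.map)
  have hSsep : S.Separable := sep_of_sqf hS.ne_zero hS' fun π h1 h3 => hsep π h1 (h3.trans hSp)
  have hSn : S.map (algebraMap k k') ≠ 0 := (Polynomial.map_ne_zero_iff injk).2 hS.ne_zero
  have hTn : T.map (algebraMap k k') ≠ 0 := (Polynomial.map_ne_zero_iff injk).2 hT
  have hroot : (S.map (algebraMap k k')).IsRoot θ := hθ.dvd (Polynomial.map_dvd _ hdv)
  have hmult : (rootMultiplicity θ (d.map (algebraMap k k')) : ZMod 2) = 1 := by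
    have e : d.map (algebraMap k k') = C (algebraMap k k' r) * S.map (algebraMap k k') *
        T.map (algebraMap k k') ^ 2 := by
      rw [hpe, Polynomial.map_mul, Polynomial.map_mul, Polynomial.map_pow, map_C]
    have hCr : C (algebraMap k k' r) ≠ 0 := C_ne_zero.2 ((_root_.map_ne_zero _).2 hr)
    rw [e, rootMultiplicity_mul (mul_ne_zero (mul_ne_zero hCr hSn) (pow_ne_zero 2 hTn)),
      rootMultiplicity_mul (mul_ne_zero hCr hSn), rootMultiplicity_C, zero_add, pow_two,
      rootMultiplicity_mul (mul_ne_zero hTn hTn), Nat.cast_add, Nat.cast_add]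
    have h3 : ((rootMultiplicity θ (T.map (algebraMap k k')) : ℕ) : ZMod 2) +
        ((rootMultiplicity θ (T.map (algebraMap k k')) : ℕ) : ZMod 2) = 0 := by
      have : ∀ z : ZMod 2, z + z = 0 := by decide
      exact this _
    have h4 : rootMultiplicity θ (S.map (algebraMap k k')) ≤ 1 :=
      rootMultiplicity_le_one_of_separable hSsep.map θ
    have h5 : 0 < rootMultiplicity θ (S.map (algebraMap k k')) := (rootMultiplicity_pos hSn).2 hroot
    have h6 : rootMultiplicity θ (S.map (algebraMap k k')) = 1 := by omega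
    rw [h3, add_zero, h6, Nat.cast_one]
  rw [hev θ] at hmult
  exact absurd hmult (by decide)

end const

section norms

variable {K : Type} [Field K]

/-- `g` is a norm from `K(√d)`. -/
def IsNorm (d g : K) : Prop := ∃ p q w : K, w ≠ 0 ∧ g * w ^ 2 = p ^ 2 - d * q ^ 2

theorem IsNorm.mul {d g h : K} (h1 : IsNorm d g) (h3 : IsNorm d h) : IsNorm d (g * h) := by
  obtain ⟨p, q, w, hw, e⟩ := h1
  obtain ⟨p', q', w', hw', e'⟩ := h3
  refine ⟨p * p' + d * q * q', p * q' + q * p', w * w', mul_ne_zero hw hw', ?_⟩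
  have : g * h * (w * w') ^ 2 = (g * w ^ 2) * (h * w' ^ 2) := by ring
  rw [this, e, e']
  ring

theorem IsNorm.mul_sq {d g c : K} (hc : c ≠ 0) (h : IsNorm d (c ^ 2 * g)) : IsNorm d g := by
  obtain ⟨p, q, w, hw, e⟩ := h
  exact ⟨p, q, c * w, mul_ne_zero hc hw, by rw [← e]; ring⟩

theorem isNorm_dT {a b : K} (h2 : (2 : K) ≠ 0) (hds : ∀ g : K, g ^ 2 ≠ a ^ 2 - 4 * b)
    (P : Pt (crvT a b) K) : IsNorm (a ^ 2 - 4 * b) (dT b P) := by
  rcases P with _ | ⟨x, y, hxy⟩
  · exact ⟨1, 0, 1, one_ne_zero, by simp [dT]⟩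
  · have h1 : y ^ 2 = x * (x ^ 2 + a * x + b) := crvT_eq hxy
    simp only [dT]
    split_ifs with hx
    · refine ⟨a / 2, 1 / 2, 1, one_ne_zero, ?_⟩
      field_simp
      ring
    · by_cases hs : x ^ 2 + a * x + b = 0
      · exfalso
        apply hds (2 * x + a)
        linear_combination 4 * hs
      · refine ⟨y * (x + a / 2), y / 2, x ^ 2 + a * x + b, hs, ?_⟩
        have e : x * (x ^ 2 + a * x + b) ^ 2 = y ^ 2 * (x ^ 2 + a * x + b) := by rw [h1]; ring
        rw [e]
        field_simp
        ring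

end norms

section points

variable {k k' K F : Type} [Field k] [Field k'] [Algebra k k'] [Field K] [Algebra k[X] K]
    [Field F] [Algebra k'[X] F] [IsFractionRing k'[X] F] [Algebra K F]

theorem splits_iff [IsFractionRing k[X] K] {d : k[X]} {ε : k} {A : k[X]} :
    Splits d ε A ↔ IsNorm (algebraMap k[X] K d) (algebraMap k[X] K (C ε * A)) := by
  constructor
  · rintro ⟨x, y, z, hz, e⟩
    refine ⟨algebraMap k[X] K x, algebraMap k[X] K y, algebraMap k[X] K z, by simpa using hz, ?_⟩
    rw [← map_pow, ← map_mul, e, map_sub, map_mul, map_pow, map_pow]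
  · rintro ⟨p, q, w, hw, e⟩
    exact splits_of_frac (K := K) hw e

/-- For all monic squarefree divisors `A` of `b` which satisfy the condition at infinity and are, up
to a constant `ε`, norms from `K(√(a² - 4 b))`, there is a point `P` of `y² = x (x² + a x + b)` over
`K` with `x(P) = A` up to squares of `F`. -/
def EnoughNorm (K F : Type) [Field K] [Algebra k[X] K] [Field F] [Algebra K F] (a b : k[X]) : Prop :=
  ∀ (ε : k) (A : k[X]), ε ≠ 0 → A.Monic → Squarefree A → A ∣ b → InfT a b A →
    Splits (a ^ 2 - 4 * b) ε A →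
      ∃ P : Pt (crvT (algebraMap k[X] K a) (algebraMap k[X] K b)) K,
        Represents K F A (dT (algebraMap k[X] K b) P)

theorem enough_of_norm (hT : IsTower k k' K F) (h2 : (2 : k) ≠ 0) {a b : k[X]}
    (hb : b ≠ 0) (hd : a ^ 2 - 4 * b ≠ 0)
    (hsd : ∀ π : k[X], Irreducible π → π ∣ a ^ 2 - 4 * b → π.Separable)
    (hNd : NotNorm (a ^ 2 - 4 * b)) (h : EnoughNorm K F a b) : Enough K a b := by
  haveI := hT.sep
  haveI := hT.fracK
  have hKF := hT.map
  have h2K : (2 : K) ≠ 0 := tt h2
  have hbK0 : algebraMap k[X] K b ≠ 0 := by simpa using hb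
  have hdK : algebraMap k[X] K (a ^ 2 - 4 * b) =
      algebraMap k[X] K a ^ 2 - 4 * algebraMap k[X] K b := by
    rw [map_sub, map_mul, map_pow, map_ofNat]
  have hds : ∀ g : K, g ^ 2 ≠ algebraMap k[X] K a ^ 2 - 4 * algebraMap k[X] K b := by
    intro g hg
    apply notSq hKF hd hsd hNd (algebraMap K F g)
    rw [← map_pow, hg, hdK]
  intro ε A hε hA1 hA2 hA3 hA4 hA5
  obtain ⟨P, c, hc, e⟩ := h ε A hε hA1 hA2 hA3 hA4 hA5
  set x := dT (algebraMap k[X] K b) P with hx
  have hA0 : algebraMap k[X] K A ≠ 0 := by simpa using hA1.ne_zero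
  have hx0 : x ≠ 0 := by
    intro h0
    rw [h0, map_zero, mul_zero] at e
    exact (_root_.map_ne_zero (algebraMap K F)).2 hA0 e
  obtain ⟨ε', g, hε', hg, hge⟩ := sq_const hKF (g := x / algebraMap k[X] K A) (f := c⁻¹)
    (div_ne_zero hx0 hA0) (by
      have hAF : algebraMap K F (algebraMap k[X] K A) ≠ 0 := (_root_.map_ne_zero _).2 hA0
      have hxF : algebraMap K F x ≠ 0 := (_root_.map_ne_zero _).2 hx0
      rw [map_div₀, e]
      field_simp)
  have hxe : x = g ^ 2 * algebraMap k[X] K (C ε' * A) := by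
    rw [div_eq_iff hA0] at hge
    rw [hge, map_mul]; ring
  have n1 : IsNorm (algebraMap k[X] K (a ^ 2 - 4 * b)) (algebraMap k[X] K (C ε' * A)) := by
    have h3 := isNorm_dT h2K hds P
    rw [← hx, ← hdK, hxe] at h3
    exact h3.mul_sq hg
  have n2 : IsNorm (algebraMap k[X] K (a ^ 2 - 4 * b)) (algebraMap k[X] K (C ε * A)) :=
    splits_iff.1 hA5
  have n3 : IsNorm (algebraMap k[X] K (a ^ 2 - 4 * b))
      (algebraMap k[X] K (C (ε * ε') * 1)) := by
    have h3 := n2.mul n1
    have e3 : algebraMap k[X] K (C ε * A) * algebraMap k[X] K (C ε' * A) =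
        algebraMap k[X] K A ^ 2 * algebraMap k[X] K (C (ε * ε') * 1) := by
      rw [C_mul]
      simp only [map_mul, map_one]
      ring
    rw [e3] at h3
    exact h3.mul_sq hA0
  obtain ⟨η, hη⟩ := const_sq k' h2 hd hsd hNd (splits_iff.2 n3)
  have hη0 : η ≠ 0 := by
    rintro rfl
    rw [mul_zero] at hη
    exact mul_ne_zero hε hε' hη
  have hηK : algebraMap k[X] K (C η) ≠ 0 := by simpa using hη0
  have hεK : algebraMap k[X] K (C ε') ≠ 0 := by simpa using hε'
  refine ⟨P, algebraMap k[X] K (C η) / (algebraMap k[X] K (C ε') * g),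
    div_ne_zero hηK (mul_ne_zero hεK hg), ?_⟩
  rw [← hx, hxe, map_mul, map_mul, div_pow, mul_pow]
  have e4 : algebraMap k[X] K (C ε) * algebraMap k[X] K (C ε') =
      algebraMap k[X] K (C η) ^ 2 := by
    rw [← map_mul, ← C_mul, hη, C_mul, map_mul, pow_two]
  rw [← e4]
  field_simp

/-- **The criterion, with points up to constants.** -/
theorem mainN (hT : IsTower k k' K F) (h2 : (2 : k) ≠ 0) {a b : k[X]} (hb : b ≠ 0)
    (hd : a ^ 2 - 4 * b ≠ 0)
    (hsep : ∀ π : k[X], Irreducible π → π ∣ b * (a ^ 2 - 4 * b) → π.Separable)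
    (hNb : NotNorm b) (hNd : NotNorm (a ^ 2 - 4 * b))
    (hpA : EnoughNorm K F a b) (hpB : EnoughNorm K F (-2 * a) (a ^ 2 - 4 * b)) :
    TateAtTwo (F := F) k' (crvT (algebraMap k[X] K a) (algebraMap k[X] K b)) := by
  have hsb : ∀ π : k[X], Irreducible π → π ∣ b → π.Separable :=
    fun π h h' => hsep π h (h'.mul_right _)
  have hsd : ∀ π : k[X], Irreducible π → π ∣ a ^ 2 - 4 * b → π.Separable :=
    fun π h h' => hsep π h (h'.mul_left _)
  have h16 : (-2 * a) ^ 2 - 4 * (a ^ 2 - 4 * b) = 16 * b := by ring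
  have h16k : (16 : k) ≠ 0 := by
    have : (16 : k) = 2 ^ 4 := by norm_num
    rw [this]
    exact pow_ne_zero 4 h2
  have h16p : (16 : k[X]) = C 16 := by rw [map_ofNat]
  have h16u : IsUnit (16 : k[X]) := by
    rw [h16p]
    exact isUnit_C.2 (isUnit_iff_ne_zero.2 h16k)
  refine mainE hT h2 hb hd hsep hNb hNd (enough_of_norm hT h2 hb hd hsd hNd hpA)
    (enough_of_norm hT h2 hd ?_ ?_ ?_ hpB)
  · rw [h16]
    exact mul_ne_zero h16u.ne_zero hb
  · intro π hπ h
    rw [h16] at h
    exact hsb π hπ ((h16u.dvd_mul_left).1 h)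
  · rw [h16]
    exact notNorm_16 h2 hNb

end points

end Pool.Agent.R939.EI
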