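import Pool.Agent.R939.EI.Quat

/-!
# Elements of `k(t)` which are squares in `k'(t)`, and the place at infinity
-/

set_option autoImplicit false
set_option linter.all false

open Polynomial IsDedekindDomain WeierstrassCurve WeierstrassCurve.Affine
open scoped Classical

namespace Pool.Agent.R939.EI

open Pool.Agent.TH115.GD
open Pool.Agent.W309.TD (isSquare_coe)

section cst

variable {k k' K F Ω : Type} [Field k] [Field k'] [Algebra k k'] [IsSepClosure k k']
  [Field K] [Algebra k[X] K] [IsFractionRing k[X] K] [Field F] [Algebra k'[X] F]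
  [IsFractionRing k'[X] F] [Algebra K F]
  (hKF : ∀ p : k[X], algebraMap K F (algebraMap k[X] K p) =
    algebraMap k'[X] F (p.map (algebraMap k k')))

include hKF in
theorem sq_const {g : K} {f : F} (hg : g ≠ 0) (hf : algebraMap K F g = f ^ 2) :
    ∃ (ε : k) (h : K), ε ≠ 0 ∧ h ≠ 0 ∧ g = algebraMap k[X] K (C ε) * h ^ 2 := by
  haveI : IsSepClosed k' := IsSepClosure.sep_closed k
  haveI : IsGalois k k' := inferInstance
  have injk := (algebraMap k k').injective
  have injF := IsFractionRing.injective k'[X] F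
  have hf0 : f ≠ 0 := by
    rintro rfl
    rw [zero_pow two_ne_zero] at hf
    exact (_root_.map_ne_zero _).2 hg hf
  obtain ⟨N, M, hNM, hfr⟩ := IsFractionRing.exists_reduced_fraction (A := k'[X]) f
  set M' : k'[X] := (M : k'[X]) with hM'
  have hM0 : M' ≠ 0 := nonZeroDivisors.ne_zero M.2
  have hco : IsCoprime N M' := hNM.isCoprime
  have hfe : f * algebraMap k'[X] F M' = algebraMap k'[X] F N := by
    rw [← hfr]
    exact IsLocalization.mk'_spec F N M
  have hN0 : N ≠ 0 := by
    rintro rfl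
    rw [map_zero] at hfe
    rcases mul_eq_zero.1 hfe with h | h
    · exact hf0 h
    · exact hM0 ((map_eq_zero_iff _ injF).1 h)
  -- the action of the Galois group
  have hact : ∀ s : k' ≃ₐ[k] k', ∃ e : ℤ, (e = 1 ∨ e = -1) ∧
      N.map (s : k' →+* k') * M' = (e : k'[X]) * (N * M'.map (s : k' →+* k')) := by
    intro s
    obtain ⟨τ, hτ⟩ := lift (Ω := Sep F) hKF s
    have h1 : (τ (algebraMap F (Sep F) f)) ^ 2 = (algebraMap F (Sep F) f) ^ 2 := by
      rw [← map_pow, ← map_pow, ← hf, ← IsScalarTower.algebraMap_apply K F (Sep F), τ.commutes]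
    have h2 := congrArg (algebraMap F (Sep F)) hfe
    rw [map_mul] at h2
    have h3 := congrArg τ h2
    rw [map_mul, hτ, hτ] at h3
    have injΩ := (algebraMap F (Sep F)).injective
    rcases sq_eq_sq_iff_eq_or_eq_neg.1 h1 with h4 | h4
    · refine ⟨1, Or.inl rfl, ?_⟩
      apply injF
      apply injΩ
      rw [h4] at h3
      simp only [map_mul, Int.cast_one, one_mul]
      rw [← h3, ← h2]
      ring
    · refine ⟨-1, Or.inr rfl, ?_⟩
      apply injF
      apply injΩ
      rw [h4] at h3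
      simp only [map_mul, Int.cast_neg, Int.cast_one, neg_mul, one_mul, map_neg]
      rw [← h3, ← h2]
      ring
  -- normalise the denominator
  set m := M'.leadingCoeff with hm
  have hm0 : m ≠ 0 := leadingCoeff_ne_zero.2 hM0
  set M₁ : k'[X] := C m⁻¹ * M' with hM₁
  set N₁ : k'[X] := C m⁻¹ * N with hN₁
  have hCm : C m⁻¹ ≠ 0 := C_ne_zero.2 (inv_ne_zero hm0)
  have hM₁m : M₁.Monic := by
    rw [Monic, hM₁, leadingCoeff_mul, leadingCoeff_C, inv_mul_cancel₀ hm0]
  have hM₁0 : M₁ ≠ 0 := hM₁m.ne_zero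
  have hN₁0 : N₁ ≠ 0 := mul_ne_zero hCm hN0
  have hunit : IsUnit (C m⁻¹ : k'[X]) := isUnit_C.2 (isUnit_iff_ne_zero.2 (inv_ne_zero hm0))
  have hco₁ : IsCoprime N₁ M₁ := by
    rw [hN₁, hM₁]
    exact (isCoprime_mul_unit_left_left hunit _ _).2
      ((isCoprime_mul_unit_left_right hunit _ _).2 hco)
  have hact₁ : ∀ s : k' ≃ₐ[k] k', ∃ e : ℤ, (e = 1 ∨ e = -1) ∧
      N₁.map (s : k' →+* k') * M₁ = (e : k'[X]) * (N₁ * M₁.map (s : k' →+* k')) := by
    intro s
    obtain ⟨e, he, h1⟩ := hact s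
    refine ⟨e, he, ?_⟩
    rw [hN₁, hM₁, Polynomial.map_mul, Polynomial.map_mul]
    linear_combination ((C m⁻¹ : k'[X]).map (s : k' →+* k') * C m⁻¹) * h1
  have heu : ∀ e : ℤ, (e = 1 ∨ e = -1) → IsUnit (e : k'[X]) := by
    rintro e (rfl | rfl)
    · simp
    · simp
  have hMs : ∀ s : k' ≃ₐ[k] k', M₁.map (s : k' →+* k') = M₁ := by
    intro s
    obtain ⟨e, he, h1⟩ := hact₁ s
    have h2 : M₁ ∣ M₁.map (s : k' →+* k') := by
      have h3 : M₁ ∣ (e : k'[X]) * (N₁ * M₁.map (s : k' →+* k')) := by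
        rw [← h1]
        exact dvd_mul_left _ _
      exact hco₁.symm.dvd_of_dvd_mul_left (((heu e he).dvd_mul_left).1 h3)
    have h4 : (M₁.map (s : k' →+* k')).natDegree = M₁.natDegree := natDegree_map _
    exact Polynomial.eq_of_monic_of_dvd_of_natDegree_le hM₁m (hM₁m.map _) h2 h4.le
  have hNs : ∀ s : k' ≃ₐ[k] k', N₁.map (s : k' →+* k') = N₁ ∨
      N₁.map (s : k' →+* k') = -N₁ := by
    intro s
    obtain ⟨e, he, h1⟩ := hact₁ s
    rw [hMs s] at h1
    rcases he with rfl | rfl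
    · left
      apply mul_right_cancel₀ hM₁0
      rw [h1, Int.cast_one, one_mul]
    · right
      apply mul_right_cancel₀ hM₁0
      rw [h1, Int.cast_neg, Int.cast_one]
      ring
  set c := N₁.leadingCoeff with hc
  have hc0 : c ≠ 0 := leadingCoeff_ne_zero.2 hN₁0
  have lc_s : ∀ s : k' ≃ₐ[k] k', (N₁.map (s : k' →+* k')).leadingCoeff = s c := by
    intro s
    exact leadingCoeff_map_of_injective s.injective N₁
  have hcs : ∀ s : k' ≃ₐ[k] k', (s c = c ∧ N₁.map (s : k' →+* k') = N₁) ∨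
      (s c = -c ∧ N₁.map (s : k' →+* k') = -N₁) := by
    intro s
    rcases hNs s with h3 | h3
    · left
      exact ⟨by rw [← lc_s, h3], h3⟩
    · right
      exact ⟨by rw [← lc_s, h3, leadingCoeff_neg], h3⟩
  obtain ⟨ε, hε⟩ : c ^ 2 ∈ Set.range (algebraMap k k') := by
    rw [InfiniteGalois.mem_range_algebraMap_iff_fixed]
    intro s
    rw [map_pow]
    rcases hcs s with ⟨h3, -⟩ | ⟨h3, -⟩ <;> rw [h3]
    ring
  obtain ⟨U, hU⟩ := desc_poly (k := k) hMs
  obtain ⟨V, hV⟩ := desc_poly (k := k) (P := C c⁻¹ * N₁) (by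
    intro s
    rw [Polynomial.map_mul, map_C]
    have : (s : k' →+* k') c⁻¹ = (s c)⁻¹ := map_inv₀ s c
    rw [this]
    rcases hcs s with ⟨h3, h4⟩ | ⟨h3, h4⟩ <;> rw [h3, h4]
    rw [inv_neg, C_neg]
    ring)
  have hU0 : algebraMap k[X] K U ≠ 0 := by
    have : U ≠ 0 := by
      rintro rfl
      rw [Polynomial.map_zero] at hU
      exact hM₁0 hU.symm
    simpa using this
  have hV0 : algebraMap k[X] K V ≠ 0 := by
    have : V ≠ 0 := by
      rintro rfl
      rw [Polynomial.map_zero] at hV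
      exact mul_ne_zero (C_ne_zero.2 (inv_ne_zero hc0)) hN₁0 hV.symm
    simpa using this
  have hε0 : ε ≠ 0 := by
    rintro rfl
    rw [map_zero] at hε
    exact pow_ne_zero 2 hc0 hε.symm
  refine ⟨ε, algebraMap k[X] K V / algebraMap k[X] K U, hε0, div_ne_zero hV0 hU0, ?_⟩
  apply (algebraMap K F).injective
  have hCc : algebraMap k'[X] F (C c) ≠ 0 := by simpa using hc0
  have hM₁F : algebraMap k'[X] F M₁ ≠ 0 := by simpa using hM₁0
  have hf1 : f = algebraMap k'[X] F N₁ / algebraMap k'[X] F M₁ := by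
    rw [eq_div_iff hM₁F, hM₁, hN₁, map_mul, map_mul]
    linear_combination (algebraMap k'[X] F (C m⁻¹)) * hfe
  rw [hf, map_mul, map_pow, map_div₀, hKF, hKF, hKF, hU, hV, map_C, hε, C_pow, map_pow, map_mul,
    hf1]
  have hcc : algebraMap k'[X] F (C c) * algebraMap k'[X] F (C c⁻¹) = 1 := by
    rw [← map_mul, ← C_mul, mul_inv_cancel₀ hc0, C_1, map_one]
  generalize algebraMap k'[X] F (C c) = x at hcc ⊢
  generalize algebraMap k'[X] F (C c⁻¹) = y at hcc ⊢
  generalize algebraMap k'[X] F N₁ = n at hcc ⊢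
  generalize algebraMap k'[X] F M₁ = m at hcc hM₁F ⊢
  field_simp
  linear_combination (-n ^ 2) * (x * y + 1) * hcc

/-- The condition at infinity. -/
def InfT (a b A : k[X]) : Prop :=
  4 ∣ b.natDegree → 2 * a.natDegree ≤ b.natDegree → Even A.natDegree

end cst

section val

variable {L : Type*} [Field L] (v : Valuation L (WithZero (Multiplicative ℤ)))

theorem evM {a b x y : L} {M : WithZero (Multiplicative ℤ)} (hM0 : M ≠ 0) (hM : IsSquare M)
    (ha : v a ≤ M) (hb : v b = M ^ 2) (hx : x ≠ 0)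
    (h : y ^ 2 = x * (x ^ 2 + a * x + b)) : IsSquare (v x) := by
  have hx0 : v x ≠ 0 := (Valuation.ne_zero_iff v).2 hx
  have hMp : 0 < M := zero_lt_iff.2 hM0
  have hv := congrArg v h
  rw [map_pow, map_mul] at hv
  rcases lt_trichotomy (v x) M with h1 | h1 | h1
  · have h2 : v (x ^ 2 + a * x) < v b := by
      rw [hb]
      have e : x ^ 2 + a * x = x * (x + a) := by ring
      rw [e, map_mul, pow_two]
      have h3 : v (x + a) ≤ M := (v.map_add _ _).trans (max_le h1.le ha)
      exact lt_of_le_of_lt (mul_le_mul_right h3 (v x)) (mul_lt_mul_of_pos_right h1 hMp)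
    rw [Valuation.map_add_eq_of_lt_right v h2, hb] at hv
    refine ⟨v y / M, ?_⟩
    field_simp
    rw [hv]
  · rw [h1]; exact hM
  · have h2 : v (a * x + b) < v (x ^ 2) := by
      rw [map_pow]
      refine lt_of_le_of_lt (v.map_add _ _) (max_lt ?_ ?_)
      · rw [map_mul, pow_two]
        exact mul_lt_mul_of_pos_right (lt_of_le_of_lt ha h1) (zero_lt_iff.2 hx0)
      · rw [hb]
        exact pow_lt_pow_left₀ h1 hMp.le two_ne_zero
    rw [add_assoc, Valuation.map_add_eq_of_lt_left v h2, map_pow] at hv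
    refine ⟨v y / v x, ?_⟩
    field_simp
    rw [hv]
    exact pow_succ' _ 2

variable {K F L : Type} [Field K] [Field F] [Field L] [Algebra K F] [Algebra K L]
  [Algebra F L] [IsScalarTower K F L] {a b : K}
  (w : Valuation L (WithZero (Multiplicative ℤ)))
  (v : Valuation F (WithZero (Multiplicative ℤ))) (hwv : ∀ x : F, w (algebraMap F L x) = v x)

include hwv in
theorem genM {M : WithZero (Multiplicative ℤ)} (hM0 : M ≠ 0) (hM : IsSquare M)
    (va : v (algebraMap K F a) ≤ M) (vb : v (algebraMap K F b) = M ^ 2) {a0 : F}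
    (hs : LocT0 a b L a0) : IsSquare (v a0) := by
  obtain ⟨Q, c, hc, e⟩ := hs
  have wa : w (algebraMap K L a) ≤ M := by
    rw [IsScalarTower.algebraMap_apply K F L, hwv]; exact va
  have wb : w (algebraMap K L b) = M ^ 2 := by
    rw [IsScalarTower.algebraMap_apply K F L, hwv]; exact vb
  rw [← hwv, e, map_mul, map_pow, pow_two]
  refine IsSquare.mul ⟨_, rfl⟩ ?_
  rcases Q with _ | ⟨x, y, hxy⟩
  · simp only [dT, map_one]
    exact ⟨1, (mul_one 1).symm⟩
  · simp only [dT]
    split_ifs with hx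
    · rw [wb]; exact ⟨M, pow_two M⟩
    · exact evM w hM0 hM wa wb hx (crvT_eq hxy)

end val

end Pool.Agent.R939.EI
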