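import Mathlib

/-!
# Counting over finite fields
-/

set_option autoImplicit false
set_option linter.all false

open Polynomial

namespace Pool.Agent.R939.EI

section general

theorem fiber_card {G H : Type} [AddCommGroup G] [Fintype G] [AddCommGroup H] [Fintype H]
    [DecidableEq H] (f : G →+ H) (hf : Function.Surjective f) (y : H) :
    (Finset.univ.filter fun x => f x = y).card * Fintype.card H = Fintype.card G := by
  have h1 := Finset.card_eq_sum_card_fiberwise (f := f) (s := Finset.univ) (t := Finset.univ)
    (fun x _ => by simp)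
  rw [Finset.card_univ] at h1
  rw [h1]
  have h2 : ∀ z : H, (Finset.univ.filter fun x => f x = z).card =
      (Finset.univ.filter fun x => f x = y).card := fun z =>
    AddMonoidHom.card_fiber_eq_of_mem_range f (hf z) (hf y)
  rw [Finset.sum_congr rfl fun z _ => h2 z, Finset.sum_const, Finset.card_univ, smul_eq_mul,
    mul_comm]

theorem card_pair {α β : Type} [Fintype β] (X : Finset α) (R : α → β → Prop)
    [∀ x, DecidablePred (R x)] (m : ℕ) (h : ∀ x ∈ X, m ≤ (Finset.univ.filter (R x)).card) :
    X.card * m ≤ ((X ×ˢ Finset.univ).filter fun z : α × β => R z.1 z.2).card := by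
  rw [Finset.card_filter, Finset.sum_product, ← smul_eq_mul, ← Finset.sum_const]
  refine Finset.sum_le_sum fun x hx => ?_
  have := h x hx
  rwa [Finset.card_filter] at this

end general

section chi

variable {F : Type} [Field F] [Fintype F] [DecidableEq F]

theorem card_chi (hF : ringChar F ≠ 2) {κ : ℤ} (hκ : κ = 1 ∨ κ = -1) :
    2 * (Finset.univ.filter fun x : F => quadraticChar F x = κ).card + 1 = Fintype.card F := by
  have h1 : ∀ x : F, quadraticChar F x = (if quadraticChar F x = 1 then 1 else 0) -
      (if quadraticChar F x = -1 then 1 else 0) := by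
    intro x
    by_cases hx : x = 0
    · rw [hx, MulChar.map_zero]; norm_num
    · rcases quadraticChar_dichotomy hx with h | h <;> rw [h] <;> norm_num
  have h2 : ∀ x : F, (1 : ℤ) = (if quadraticChar F x = 1 then 1 else 0) +
      (if quadraticChar F x = -1 then 1 else 0) + (if x = 0 then 1 else 0) := by
    intro x
    by_cases hx : x = 0
    · rw [hx, MulChar.map_zero]; norm_num
    · rcases quadraticChar_dichotomy hx with h | h <;> rw [h, if_neg hx] <;> norm_num
  have s1 := quadraticChar_sum_zero hF
  rw [Finset.sum_congr rfl fun x _ => h1 x, Finset.sum_sub_distrib, Finset.sum_boole,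
    Finset.sum_boole] at s1
  have s2 : ((Fintype.card F : ℕ) : ℤ) = ∑ x : F, (1 : ℤ) := by
    rw [Finset.sum_const, Finset.card_univ]; simp
  rw [Finset.sum_congr rfl fun x _ => h2 x, Finset.sum_add_distrib, Finset.sum_add_distrib,
    Finset.sum_boole, Finset.sum_boole, Finset.sum_ite_eq' Finset.univ (0 : F)] at s2
  simp only [Finset.mem_univ, if_true] at s2
  rcases hκ with rfl | rfl <;> omega

theorem card_chi_mul (hF : ringChar F ≠ 2) {v : F} (hv : v ≠ 0) :
    2 * (Finset.univ.filter fun x : F => quadraticChar F (x * v) = 1).card + 1 =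
      Fintype.card F := by
  rw [← card_chi hF (Or.inl rfl : (1 : ℤ) = 1 ∨ (1 : ℤ) = -1)]
  congr 2
  apply Finset.card_bij (fun x _ => x * v)
  · intro x hx
    simpa using hx
  · intro x _ y _ h
    exact mul_right_cancel₀ hv h
  · intro y hy
    refine ⟨y / v, ?_, div_mul_cancel₀ y hv⟩
    simp only [Finset.mem_filter, Finset.mem_univ, true_and] at hy ⊢
    rw [div_mul_cancel₀ y hv]
    exact hy

theorem card_ratio (hF : ringChar F ≠ 2) {e e' : F} (he : e ≠ e') {κ : ℤ}
    (hκ : κ = 1 ∨ κ = -1) :
    Fintype.card F ≤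
      2 * (Finset.univ.filter fun c : F => quadraticChar F ((e - c) * (e' - c)) = κ).card + 3 := by
  have h1 := card_chi hF hκ
  set N := Finset.univ.filter fun x : F => quadraticChar F x = κ with hN
  have h2 : N.card ≤ (N.erase 1).card + 1 := by
    have := Finset.pred_card_le_card_erase (s := N) (a := (1 : F))
    omega
  have h3 : (N.erase 1).card ≤
      (Finset.univ.filter fun c : F => quadraticChar F ((e - c) * (e' - c)) = κ).card := by
    apply Finset.card_le_card_of_injOn (fun m => (e - m * e') / (1 - m))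
    · intro m hm
      rw [Finset.mem_coe, Finset.mem_erase, hN, Finset.mem_filter] at hm
      have hm1 : 1 - m ≠ 0 := sub_ne_zero.2 hm.1.symm
      have hD : (e' - e) / (1 - m) ≠ 0 := div_ne_zero (sub_ne_zero.2 he.symm) hm1
      rw [Finset.mem_coe, Finset.mem_filter]
      refine ⟨Finset.mem_univ _, ?_⟩
      have e1 : (e - (e - m * e') / (1 - m)) * (e' - (e - m * e') / (1 - m)) =
          m * ((e' - e) / (1 - m)) ^ 2 := by
        field_simp
        ring
      rw [e1, map_mul, map_pow, quadraticChar_sq_one hD, mul_one]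
      exact hm.2.2
    · intro m hm m' hm' h
      rw [Finset.mem_coe, Finset.mem_erase] at hm hm'
      have hm1 : 1 - m ≠ 0 := sub_ne_zero.2 hm.1.symm
      have hm1' : 1 - m' ≠ 0 := sub_ne_zero.2 hm'.1.symm
      have hD : e' - e ≠ 0 := sub_ne_zero.2 he.symm
      have h4 : (e - m * e') / (1 - m) = (e - m' * e') / (1 - m') := h
      rw [div_eq_div_iff hm1 hm1'] at h4
      have h5 : (e' - e) * (m' - m) = 0 := by linear_combination h4
      rcases mul_eq_zero.1 h5 with h6 | h6
      · exact absurd h6 hD
      · exact (sub_eq_zero.1 h6).symm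
  omega

/-- The sets of the roots. -/
theorem card_roots (hF : ringChar F ≠ 2) {e e' : F} (he : e ≠ e') {n : ℕ} {S : Finset (Fin n)}
    {i j : Fin n} (hi : i ∈ S) (hj : j ∉ S) {m : ℕ} (hm : 2 * m + 3 ≤ Fintype.card F) :
    m ^ n ≤ (Finset.univ.filter fun c : Fin n → F =>
      quadraticChar F (∏ l ∈ S, ((e - c l) * (e' - c l))) = -1 ∧
      quadraticChar F (∏ l ∈ Sᶜ, ((e - c l) * (e' - c l))) = -1).card := by
  set T : Fin n → Finset F := fun l => Finset.univ.filter fun c : F =>
    quadraticChar F ((e - c) * (e' - c)) = (if l = i ∨ l = j then (-1 : ℤ) else 1) with hT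
  have h1 : ∀ l, m ≤ (T l).card := by
    intro l
    have h2 := card_ratio hF he (κ := if l = i ∨ l = j then (-1 : ℤ) else 1) (by
      split_ifs
      · exact Or.inr rfl
      · exact Or.inl rfl)
    have h3 : (T l).card = (Finset.univ.filter fun c : F =>
      quadraticChar F ((e - c) * (e' - c)) = (if l = i ∨ l = j then (-1 : ℤ) else 1)).card := rfl
    omega
  have h4 : m ^ n ≤ (Fintype.piFinset T).card := by
    rw [Fintype.card_piFinset]
    calc m ^ n = ∏ _l : Fin n, m := by rw [Finset.prod_const, Finset.card_univ, Fintype.card_fin]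
      _ ≤ ∏ l, (T l).card := Finset.prod_le_prod' fun l _ => h1 l
  refine h4.trans (Finset.card_le_card ?_)
  intro c hc
  rw [Fintype.mem_piFinset] at hc
  have hc' : ∀ l, quadraticChar F ((e - c l) * (e' - c l)) =
      (if l = i ∨ l = j then (-1 : ℤ) else 1) := fun l => (Finset.mem_filter.1 (hc l)).2
  rw [Finset.mem_filter]
  refine ⟨Finset.mem_univ _, ?_, ?_⟩
  · rw [map_prod, Finset.prod_congr rfl fun l _ => hc' l, ← Finset.mul_prod_erase _ _ hi,
      if_pos (Or.inl rfl), Finset.prod_eq_one, mul_one]
    intro l hl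
    rw [Finset.mem_erase] at hl
    rw [if_neg]
    rintro (h | h)
    · exact hl.1 h
    · exact hj (h ▸ hl.2)
  · rw [map_prod, Finset.prod_congr rfl fun l _ => hc' l,
      ← Finset.mul_prod_erase _ _ (Finset.mem_compl.2 hj), if_pos (Or.inr rfl),
      Finset.prod_eq_one, mul_one]
    intro l hl
    rw [Finset.mem_erase, Finset.mem_compl] at hl
    rw [if_neg]
    rintro (h | h)
    · exact hl.2 (h ▸ hi)
    · exact hl.1 h

end chi

section pol

variable {R : Type} [CommRing R]

/-- The polynomial with given coefficients. -/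
noncomputable def polA {r : ℕ} (a : Fin (r + 1) → R) : R[X] := ∑ j, C (a j) * X ^ (j : ℕ)

/-- The polynomial with given leading coefficient and roots. -/
noncomputable def polB {n : ℕ} (u : R) (c : Fin n → R) : R[X] := C u * ∏ i, (X - C (c i))

/-- The discriminant `a² - 4 b`. -/
noncomputable def polD {r n : ℕ} (u : R) (a : Fin (r + 1) → R) (c : Fin n → R) : R[X] :=
  polA a ^ 2 - 4 * polB u c

theorem polA_add {r : ℕ} (a a' : Fin (r + 1) → R) : polA (a + a') = polA a + polA a' := by
  unfold polA
  rw [← Finset.sum_add_distrib]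
  refine Finset.sum_congr rfl fun j _ => ?_
  rw [Pi.add_apply, C_add, add_mul]

theorem polA_natDegree {r : ℕ} (a : Fin (r + 1) → R) : (polA a).natDegree ≤ r := by
  unfold polA
  refine natDegree_sum_le_of_forall_le _ _ fun j _ => ?_
  exact (natDegree_C_mul_X_pow_le _ _).trans (Nat.lt_succ_iff.1 j.2)

theorem polB_natDegree {n : ℕ} (u : R) (c : Fin n → R) : (polB u c).natDegree ≤ n := by
  unfold polB
  refine (natDegree_C_mul_le _ _).trans ((natDegree_prod_le _ _).trans ?_)
  refine (Finset.sum_le_card_nsmul Finset.univ _ 1 fun i _ => natDegree_X_sub_C_le (c i)).trans ?_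
  rw [Finset.card_univ, Fintype.card_fin, smul_eq_mul, mul_one]

theorem polD_natDegree {r n : ℕ} (hrn : 2 * r ≤ n) (u : R) (a : Fin (r + 1) → R)
    (c : Fin n → R) : (polD u a c).natDegree ≤ n := by
  unfold polD
  refine (natDegree_sub_le _ _).trans (max_le ?_ ?_)
  · refine natDegree_pow_le.trans ?_
    have := polA_natDegree a
    omega
  · have h4 : (4 : R[X]) = C 4 := by rw [map_ofNat]
    rw [h4]
    exact (natDegree_C_mul_le _ _).trans (polB_natDegree u c)

theorem polA_map {R' : Type} [CommRing R'] (f : R →+* R') {r : ℕ} (a : Fin (r + 1) → R) :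
    (polA a).map f = polA (fun j => f (a j)) := by
  unfold polA
  rw [Polynomial.map_sum]
  refine Finset.sum_congr rfl fun j _ => ?_
  rw [Polynomial.map_mul, Polynomial.map_pow, map_C, map_X]

theorem polB_map {R' : Type} [CommRing R'] (f : R →+* R') {n : ℕ} (u : R) (c : Fin n → R) :
    (polB u c).map f = polB (f u) (fun j => f (c j)) := by
  unfold polB
  rw [Polynomial.map_mul, Polynomial.map_prod, map_C]
  congr 1
  refine Finset.prod_congr rfl fun j _ => ?_
  rw [Polynomial.map_sub, map_C, map_X]

theorem polD_map {R' : Type} [CommRing R'] (f : R →+* R') {r n : ℕ} (u : R)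
    (a : Fin (r + 1) → R) (c : Fin n → R) :
    (polD u a c).map f = polD (f u) (fun j => f (a j)) (fun j => f (c j)) := by
  unfold polD
  rw [Polynomial.map_sub, Polynomial.map_mul, Polynomial.map_pow, Polynomial.map_ofNat, polA_map,
    polB_map]

end pol

end Pool.Agent.R939.EI
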