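import Pool.Agent.R939.EI.Den2

/-!
# Counting over finite fields, the polynomials
-/

set_option autoImplicit false
set_option linter.all false

open Polynomial

namespace Pool.Agent.R939.EI

section acount

variable {F : Type} [Field F] [Fintype F] [DecidableEq F]

/-- Values and a derivative. -/
noncomputable def ev3 (r : ℕ) (e e' : F) : (Fin (r + 1) → F) →+ F × F × F where
  toFun a := ((polA a).eval e, (polA a).eval e', (derivative (polA a)).eval e)
  map_zero' := by
    have : polA (0 : Fin (r + 1) → F) = 0 := by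
      unfold polA
      simp
    rw [this]
    simp
  map_add' a a' := by
    rw [polA_add]
    simp

/-- Values. -/
noncomputable def ev2 (r : ℕ) (e e' : F) : (Fin (r + 1) → F) →+ F × F where
  toFun a := ((polA a).eval e, (polA a).eval e')
  map_zero' := by
    have : polA (0 : Fin (r + 1) → F) = 0 := by
      unfold polA
      simp
    rw [this]
    simp
  map_add' a a' := by
    rw [polA_add]
    simp

theorem exists_quad {r : ℕ} (hr : 2 ≤ r) (x y z : F) :
    ∃ a : Fin (r + 1) → F, polA a = C x + C y * X + C z * X ^ 2 := by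
  obtain ⟨r, rfl⟩ := Nat.exists_eq_add_of_le hr
  refine ⟨fun j => if (j : ℕ) = 0 then x else if (j : ℕ) = 1 then y else if (j : ℕ) = 2 then z
    else 0, ?_⟩
  unfold polA
  have e : ∀ j : ℕ, C (if j = 0 then x else if j = 1 then y else if j = 2 then z else 0) *
      (X : F[X]) ^ j = (if j = 0 then C x else 0) + (if j = 1 then C y * X else 0) +
        (if j = 2 then C z * X ^ 2 else 0) := by
    intro j
    rcases j with _ | _ | _ | j
    · simp
    · simp
    · simp
    · simp
  rw [Fin.sum_univ_eq_sum_range (fun j => C (if j = 0 then x else if j = 1 then y else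
    if j = 2 then z else 0) * (X : F[X]) ^ j), Finset.sum_congr rfl fun j _ => e j,
    Finset.sum_add_distrib, Finset.sum_add_distrib, Finset.sum_ite_eq', Finset.sum_ite_eq',
    Finset.sum_ite_eq', if_pos, if_pos, if_pos]
  · rw [Finset.mem_range]; omega
  · rw [Finset.mem_range]; omega
  · rw [Finset.mem_range]; omega

theorem ev3_surj {r : ℕ} (hr : 2 ≤ r) {e e' : F} (he : e ≠ e') :
    Function.Surjective (ev3 r e e') := by
  rintro ⟨s, s', α⟩
  have hD : e' - e ≠ 0 := sub_ne_zero.2 he.symm
  set D := e' - e with hD'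
  set z := (s' - s - α * D) / D ^ 2 with hz
  set y := α - 2 * z * e with hy
  obtain ⟨a, ha⟩ := exists_quad hr (s - y * e - z * e ^ 2) y z
  have hz2 : z * D ^ 2 = s' - s - α * D := div_mul_cancel₀ _ (pow_ne_zero 2 hD)
  refine ⟨a, ?_⟩
  show ((polA a).eval e, (polA a).eval e', (derivative (polA a)).eval e) = (s, s', α)
  rw [ha]
  refine Prod.ext ?_ (Prod.ext ?_ ?_)
  · simp only [eval_add, eval_mul, eval_C, eval_X, eval_pow]
    ring
  · simp only [eval_add, eval_mul, eval_C, eval_X, eval_pow]
    have : e' = e + D := by rw [hD']; ring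
    rw [this, hy]
    linear_combination hz2
  · simp only [derivative_add, derivative_mul, derivative_C, derivative_X, derivative_X_pow,
      zero_mul, zero_add, mul_one, eval_add, eval_mul, eval_C, eval_X, eval_pow, Nat.cast_ofNat]
    rw [hy]
    norm_num
    ring

theorem ev2_surj {r : ℕ} (hr : 2 ≤ r) {e e' : F} (he : e ≠ e') :
    Function.Surjective (ev2 r e e') := by
  rintro ⟨s, s'⟩
  obtain ⟨a, ha⟩ := ev3_surj hr he (s, s', 0)
  refine ⟨a, ?_⟩
  have ha' : ((polA a).eval e, (polA a).eval e', (derivative (polA a)).eval e) = (s, s', 0) := ha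
  simp only [Prod.mk.injEq] at ha'
  show ((polA a).eval e, (polA a).eval e') = (s, s')
  rw [ha'.1, ha'.2.1]

theorem card_a {r : ℕ} (hr : 2 ≤ r) {e e' : F} (he : e ≠ e') (s s' τ τ' : F) :
    Fintype.card F * Fintype.card F ^ (r + 1) ≤
      (Finset.univ.filter fun a : Fin (r + 1) → F => ((polA a).eval e = s ∧
        (polA a).eval e' = s') ∧ (derivative (polA a)).eval e ≠ τ ∧
        (derivative (polA a)).eval e' ≠ τ').card * Fintype.card F ^ 3 +
      2 * Fintype.card F ^ (r + 1) := by
  set q := Fintype.card F with hq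
  have c2 := fiber_card (ev2 r e e') (ev2_surj hr he) (s, s')
  have c3 := fiber_card (ev3 r e e') (ev3_surj hr he) (s, s', τ)
  have c3' := fiber_card (ev3 r e' e) (ev3_surj hr he.symm) (s', s, τ')
  rw [Fintype.card_fun, Fintype.card_fin, Fintype.card_prod, ← hq] at c2
  rw [Fintype.card_fun, Fintype.card_fin, Fintype.card_prod, Fintype.card_prod, ← hq] at c3 c3'
  set G := Finset.univ.filter fun a : Fin (r + 1) → F => ((polA a).eval e = s ∧
        (polA a).eval e' = s') ∧ (derivative (polA a)).eval e ≠ τ ∧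
        (derivative (polA a)).eval e' ≠ τ' with hG
  have hsub : (Finset.univ.filter fun a => ev2 r e e' a = (s, s')) ⊆
      G ∪ ((Finset.univ.filter fun a => ev3 r e e' a = (s, s', τ)) ∪
        (Finset.univ.filter fun a => ev3 r e' e a = (s', s, τ'))) := by
    intro a ha
    rw [Finset.mem_filter] at ha
    have h1 : ((polA a).eval e, (polA a).eval e') = (s, s') := ha.2
    rw [Prod.mk.injEq] at h1
    rw [Finset.mem_union, Finset.mem_union, hG, Finset.mem_filter, Finset.mem_filter,
      Finset.mem_filter]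
    by_cases h3 : (derivative (polA a)).eval e = τ
    · right; left
      refine ⟨Finset.mem_univ _, ?_⟩
      show ((polA a).eval e, (polA a).eval e', (derivative (polA a)).eval e) = (s, s', τ)
      rw [h1.1, h1.2, h3]
    · by_cases h4 : (derivative (polA a)).eval e' = τ'
      · right; right
        refine ⟨Finset.mem_univ _, ?_⟩
        show ((polA a).eval e', (polA a).eval e, (derivative (polA a)).eval e') = (s', s, τ')
        rw [h1.1, h1.2, h4]
      · left
        exact ⟨Finset.mem_univ _, h1, h3, h4⟩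
  have h5 := (Finset.card_le_card hsub).trans ((Finset.card_union_le _ _).trans
    (Nat.add_le_add_left (Finset.card_union_le _ _) _))
  have h6 := Nat.mul_le_mul_right (q ^ 3) h5
  calc q * q ^ (r + 1) = q * ((Finset.univ.filter fun a => ev2 r e e' a = (s, s')).card *
        (q * q)) := by rw [c2]
    _ = (Finset.univ.filter fun a => ev2 r e e' a = (s, s')).card * q ^ 3 := by ring
    _ ≤ (G.card + ((Finset.univ.filter fun a => ev3 r e e' a = (s, s', τ)).card +
        (Finset.univ.filter fun a => ev3 r e' e a = (s', s, τ')).card)) * q ^ 3 := h6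
    _ = G.card * q ^ 3 + ((Finset.univ.filter fun a => ev3 r e e' a = (s, s', τ)).card *
        (q * (q * q)) + (Finset.univ.filter fun a => ev3 r e' e a = (s', s, τ')).card *
          (q * (q * q))) := by ring
    _ = G.card * q ^ 3 + 2 * q ^ (r + 1) := by rw [c3, c3']; ring

end acount

section obs

variable {F : Type} [Field F]

/-- The obstruction over a finite field: `a² - 4 b` has two simple roots `e`, `e'` such that
`A(e) A(e')` is not a square. -/
def Obs {r n : ℕ} (S : Finset (Fin n)) (u : F) (a : Fin (r + 1) → F) (c : Fin n → F) : Prop :=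
  ∃ e e' : F, ((polD u a c).eval e = 0 ∧ (derivative (polD u a c)).eval e ≠ 0) ∧
    ((polD u a c).eval e' = 0 ∧ (derivative (polD u a c)).eval e' ≠ 0) ∧
    ¬ IsSquare ((∏ l ∈ S, (e - c l)) * ∏ l ∈ S, (e' - c l))

variable [Fintype F] [DecidableEq F]

theorem polB_eval {n : ℕ} (u : F) (c : Fin n → F) (e : F) :
    (polB u c).eval e = u * ∏ l, (e - c l) := by
  unfold polB
  rw [eval_mul, eval_C, eval_prod]
  simp only [eval_sub, eval_X, eval_C]

theorem card_u (hF : ringChar F ≠ 2) {r n : ℕ} (hr : 2 ≤ r) {S : Finset (Fin n)} {e e' : F}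
    (he : e ≠ e') {c : Fin n → F}
    (h1 : quadraticChar F (∏ l ∈ S, ((e - c l) * (e' - c l))) = -1)
    (h2 : quadraticChar F (∏ l ∈ Sᶜ, ((e - c l) * (e' - c l))) = -1) {u : F}
    (hu : quadraticChar F (u * ∏ l, (e - c l)) = 1) :
    Fintype.card F * Fintype.card F ^ (r + 1) ≤
      (Finset.univ.filter fun a : Fin (r + 1) → F =>
        ((polD u a c).eval e = 0 ∧ (derivative (polD u a c)).eval e ≠ 0) ∧
        ((polD u a c).eval e' = 0 ∧ (derivative (polD u a c)).eval e' ≠ 0)).card *
          Fintype.card F ^ 3 + 2 * Fintype.card F ^ (r + 1) := by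
  have hu0 : u * ∏ l, (e - c l) ≠ 0 := by
    intro h
    rw [h, MulChar.map_zero] at hu
    exact zero_ne_one hu
  have hprod : (∏ l ∈ S, ((e - c l) * (e' - c l))) * ∏ l ∈ Sᶜ, ((e - c l) * (e' - c l)) =
      (∏ l, (e - c l)) * ∏ l, (e' - c l) := by
    rw [Finset.prod_mul_prod_compl, Finset.prod_mul_distrib]
  have hu' : quadraticChar F (u * ∏ l, (e' - c l)) = 1 := by
    have h3 : quadraticChar F ((∏ l, (e - c l)) * ∏ l, (e' - c l)) = 1 := by
      rw [← hprod, map_mul, h1, h2]; norm_num
    have h4 : quadraticChar F (u * ∏ l, (e - c l)) * quadraticChar F (u * ∏ l, (e' - c l)) =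
        quadraticChar F (u ^ 2) * quadraticChar F ((∏ l, (e - c l)) * ∏ l, (e' - c l)) := by
      rw [← map_mul, ← map_mul]
      congr 1
      ring
    rw [hu, one_mul, h3, mul_one, map_pow, quadraticChar_sq_one (left_ne_zero_of_mul hu0)] at h4
    exact h4
  have hu0' : u * ∏ l, (e' - c l) ≠ 0 := by
    intro h
    rw [h, MulChar.map_zero] at hu'
    exact zero_ne_one hu'
  have h2F : (2 : F) ≠ 0 := Ring.two_ne_zero hF
  have h4F : (4 : F) ≠ 0 := by
    have : (4 : F) = 2 ^ 2 := by norm_num
    rw [this]; exact pow_ne_zero 2 h2F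
  obtain ⟨σ, hσ⟩ := (quadraticChar_one_iff_isSquare hu0).1 hu
  obtain ⟨σ', hσ'⟩ := (quadraticChar_one_iff_isSquare hu0').1 hu'
  have hσ0 : σ ≠ 0 := by
    rintro rfl
    rw [mul_zero] at hσ
    exact hu0 hσ
  have hσ0' : σ' ≠ 0 := by
    rintro rfl
    rw [mul_zero] at hσ'
    exact hu0' hσ'
  have key : ∀ (a : Fin (r + 1) → F) (f σ : F), u * ∏ l, (f - c l) = σ * σ → σ ≠ 0 →
      (polA a).eval f = 2 * σ → (derivative (polA a)).eval f ≠ (derivative (polB u c)).eval f / σ →
      ((polD u a c).eval f = 0 ∧ (derivative (polD u a c)).eval f ≠ 0) := by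
    intro a f σ h1 h2 h3 h4
    have e4 : (4 : F[X]) = C 4 := by rw [map_ofNat]
    constructor
    · unfold polD
      rw [eval_sub, eval_pow, e4, eval_mul, eval_C, polB_eval, h1, h3]
      ring
    · intro h5
      apply h4
      unfold polD at h5
      rw [derivative_sub, derivative_pow, e4, derivative_C_mul, eval_sub, eval_mul, eval_mul,
        eval_mul, eval_C, eval_C, eval_pow, h3] at h5
      rw [eq_div_iff h2]
      apply mul_left_cancel₀ h4F
      push_cast at h5
      linear_combination h5
  refine (card_a hr he (2 * σ) (2 * σ') ((derivative (polB u c)).eval e / σ)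
    ((derivative (polB u c)).eval e' / σ')).trans ?_
  refine Nat.add_le_add_right (Nat.mul_le_mul_right _ (Finset.card_le_card ?_)) _
  intro a ha
  rw [Finset.mem_filter] at ha ⊢
  obtain ⟨-, ⟨h5, h6⟩, h7, h8⟩ := ha
  exact ⟨Finset.mem_univ _, key a e σ hσ hσ0 h5 h7, key a e' σ' hσ' hσ0' h6 h8⟩

end obs

end Pool.Agent.R939.EI
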