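import Pool.Agent.R939.EI.Den3

/-!
# Counting over finite fields, the obstruction
-/

set_option autoImplicit false
set_option linter.all false

open Polynomial
open scoped Classical

namespace Pool.Agent.R939.EI

section total

variable {F : Type} [Field F] [Fintype F]

/-- The parameters with an obstruction. -/
noncomputable def obsSet (F : Type) [Field F] [Fintype F] (r : ℕ) {n : ℕ} (S : Finset (Fin n)) :
    Finset (F × (Fin (r + 1) → F) × (Fin n → F)) :=
  Finset.univ.filter fun x => Obs S x.1 x.2.1 x.2.2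

theorem card_obs (hF : ringChar F ≠ 2) {r n : ℕ} (hr : 2 ≤ r) (hrn : 2 * r ≤ n)
    {S : Finset (Fin n)} {i j : Fin n} (hi : i ∈ S) (hj : j ∉ S) {m m' : ℕ}
    (hm : 2 * m + 3 ≤ Fintype.card F) (hm' : 2 * m' + 1 ≤ Fintype.card F) :
    (Fintype.card F * Fintype.card F - Fintype.card F) * m ^ n * m' *
      ((Fintype.card F - 2) * Fintype.card F ^ (r - 2)) ≤ n ^ 2 * (obsSet F r S).card := by
  set q := Fintype.card F with hq
  have hq0 : 0 < q := Fintype.card_pos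
  set X0 : Finset (F × F) := (Finset.univ : Finset F).offDiag with hX0
  have c0 : X0.card = q * q - q := by rw [hX0, Finset.offDiag_card, Finset.card_univ]
  set X1 := ((X0 ×ˢ Finset.univ).filter fun z : (F × F) × (Fin n → F) =>
    quadraticChar F (∏ l ∈ S, ((z.1.1 - z.2 l) * (z.1.2 - z.2 l))) = -1 ∧
      quadraticChar F (∏ l ∈ Sᶜ, ((z.1.1 - z.2 l) * (z.1.2 - z.2 l))) = -1) with hX1
  have c1 : X0.card * m ^ n ≤ X1.card := by
    refine card_pair X0 (fun (z : F × F) (c : Fin n → F) =>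
      quadraticChar F (∏ l ∈ S, ((z.1 - c l) * (z.2 - c l))) = -1 ∧
      quadraticChar F (∏ l ∈ Sᶜ, ((z.1 - c l) * (z.2 - c l))) = -1) _ ?_
    intro z hz
    rw [hX0, Finset.mem_offDiag] at hz
    exact card_roots hF hz.2.2 hi hj hm
  set X2 := ((X1 ×ˢ Finset.univ).filter fun z : ((F × F) × (Fin n → F)) × F =>
    quadraticChar F (z.2 * ∏ l, (z.1.1.1 - z.1.2 l)) = 1) with hX2
  have c2 : X1.card * m' ≤ X2.card := by
    refine card_pair X1 (fun (z : (F × F) × (Fin n → F)) (u : F) =>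
      quadraticChar F (u * ∏ l, (z.1.1 - z.2 l)) = 1) _ ?_
    intro z hz
    rw [hX1, Finset.mem_filter] at hz
    have hv : ∏ l, (z.1.1 - z.2 l) ≠ 0 := by
      intro h0
      obtain ⟨l, -, hl⟩ := Finset.prod_eq_zero_iff.1 h0
      by_cases hlS : l ∈ S
      · have : ∏ l ∈ S, ((z.1.1 - z.2 l) * (z.1.2 - z.2 l)) = 0 :=
          Finset.prod_eq_zero hlS (by rw [hl, zero_mul])
        have h3 := hz.2.1
        rw [this, MulChar.map_zero] at h3
        norm_num at h3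
      · have : ∏ l ∈ Sᶜ, ((z.1.1 - z.2 l) * (z.1.2 - z.2 l)) = 0 :=
          Finset.prod_eq_zero (Finset.mem_compl.2 hlS) (by rw [hl, zero_mul])
        have h3 := hz.2.2
        rw [this, MulChar.map_zero] at h3
        norm_num at h3
    have h4 := card_chi_mul hF hv
    have h5 : 2 * (Finset.univ.filter fun u : F =>
      quadraticChar F (u * ∏ l, (z.1.1 - z.2 l)) = 1).card + 1 = q := h4
    omega
  set X3 := ((X2 ×ˢ Finset.univ).filter
    fun z : (((F × F) × (Fin n → F)) × F) × (Fin (r + 1) → F) =>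
      ((polD z.1.2 z.2 z.1.1.2).eval z.1.1.1.1 = 0 ∧
        (derivative (polD z.1.2 z.2 z.1.1.2)).eval z.1.1.1.1 ≠ 0) ∧
      ((polD z.1.2 z.2 z.1.1.2).eval z.1.1.1.2 = 0 ∧
        (derivative (polD z.1.2 z.2 z.1.1.2)).eval z.1.1.1.2 ≠ 0)) with hX3
  have c3 : X2.card * ((q - 2) * q ^ (r - 2)) ≤ X3.card := by
    refine card_pair X2 (fun (z : ((F × F) × (Fin n → F)) × F) (a : Fin (r + 1) → F) =>
      ((polD z.2 a z.1.2).eval z.1.1.1 = 0 ∧
        (derivative (polD z.2 a z.1.2)).eval z.1.1.1 ≠ 0) ∧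
      ((polD z.2 a z.1.2).eval z.1.1.2 = 0 ∧
        (derivative (polD z.2 a z.1.2)).eval z.1.1.2 ≠ 0)) _ ?_
    intro z hz
    rw [hX2, Finset.mem_filter, Finset.mem_product] at hz
    obtain ⟨⟨hz1, -⟩, hz2⟩ := hz
    rw [hX1, Finset.mem_filter, Finset.mem_product, hX0, Finset.mem_offDiag] at hz1
    obtain ⟨⟨⟨-, -, hz3⟩, -⟩, hz4, hz5⟩ := hz1
    have h6 := card_u hF hr (S := S) hz3 hz4 hz5 hz2
    rw [← hq] at h6
    set N := (Finset.univ.filter fun a : Fin (r + 1) → F =>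
        ((polD z.2 a z.1.2).eval z.1.1.1 = 0 ∧
          (derivative (polD z.2 a z.1.2)).eval z.1.1.1 ≠ 0) ∧
        ((polD z.2 a z.1.2).eval z.1.1.2 = 0 ∧
          (derivative (polD z.2 a z.1.2)).eval z.1.1.2 ≠ 0)).card with hN
    obtain ⟨ρ, rfl⟩ := Nat.exists_eq_add_of_le hr
    have e1 : 2 + ρ - 2 = ρ := by omega
    rw [e1]
    have h7 : (q - 2) * q ^ ρ * q ^ 3 ≤ N * q ^ 3 := by
      have h8 : (q - 2) * q ^ ρ * q ^ 3 = q * q ^ (2 + ρ + 1) - 2 * q ^ (2 + ρ + 1) := by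
        rw [← Nat.sub_mul]
        ring
      rw [h8]
      omega
    exact Nat.le_of_mul_le_mul_right h7 (pow_pos hq0 3)
  have c4 : X3.card ≤ n ^ 2 * (obsSet F r S).card := by
    refine Finset.card_le_mul_card_image_of_maps_to
      (f := fun z : (((F × F) × (Fin n → F)) × F) × (Fin (r + 1) → F) =>
        (z.1.2, z.2, z.1.1.2)) ?_ (n ^ 2) ?_
    · intro z hz
      rw [Finset.mem_filter, Finset.mem_product, hX2, Finset.mem_filter, Finset.mem_product, hX1,
        Finset.mem_filter] at hz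
      obtain ⟨⟨⟨⟨hz1, -⟩, -⟩, -⟩, hz2, hz3⟩ := hz
      rw [obsSet, Finset.mem_filter]
      refine ⟨Finset.mem_univ _, z.1.1.1.1, z.1.1.1.2, hz2, hz3, ?_⟩
      have h5 := hz1.2.1
      rw [Finset.prod_mul_distrib] at h5
      exact quadraticChar_neg_one_iff_not_isSquare.1 h5
    · rintro ⟨u, a, c⟩ -
      set Rt := (polD u a c).roots.toFinset with hRt
      have h5 : Rt.card ≤ n :=
        (Multiset.toFinset_card_le _).trans ((card_roots' _).trans (polD_natDegree hrn u a c))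
      have h6 : (Finset.filter (fun z : (((F × F) × (Fin n → F)) × F) × (Fin (r + 1) → F) =>
          (z.1.2, z.2, z.1.1.2) = (u, a, c)) X3).card ≤ (Rt ×ˢ Rt).card := by
        apply Finset.card_le_card_of_injOn (fun z => z.1.1.1)
        · rintro ⟨⟨⟨⟨e, e'⟩, c'⟩, u'⟩, a'⟩ hz
          rw [Finset.mem_coe, Finset.mem_filter, Finset.mem_filter] at hz
          obtain ⟨⟨-, hz2, hz3⟩, hz4⟩ := hz
          simp only [Prod.mk.injEq] at hz4 hz2 hz3
          obtain ⟨rfl, rfl, rfl⟩ := hz4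
          have hne : polD u' a' c' ≠ 0 := by
            intro h0
            rw [h0, derivative_zero, eval_zero] at hz2
            exact hz2.2 rfl
          rw [Finset.mem_coe, Finset.mem_product, hRt, Multiset.mem_toFinset,
            Multiset.mem_toFinset, mem_roots hne, mem_roots hne]
          exact ⟨hz2.1, hz3.1⟩
        · rintro ⟨⟨⟨⟨e, e'⟩, c'⟩, u'⟩, a'⟩ hz ⟨⟨⟨⟨e2, e2'⟩, c2⟩, u2⟩, a2⟩ hz2 h
          rw [Finset.mem_coe, Finset.mem_filter] at hz hz2
          have h7 := hz.2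
          have h8 := hz2.2
          simp only [Prod.mk.injEq] at h7 h8 h
          obtain ⟨rfl, rfl, rfl⟩ := h7
          obtain ⟨rfl, rfl, rfl⟩ := h8
          obtain ⟨rfl, rfl⟩ := h
          rfl
      refine h6.trans ?_
      rw [Finset.card_product, pow_two]
      exact Nat.mul_le_mul h5 h5
  calc (q * q - q) * m ^ n * m' * ((q - 2) * q ^ (r - 2))
      = X0.card * m ^ n * m' * ((q - 2) * q ^ (r - 2)) := by rw [c0]
    _ ≤ X1.card * m' * ((q - 2) * q ^ (r - 2)) :=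
        Nat.mul_le_mul_right _ (Nat.mul_le_mul_right _ c1)
    _ ≤ X2.card * ((q - 2) * q ^ (r - 2)) := Nat.mul_le_mul_right _ c2
    _ ≤ X3.card := c3
    _ ≤ _ := c4

/-- **The proportion of the parameters with an obstruction.** -/
theorem card_obs_real (hF : ringChar F ≠ 2) (h7 : 7 ≤ Fintype.card F) {r n : ℕ} (hr : 2 ≤ r)
    (hrn : 2 * r ≤ n) {S : Finset (Fin n)} {i j : Fin n} (hi : i ∈ S) (hj : j ∉ S) :
    (Fintype.card F : ℝ) ^ (n + r + 2) ≤ 4 ^ (n + 2) * (n : ℝ) ^ 2 * ((obsSet F r S).card : ℝ) := by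
  set q := Fintype.card F with hq
  have hodd : q % 2 = 1 := FiniteField.odd_card_of_char_ne_two hF
  obtain ⟨m, hm⟩ : ∃ m, q = 2 * m + 3 := ⟨(q - 3) / 2, by omega⟩
  have h1 := card_obs hF hr hrn hi hj (m := m) (m' := m + 1) (by omega) (by omega)
  rw [← hq] at h1
  have h2 : (((q * q - q) * m ^ n * (m + 1) * ((q - 2) * q ^ (r - 2)) : ℕ) : ℝ) ≤
      ((n ^ 2 * (obsSet F r S).card : ℕ) : ℝ) := by exact_mod_cast h1
  have e1 : q * q - q = q * (q - 1) := by rw [Nat.mul_sub_one]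
  rw [e1] at h2
  have hq1 : ((q - 1 : ℕ) : ℝ) = (q : ℝ) - 1 := by rw [Nat.cast_sub (by omega)]; norm_num
  have hq2 : ((q - 2 : ℕ) : ℝ) = (q : ℝ) - 2 := by rw [Nat.cast_sub (by omega)]; norm_num
  push_cast at h2
  rw [hq1, hq2] at h2
  have hqm : (q : ℝ) = 2 * m + 3 := by rw [hm]; push_cast; ring
  have hm2 : (2 : ℝ) ≤ m := by
    have : 2 ≤ m := by omega
    exact_mod_cast this
  have b1 : (q : ℝ) / 2 ≤ (q : ℝ) - 1 := by rw [hqm]; linarith
  have b2 : (q : ℝ) / 2 ≤ (q : ℝ) - 2 := by rw [hqm]; linarith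
  have b3 : (q : ℝ) / 4 ≤ (m : ℝ) := by rw [hqm]; linarith
  have b4 : (q : ℝ) / 4 ≤ (m : ℝ) + 1 := by linarith
  have hq0 : (0 : ℝ) < q := by rw [hqm]; linarith
  obtain ⟨ρ, rfl⟩ := Nat.exists_eq_add_of_le hr
  have e2 : 2 + ρ - 2 = ρ := by omega
  rw [e2] at h2
  have h3 : (q : ℝ) * (q / 2) * (q / 4) ^ n * (q / 4) * ((q / 2) * q ^ ρ) ≤
      (q : ℝ) * ((q : ℝ) - 1) * (m : ℝ) ^ n * ((m : ℝ) + 1) * (((q : ℝ) - 2) * (q : ℝ) ^ ρ) := by
    have c1 : (q : ℝ) * (q / 2) ≤ (q : ℝ) * ((q : ℝ) - 1) :=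
      mul_le_mul_of_nonneg_left b1 hq0.le
    have c2 : ((q : ℝ) / 4) ^ n ≤ (m : ℝ) ^ n := pow_le_pow_left₀ (by positivity) b3 n
    have c3 : ((q : ℝ) / 2) * (q : ℝ) ^ ρ ≤ ((q : ℝ) - 2) * (q : ℝ) ^ ρ :=
      mul_le_mul_of_nonneg_right b2 (by positivity)
    have p1 : (0 : ℝ) ≤ (q : ℝ) - 1 := by linarith
    have p2 : (0 : ℝ) ≤ (q : ℝ) - 2 := by linarith
    refine mul_le_mul (mul_le_mul (mul_le_mul c1 c2 (by positivity) (by positivity)) b4
      (by positivity) (by positivity)) c3 (by positivity) (by positivity)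
  have h4 : (q : ℝ) * (q / 2) * (q / 4) ^ n * (q / 4) * ((q / 2) * q ^ ρ) =
      (q : ℝ) ^ (n + (2 + ρ) + 2) / 4 ^ (n + 2) := by
    rw [div_pow, eq_div_iff (by positivity)]
    field_simp
    ring
  have h5 := h3.trans h2
  rw [h4, div_le_iff₀ (by positivity)] at h5
  calc (q : ℝ) ^ (n + (2 + ρ) + 2) ≤ (n : ℝ) ^ 2 * ((obsSet F (2 + ρ) S).card : ℝ) * 4 ^ (n + 2) := h5
    _ = _ := by ring

end total

end Pool.Agent.R939.EI
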