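import Pool.Agent.R939.EI.Fam1

/-!
# Residues and specialization of the conics
-/

set_option autoImplicit false
set_option linter.all false

open Polynomial
open scoped Classical

namespace Pool.Agent.R939.EI

section residue

variable {k : Type} [Field k]

/-- Nonsquares modulo `ρ`. -/
theorem nsq_mod {ρ g : k[X]} (hρ : Irreducible ρ) (hn : ∀ h, ¬ ρ ∣ g - h ^ 2) (x y : k[X])
    (hy : ¬ ρ ∣ y) : ¬ ρ ∣ x ^ 2 - g * y ^ 2 := by
  intro h
  obtain ⟨s, t, hst⟩ := (hρ.coprime_iff_not_dvd).2 hy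
  apply hn (x * t)
  have e : g - (x * t) ^ 2 = -(x ^ 2 - g * y ^ 2) * t ^ 2 + g * (1 + t * y) * (1 - t * y) := by
    ring
  rw [e]
  refine dvd_add ((dvd_neg.2 h).mul_right _) ?_
  have e2 : 1 - t * y = s * ρ := by rw [← hst]; ring
  rw [e2]
  exact (Dvd.intro_left s rfl).mul_left _

/-- The residue of a conic. -/
theorem res0 {ρ g δ x y z : k[X]} {m : ℕ} (hρ : Irreducible ρ) (hδ : ¬ ρ ∣ δ) (hg : g ≠ 0)
    (h : ρ ^ (2 * m + 1) * δ * z ^ 2 = x ^ 2 - g * y ^ 2) (h0 : x ≠ 0 ∨ y ≠ 0) :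
    ∃ r, ρ ∣ g - r ^ 2 := by
  by_contra hcon
  push Not at hcon
  have hp := hρ.prime
  have h1 : (ρ * δ) * (ρ ^ m * z) ^ 2 = x ^ 2 - g * y ^ 2 := by
    rw [← h]; ring
  have h3 := noSol' hp (dvd_mul_right ρ δ) (by
    rintro ⟨f, hf⟩
    apply hδ
    refine ⟨f, ?_⟩
    apply mul_left_cancel₀ hp.ne_zero
    rw [hf]; ring) (nsq_mod hρ hcon) h1
  rw [h3, zero_pow two_ne_zero, mul_zero] at h1
  have h4 : x ^ 2 = g * y ^ 2 := (sub_eq_zero.1 h1.symm)
  have hy : y ≠ 0 := by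
    rintro rfl
    rw [zero_pow two_ne_zero, mul_zero] at h4
    have := pow_eq_zero_iff two_ne_zero |>.1 h4
    exact h0.elim (fun h => h this) (fun h => h rfl)
  have h5 : y ^ 2 ∣ x ^ 2 := ⟨g, by rw [h4]; ring⟩
  rw [IsIntegrallyClosed.pow_dvd_pow_iff two_ne_zero] at h5
  obtain ⟨r, rfl⟩ := h5
  apply hcon r
  have : g = r ^ 2 := by
    apply mul_right_cancel₀ (pow_ne_zero 2 hy)
    rw [← h4]; ring
  rw [this, sub_self]
  exact dvd_zero _

/-- If `ε A` is a norm from `k(t)(√d)`, then it is a square modulo `ρ`. -/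
theorem Splits.sq_mod {ρ δ d A : k[X]} {ε : k} {m : ℕ} (h : Splits d ε A) (hε : ε ≠ 0) (hA : A ≠ 0)
    (hρ : Irreducible ρ) (hd : d = ρ ^ (2 * m + 1) * δ) (hδ : ¬ ρ ∣ δ) :
    ∃ r, ρ ∣ C ε * A - r ^ 2 := by
  obtain ⟨x, y, z, hz, e⟩ := h
  refine res0 (m := m) (g := C ε * A) (x := x) (y := z) (z := y) hρ hδ
    (mul_ne_zero (C_ne_zero.2 hε) hA) ?_ (Or.inr hz)
  rw [← hd]
  linear_combination e

end residue

section special

variable {R : Type} [CommRing R] [IsDomain R] [IsDiscreteValuationRing R]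
  {k : Type} [Field k] [Algebra R k] [IsFractionRing R k]

theorem clear_den (p : k[X]) : ∃ (r : R) (q : R[X]), r ≠ 0 ∧
    q.map (algebraMap R k) = C (algebraMap R k r) * p := by
  obtain ⟨b, hb, hb'⟩ := IsLocalization.integerNormalization_spec (nonZeroDivisors R) p
  refine ⟨b, IsLocalization.integerNormalization (nonZeroDivisors R) p,
    nonZeroDivisors.ne_zero hb, ?_⟩
  rw [hb']
  ext i
  rw [coeff_smul, coeff_C_mul, Algebra.smul_def]

theorem dec_eps {ϖ : R} (hϖ : Irreducible ϖ) {ε : k} (hε : ε ≠ 0) :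
    ∃ (g : k) (u : R), g ≠ 0 ∧ IsUnit u ∧
      (ε = g ^ 2 * algebraMap R k u ∨ ε = g ^ 2 * algebraMap R k (u * ϖ)) := by
  obtain ⟨p, q, hq, rfl⟩ := IsFractionRing.div_surjective (A := R) ε
  have hq0 : q ≠ 0 := nonZeroDivisors.ne_zero hq
  have hp0 : p ≠ 0 := by
    rintro rfl
    simp at hε
  have hqk : algebraMap R k q ≠ 0 := by simpa using hq0
  have hϖk : algebraMap R k ϖ ≠ 0 := by simpa using hϖ.ne_zero
  obtain ⟨n, u, hu⟩ := IsDiscreteValuationRing.eq_unit_mul_pow_irreducible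
    (mul_ne_zero hp0 hq0) hϖ
  have e : algebraMap R k p / algebraMap R k q =
      algebraMap R k (p * q) / algebraMap R k q ^ 2 := by
    rw [map_mul]
    field_simp
  rcases Nat.even_or_odd' n with ⟨m, rfl | rfl⟩
  · refine ⟨algebraMap R k ϖ ^ m / algebraMap R k q, u, div_ne_zero (pow_ne_zero _ hϖk) hqk,
      u.isUnit, Or.inl ?_⟩
    rw [e, hu, map_mul, map_pow]
    field_simp
    ring
  · refine ⟨algebraMap R k ϖ ^ m / algebraMap R k q, u, div_ne_zero (pow_ne_zero _ hϖk) hqk,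
      u.isUnit, Or.inr ?_⟩
    rw [e, hu, map_mul, map_pow, map_mul]
    field_simp
    ring

/-- Solutions which do not vanish at the place. -/
theorem prim_sol {ϖ : R} (hϖ : Irreducible ϖ) {e d : R[X]}
    (hsq : ∀ x y, ¬ C ϖ ∣ y → ¬ C ϖ ∣ x ^ 2 - d * y ^ 2) (n : ℕ) :
    ∀ x y z z' : R[X], z = C ϖ ^ n * z' → ¬ C ϖ ∣ z' → e * z ^ 2 = x ^ 2 - d * y ^ 2 →
      ∃ x y z : R[X], ¬ C ϖ ∣ z ∧ e * z ^ 2 = x ^ 2 - d * y ^ 2 := by
  have hp : Prime (C ϖ : R[X]) := primeC hϖ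
  induction n with
  | zero =>
    intro x y z z' h h' h1
    rw [pow_zero, one_mul] at h
    exact ⟨x, y, z', h', by rw [← h]; exact h1⟩
  | succ n ih =>
    intro x y z z' h h' h1
    have h3 : C ϖ ∣ x ^ 2 - d * y ^ 2 := by
      rw [← h1, h, pow_succ']
      exact ⟨e * C ϖ * (C ϖ ^ n * z') ^ 2, by ring⟩
    have hy : C ϖ ∣ y := by
      by_contra hy
      exact hsq x y hy h3
    have hx : C ϖ ∣ x := by
      apply hp.dvd_of_dvd_pow (n := 2)
      have : x ^ 2 = (x ^ 2 - d * y ^ 2) + d * y * y := by ring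
      rw [this]
      exact dvd_add h3 (hy.mul_left _)
    obtain ⟨x', rfl⟩ := hx
    obtain ⟨y', rfl⟩ := hy
    refine ih x' y' (C ϖ ^ n * z') z' rfl h' ?_
    apply mul_left_cancel₀ (pow_ne_zero 2 hp.ne_zero)
    rw [h] at h1
    linear_combination h1

/-- **Specialization of the conics.** -/
theorem spec {ϖ : R} (hϖ : Irreducible ϖ) {d A : R[X]} {ε : k} (hε : ε ≠ 0)
    (hd : ∀ r : (IsLocalRing.ResidueField R)[X], r ^ 2 ≠ d.map (IsLocalRing.residue R))
    (hA : A.map (IsLocalRing.residue R) ≠ 0)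
    (h : Splits (d.map (algebraMap R k)) ε (A.map (algebraMap R k))) :
    ∃ (g : k) (u : R), g ≠ 0 ∧ IsUnit u ∧ ε = g ^ 2 * algebraMap R k u ∧
      Splits (d.map (IsLocalRing.residue R)) (IsLocalRing.residue R u)
        (A.map (IsLocalRing.residue R)) := by
  have hp : Prime (C ϖ : R[X]) := primeC hϖ
  have hsq := fun x y => nonsq hϖ (δ := d) hd x y
  have inj := IsFractionRing.injective R k
  have injP := Polynomial.map_injective (algebraMap R k) inj
  obtain ⟨g, u, hg, hu, hε'⟩ := dec_eps (k := k) hϖ hε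
  obtain ⟨x, y, z, hz, e⟩ := h
  have hgP : (C g : k[X]) ≠ 0 := C_ne_zero.2 hg
  obtain ⟨r1, x1, hr1, hx1⟩ := clear_den (R := R) x
  obtain ⟨r2, y1, hr2, hy1⟩ := clear_den (R := R) y
  obtain ⟨r3, z1, hr3, hz1⟩ := clear_den (R := R) (C g * z)
  have hr1k : algebraMap R k r1 ≠ 0 := by simpa using hr1
  have hr2k : algebraMap R k r2 ≠ 0 := by simpa using hr2
  have hr3k : algebraMap R k r3 ≠ 0 := by simpa using hr3
  have key : ∀ η : R, ε = g ^ 2 * algebraMap R k η →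
      C η * A * (C (r1 * r2) * z1) ^ 2 = (C (r2 * r3) * x1) ^ 2 - d * (C (r1 * r3) * y1) ^ 2 := by
    intro η hη
    apply injP
    simp only [Polynomial.map_mul, Polynomial.map_pow, Polynomial.map_sub, map_C, hx1, hy1, hz1,
      map_mul, C_mul]
    rw [hη] at e
    rw [C_mul, C_pow] at e
    linear_combination (C (algebraMap R k r1) ^ 2 * C (algebraMap R k r2) ^ 2 *
      C (algebraMap R k r3) ^ 2) * e
  have hz1' : z1 ≠ 0 := by
    rintro rfl
    rw [Polynomial.map_zero] at hz1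
    exact mul_ne_zero (C_ne_zero.2 hr3k) (mul_ne_zero hgP hz) hz1.symm
  have hzz : C (r1 * r2) * z1 ≠ 0 := mul_ne_zero (C_ne_zero.2 (mul_ne_zero hr1 hr2)) hz1'
  have hA' : ¬ C ϖ ∣ A := fun h => hA ((C_dvd_res hϖ A).1 h)
  have hu' : ¬ C ϖ ∣ (C u : R[X]) := fun h => hp.not_unit (isUnit_of_dvd_unit h (isUnit_C.2 hu))
  have huA : ¬ C ϖ ∣ C u * A := fun h => (hp.dvd_or_dvd h).elim hu' hA'
  rcases hε' with h1 | h1
  · refine ⟨g, u, hg, hu, h1, ?_⟩
    obtain ⟨n, z', hz', hzn⟩ : ∃ (n : ℕ) (z' : R[X]), ¬ C ϖ ∣ z' ∧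
        C (r1 * r2) * z1 = C ϖ ^ n * z' := by
      obtain ⟨n, z', h3, h4⟩ := WfDvdMonoid.max_power_factor hzz hp.irreducible
      exact ⟨n, z', h3, h4⟩
    obtain ⟨x3, y3, z3, hz3, e3⟩ := prim_sol hϖ hsq n _ _ _ z' hzn hz' (key u h1)
    refine ⟨x3.map (IsLocalRing.residue R), y3.map (IsLocalRing.residue R),
      z3.map (IsLocalRing.residue R), fun h => hz3 ((C_dvd_res hϖ _).2 h), ?_⟩
    have := congrArg (Polynomial.map (IsLocalRing.residue R)) e3
    simpa only [Polynomial.map_mul, Polynomial.map_pow, Polynomial.map_sub, map_C] using this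
  · exfalso
    apply hzz
    refine noSol' (e := C (u * ϖ) * A) hp ?_ ?_ hsq (key (u * ϖ) h1)
    · rw [C_mul]
      exact ⟨C u * A, by ring⟩
    · rintro ⟨f, hf⟩
      apply huA
      refine ⟨f, ?_⟩
      apply mul_left_cancel₀ hp.ne_zero
      rw [C_mul] at hf
      linear_combination hf

end special

end Pool.Agent.R939.EI
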