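import Pool.Agent.R939.EI.Den4
import Pool.Agent.R939.EI.Fam2

/-!
# The obstruction at a prime number
-/

set_option autoImplicit false
set_option linter.all false

open Polynomial
open scoped Classical

namespace Pool.Agent.R939.EI

section local_

theorem Splits.map {k k' : Type} [Field k] [Field k'] (f : k →+* k') {d A : k[X]} {ε : k}
    (h : Splits d ε A) : Splits (d.map f) (f ε) (A.map f) := by
  obtain ⟨x, y, z, hz, e⟩ := h
  refine ⟨x.map f, y.map f, z.map f, (Polynomial.map_ne_zero_iff f.injective).2 hz, ?_⟩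
  have := congrArg (Polynomial.map f) e
  simpa only [Polynomial.map_mul, Polynomial.map_pow, Polynomial.map_sub, map_C] using this

/-- The value at a simple root. -/
theorem Splits.sq_at {k : Type} [Field k] {d A : k[X]} {ε e : k} (h : Splits d ε A) (hε : ε ≠ 0)
    (hA : A ≠ 0) (h1 : d.eval e = 0) (h2 : (derivative d).eval e ≠ 0) :
    ∃ g : k, ε * A.eval e = g ^ 2 := by
  obtain ⟨δ, hδ⟩ := dvd_iff_isRoot.2 h1
  have hnd : ¬ (X - C e) ∣ δ := by
    rintro ⟨f, rfl⟩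
    apply h2
    rw [hδ]
    simp
  obtain ⟨r, hr⟩ := h.sq_mod hε hA (irreducible_X_sub_C e) (m := 0) (δ := δ)
    (by rw [hδ]; ring) hnd
  rw [dvd_iff_isRoot, IsRoot, eval_sub, eval_mul, eval_C, eval_pow, sub_eq_zero] at hr
  exact ⟨r.eval e, hr⟩

theorem eval_prod_sub {κ : Type} [Field κ] {n : ℕ} (S : Finset (Fin n)) (c : Fin n → κ) (x : κ) :
    (∏ l ∈ S, (X - C (c l))).eval x = ∏ l ∈ S, (x - c l) := by
  rw [eval_prod]
  simp only [eval_sub, eval_X, eval_C]

theorem map_prod_sub {R R' : Type} [CommRing R] [CommRing R'] (f : R →+* R') {n : ℕ}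
    (S : Finset (Fin n)) (c : Fin n → ℤ) :
    (∏ l ∈ S, (X - C ((c l : ℤ) : R))).map f = ∏ l ∈ S, (X - C ((c l : ℤ) : R')) := by
  rw [Polynomial.map_prod]
  refine Finset.prod_congr rfl fun l _ => ?_
  rw [Polynomial.map_sub, map_X, map_C, map_intCast]

theorem map_polD {R R' : Type} [CommRing R] [CommRing R'] (f : R →+* R') {r n : ℕ} (u : ℤ)
    (a : Fin (r + 1) → ℤ) (c : Fin n → ℤ) :
    (polD (u : R) (fun j => (a j : R)) (fun j => (c j : R))).map f =
      polD (u : R') (fun j => (a j : R')) (fun j => (c j : R')) := by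
  rw [polD_map]
  simp only [map_intCast]

theorem Obs.not_splits_gen {R K' κ : Type} [CommRing R] [IsDomain R] [IsDiscreteValuationRing R]
    [Field K'] [Algebra R K'] [IsFractionRing R K'] [Field κ] {ϖ : R} (hϖ : Irreducible ϖ)
    (φ : IsLocalRing.ResidueField R →+* κ) (f : ℚ →+* K') {r n : ℕ} {S : Finset (Fin n)} {u : ℤ}
    {a : Fin (r + 1) → ℤ} {c : Fin n → ℤ}
    (h : Obs S (u : κ) (fun j => (a j : κ)) (fun j => (c j : κ))) {ε : ℚ}
    (hε : ε ≠ 0)
    (hs : Splits (polD (u : ℚ) (fun j => (a j : ℚ)) (fun j => (c j : ℚ))) ε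
      (∏ l ∈ S, (X - C ((c l : ℤ) : ℚ)))) : False := by
  obtain ⟨e, e', ⟨h1, h2⟩, ⟨h3, h4⟩, h5⟩ := h
  have hs1 := hs.map f
  rw [map_polD, map_prod_sub, ← map_polD (algebraMap R K'), ← map_prod_sub (algebraMap R K')] at hs1
  have hAm : ((∏ l ∈ S, (X - C ((c l : ℤ) : R))).map (IsLocalRing.residue R)) ≠ 0 := by
    rw [map_prod_sub]
    exact Finset.prod_ne_zero_iff.2 fun l _ => X_sub_C_ne_zero _
  have hfe : f ε ≠ 0 := by rwa [_root_.map_ne_zero]
  obtain ⟨g, v, hg, hv, -, hs2⟩ := spec (k := K') (R := R) hϖ hfe (by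
      intro r hr
      have h6 := congrArg (Polynomial.map φ) hr
      rw [Polynomial.map_map, map_polD, Polynomial.map_pow] at h6
      rw [← h6, eval_pow, pow_eq_zero_iff two_ne_zero] at h1
      apply h2
      rw [← h6, derivative_pow, eval_mul, eval_mul, eval_pow, h1]
      simp) hAm hs1
  have hs3 := hs2.map φ
  rw [Polynomial.map_map, Polynomial.map_map, map_polD, map_prod_sub] at hs3
  have hv0 : φ (IsLocalRing.residue R v) ≠ 0 := by
    rw [_root_.map_ne_zero]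
    exact (hv.map (IsLocalRing.residue R)).ne_zero
  have hA0 : (∏ l ∈ S, (X - C ((c l : ℤ) : κ))) ≠ 0 :=
    Finset.prod_ne_zero_iff.2 fun l _ => X_sub_C_ne_zero _
  obtain ⟨g1, hg1⟩ := hs3.sq_at hv0 hA0 h1 h2
  obtain ⟨g2, hg2⟩ := hs3.sq_at hv0 hA0 h3 h4
  rw [eval_prod_sub] at hg1 hg2
  apply h5
  refine ⟨g1 * g2 / φ (IsLocalRing.residue R v), ?_⟩
  set w := φ (IsLocalRing.residue R v) with hw
  field_simp
  linear_combination hg1 * (w * ∏ l ∈ S, (e' - ((c l : ℤ) : κ))) + g1 ^ 2 * hg2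

theorem Obs.not_splits {p : ℕ} [Fact p.Prime] {r n : ℕ} {S : Finset (Fin n)} {u : ℤ}
    {a : Fin (r + 1) → ℤ} {c : Fin n → ℤ}
    (h : Obs S (u : ZMod p) (fun j => (a j : ZMod p)) (fun j => (c j : ZMod p))) {ε : ℚ}
    (hε : ε ≠ 0)
    (hs : Splits (polD (u : ℚ) (fun j => (a j : ℚ)) (fun j => (c j : ℚ))) ε
      (∏ l ∈ S, (X - C ((c l : ℤ) : ℚ)))) : False :=
  Obs.not_splits_gen (R := ℤ_[p]) (K' := ℚ_[p]) PadicInt.irreducible_p
    (PadicInt.residueField (p := p)).toRingHom (algebraMap ℚ ℚ_[p]) h hε hs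

end local_

end Pool.Agent.R939.EI
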