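import Pool.Agent.R939.EI.Gen5

/-!
# Almost all surfaces over a number field
-/

set_option autoImplicit false
set_option linter.all false

open Polynomial IsDedekindDomain WeierstrassCurve WeierstrassCurve.Affine NumberField
open scoped Classical

namespace Pool.Agent.R939.EI

open Pool.Agent.TH115.GD

section prime

variable {O J : Type} [CommRing O] [IsDomain O] [CharZero O] [Fintype J]
  (B : Module.Basis J ℤ O)

theorem basis_elt (x : O) : x = elt B fun t => B.repr x t := by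
  conv_lhs => rw [← B.sum_repr x]
  rw [elt]
  exact Finset.sum_congr rfl fun t _ => zsmul_eq_mul _ _

theorem repr_elt (z : J → ℤ) (t : J) : B.repr (elt B z) t = z t := by
  have : elt B z = ∑ t, z t • B t := by
    rw [elt]
    exact Finset.sum_congr rfl fun t _ => (zsmul_eq_mul _ _).symm
  rw [this, B.repr_sum_self]

include B in
theorem exists_prime_ideal {p : ℕ} (hp : p.Prime) :
    ∃ P : Ideal O, P.IsMaximal ∧ P ≠ ⊥ ∧ (p : O) ∈ P := by
  have h1 : Ideal.span {(p : O)} ≠ ⊤ := by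
    intro h
    rw [Ideal.span_singleton_eq_top] at h
    obtain ⟨t⟩ : Nonempty J := by
      by_contra hne
      rw [not_nonempty_iff] at hne
      have := basis_elt B (1 : O)
      rw [elt, Fintype.sum_empty] at this
      exact one_ne_zero this
    obtain ⟨y, hy⟩ := h.dvd (a := B t)
    have h3 : B t = (p : ℤ) • y := by rw [hy, zsmul_eq_mul, Int.cast_natCast]
    have h4 := congrArg (fun x => B.repr x t) h3
    simp only [Module.Basis.repr_self, Finsupp.single_eq_same, map_smul, Finsupp.smul_apply,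
      smul_eq_mul] at h4
    have h5 : (p : ℤ) ∣ 1 := ⟨_, h4⟩
    have h6 : p ∣ 1 := by exact_mod_cast h5
    exact hp.one_lt.ne' (Nat.dvd_one.1 h6)
  obtain ⟨P, hP, hle⟩ := Ideal.exists_le_maximal _ h1
  have hpP : (p : O) ∈ P := hle (Ideal.mem_span_singleton_self _)
  refine ⟨P, hP, ?_, hpP⟩
  rintro rfl
  rw [Ideal.mem_bot] at hpP
  exact hp.ne_zero (by exact_mod_cast hpP)

end prime

section main

variable {k k' K F : Type} [Field k] [Field k'] [Algebra k k'] [Field K] [Algebra k[X] K]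
    [Field F] [Algebra k'[X] F] [IsFractionRing k'[X] F] [Algebra K F]

/-- The Tate conjecture at 2 for all the quadratic twists by constants and all the base changes of odd
degree with inert bad places of `y² = x (x² + a x + b)`: for every `D ≠ 0` in `k` and every polynomial
`h` over `k` of odd degree such that the irreducible divisors of `b (a² - 4 b)` remain irreducible
after the substitution `t ↦ h(t)`, the Tate conjecture at 2 holds for
`y² = x (x² + D a(h(t)) x + D² b(h(t)))`. -/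
def TateTC (k' K F : Type) {k : Type} [Field k] [Field k'] [Field K] [Algebra k[X] K]
    [Field F] [Algebra k'[X] F] [IsFractionRing k'[X] F] [Algebra K F] (a b : k[X]) : Prop :=
  ∀ (D : k) (h : k[X]), D ≠ 0 → Odd h.natDegree →
    (∀ π : k[X], Irreducible π → π ∣ b * (a ^ 2 - 4 * b) → Irreducible (π.comp h)) →
    TateAtTwo (F := F) k' (crvT (algebraMap k[X] K ((C D * a).comp h))
      (algebraMap k[X] K ((C (D ^ 2) * b).comp h)))

theorem tateTC_of_obs [NumberField k] (hT : IsTower k k' K F) {r s : ℕ} {m : Fin s → ℕ}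
    {a : Fin (r + 1) → 𝓞 k} {β : (i : Fin s) → Fin (m i + 1) → 𝓞 k}
    (hq : ∀ i, Irreducible (polA fun j => algebraMap (𝓞 k) k (β i j)))
    (hirr : Irreducible (polE (fun j => algebraMap (𝓞 k) k (a j))
      (fun i j => algebraMap (𝓞 k) k (β i j))))
    (hNb : NotNorm (polP fun i j => algebraMap (𝓞 k) k (β i j)))
    (hNd : NotNorm (polE (fun j => algebraMap (𝓞 k) k (a j))
      (fun i j => algebraMap (𝓞 k) k (β i j))))
    (hS : ∀ S : Finset (Fin s), S ≠ ∅ → S ≠ Finset.univ → ∃ P : Ideal (𝓞 k), P.IsMaximal ∧ P ≠ ⊥ ∧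
      ObsG S (fun j => Ideal.Quotient.mk P (a j)) (fun i j => Ideal.Quotient.mk P (β i j))) :
    TateTC k' K F (polA fun j => algebraMap (𝓞 k) k (a j))
      (polP fun i j => algebraMap (𝓞 k) k (β i j)) := by
  intro D h hD hodd hi
  refine family_gen hT two_ne_zero hq hirr hNb hNd ?_ hD hodd ?_
  · intro S h0 h1 ε hε hs
    obtain ⟨P, hP1, hP2, hO⟩ := hS S h0 h1
    haveI := hP1
    exact ObsG.not_splits P hP2 hO hε hs
  · intro π hπ hdv
    have h3 := hi π hπ hdv
    exact ⟨h3, h3.separable⟩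

/-- **Almost all surfaces.** -/
theorem density_nf [NumberField k] (hT : IsTower k k' K F) {J : Type} [Fintype J]
    (B : Module.Basis J ℤ (𝓞 k)) {r s : ℕ} (m : Fin s → ℕ) (hr : 2 ≤ r) (hm : ∀ i, 1 ≤ m i)
    {η : ℝ} (hη : 0 < η) : ∃ H0 : ℕ, ∀ H : ℕ, H0 ≤ H →
    (({x : (Fin (r + 1) → 𝓞 k) × ((i : Fin s) → Fin (m i + 1) → 𝓞 k) |
      ((∀ j t, |B.repr (x.1 j) t| ≤ (H : ℤ)) ∧ ∀ i j t, |B.repr (x.2 i j) t| ≤ (H : ℤ)) ∧
      (∀ i, Irreducible (polA fun j => algebraMap (𝓞 k) k (x.2 i j))) ∧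
      Irreducible (polE (fun j => algebraMap (𝓞 k) k (x.1 j))
        (fun i j => algebraMap (𝓞 k) k (x.2 i j))) ∧
      NotNorm (polP fun i j => algebraMap (𝓞 k) k (x.2 i j)) ∧
      NotNorm (polE (fun j => algebraMap (𝓞 k) k (x.1 j))
        (fun i j => algebraMap (𝓞 k) k (x.2 i j))) ∧
      ¬ TateTC k' K F (polA fun j => algebraMap (𝓞 k) k (x.1 j))
        (polP fun i j => algebraMap (𝓞 k) k (x.2 i j))}.ncard : ℕ) : ℝ) ≤
      η * (2 * H + 1) ^ (Fintype.card J * (r + 1 + ∑ i, (m i + 1))) := by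
  set N := Fintype.card (IdxG r m × J) with hN
  have hNe : N = Fintype.card J * (r + 1 + ∑ i, (m i + 1)) := by
    rw [hN, Fintype.card_prod, card_idxG, Nat.mul_comm]
  rw [← hNe]
  set Y := fun (S : Finset (Fin s)) (H : ℕ) => {x : IdxG r m × J → ℤ | (∀ i, |x i| ≤ (H : ℤ)) ∧
    ∀ p, p.Prime → 7 ≤ p → (fun i => (x i : ZMod p)) ∉ omegaG B r m S p} with hY
  set T : Finset (Finset (Fin s)) := Finset.univ.filter fun S => S ≠ ∅ ∧ S ≠ Finset.univ with hTT
  set ψ : (IdxG r m × J → ℤ) →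
      (Fin (r + 1) → 𝓞 k) × ((i : Fin s) → Fin (m i + 1) → 𝓞 k) := fun y =>
    (fun j => elt B fun t => y (Sum.inl j, t), fun i j => elt B fun t => y (Sum.inr ⟨i, j⟩, t))
    with hψ
  have hM0 : (0 : ℝ) < ((2 * r + ∑ i, m i : ℕ) : ℝ) := by
    have : 0 < 2 * r + ∑ i, m i := by omega
    exact_mod_cast this
  have hη' : 0 < η / (T.card + 1) := by positivity
  have hδ0 : (0 : ℝ) < 1 / (4 * 9 ^ s * ((2 * r + ∑ i, m i : ℕ) : ℝ) ^ 2) := by positivity
  have hδ1 : 1 / (4 * 9 ^ s * ((2 * r + ∑ i, m i : ℕ) : ℝ) ^ 2) ≤ 1 := by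
    rw [div_le_one (by positivity)]
    have h3 : (1 : ℝ) ≤ 9 ^ s := one_le_pow₀ (by norm_num)
    have h5 : (1 : ℝ) ≤ ((2 * r + ∑ i, m i : ℕ) : ℝ) := by
      have : 1 ≤ 2 * r + ∑ i, m i := by omega
      exact_mod_cast this
    have h4 : (1 : ℝ) ≤ ((2 * r + ∑ i, m i : ℕ) : ℝ) ^ 2 := one_le_pow₀ h5
    nlinarith
  have hsieve : ∀ S ∈ T, ∃ H0 : ℕ, ∀ H : ℕ, H0 ≤ H →
      ((Y S H).ncard : ℝ) ≤ η / (T.card + 1) * (2 * H + 1) ^ N := by
    intro S hS
    rw [hTT, Finset.mem_filter] at hS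
    refine sieve_small hδ0 hδ1 (omegaG B r m S) 7 ?_ hη'
    intro p hp h7
    obtain ⟨P, hP1, hP2, hP3⟩ := exists_prime_ideal B hp
    exact card_omegaG B r m hp h7 hr hm (fun x => ⟨_, basis_elt B x⟩) hS.2.1 hS.2.2 hP1 hP2 hP3
      (Ideal.finiteQuotientOfFreeOfNeBot P hP2)
  choose! H0 hH0 using hsieve
  refine ⟨T.sup H0, fun H hH => ?_⟩
  set Bad := {x : (Fin (r + 1) → 𝓞 k) × ((i : Fin s) → Fin (m i + 1) → 𝓞 k) |
      ((∀ j t, |B.repr (x.1 j) t| ≤ (H : ℤ)) ∧ ∀ i j t, |B.repr (x.2 i j) t| ≤ (H : ℤ)) ∧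
      (∀ i, Irreducible (polA fun j => algebraMap (𝓞 k) k (x.2 i j))) ∧
      Irreducible (polE (fun j => algebraMap (𝓞 k) k (x.1 j))
        (fun i j => algebraMap (𝓞 k) k (x.2 i j))) ∧
      NotNorm (polP fun i j => algebraMap (𝓞 k) k (x.2 i j)) ∧
      NotNorm (polE (fun j => algebraMap (𝓞 k) k (x.1 j))
        (fun i j => algebraMap (𝓞 k) k (x.2 i j))) ∧
      ¬ TateTC k' K F (polA fun j => algebraMap (𝓞 k) k (x.1 j))
        (polP fun i j => algebraMap (𝓞 k) k (x.2 i j))} with hBad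
  have hsub : Bad ⊆ ⋃ S ∈ T, ψ '' (Y S H) := by
    rintro ⟨a, β⟩ ⟨⟨hb1, hb2⟩, hq, hirr, hNb, hNd, hbad⟩
    by_contra hcon
    apply hbad
    refine tateTC_of_obs hT hq hirr hNb hNd ?_
    intro S h0 h1
    by_contra hno
    apply hcon
    push Not at hno
    rw [Set.mem_iUnion₂]
    refine ⟨S, by rw [hTT, Finset.mem_filter]; exact ⟨Finset.mem_univ _, h0, h1⟩,
      fun o => match o with
        | (Sum.inl j, t) => B.repr (a j) t
        | (Sum.inr ⟨i, j⟩, t) => B.repr (β i j) t, ⟨?_, ?_⟩, ?_⟩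
    · rintro ⟨j | ⟨i, j⟩, t⟩
      · exact hb1 j t
      · exact hb2 i j t
    · rintro p hp h7 ⟨P, hP1, hP2, hP3, hO⟩
      haveI : NeZero p := ⟨hp.ne_zero⟩
      refine hno P hP1 hP2 ?_
      have key : ∀ x : 𝓞 k, Ideal.Quotient.mk P (elt B fun t =>
          ((((B.repr x t : ℤ) : ZMod p)).val : ℤ)) = Ideal.Quotient.mk P x := by
        intro x
        conv_rhs => rw [basis_elt B x]
        refine mk_elt B hP3 fun t => ?_
        rw [Int.cast_natCast, ZMod.natCast_val, ZMod.cast_id', id]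
      simp only [key] at hO
      exact hO
    · refine Prod.ext ?_ ?_
      · funext j
        exact (basis_elt B (a j)).symm
      · funext i j
        exact (basis_elt B (β i j)).symm
  have hfin : ∀ S, (Y S H).Finite := by
    intro S
    have : (Set.pi Set.univ fun _ : IdxG r m × J => Set.Icc (-(H : ℤ)) H).Finite :=
      Set.Finite.pi fun _ => Set.finite_Icc _ _
    refine this.subset ?_
    intro x hx i _
    exact abs_le.1 (hx.1 i)
  have hcard : Bad.ncard ≤ ∑ S ∈ T, (Y S H).ncard := by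
    have hfinU : (⋃ S ∈ T, ψ '' (Y S H)).Finite :=
      Set.Finite.biUnion T.finite_toSet fun S _ => (hfin S).image ψ
    refine (Set.ncard_le_ncard hsub hfinU).trans ?_
    refine (Finset.set_ncard_biUnion_le T fun S => ψ '' (Y S H)).trans ?_
    exact Finset.sum_le_sum fun S _ => Set.ncard_image_le (hfin S)
  calc (Bad.ncard : ℝ) ≤ ((∑ S ∈ T, (Y S H).ncard : ℕ) : ℝ) := by exact_mod_cast hcard
    _ = ∑ S ∈ T, ((Y S H).ncard : ℝ) := by push_cast; rfl
    _ ≤ ∑ _S ∈ T, η / (T.card + 1) * (2 * H + 1) ^ N :=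
        Finset.sum_le_sum fun S hS => hH0 S hS H ((Finset.le_sup hS).trans hH)
    _ = (T.card / (T.card + 1)) * (η * (2 * H + 1) ^ N) := by
        rw [Finset.sum_const, nsmul_eq_mul]
        field_simp
    _ ≤ 1 * (η * (2 * H + 1) ^ N) := by
        refine mul_le_mul_of_nonneg_right ?_ (by positivity)
        rw [div_le_one (by positivity)]
        linarith
    _ = _ := one_mul _

end main

end Pool.Agent.R939.EI
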