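import Pool.Agent.R939.EI.Loc
import Pool.Agent.R939.EI.Gen6

/-!
# A density principle over rings of integers
-/

set_option autoImplicit false
set_option linter.all false

open Polynomial
open scoped Classical

namespace Pool.Agent.R939.EI

section density

variable {O J : Type} [CommRing O] [Fintype J]

theorem map_elt {κ : Type} [CommRing κ] (B : J → O) (π : O →+* κ) {p : ℕ} (hp : (p : κ) = 0)
    {z z' : J → ℤ} (h : ∀ t, (z t : ZMod p) = (z' t : ZMod p)) :
    π (elt B z) = π (elt B z') := by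
  rw [← sub_eq_zero, ← map_sub, elt, elt, ← Finset.sum_sub_distrib, map_sum]
  refine Finset.sum_eq_zero fun t _ => ?_
  have h1 := h t
  rw [eq_comm, ZMod.intCast_eq_intCast_iff_dvd_sub] at h1
  obtain ⟨c, hc⟩ := h1
  have h3 : (z t : O) * B t - (z' t : O) * B t = (p : O) * ((c : O) * B t) := by
    have : (z t : O) - (z' t : O) = (p : O) * (c : O) := by
      rw [← Int.cast_sub, hc]
      push_cast
      ring
    linear_combination B t * this
  rw [h3, map_mul, map_natCast, hp, zero_mul]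

variable [IsDomain O] [CharZero O] [IsDedekindDomain O] (k : Type) [Field k] [Algebra O k]
  [IsFractionRing O k] (B : Module.Basis J ℤ O) (hfq : ∀ P : Ideal O, P ≠ ⊥ → Finite (O ⧸ P))
  {I : Type} [Fintype I] {Λ : Type} (Obs : Λ → (κ : Type) → [Field κ] → (I → κ) → Prop)

/-- The residues with an obstruction. -/
def omegaD (S : Λ) (p : ℕ) : Set (I × J → ZMod p) :=
  {y | ∃ (κ : Type) (_ : Field κ) (π : O →+* κ), GoodPlace k π ∧ (p : κ) = 0 ∧
    Obs S κ fun i => π (elt B fun t => ((y (i, t)).val : ℤ))}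

include hfq in
theorem card_omegaD {δ : ℝ} {S : Λ}
    (hc : ∀ (κ : Type) [Field κ] [Fintype κ], ringChar κ ≠ 2 → 7 ≤ Fintype.card κ →
      δ * (Fintype.card (I → κ) : ℝ) ≤ ({z : I → κ | Obs S κ z}.ncard : ℝ))
    {p : ℕ} (hp : p.Prime) (h7 : 7 ≤ p) :
    δ * (p : ℝ) ^ Fintype.card (I × J) ≤ ((omegaD k B Obs S p).ncard : ℝ) := by
  haveI : Fact p.Prime := ⟨hp⟩
  haveI : NeZero p := ⟨hp.ne_zero⟩
  obtain ⟨P, hP1, hP2, hP3⟩ := exists_prime_ideal B hp
  obtain ⟨κ, hκ, π, hgood, hsurj, hker, hfin⟩ := exists_good k hP1 hP2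
  haveI := hfin (hfq P hP2)
  haveI : Fintype κ := Fintype.ofFinite _
  have hpz : ((p : ℕ) : κ) = 0 := by
    rw [← map_natCast π]
    exact hker _ hP3
  haveI hch : CharP κ p := (CharP.charP_iff_prime_eq_zero hp).2 hpz
  have hF : ringChar κ ≠ 2 := by
    rw [ringChar.eq_iff.2 hch]; omega
  have hcard : 7 ≤ Fintype.card κ := by
    have h3 := Fintype.card_le_of_injective _ (ZMod.castHom (dvd_refl p) κ).injective
    rw [ZMod.card] at h3
    omega
  have h5 := proportion (redG B p π I)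
    (redG_surj B p hsurj (fun x => ⟨_, basis_elt B x⟩) I) _ (hc κ hF hcard)
    (Ω := omegaD k B Obs S p) (by
      intro y hy
      refine ⟨κ, hκ, π, hgood, hpz, ?_⟩
      have h7 : Obs S κ (redG B p π I y) := hy
      have h8 : redG B p π I y = fun i => π (elt B fun t => ((y (i, t)).val : ℤ)) :=
        funext fun i => redG_eq B p π y i
      rw [h8] at h7
      exact h7)
  rw [Fintype.card_fun, ZMod.card, Nat.cast_pow] at h5
  exact h5

include hfq in
/-- **The density principle.** -/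
theorem density_gen (T : Finset Λ) {δ : ℝ} (hδ0 : 0 < δ) (hδ1 : δ ≤ 1)
    (hc : ∀ S ∈ T, ∀ (κ : Type) [Field κ] [Fintype κ], ringChar κ ≠ 2 → 7 ≤ Fintype.card κ →
      δ * (Fintype.card (I → κ) : ℝ) ≤ ({z : I → κ | Obs S κ z}.ncard : ℝ)) {η : ℝ} (hη : 0 < η) :
    ∃ H0 : ℕ, ∀ H : ℕ, H0 ≤ H → ∀ Bad : Set (I → O),
      (∀ x ∈ Bad, (∀ i t, |B.repr (x i) t| ≤ (H : ℤ)) ∧ ∃ S ∈ T, ∀ (κ : Type) (_ : Field κ)
        (π : O →+* κ), GoodPlace k π → ¬ Obs S κ fun i => π (x i)) →
      (Bad.ncard : ℝ) ≤ η * (2 * H + 1) ^ (Fintype.card I * Fintype.card J) := by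
  set Y := fun (S : Λ) (H : ℕ) => {x : I × J → ℤ | (∀ i, |x i| ≤ (H : ℤ)) ∧
    ∀ p, p.Prime → 7 ≤ p → (fun i => (x i : ZMod p)) ∉ omegaD k B Obs S p} with hY
  set ψ : (I × J → ℤ) → (I → O) := fun y i => elt B fun t => y (i, t) with hψ
  have hη' : 0 < η / (T.card + 1) := by positivity
  have hsieve : ∀ S ∈ T, ∃ H0 : ℕ, ∀ H : ℕ, H0 ≤ H →
      ((Y S H).ncard : ℝ) ≤ η / (T.card + 1) * (2 * H + 1) ^ Fintype.card (I × J) := by
    intro S hS
    exact sieve_small hδ0 hδ1 (omegaD k B Obs S) 7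
      (fun p hp h7 => card_omegaD k B hfq Obs (hc S hS) hp h7) hη'
  choose! H0 hH0 using hsieve
  refine ⟨T.sup H0, fun H hH Bad hBad => ?_⟩
  have hsub : Bad ⊆ ⋃ S ∈ T, ψ '' (Y S H) := by
    intro x hx
    obtain ⟨hb, S, hS, hno⟩ := hBad x hx
    rw [Set.mem_iUnion₂]
    refine ⟨S, hS, fun o => B.repr (x o.1) o.2, ⟨fun o => hb o.1 o.2, ?_⟩,
      funext fun i => (basis_elt B (x i)).symm⟩
    rintro p hp h7 ⟨κ, hκ, π, hgood, hpz, hO⟩
    haveI : NeZero p := ⟨hp.ne_zero⟩
    refine hno κ hκ π hgood ?_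
    have key : ∀ y : O, π (elt B fun t =>
        ((((B.repr y t : ℤ) : ZMod p)).val : ℤ)) = π y := by
      intro y
      conv_rhs => rw [basis_elt B y]
      refine map_elt B π hpz fun t => ?_
      rw [Int.cast_natCast, ZMod.natCast_val, ZMod.cast_id', id]
    have h8 : (fun i => π (elt B fun t => ((((B.repr (x i) t : ℤ) : ZMod p)).val : ℤ))) =
        fun i => π (x i) := funext fun i => key (x i)
    have h9 : Obs S κ fun i => π (elt B fun t => ((((B.repr (x i) t : ℤ) : ZMod p)).val : ℤ)) := hO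
    rw [h8] at h9
    exact h9
  have hfin : ∀ S, (Y S H).Finite := by
    intro S
    have : (Set.pi Set.univ fun _ : I × J => Set.Icc (-(H : ℤ)) H).Finite :=
      Set.Finite.pi fun _ => Set.finite_Icc _ _
    refine this.subset ?_
    intro x hx i _
    exact abs_le.1 (hx.1 i)
  have hcard : Bad.ncard ≤ ∑ S ∈ T, (Y S H).ncard := by
    have hfinU : (⋃ S ∈ T, ψ '' (Y S H)).Finite :=
      Set.Finite.biUnion T.finite_toSet fun S _ => (hfin S).image ψ
    refine (Set.ncard_le_ncard hsub hfinU).trans ?_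
    refine (Finset.set_ncard_biUnion_le T fun S => ψ '' (Y S H)).trans ?_
    exact Finset.sum_le_sum fun S _ => Set.ncard_image_le (hfin S)
  rw [← Fintype.card_prod]
  calc (Bad.ncard : ℝ) ≤ ((∑ S ∈ T, (Y S H).ncard : ℕ) : ℝ) := by exact_mod_cast hcard
    _ = ∑ S ∈ T, ((Y S H).ncard : ℝ) := by push_cast; rfl
    _ ≤ ∑ _S ∈ T, η / (T.card + 1) * (2 * H + 1) ^ Fintype.card (I × J) :=
        Finset.sum_le_sum fun S hS => hH0 S hS H ((Finset.le_sup hS).trans hH)
    _ = (T.card / (T.card + 1)) * (η * (2 * H + 1) ^ Fintype.card (I × J)) := by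
        rw [Finset.sum_const, nsmul_eq_mul]
        field_simp
    _ ≤ 1 * (η * (2 * H + 1) ^ Fintype.card (I × J)) := by
        refine mul_le_mul_of_nonneg_right ?_ (by positivity)
        rw [div_le_one (by positivity)]
        linarith
    _ = _ := one_mul _

end density

end Pool.Agent.R939.EI
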