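import Pool.Agent.R939.EI.Cor

/-!
# The conics at a place of the constant field
-/

set_option autoImplicit false
set_option linter.all false

open Polynomial
open scoped Classical

namespace Pool.Agent.R939.EI

section descent

variable {D : Type*} [CommRing D] [IsDomain D] {p e d : D}

/-- Infinite descent. -/
theorem noSol (hp : Prime p) (he : p ∣ e) (he2 : ¬ p ^ 2 ∣ e)
    (hsq : ∀ x y, ¬ p ∣ y → ¬ p ∣ x ^ 2 - d * y ^ 2) (n : ℕ) :
    ∀ x y z : D, e * z ^ 2 = x ^ 2 - d * y ^ 2 → p ^ n ∣ z := by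
  obtain ⟨e', rfl⟩ := he
  have he' : ¬ p ∣ e' := by
    rintro ⟨f, rfl⟩
    exact he2 ⟨f, by ring⟩
  have hp0 := hp.ne_zero
  induction n with
  | zero => intro x y z _; rw [pow_zero]; exact one_dvd _
  | succ n ih =>
    intro x y z h
    have h1 : p ∣ x ^ 2 - d * y ^ 2 := ⟨e' * z ^ 2, by rw [← h]; ring⟩
    have hy : p ∣ y := by
      by_contra hy
      exact hsq x y hy h1
    have hx : p ∣ x := by
      apply hp.dvd_of_dvd_pow (n := 2)
      have : x ^ 2 = (x ^ 2 - d * y ^ 2) + d * y * y := by ring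
      rw [this]
      exact dvd_add h1 (hy.mul_left _)
    obtain ⟨x', rfl⟩ := hx
    obtain ⟨y', rfl⟩ := hy
    have h2 : e' * z ^ 2 = p * (x' ^ 2 - d * y' ^ 2) := by
      apply mul_left_cancel₀ hp0
      linear_combination h
    have hz : p ∣ z := by
      apply hp.dvd_of_dvd_pow (n := 2)
      exact (hp.dvd_or_dvd ⟨_, h2⟩).resolve_left he'
    obtain ⟨z', rfl⟩ := hz
    have h3 : p * e' * z' ^ 2 = x' ^ 2 - d * y' ^ 2 := by
      apply mul_left_cancel₀ hp0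
      linear_combination h2
    rw [pow_succ']
    exact mul_dvd_mul_left p (ih x' y' z' h3)

theorem noSol' [WfDvdMonoid D] (hp : Prime p) (he : p ∣ e) (he2 : ¬ p ^ 2 ∣ e)
    (hsq : ∀ x y, ¬ p ∣ y → ¬ p ∣ x ^ 2 - d * y ^ 2) {x y z : D}
    (h : e * z ^ 2 = x ^ 2 - d * y ^ 2) : z = 0 := by
  by_contra hz
  obtain ⟨n, hn⟩ := FiniteMultiplicity.of_not_isUnit hp.not_unit hz
  exact hn (noSol hp he he2 hsq (n + 1) x y z h)

/-- The ramified case. -/
theorem noSolR [WfDvdMonoid D] (hp : Prime p) (he : ¬ p ∣ e)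
    (hsq : ∀ x y, ¬ p ∣ y → ¬ p ∣ x ^ 2 - d * y ^ 2) {x y z : D}
    (h : e * p * z ^ 2 = x ^ 2 - p ^ 2 * d * y ^ 2) : z = 0 := by
  have hp0 := hp.ne_zero
  have hx : p ∣ x := by
    apply hp.dvd_of_dvd_pow (n := 2)
    exact ⟨e * z ^ 2 + p * d * y ^ 2, by linear_combination -h⟩
  obtain ⟨x', rfl⟩ := hx
  have h1 : e * z ^ 2 = p * (x' ^ 2 - d * y ^ 2) := by
    apply mul_left_cancel₀ hp0
    linear_combination h
  have hz : p ∣ z := by
    apply hp.dvd_of_dvd_pow (n := 2)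
    exact (hp.dvd_or_dvd ⟨_, h1⟩).resolve_left he
  obtain ⟨z', rfl⟩ := hz
  have h2 : p * e * z' ^ 2 = x' ^ 2 - d * y ^ 2 := by
    apply mul_left_cancel₀ hp0
    linear_combination h1
  have h3 := noSol' hp (dvd_mul_right p e) (by
    rintro ⟨f, hf⟩
    apply he
    refine ⟨f, ?_⟩
    apply mul_left_cancel₀ hp0
    rw [hf]; ring) hsq h2
  rw [h3, mul_zero]

end descent

section local'

variable {R : Type} [CommRing R] [IsDomain R] [IsDiscreteValuationRing R] {ϖ : R}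
  (hϖ : Irreducible ϖ)

include hϖ

theorem res_zero (r : R) : IsLocalRing.residue R r = 0 ↔ ϖ ∣ r := by
  rw [IsLocalRing.residue_eq_zero_iff, hϖ.maximalIdeal_eq, Ideal.mem_span_singleton]

theorem C_dvd_res (f : R[X]) : C ϖ ∣ f ↔ f.map (IsLocalRing.residue R) = 0 := by
  rw [C_dvd_iff_dvd_coeff, Polynomial.ext_iff]
  refine forall_congr' fun i => ?_
  rw [coeff_map, coeff_zero, res_zero hϖ]

theorem primeC : Prime (C ϖ : R[X]) := prime_C_iff.2 hϖ.prime

/-- Nonsquares of the residue field. -/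
theorem nonsq {δ : R[X]} (h : ∀ r : (IsLocalRing.ResidueField R)[X],
    r ^ 2 ≠ δ.map (IsLocalRing.residue R)) (x y : R[X]) (hy : ¬ C ϖ ∣ y) :
    ¬ C ϖ ∣ x ^ 2 - δ * y ^ 2 := by
  rw [C_dvd_res hϖ] at hy ⊢
  intro h0
  rw [Polynomial.map_sub, Polynomial.map_mul, Polynomial.map_pow, Polynomial.map_pow,
    sub_eq_zero] at h0
  have h1 : y.map (IsLocalRing.residue R) ^ 2 ∣ x.map (IsLocalRing.residue R) ^ 2 :=
    ⟨δ.map (IsLocalRing.residue R), by rw [h0]; ring⟩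
  rw [IsIntegrallyClosed.pow_dvd_pow_iff two_ne_zero] at h1
  obtain ⟨r, hr⟩ := h1
  apply h r
  apply mul_right_cancel₀ (pow_ne_zero 2 hy)
  rw [← h0, hr]
  ring

end local'

section sq

variable {κ : Type*} [Field κ]

theorem cof {p0 p1 p2 q0 q2 : κ}
    (h : C p2 * X ^ 2 + C p1 * X + C p0 = C q0 - C q2 * X ^ 2) :
    p0 = q0 ∧ p1 = 0 ∧ p2 = -q2 := by
  have c0 := congrArg (fun q => q.coeff 0) h
  have c1 := congrArg (fun q => q.coeff 1) h
  have c2 := congrArg (fun q => q.coeff 2) h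
  simp [coeff_X, coeff_C] at c0 c1 c2
  exact ⟨c0, c1, c2⟩

theorem nsqA (h2 : (2 : κ) ≠ 0) {α β : κ} (hα : α ≠ 0) (hβ : β ≠ 0) (r : κ[X]) :
    r ^ 2 ≠ C α ^ 2 - 4 * (C β * X ^ 2) := by
  intro h
  have e : C α ^ 2 - 4 * (C β * X ^ 2) = C (α ^ 2) - C (4 * β) * X ^ 2 := by
    rw [C_pow, C_mul, map_ofNat]; ring
  have hd : (r ^ 2).natDegree ≤ 2 := by
    rw [h, e]
    refine (natDegree_sub_le _ _).trans (max_le ?_ ?_)
    · rw [natDegree_C]; omega
    · exact natDegree_C_mul_X_pow_le _ _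
  rw [natDegree_pow] at hd
  have hd1 : r.natDegree ≤ 1 := by omega
  have hr : r = C (r.coeff 1) * X + C (r.coeff 0) := eq_X_add_C_of_natDegree_le_one hd1
  have e2 : r ^ 2 = C (r.coeff 1 ^ 2) * X ^ 2 + C (2 * r.coeff 0 * r.coeff 1) * X +
      C (r.coeff 0 ^ 2) := by
    conv_lhs => rw [hr]
    rw [C_pow, C_pow, C_mul, C_mul, map_ofNat]
    ring
  rw [e, e2] at h
  obtain ⟨c0, c1, c2⟩ := cof h
  have h4 : (4 : κ) ≠ 0 := by
    have : (4 : κ) = 2 ^ 2 := by norm_num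
    rw [this]; exact pow_ne_zero 2 h2
  have hr0 : r.coeff 0 ≠ 0 := by
    intro h0
    rw [h0, zero_pow two_ne_zero] at c0
    exact pow_ne_zero 2 hα c0.symm
  have hr1 : r.coeff 1 = 0 := by
    rcases mul_eq_zero.1 c1 with h0 | h0
    · exact absurd h0 (mul_ne_zero h2 hr0)
    · exact h0
  rw [hr1, zero_pow two_ne_zero] at c2
  exact mul_ne_zero h4 hβ (by linear_combination c2)

theorem nsqB {δ : κ[X]} (h : Odd δ.natDegree) (r : κ[X]) : r ^ 2 ≠ δ := by
  intro h1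
  rw [← h1, natDegree_pow] at h
  exact (Nat.not_odd_iff_even.2 (even_two_mul _)) h

end sq

end Pool.Agent.R939.EI
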