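import Pool.Agent.R939.EI.Fam2

/-!
# Places of the constant field at which the conics do not split
-/

set_option autoImplicit false
set_option linter.all false

open Polynomial
open scoped Classical

namespace Pool.Agent.R939.EI

section prod

variable {κ : Type} [Field κ]

/-- Products of linear factors with a simple root are not squares. -/
theorem nsq_prod {w : κ} (hw : w ≠ 0) {n : ℕ} {c : Fin n → κ} {i : Fin n}
    (hi : ∀ m, m ≠ i → c i ≠ c m) (r : κ[X]) : r ^ 2 ≠ C w * ∏ l, (X - C (c l)) := by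
  intro h
  rw [← Finset.mul_prod_erase _ _ (Finset.mem_univ i)] at h
  have hp : Prime (X - C (c i) : κ[X]) := prime_X_sub_C _
  have h1 : (X - C (c i)) ∣ r := hp.dvd_of_dvd_pow (n := 2) ⟨C w * ∏ l ∈ Finset.univ.erase i,
    (X - C (c l)), by rw [h]; ring⟩
  obtain ⟨s, rfl⟩ := h1
  have h2 : (X - C (c i)) * s ^ 2 = C w * ∏ l ∈ Finset.univ.erase i, (X - C (c l)) := by
    apply mul_left_cancel₀ hp.ne_zero
    linear_combination h
  have h3 := congrArg (Polynomial.eval (c i)) h2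
  rw [eval_mul, eval_mul, eval_prod, eval_sub, eval_X, eval_C, eval_C, sub_self, zero_mul] at h3
  refine mul_ne_zero hw (Finset.prod_ne_zero_iff.2 ?_) h3.symm
  intro m hm
  rw [eval_sub, eval_X, eval_C, sub_ne_zero]
  exact hi m (Finset.ne_of_mem_erase hm)

/-- The conic `ε A z² = x² + 4 u A B y²`, with `A` and `B` products of different linear factors. -/
theorem split_prod {u ε : κ} (h2 : (2 : κ) ≠ 0) (hu : u ≠ 0) (hε : ε ≠ 0) {n : ℕ} {c : Fin n → κ}
    (hc : Function.Injective c) {S : Finset (Fin n)}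
    (h : Splits (-4 * (C u * ∏ l, (X - C (c l)))) ε (∏ l ∈ S, (X - C (c l)))) (i : Fin n) :
    (i ∉ S → IsSquare (ε * ∏ j ∈ S, (c i - c j))) ∧
    (i ∈ S → IsSquare (ε * u * ∏ j ∈ Sᶜ, (c i - c j))) := by
  have h4 : (4 : κ) ≠ 0 := by
    have : (4 : κ) = 2 ^ 2 := by norm_num
    rw [this]; exact pow_ne_zero 2 h2
  set A : κ[X] := ∏ l ∈ S, (X - C (c l)) with hA
  set B : κ[X] := ∏ l ∈ Sᶜ, (X - C (c l)) with hB
  have hAB : ∏ l, (X - C (c l)) = A * B := by
    rw [hA, hB, Finset.prod_mul_prod_compl]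
  have hA0 : A ≠ 0 := Finset.prod_ne_zero_iff.2 fun l _ => X_sub_C_ne_zero _
  have hB0 : B ≠ 0 := Finset.prod_ne_zero_iff.2 fun l _ => X_sub_C_ne_zero _
  have ndS : ∀ (T : Finset (Fin n)), i ∉ T → ∀ w : κ, w ≠ 0 →
      ¬ (X - C (c i)) ∣ C w * ∏ l ∈ T, (X - C (c l)) := by
    intro T hT w hw
    rw [dvd_iff_isRoot, IsRoot.def, eval_mul, eval_C, eval_prod]
    refine mul_ne_zero hw (Finset.prod_ne_zero_iff.2 ?_)
    intro l hl
    rw [eval_sub, eval_X, eval_C, sub_ne_zero]
    intro hcl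
    exact hT (by rw [hc hcl]; exact hl)
  have evS : ∀ (T : Finset (Fin n)), (∏ l ∈ T, (X - C (c l))).eval (c i) =
      ∏ l ∈ T, (c i - c l) := by
    intro T
    rw [eval_prod]
    refine Finset.prod_congr rfl fun l _ => ?_
    rw [eval_sub, eval_X, eval_C]
  have hρ : Irreducible (X - C (c i) : κ[X]) := irreducible_X_sub_C _
  have h4C : (C 4 : κ[X]) = 4 := by rw [map_ofNat]
  constructor
  · intro hi
    have hmem : i ∈ Sᶜ := Finset.mem_compl.2 hi
    obtain ⟨r, hr⟩ := h.sq_mod (m := 0) (ρ := X - C (c i))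
      (δ := C (-4 * u) * (∏ l ∈ Finset.univ.erase i, (X - C (c l)))) hε hA0 hρ (by
        rw [← Finset.mul_prod_erase _ _ (Finset.mem_univ i), C_mul, C_neg, h4C]
        ring) (ndS _ (Finset.notMem_erase _ _) _ (mul_ne_zero (neg_ne_zero.2 h4) hu))
    rw [dvd_iff_isRoot, IsRoot.def, eval_sub, eval_mul, eval_C, evS, eval_pow] at hr
    exact ⟨r.eval (c i), by linear_combination hr⟩
  · intro hi
    obtain ⟨x, y, z, hz, e⟩ := h
    rw [hAB] at e
    -- `A` divides `x`
    have hAx : A ∣ x := by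
      have h5 : ∀ l ∈ S, (X - C (c l)) ∣ x := by
        intro l hl
        apply (prime_X_sub_C (c l)).dvd_of_dvd_pow (n := 2)
        refine (Finset.dvd_prod_of_mem (fun l => X - C (c l)) hl).trans ?_
        exact ⟨C ε * z ^ 2 - 4 * (C u * B) * y ^ 2, by rw [← hA]; linear_combination -e⟩
      refine Finset.prod_dvd_of_coprime ?_ h5
      intro l _ m _ hlm
      exact isCoprime_X_sub_C_of_isUnit_sub
        (isUnit_iff_ne_zero.2 (sub_ne_zero.2 fun h => hlm (hc h)))
    obtain ⟨x', rfl⟩ := hAx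
    have e1 : C ε * z ^ 2 = A * x' ^ 2 + 4 * (C u * B) * y ^ 2 := by
      apply mul_left_cancel₀ hA0
      linear_combination e
    obtain ⟨r, hr⟩ := res0 (m := 0) (ρ := X - C (c i))
      (δ := C ε * ∏ l ∈ S.erase i, (X - C (c l)))
      (g := C (ε * u) * B) (x := C ε * z) (y := 2 * y) (z := x') hρ
      (ndS _ (Finset.notMem_erase _ _) _ hε)
      (mul_ne_zero (C_ne_zero.2 (mul_ne_zero hε hu)) hB0) (by
        have e2 : A = (X - C (c i)) * ∏ l ∈ S.erase i, (X - C (c l)) :=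
          (Finset.mul_prod_erase S (fun l => X - C (c l)) hi).symm
        rw [C_mul]
        rw [e2] at e1
        linear_combination -C ε * e1)
      (Or.inl (mul_ne_zero (C_ne_zero.2 hε) hz))
    rw [dvd_iff_isRoot, IsRoot.def, eval_sub, eval_mul, eval_C, hB, evS, eval_pow] at hr
    exact ⟨r.eval (c i), by linear_combination hr⟩

end prod

section places

variable {R : Type} [CommRing R] [IsDomain R] [IsDiscreteValuationRing R]
  {k : Type} [Field k] [Algebra R k] [IsFractionRing R k]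

theorem res_ne {r : R} (h : IsUnit r) : IsLocalRing.residue R r ≠ 0 :=
  (h.map (IsLocalRing.residue R)).ne_zero

/-- The first type of places. -/
theorem placeA {ϖ : R} (hϖ : Irreducible ϖ) (h2 : IsUnit (2 : R)) {u : R} (hu : IsUnit u) {n : ℕ}
    {c : Fin n → R} (dis : ∀ l m, l ≠ m → IsUnit (c l - c m)) {a : R[X]}
    (ha : a.map (IsLocalRing.residue R) = 0) {S : Finset (Fin n)}
    (nsq : ∀ η : R, IsUnit η → ∃ i,
      (i ∉ S ∧ ¬ IsSquare (IsLocalRing.residue R (η * ∏ j ∈ S, (c i - c j)))) ∨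
      (i ∈ S ∧ ¬ IsSquare (IsLocalRing.residue R (η * u * ∏ j ∈ Sᶜ, (c i - c j)))))
    {ε : k} (hε : ε ≠ 0)
    (h : Splits ((a ^ 2 - 4 * (C u * ∏ l, (X - C (c l)))).map (algebraMap R k)) ε
      ((∏ l ∈ S, (X - C (c l))).map (algebraMap R k))) : False := by
  set φ := IsLocalRing.residue R with hφ
  have h2φ : (2 : IsLocalRing.ResidueField R) ≠ 0 := by
    rw [← map_ofNat φ 2]
    exact res_ne h2
  have huφ : φ u ≠ 0 := res_ne hu
  have hcφ : Function.Injective fun l => φ (c l) := by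
    intro l m hlm
    by_contra hne
    exact res_ne (dis l m hne) (by rw [map_sub, ← hφ, sub_eq_zero]; exact hlm)
  have h4φ : (-4 * φ u) ≠ 0 := by
    have : (4 : IsLocalRing.ResidueField R) = 2 ^ 2 := by norm_num
    rw [this]
    exact mul_ne_zero (neg_ne_zero.2 (pow_ne_zero 2 h2φ)) huφ
  have ed : (a ^ 2 - 4 * (C u * ∏ l, (X - C (c l)))).map φ =
      -4 * (C (φ u) * ∏ l, (X - C (φ (c l)))) := by
    rw [Polynomial.map_sub, Polynomial.map_pow, ha, Polynomial.map_mul, Polynomial.map_mul,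
      Polynomial.map_prod, Polynomial.map_ofNat, map_C]
    simp only [Polynomial.map_sub, map_X, map_C]
    ring
  have eA : ∀ T : Finset (Fin n), (∏ l ∈ T, (X - C (c l))).map φ = ∏ l ∈ T, (X - C (φ (c l))) := by
    intro T
    rw [Polynomial.map_prod]
    simp only [Polynomial.map_sub, map_X, map_C]
  obtain ⟨i0, -⟩ := nsq 1 isUnit_one
  obtain ⟨g, η, -, hη, -, hs⟩ := spec hϖ hε (by
    intro r hr
    rw [← hφ, ed] at hr
    refine nsq_prod h4φ (i := i0) (c := fun l => φ (c l)) (fun m hm h => hm (hcφ h).symm) r ?_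
    rw [hr, C_mul, C_neg, map_ofNat]
    ring) (by
      rw [← hφ, eA]
      exact Finset.prod_ne_zero_iff.2 fun l _ => X_sub_C_ne_zero _) h
  rw [← hφ, ed, eA] at hs
  obtain ⟨i, hi⟩ := nsq η hη
  obtain ⟨s1, s2⟩ := split_prod h2φ huφ (res_ne hη) hcφ hs i
  rcases hi with ⟨hi, hn⟩ | ⟨hi, hn⟩
  · apply hn
    have := s1 hi
    simpa only [map_mul, map_prod, map_sub] using this
  · apply hn
    have := s2 hi
    simpa only [map_mul, map_prod, map_sub] using this

theorem not_sq_mul {ϖ : R} (hϖ : Irreducible ϖ) {u v : R} (hu : IsUnit u) (hv : IsUnit v) {g h : k}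
    (hg : g ≠ 0) (e : g ^ 2 * algebraMap R k u * algebraMap R k ϖ = h ^ 2 * algebraMap R k v) :
    False := by
  obtain ⟨v', rfl⟩ := hv
  have h1 : (h / g) ^ 2 = algebraMap R k (u * ϖ * ((v'⁻¹ : Rˣ) : R)) := by
    have hv1 : algebraMap R k (v' : R) * algebraMap R k ((v'⁻¹ : Rˣ) : R) = 1 := by
      rw [← map_mul, Units.mul_inv, map_one]
    rw [map_mul, map_mul, div_pow, div_eq_iff (pow_ne_zero 2 hg)]
    linear_combination (-algebraMap R k ((v'⁻¹ : Rˣ) : R)) * e - h ^ 2 * hv1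
  obtain ⟨s, hs⟩ : ∃ s : R, algebraMap R k s = h / g := by
    apply IsIntegrallyClosed.isIntegral_iff.1
    apply IsIntegral.of_pow (n := 2) two_pos
    rw [h1]
    exact isIntegral_algebraMap
  rw [← hs, ← map_pow] at h1
  have h3 := IsFractionRing.injective R k h1
  have h4 : Irreducible (s * s) := by
    have : s * s = (u * ((v'⁻¹ : Rˣ) : R)) * ϖ := by rw [← pow_two, h3]; ring
    rw [this, irreducible_isUnit_mul (hu.mul (Units.isUnit _))]
    exact hϖ
  exact h4.not_isSquare ⟨s, rfl⟩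

theorem Splits.comp_lin {d A : k[X]} {ε α β : k} (hβ : β ≠ 0) (h : Splits d ε A) :
    Splits (d.comp (C α + C β * X)) ε (A.comp (C α + C β * X)) := by
  obtain ⟨x, y, z, hz, e⟩ := h
  refine ⟨x.comp (C α + C β * X), y.comp (C α + C β * X), z.comp (C α + C β * X), ?_, ?_⟩
  · intro h0
    apply hz
    have hd : (C α + C β * X : k[X]).natDegree = 1 := by
      rw [add_comm]; exact natDegree_linear hβ
    rw [comp_eq_zero_iff] at h0
    rcases h0 with h0 | ⟨-, h0⟩
    · exact h0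
    · rw [h0, natDegree_C] at hd
      exact absurd hd zero_ne_one
  · have := congrArg (fun q => q.comp (C α + C β * X)) e
    simpa only [mul_comp, pow_comp, sub_comp, C_comp] using this

/-- The second type of places. -/
theorem placeB {ϖ : R} (hϖ : Irreducible ϖ) (h2 : IsUnit (2 : R)) {u : R} (hu : IsUnit u) {n : ℕ}
    {c : Fin n → R} {i j l0 : Fin n} (hl0 : l0 ≠ i) (hl0' : l0 ≠ j)
    (dis : ∀ l m, l ≠ m → ¬ (l = i ∧ m = j) → ¬ (l = j ∧ m = i) → IsUnit (c l - c m))
    {γ : R} (hγ : c j - c i = ϖ ^ 2 * γ) {a : R[X]} (ha : IsUnit (a.eval (c i)))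
    {S : Finset (Fin n)} (hi : i ∈ S) (hj : j ∉ S) {ε : k} (hε : ε ≠ 0)
    (h : Splits (((C ϖ * a) ^ 2 - 4 * (C u * ∏ l, (X - C (c l)))).map (algebraMap R k)) ε
      ((∏ l ∈ S, (X - C (c l))).map (algebraMap R k))) : False := by
  set φ := IsLocalRing.residue R with hφ
  have hij : i ≠ j := by rintro rfl; exact hj hi
  have h2φ : (2 : IsLocalRing.ResidueField R) ≠ 0 := by
    rw [← map_ofNat φ 2]
    exact res_ne h2
  have huφ : φ u ≠ 0 := res_ne hu
  have hϖφ : φ ϖ = 0 := (res_zero hϖ ϖ).2 dvd_rfl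
  have h4φ : (-4 * φ u) ≠ 0 := by
    have : (4 : IsLocalRing.ResidueField R) = 2 ^ 2 := by norm_num
    rw [this]
    exact mul_ne_zero (neg_ne_zero.2 (pow_ne_zero 2 h2φ)) huφ
  have ed : ((C ϖ * a) ^ 2 - 4 * (C u * ∏ l, (X - C (c l)))).map φ =
      -4 * (C (φ u) * ∏ l, (X - C (φ (c l)))) := by
    rw [Polynomial.map_sub, Polynomial.map_pow, Polynomial.map_mul, Polynomial.map_mul,
      Polynomial.map_mul, Polynomial.map_prod, Polynomial.map_ofNat, map_C, map_C, hϖφ]
    simp only [Polynomial.map_sub, map_X, map_C]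
    rw [C_0]
    ring
  have eA : ∀ T : Finset (Fin n), (∏ l ∈ T, (X - C (c l))).map φ = ∏ l ∈ T, (X - C (φ (c l))) := by
    intro T
    rw [Polynomial.map_prod]
    simp only [Polynomial.map_sub, map_X, map_C]
  obtain ⟨g, η, hg, hη, hgη, -⟩ := spec hϖ hε (by
    intro r hr
    rw [← hφ, ed] at hr
    refine nsq_prod h4φ (i := l0) (c := fun l => φ (c l)) ?_ r ?_
    · intro m hm h0
      refine res_ne (dis l0 m hm.symm (fun h => hl0 h.1) (fun h => hl0' h.1)) ?_
      rw [map_sub, ← hφ, sub_eq_zero]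
      exact h0
    · rw [hr, C_mul, C_neg, map_ofNat]
      ring) (by
      rw [← hφ, eA]
      exact Finset.prod_ne_zero_iff.2 fun l _ => X_sub_C_ne_zero _) h
  -- the second specialization
  set q : R[X] := C (c i) + C ϖ * X with hq
  set Q : R[X] := ∏ l ∈ (Finset.univ.erase i).erase j, (C (c i - c l) + C ϖ * X) with hQ
  set δ : R[X] := (a.comp q) ^ 2 - 4 * (C u * (X * (X - C (ϖ * γ)) * Q)) with hδ
  set A1 : R[X] := X * ∏ l ∈ S.erase i, (C (c i - c l) + C ϖ * X) with hA1
  have hlin : ∀ l, (X - C (c l) : R[X]).comp q = C (c i - c l) + C ϖ * X := by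
    intro l
    rw [sub_comp, X_comp, C_comp, hq, C_sub]
    ring
  have hcompd : ((C ϖ * a) ^ 2 - 4 * (C u * ∏ l, (X - C (c l)))).comp q = C ϖ ^ 2 * δ := by
    rw [← Finset.mul_prod_erase _ _ (Finset.mem_univ i), ← Finset.mul_prod_erase _ _
      (Finset.mem_erase.2 ⟨hij.symm, Finset.mem_univ j⟩)]
    rw [sub_comp, pow_comp, mul_comp, mul_comp, mul_comp, mul_comp, mul_comp, prod_comp]
    simp only [hlin, C_comp, ofNat_comp]
    rw [← hQ, sub_self, hδ]
    have e1 : c i - c j = -(ϖ ^ 2 * γ) := by rw [← hγ]; ring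
    rw [e1]
    simp only [C_mul, C_pow, C_neg, C_0]
    ring
  have hcompA : (∏ l ∈ S, (X - C (c l))).comp q = C ϖ * A1 := by
    rw [← Finset.mul_prod_erase _ _ hi, mul_comp, prod_comp, hA1]
    simp only [hlin]
    rw [sub_self, C_0]
    ring
  have hϖk : algebraMap R k ϖ ≠ 0 := by simpa using hϖ.ne_zero
  have hqm : q.map (algebraMap R k) = C (algebraMap R k (c i)) + C (algebraMap R k ϖ) * X := by
    rw [hq, Polynomial.map_add, Polynomial.map_mul, map_C, map_C, map_X]
  have h5 := h.comp_lin (α := algebraMap R k (c i)) (β := algebraMap R k ϖ) hϖk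
  rw [← hqm, ← Polynomial.map_comp, ← Polynomial.map_comp, hcompd, hcompA] at h5
  have h6 : Splits (δ.map (algebraMap R k)) (ε * algebraMap R k ϖ) (A1.map (algebraMap R k)) := by
    obtain ⟨x, y, z, hz, e⟩ := h5
    refine ⟨x, C (algebraMap R k ϖ) * y, z, hz, ?_⟩
    simp only [Polynomial.map_mul, Polynomial.map_pow, map_C] at e
    rw [C_mul]
    linear_combination e
  have hqφ : q.map φ = C (φ (c i)) := by
    rw [hq, Polynomial.map_add, Polynomial.map_mul, map_C, map_C, hϖφ, C_0, zero_mul, add_zero]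
  have hlinφ : ∀ l, (C (c i - c l) + C ϖ * X : R[X]).map φ = C (φ (c i - c l)) := by
    intro l
    rw [Polynomial.map_add, Polynomial.map_mul, map_C, map_C, hϖφ, C_0, zero_mul, add_zero]
  have hα : φ (a.eval (c i)) ≠ 0 := res_ne ha
  have hQφ : Q.map φ = C (∏ l ∈ (Finset.univ.erase i).erase j, φ (c i - c l)) := by
    rw [hQ, Polynomial.map_prod, map_prod]
    exact Finset.prod_congr rfl fun l _ => hlinφ l
  have hdisφ : ∀ l, l ≠ i → l ≠ j → φ (c i - c l) ≠ 0 := fun l h1 h3 =>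
    res_ne (dis i l h1.symm (fun h => h3 h.2) (fun h => hij h.1))
  have hβ : φ u * ∏ l ∈ (Finset.univ.erase i).erase j, φ (c i - c l) ≠ 0 := by
    refine mul_ne_zero huφ (Finset.prod_ne_zero_iff.2 ?_)
    intro l hl
    exact hdisφ l (Finset.ne_of_mem_erase (Finset.mem_of_mem_erase hl)) (Finset.ne_of_mem_erase hl)
  have hδφ : δ.map φ = C (φ (a.eval (c i))) ^ 2 -
      4 * (C (φ u * ∏ l ∈ (Finset.univ.erase i).erase j, φ (c i - c l)) * X ^ 2) := by
    rw [hδ, Polynomial.map_sub, Polynomial.map_pow, Polynomial.map_comp, hqφ, comp_C,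
      Polynomial.map_mul, Polynomial.map_mul, Polynomial.map_mul, Polynomial.map_mul, hQφ,
      Polynomial.map_ofNat, map_C, map_X, Polynomial.map_sub, map_X, map_C, map_mul, hϖφ, zero_mul,
      C_0, sub_zero, C_mul, eval_map, eval₂_hom]
    ring
  obtain ⟨g', η', hg', hη', hgη', -⟩ := spec hϖ (mul_ne_zero hε hϖk) (by
    intro r hr
    rw [← hφ, hδφ] at hr
    exact nsqA h2φ hα hβ r hr) (by
      rw [← hφ, hA1, Polynomial.map_mul, map_X, Polynomial.map_prod]
      refine mul_ne_zero X_ne_zero (Finset.prod_ne_zero_iff.2 ?_)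
      intro l hl
      rw [hlinφ]
      refine C_ne_zero.2 (hdisφ l (Finset.ne_of_mem_erase hl) ?_)
      rintro rfl
      exact hj (Finset.mem_of_mem_erase hl)) h6
  rw [hgη] at hgη'
  exact not_sq_mul hϖ hη hη' hg hgη'

end places

end Pool.Agent.R939.EI
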