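import Pool.Agent.R939.EI.Fam3
import Pool.Agent.TH115.ID.Gener

/-!
# Elliptic surfaces with rational reducible fibres
-/

set_option autoImplicit false
set_option linter.all false

open Polynomial IsDedekindDomain WeierstrassCurve WeierstrassCurve.Affine
open scoped Classical

namespace Pool.Agent.R939.EI

open Pool.Agent.TH115.GD

section defs

variable {k : Type} [Field k] {n : ℕ}

/-- Places of the first type: `w` is a discrete valuation ring of `k` with residue characteristic
different from 2, the residues of the `c i` are different, the residue of `a` is zero, that of `u` is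
not zero, and modulo the maximal ideal there is no unit `ε` such that `ε ∏ (c i - c j)` (product over
`j ∈ S`) is a square for `i ∉ S` and `ε u ∏ (c i - c j)` (product over `j ∉ S`) is a square for
`i ∈ S`. -/
structure PlaceA (w : ValuationSubring k) (a : k[X]) (u : k) (c : Fin n → k) (S : Finset (Fin n)) :
    Prop where
  dvr : IsDiscreteValuationRing w
  two : w.valuation 2 = 1
  unit : w.valuation u = 1
  int : ∀ i, w.valuation (c i) ≤ 1
  red : ∀ m, w.valuation (a.coeff m) < 1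
  dis : ∀ i j, i ≠ j → w.valuation (c i - c j) = 1
  nsq : ∀ ε, w.valuation ε = 1 → ∃ i,
    (i ∉ S ∧ ∀ g, 1 ≤ w.valuation (ε * ∏ j ∈ S, (c i - c j) - g ^ 2)) ∨
    (i ∈ S ∧ ∀ g, 1 ≤ w.valuation (ε * u * ∏ j ∈ Sᶜ, (c i - c j) - g ^ 2))

/-- Places of the second type: `w` is a discrete valuation ring of `k` with residue characteristic
different from 2, the residue of `a` is zero, that of `u` is not zero, `c i` and `c j` are
congruent modulo the square of the maximal ideal, there are no other congruences between the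
`c l` modulo the maximal ideal, `a (c i)` is not in the square of the maximal ideal, and `n > 2`. -/
structure PlaceB (w : ValuationSubring k) (a : k[X]) (u : k) (c : Fin n → k) (i j : Fin n) :
    Prop where
  dvr : IsDiscreteValuationRing w
  two : w.valuation 2 = 1
  unit : w.valuation u = 1
  int : ∀ i, w.valuation (c i) ≤ 1
  red : ∀ m, w.valuation (a.coeff m) < 1
  third : ∃ l, l ≠ i ∧ l ≠ j
  dis : ∀ l m, l ≠ m → ¬ (l = i ∧ m = j) → ¬ (l = j ∧ m = i) → w.valuation (c l - c m) = 1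
  close : ∃ ϖ : k, w.valuation ϖ < 1 ∧ (∀ x, w.valuation x < 1 → w.valuation x ≤ w.valuation ϖ) ∧
    w.valuation (c j - c i) ≤ w.valuation (ϖ ^ 2) ∧ w.valuation (a.eval (c i)) = w.valuation ϖ

end defs

section vals

variable {k : Type} [Field k] {n : ℕ} {w : ValuationSubring k}

theorem lift_poly {a : k[X]} (h : ∀ m, w.valuation (a.coeff m) ≤ 1) :
    ∃ a' : (w : Type)[X], a'.map (algebraMap w k) = a := by
  have : a ∈ Polynomial.lifts (algebraMap w k) := by
    rw [Polynomial.lifts_iff_coeff_lifts]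
    intro m
    exact ⟨⟨a.coeff m, (w.valuation_le_one_iff _).1 (h m)⟩, rfl⟩
  exact (Polynomial.mem_lifts _).1 this

theorem unit_of {x : w} (h : w.valuation (x : k) = 1) : IsUnit x :=
  (w.valuation_eq_one_iff x).2 h

theorem PlaceA.not_splits {a : k[X]} {u : k} {c : Fin n → k} {S : Finset (Fin n)}
    (h : PlaceA w a u c S) {ε : k} (hε : ε ≠ 0)
    (hs : Splits (a ^ 2 - 4 * (C u * ∏ l, (X - C (c l)))) ε (∏ l ∈ S, (X - C (c l)))) : False := by
  haveI := h.dvr
  obtain ⟨ϖ, hϖ⟩ := IsDiscreteValuationRing.exists_irreducible w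
  obtain ⟨a', rfl⟩ := lift_poly fun m => (h.red m).le
  set u' : w := ⟨u, (w.valuation_le_one_iff _).1 h.unit.le⟩ with hu'
  set c' : Fin n → w := fun i => ⟨c i, (w.valuation_le_one_iff _).1 (h.int i)⟩ with hc'
  have e1 : (a'.map (algebraMap w k)) ^ 2 - 4 * (C u * ∏ l, (X - C (c l))) =
      (a' ^ 2 - 4 * (C u' * ∏ l, (X - C (c' l)))).map (algebraMap w k) := by
    rw [Polynomial.map_sub, Polynomial.map_pow, Polynomial.map_mul, Polynomial.map_mul,
      Polynomial.map_prod, Polynomial.map_ofNat, map_C]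
    simp only [Polynomial.map_sub, map_X, map_C]
    rfl
  have e2 : (∏ l ∈ S, (X - C (c l)) : k[X]) = (∏ l ∈ S, (X - C (c' l))).map (algebraMap w k) := by
    rw [Polynomial.map_prod]
    simp only [Polynomial.map_sub, map_X, map_C]
    rfl
  rw [e1, e2] at hs
  have hnn : ∀ x : w, (∀ g : k, 1 ≤ w.valuation ((x : k) - g ^ 2)) →
      ¬ IsSquare (IsLocalRing.residue w x) := by
    rintro x hx ⟨r, hr⟩
    obtain ⟨g, rfl⟩ := IsLocalRing.residue_surjective r
    rw [← map_mul, ← sub_eq_zero, ← map_sub, IsLocalRing.residue_eq_zero_iff,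
      w.valuation_lt_one_iff] at hr
    have h3 := hx g
    have e3 : ((x - g * g : w) : k) = (x : k) - (g : k) ^ 2 := by
      rw [pow_two]; rfl
    rw [e3] at hr
    exact absurd h3 (not_le.2 hr)
  refine placeA hϖ (unit_of h.two) (u := u') (unit_of h.unit) (c := c') ?_ (a := a') ?_ (S := S) ?_
    hε hs
  · intro l m hlm
    exact unit_of (h.dis l m hlm)
  · ext m
    rw [coeff_map, coeff_zero, IsLocalRing.residue_eq_zero_iff, w.valuation_lt_one_iff]
    have := h.red m
    rw [coeff_map] at this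
    exact this
  · intro η hη
    have h3 := (w.valuation_eq_one_iff η).1 hη
    obtain ⟨i, ⟨hi, hn⟩ | ⟨hi, hn⟩⟩ := h.nsq η h3
    · refine ⟨i, Or.inl ⟨hi, hnn _ ?_⟩⟩
      intro g
      have e4 : ((η * ∏ j ∈ S, (c' i - c' j) : w) : k) = (η : k) * ∏ j ∈ S, (c i - c j) := by
        have := map_mul (algebraMap w k) η (∏ j ∈ S, (c' i - c' j))
        rw [map_prod] at this
        exact this
      rw [e4]
      exact hn g
    · refine ⟨i, Or.inr ⟨hi, hnn _ ?_⟩⟩
      intro g
      have e4 : ((η * u' * ∏ j ∈ Sᶜ, (c' i - c' j) : w) : k) =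
          (η : k) * u * ∏ j ∈ Sᶜ, (c i - c j) := by
        have := map_mul (algebraMap w k) (η * u') (∏ j ∈ Sᶜ, (c' i - c' j))
        rw [map_prod, map_mul] at this
        exact this
      rw [e4]
      exact hn g

theorem PlaceB.not_splits {a : k[X]} {u : k} {c : Fin n → k} {S : Finset (Fin n)} {i j : Fin n}
    (h : PlaceB w a u c i j) (hi : i ∈ S) (hj : j ∉ S) {ε : k} (hε : ε ≠ 0)
    (hs : Splits (a ^ 2 - 4 * (C u * ∏ l, (X - C (c l)))) ε (∏ l ∈ S, (X - C (c l)))) : False := by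
  haveI := h.dvr
  obtain ⟨ϖ, hϖ1, hϖ2, hcl, hai⟩ := h.close
  have hϖ : w.valuation ϖ ≤ 1 := hϖ1.le
  set p : w := ⟨ϖ, (w.valuation_le_one_iff _).1 hϖ⟩ with hp
  have hdv : ∀ x : w, w.valuation (x : k) ≤ w.valuation ϖ → ∃ y : w, x = p * y := by
    intro x hx
    obtain ⟨y, hy⟩ := (w.valuation_le_iff _ _).1 hx
    refine ⟨y, Subtype.ext ?_⟩
    rw [← hy]
    exact mul_comm _ _
  have hp' : Irreducible p := by
    rw [IsDiscreteValuationRing.irreducible_iff_uniformizer]
    ext x
    rw [Ideal.mem_span_singleton, w.valuation_lt_one_iff]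
    constructor
    · intro hx
      exact hdv x (hϖ2 _ hx)
    · rintro ⟨y, rfl⟩
      have : ((p * y : w) : k) = ϖ * (y : k) := rfl
      rw [this, map_mul]
      exact mul_lt_one_of_lt_of_le hϖ1 (w.valuation_le_one y)
  have hϖ0 : ϖ ≠ 0 := by
    rintro rfl
    exact hp'.ne_zero (Subtype.ext rfl)
  obtain ⟨a', rfl⟩ := lift_poly fun m => (h.red m).le
  have hda : C p ∣ a' := by
    rw [C_dvd_iff_dvd_coeff]
    intro m
    obtain ⟨y, hy⟩ := hdv (a'.coeff m) (by
      have := h.red m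
      rw [coeff_map] at this
      exact hϖ2 _ this)
    exact ⟨y, hy⟩
  obtain ⟨a1, rfl⟩ := hda
  set u' : w := ⟨u, (w.valuation_le_one_iff _).1 h.unit.le⟩ with hu'
  set c' : Fin n → w := fun i => ⟨c i, (w.valuation_le_one_iff _).1 (h.int i)⟩ with hc'
  have e1 : ((C p * a1).map (algebraMap w k)) ^ 2 - 4 * (C u * ∏ l, (X - C (c l))) =
      ((C p * a1) ^ 2 - 4 * (C u' * ∏ l, (X - C (c' l)))).map (algebraMap w k) := by
    have e0 : (4 * (C u' * ∏ l, (X - C (c' l)))).map (algebraMap w k) =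
        4 * (C u * ∏ l, (X - C (c l))) := by
      rw [Polynomial.map_mul, Polynomial.map_mul, Polynomial.map_prod, Polynomial.map_ofNat, map_C]
      simp only [Polynomial.map_sub, map_X, map_C]
      rfl
    rw [Polynomial.map_sub, Polynomial.map_pow, e0]
  have e2 : (∏ l ∈ S, (X - C (c l)) : k[X]) = (∏ l ∈ S, (X - C (c' l))).map (algebraMap w k) := by
    rw [Polynomial.map_prod]
    simp only [Polynomial.map_sub, map_X, map_C]
    rfl
  rw [e1, e2] at hs
  obtain ⟨l0, hl0, hl0'⟩ := h.third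
  obtain ⟨γ, hγ⟩ := (w.valuation_le_iff _ _).1 hcl
  refine placeB hp' (unit_of h.two) (u := u') (unit_of h.unit) (c := c') (i := i) (j := j) hl0 hl0'
    ?_ (γ := γ) ?_ (a := a1) ?_ hi hj hε hs
  · intro l m hlm h3 h4
    exact unit_of (h.dis l m hlm h3 h4)
  · apply Subtype.ext
    show c j - c i = ϖ ^ 2 * (γ : k)
    rw [← hγ, mul_comm]
  · apply unit_of
    have e3 : ((C p * a1).map (algebraMap w k)).eval (c i) = ϖ * ((a1.eval (c' i) : w) : k) := by
      have : (c i) = algebraMap w k (c' i) := rfl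
      rw [this, eval_map, eval₂_hom, eval_mul, eval_C, map_mul]
      rfl
    rw [e3, map_mul] at hai
    have h5 : w.valuation ϖ ≠ 0 := (Valuation.ne_zero_iff _).2 hϖ0
    exact mul_left_cancel₀ h5 (by rw [hai, mul_one])

end vals

section enough

variable {k : Type} [Field k] {n : ℕ}

theorem notNorm_prod {u : k} (hu : u ≠ 0) {c : Fin n → k} (hc : Function.Injective c) (i : Fin n) :
    NotNorm (C u * ∏ l, (X - C (c l))) := by
  intro v D U V e
  have hne : ∀ m, m ≠ i → c i ≠ c m := fun m hm h => hm (hc h).symm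
  have hb0 : C u * ∏ l, (X - C (c l)) ≠ 0 :=
    mul_ne_zero (C_ne_zero.2 hu) (Finset.prod_ne_zero_iff.2 fun l _ => X_sub_C_ne_zero _)
  have hv : v ≠ 0 := by
    rintro rfl
    rw [C_0, zero_mul] at e
    exact hb0 e
  constructor
  · rintro rfl
    refine nsq_prod (w := v⁻¹ * u) (mul_ne_zero (inv_ne_zero hv) hu) hne U ?_
    rw [C_mul, mul_assoc, e]
    have : C v⁻¹ * C v = (1 : k[X]) := by rw [← C_mul, inv_mul_cancel₀ hv, C_1]
    linear_combination (-U ^ 2) * this
  · by_contra hD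
    have hp : Prime (X - C (c i) : k[X]) := prime_X_sub_C _
    have h1 := congrArg (Polynomial.eval (c i)) e
    rw [← Finset.mul_prod_erase _ _ (Finset.mem_univ i)] at h1
    simp only [eval_mul, eval_sub, eval_X, eval_C, sub_self, zero_mul, mul_zero, eval_pow] at h1
    have h3 : U.eval (c i) ^ 2 - D * V.eval (c i) ^ 2 = 0 := (mul_eq_zero.1 h1.symm).resolve_left hv
    have hV : V.eval (c i) = 0 := by
      by_contra hV
      apply hD
      refine ⟨U.eval (c i) / V.eval (c i), ?_⟩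
      field_simp
      linear_combination -h3
    have hU : U.eval (c i) = 0 := by
      rw [hV, zero_pow two_ne_zero, mul_zero, sub_zero] at h3
      exact pow_eq_zero_iff two_ne_zero |>.1 h3
    obtain ⟨U', hU'⟩ := dvd_iff_isRoot.2 hU
    obtain ⟨V', hV'⟩ := dvd_iff_isRoot.2 hV
    have h5 : C u * ∏ l ∈ Finset.univ.erase i, (X - C (c l)) =
        (X - C (c i)) * (C v * (U' ^ 2 - C D * V' ^ 2)) := by
      apply mul_left_cancel₀ hp.ne_zero
      rw [← Finset.mul_prod_erase _ _ (Finset.mem_univ i), hU', hV'] at e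
      linear_combination e
    have h6 := congrArg (Polynomial.eval (c i)) h5
    rw [eval_mul, eval_mul, eval_prod, eval_sub, eval_X, eval_C, eval_C, sub_self, zero_mul] at h6
    refine mul_ne_zero hu (Finset.prod_ne_zero_iff.2 ?_) h6
    intro m hm
    rw [eval_sub, eval_X, eval_C, sub_ne_zero]
    exact hne m (Finset.ne_of_mem_erase hm)

/-- The divisors. -/
theorem dvd_prod {A : k[X]} (hA : A.Monic) (hs : Squarefree A) {u : k} (hu : u ≠ 0)
    {c : Fin n → k} (hc : Function.Injective c) (hd : A ∣ C u * ∏ l, (X - C (c l))) :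
    ∃ S : Finset (Fin n), A = ∏ l ∈ S, (X - C (c l)) := by
  refine ⟨Finset.univ.filter fun l => (X - C (c l)) ∣ A, ?_⟩
  refine eq_of_monic_of_associated hA (monic_prod_of_monic _ _ fun l _ => monic_X_sub_C _)
    (associated_of_dvd_dvd ?_ ?_)
  · apply dvd_of_primes hs
    intro π hπ hπA
    have h1 := hπA.trans hd
    have hCu : IsUnit (C u) := isUnit_C.2 (isUnit_iff_ne_zero.2 hu)
    rw [hCu.dvd_mul_left, hπ.prime.dvd_finset_prod_iff] at h1
    obtain ⟨l, -, hl⟩ := h1
    have h3 : Associated π (X - C (c l)) :=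
      hπ.associated_of_dvd (irreducible_X_sub_C _) hl
    refine hl.trans (Finset.dvd_prod_of_mem (fun l => X - C (c l)) ?_)
    exact Finset.mem_filter.2 ⟨Finset.mem_univ l, h3.symm.dvd.trans hπA⟩
  · refine Finset.prod_dvd_of_coprime ?_ ?_
    · intro l _ m _ hlm
      exact isCoprime_X_sub_C_of_isUnit_sub
        (isUnit_iff_ne_zero.2 (sub_ne_zero.2 fun h => hlm (hc h)))
    · intro l hl
      exact (Finset.mem_filter.1 hl).2

end enough

section family

variable {k k' K F : Type} [Field k] [Field k'] [Algebra k k'] [Field K] [Algebra k[X] K]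
    [Field F] [Algebra k'[X] F] [IsFractionRing k'[X] F] [Algebra K F]

theorem enough_prod (hT : IsTower k k' K F) (h2 : (2 : k) ≠ 0) {a : k[X]} {u : k} (hu : u ≠ 0)
    {n : ℕ} {c : Fin n → k} (hc : Function.Injective c)
    (hS : ∀ S : Finset (Fin n), S ≠ ∅ → S ≠ Finset.univ →
      (4 ∣ n → 2 * a.natDegree ≤ n → Even S.card) →
      (∃ P : Pt (crvT (algebraMap k[X] K a) (algebraMap k[X] K (C u * ∏ l, (X - C (c l))))) K,
        Represents K F (∏ l ∈ S, (X - C (c l)))
          (dT (algebraMap k[X] K (C u * ∏ l, (X - C (c l)))) P)) ∨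
      ∀ ε : k, ε ≠ 0 →
      ¬ Splits (a ^ 2 - 4 * (C u * ∏ l, (X - C (c l)))) ε (∏ l ∈ S, (X - C (c l)))) :
    EnoughNorm K F a (C u * ∏ l, (X - C (c l))) := by
  haveI := hT.sep
  haveI := hT.fracK
  haveI : IsSepClosed k' := IsSepClosure.sep_closed k
  have hKF := hT.map
  set b := C u * ∏ l, (X - C (c l)) with hb
  have hb0 : b ≠ 0 :=
    mul_ne_zero (C_ne_zero.2 hu) (Finset.prod_ne_zero_iff.2 fun l _ => X_sub_C_ne_zero _)
  have hbK : algebraMap k[X] K b ≠ 0 := by simpa using hb0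
  have hbd : b.natDegree = n := by
    rw [hb, natDegree_C_mul hu, natDegree_prod_of_monic _ _ fun l _ => monic_X_sub_C _]
    simp
  intro ε A hε hA hs hd hinf hsp
  obtain ⟨S, rfl⟩ := dvd_prod hA hs hu hc hd
  by_cases h0 : S = ∅
  · subst h0
    refine ⟨0, 1, one_ne_zero, ?_⟩
    show algebraMap K F (algebraMap k[X] K (∏ l ∈ (∅ : Finset (Fin n)), (X - C (c l)))) =
      1 ^ 2 * algebraMap K F 1
    rw [Finset.prod_empty, map_one, one_pow, one_mul]
  by_cases h1 : S = Finset.univ
  · subst h1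
    refine ⟨Point.some 0 0 (nons_zero _ hbK), ?_⟩
    have h2' : (2 : k') ≠ 0 := by
      rw [← map_ofNat (algebraMap k k') 2]
      exact (_root_.map_ne_zero _).2 h2
    haveI : NeZero ((2 : ℕ) : k') := ⟨by exact_mod_cast h2'⟩
    obtain ⟨s, hs⟩ := IsSepClosed.exists_pow_nat_eq (algebraMap k k' u⁻¹) 2
    have hs0 : s ≠ 0 := by
      rintro rfl
      rw [zero_pow two_ne_zero] at hs
      exact (_root_.map_ne_zero _).2 (inv_ne_zero hu) hs.symm
    have hsF : algebraMap k'[X] F (C s) ≠ 0 := by simpa using hs0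
    refine ⟨algebraMap k'[X] F (C s), hsF, ?_⟩
    have hsq : algebraMap k'[X] F (C s) ^ 2 = algebraMap K F (algebraMap k[X] K (C u⁻¹)) := by
      rw [← map_pow, ← C_pow, hs, hKF, map_C]
    have hdd : dT (algebraMap k[X] K b) (Point.some 0 0 (nons_zero (algebraMap k[X] K a) hbK)) =
        algebraMap k[X] K b := by
      simp [dT]
    rw [hdd, hsq, hb, ← map_mul, ← map_mul]
    congr 2
    rw [← mul_assoc, ← C_mul, inv_mul_cancel₀ hu, C_1, one_mul]
  · refine (hS S h0 h1 ?_).resolve_right fun h => h ε hε hsp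
    intro h4 h5
    have h6 := hinf (by rw [hbd]; exact h4) (by rw [hbd]; exact h5)
    rw [natDegree_prod_of_monic _ _ fun l _ => monic_X_sub_C _] at h6
    simpa using h6

/-- **The family.** -/
theorem family (hT : IsTower k k' K F) (h2 : (2 : k) ≠ 0) {n : ℕ} (hn : 0 < n) {c : Fin n → k}
    (hc : Function.Injective c) {u v : k} (hu : u ≠ 0) (hv : v ≠ 0) {a ρ : k[X]} {m : ℕ}
    (hρ : Irreducible ρ) (sρ : ρ.Separable)
    (hd : a ^ 2 - 4 * (C u * ∏ l, (X - C (c l))) = C v * ρ ^ (2 * m + 1))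
    (hNd : Odd (a ^ 2 - 4 * (C u * ∏ l, (X - C (c l)))).natDegree ∨
      NotNorm (a ^ 2 - 4 * (C u * ∏ l, (X - C (c l)))))
    (hS : ∀ S : Finset (Fin n), S ≠ ∅ → S ≠ Finset.univ →
      (4 ∣ n → 2 * a.natDegree ≤ n → Even S.card) →
      (∃ P : Pt (crvT (algebraMap k[X] K a) (algebraMap k[X] K (C u * ∏ l, (X - C (c l))))) K,
        Represents K F (∏ l ∈ S, (X - C (c l)))
          (dT (algebraMap k[X] K (C u * ∏ l, (X - C (c l)))) P)) ∨
      ∃ w : ValuationSubring k, PlaceA w a u c S ∨ ∃ i ∈ S, ∃ j ∉ S, PlaceB w a u c i j) :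
    TateAtTwo (F := F) k' (crvT (algebraMap k[X] K a)
      (algebraMap k[X] K (C u * ∏ l, (X - C (c l))))) := by
  set b := C u * ∏ l, (X - C (c l)) with hb
  have hb0 : b ≠ 0 :=
    mul_ne_zero (C_ne_zero.2 hu) (Finset.prod_ne_zero_iff.2 fun l _ => X_sub_C_ne_zero _)
  have hd0 : a ^ 2 - 4 * b ≠ 0 := by
    rw [hd]
    exact mul_ne_zero (C_ne_zero.2 hv) (pow_ne_zero _ hρ.ne_zero)
  refine mainN hT h2 hb0 hd0 ?_ (notNorm_prod hu hc ⟨0, hn⟩) (hNd.elim notNorm_of_odd id)
    (enough_prod hT h2 hu hc ?_) ?_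
  · intro q hq hdv
    rcases hq.prime.dvd_or_dvd hdv with h | h
    · have hCu : IsUnit (C u) := isUnit_C.2 (isUnit_iff_ne_zero.2 hu)
      rw [hb, hCu.dvd_mul_left, hq.prime.dvd_finset_prod_iff] at h
      obtain ⟨l, -, hl⟩ := h
      exact (separable_X_sub_C).of_dvd hl
    · have hCv : IsUnit (C v) := isUnit_C.2 (isUnit_iff_ne_zero.2 hv)
      rw [hd, hCv.dvd_mul_left] at h
      exact sρ.of_dvd (hq.prime.dvd_of_dvd_pow h)
  · intro S h0 h1 h3
    rcases hS S h0 h1 h3 with h | ⟨w, hw | ⟨i, hi, j, hj, hw⟩⟩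
    · exact Or.inl h
    · exact Or.inr fun ε hε hs => hw.not_splits hε hs
    · exact Or.inr fun ε hε hs => hw.not_splits hi hj hε hs
  · intro ε A _ hA hs hdv _ _
    exact enough_pow hT h2 hv hρ hd A hA hs hdv

end family

end Pool.Agent.R939.EI
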