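import Pool.Agent.R939.EI.Fam4

/-!
# A family given by congruences
-/

set_option autoImplicit false
set_option linter.all false

open Polynomial IsDedekindDomain WeierstrassCurve WeierstrassCurve.Affine
open scoped Classical

namespace Pool.Agent.R939.EI

open Pool.Agent.TH115.GD

section irr

variable {R : Type} [CommRing R] [IsDomain R] [IsDiscreteValuationRing R]

/-- Factors of a polynomial which is congruent to a power of `X`. -/
theorem coeff_of_dvd {ϖ : R} (hϖ : Irreducible ϖ) {f d : R[X]} (hf : IsUnit f.leadingCoeff)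
    {n : ℕ} (hd : d.map (IsLocalRing.residue R) = X ^ n) (h : f ∣ d) {j : ℕ}
    (hj : j < f.natDegree) : ϖ ∣ f.coeff j := by
  have h1 : f.map (IsLocalRing.residue R) ∣ X ^ n := by
    rw [← hd]
    exact Polynomial.map_dvd _ h
  rw [dvd_prime_pow prime_X] at h1
  obtain ⟨i, -, hi⟩ := h1
  have hdeg : (f.map (IsLocalRing.residue R)).natDegree = f.natDegree :=
    natDegree_map_of_leadingCoeff_ne_zero _ (res_ne hf)
  have hi' : i = f.natDegree := by
    rw [← hdeg, natDegree_eq_of_degree_eq (degree_eq_degree_of_associated hi), natDegree_X_pow]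
  obtain ⟨v, hv⟩ := hi.symm
  obtain ⟨w, hw, hwv⟩ := Polynomial.isUnit_iff.1 v.isUnit
  rw [← hwv] at hv
  rw [← res_zero hϖ, ← coeff_map, ← hv, coeff_mul_C, coeff_X_pow, if_neg (by omega), zero_mul]

theorem irred_aux {ϖ : R} (hϖ : Irreducible ϖ) {f g : R[X]} {n : ℕ}
    (hf : IsUnit f.leadingCoeff) (hg : IsUnit g.leadingCoeff)
    (hn : f.natDegree + g.natDegree = n) (hr : 0 < f.natDegree) (hlt : f.natDegree < g.natDegree)
    (hd : (f * g).map (IsLocalRing.residue R) = X ^ n)
    (h2 : ∀ i, 2 * i < n → ϖ ^ 2 ∣ (f * g).coeff i) (h0 : ¬ ϖ ^ 3 ∣ (f * g).coeff 0) : False := by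
  have hfj : ∀ j, j < f.natDegree → ϖ ∣ f.coeff j := fun j hj =>
    coeff_of_dvd hϖ hf hd (dvd_mul_right f g) hj
  have hgj : ∀ j, j < g.natDegree → ϖ ∣ g.coeff j := fun j hj =>
    coeff_of_dvd hϖ hg hd (dvd_mul_left g f) hj
  have hf0 := hfj 0 hr
  have hg0 : ¬ ϖ ^ 2 ∣ g.coeff 0 := by
    intro h
    apply h0
    rw [mul_coeff_zero]
    obtain ⟨x, hx⟩ := hf0
    obtain ⟨y, hy⟩ := h
    exact ⟨x * y, by rw [hx, hy]; ring⟩
  have h3 := h2 f.natDegree (by omega)
  rw [coeff_mul, Finset.Nat.antidiagonal_eq_map] at h3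
  rw [Finset.sum_map, Finset.sum_range_succ] at h3
  have h4 : ϖ ^ 2 ∣ ∑ x ∈ Finset.range f.natDegree, f.coeff x * g.coeff (f.natDegree - x) := by
    apply Finset.dvd_sum
    intro j hj
    rw [Finset.mem_range] at hj
    rw [pow_two]
    exact mul_dvd_mul (hfj j hj) (hgj _ (by omega))
  have h5 : ϖ ^ 2 ∣ f.coeff f.natDegree * g.coeff 0 := by
    have := (dvd_add_right h4).1 h3
    simpa using this
  apply hg0
  have h6 : IsUnit (f.coeff f.natDegree) := hf
  exact (h6.dvd_mul_left).1 h5

/-- An irreducibility criterion (slope `2 / n`). -/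
theorem irred_two {ϖ : R} (hϖ : Irreducible ϖ) {d : R[X]} (hm : d.Monic) (hodd : Odd d.natDegree)
    (h1 : ∀ i < d.natDegree, ϖ ∣ d.coeff i) (h2 : ∀ i, 2 * i < d.natDegree → ϖ ^ 2 ∣ d.coeff i)
    (h0 : ¬ ϖ ^ 3 ∣ d.coeff 0) : Irreducible d := by
  have hX : d.map (IsLocalRing.residue R) = X ^ d.natDegree := by
    ext i
    rw [coeff_map, coeff_X_pow]
    split_ifs with h
    · rw [h, hm.coeff_natDegree, map_one]
    · rcases lt_or_gt_of_ne h with h | h
      · exact (res_zero hϖ _).2 (h1 i h)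
      · rw [coeff_eq_zero_of_natDegree_lt h, map_zero]
  have key : ∀ f g : R[X], d = f * g → IsUnit f.leadingCoeff ∧ IsUnit g.leadingCoeff ∧
      f.natDegree + g.natDegree = d.natDegree := by
    intro f g h
    have h3 : f.leadingCoeff * g.leadingCoeff = 1 := by
      rw [← leadingCoeff_mul, ← h]; exact hm
    have hf : f ≠ 0 := by rintro rfl; rw [leadingCoeff_zero, zero_mul] at h3; exact zero_ne_one h3
    have hg : g ≠ 0 := by rintro rfl; rw [leadingCoeff_zero, mul_zero] at h3; exact zero_ne_one h3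
    exact ⟨IsUnit.of_mul_eq_one _ h3, IsUnit.of_mul_eq_one _ (by rw [mul_comm]; exact h3),
      by rw [h, natDegree_mul hf hg]⟩
  have hcst : ∀ f : R[X], IsUnit f.leadingCoeff → f.natDegree = 0 → IsUnit f := by
    intro f hf h
    rw [eq_C_of_natDegree_eq_zero h]
    apply isUnit_C.2
    have : f.leadingCoeff = f.coeff 0 := by rw [leadingCoeff, h]
    rw [← this]; exact hf
  refine ⟨?_, ?_⟩
  · intro hu
    have := natDegree_eq_zero_of_isUnit hu
    rw [this] at hodd
    exact absurd hodd (by decide)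
  · intro f g h
    obtain ⟨hf, hg, hn⟩ := key f g h
    by_cases hf0 : f.natDegree = 0
    · exact Or.inl (hcst f hf hf0)
    by_cases hg0 : g.natDegree = 0
    · exact Or.inr (hcst g hg hg0)
    exfalso
    have hne : f.natDegree ≠ g.natDegree := by
      intro he
      rw [← hn, he] at hodd
      exact (Nat.not_odd_iff_even.2 ⟨_, rfl⟩) hodd
    rcases lt_or_gt_of_ne hne with hlt | hlt
    · exact irred_aux (n := d.natDegree) hϖ hf hg hn (Nat.pos_of_ne_zero hf0) hlt
        (by rw [← h]; exact hX) (by rw [← h]; exact h2) (by rw [← h]; exact h0)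
    · have h' : d = g * f := by rw [h, mul_comm]
      exact irred_aux (n := d.natDegree) hϖ hg hf (by rw [add_comm]; exact hn)
        (Nat.pos_of_ne_zero hg0) hlt
        (by rw [← h']; exact hX) (by rw [← h']; exact h2) (by rw [← h']; exact h0)

/-- Coefficients of a product. -/
theorem coeff_prod_small {ϖ : R} {n : ℕ} (e : Fin n → R) (T : Finset (Fin n)) :
    ∀ m, ϖ ^ (T.card - m) ∣ (∏ l ∈ T, (X - C (ϖ * e l))).coeff m := by
  induction T using Finset.induction_on with
  | empty => intro m; simp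
  | insert l T hl ih =>
    intro m
    rw [Finset.prod_insert hl, Finset.card_insert_of_notMem hl, sub_mul, coeff_sub, coeff_C_mul]
    refine dvd_sub ?_ ?_
    · cases m with
      | zero => rw [coeff_X_mul_zero]; exact dvd_zero _
      | succ m =>
        rw [coeff_X_mul]
        have : T.card + 1 - (m + 1) = T.card - m := by omega
        rw [this]
        exact ih m
    · have h1 : ϖ ^ (T.card + 1 - m) ∣ ϖ * ϖ ^ (T.card - m) := by
        rw [← pow_succ']
        exact pow_dvd_pow _ (by omega)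
      refine h1.trans ?_
      rw [mul_assoc]
      exact mul_dvd_mul_left ϖ ((ih m).mul_left _)

theorem irred_place {k : Type} [Field k] [Algebra R k] [IsFractionRing R k] {ϖ : R}
    (hϖ : Irreducible ϖ) (h2 : IsUnit (2 : R)) {u : R} (hu : IsUnit u) {n : ℕ} (hn : Odd n)
    (h3 : 3 ≤ n) {e : Fin n → R} {a : R[X]} (hdeg : 2 * a.natDegree < n)
    (ha : IsUnit (a.coeff 0)) :
    Irreducible (((C ϖ * a) ^ 2 - 4 * (C u * ∏ l, (X - C (ϖ * e l)))).map (algebraMap R k)) := by
  set P : R[X] := ∏ l, (X - C (ϖ * e l)) with hP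
  have hPm : P.Monic := monic_prod_of_monic _ _ fun l _ => monic_X_sub_C _
  have hPd : P.natDegree = n := by
    rw [hP, natDegree_prod_of_monic _ _ fun l _ => monic_X_sub_C _]
    simp only [natDegree_X_sub_C, Finset.sum_const, Finset.card_univ, Fintype.card_fin,
      smul_eq_mul, mul_one]
  have h4 : IsUnit (4 : R) := by
    have : (4 : R) = 2 * 2 := by norm_num
    rw [this]; exact h2.mul h2
  obtain ⟨w, hw⟩ := (h4.mul hu).neg
  set w' : R := ((w⁻¹ : Rˣ) : R) with hw'
  have hww : w' * (-(4 * u)) = 1 := by rw [← hw, Units.inv_mul]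
  have hw'u : IsUnit w' := Units.isUnit _
  set Q : R[X] := C (w' * ϖ ^ 2) * a ^ 2 with hQ
  have h4C : (C 4 : R[X]) = 4 := by rw [map_ofNat]
  have hd : C w' * ((C ϖ * a) ^ 2 - 4 * (C u * P)) = P + Q := by
    have e1 : C w' * (-(4 * C u)) = (1 : R[X]) := by
      rw [← h4C, ← C_mul, ← C_neg, ← C_mul, hww, C_1]
    rw [hQ, C_mul, C_pow]
    linear_combination P * e1
  have hQd : Q.natDegree < P.natDegree := by
    rw [hPd, hQ]
    refine lt_of_le_of_lt (natDegree_C_mul_le _ _) (lt_of_le_of_lt natDegree_pow_le ?_)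
    exact hdeg
  have hQdd : Q.degree < P.degree := by
    by_cases hQ0 : Q = 0
    · rw [hQ0, degree_zero, bot_lt_iff_ne_bot]
      exact fun h => hPm.ne_zero (degree_eq_bot.1 h)
    · exact degree_lt_degree hQd
  have hm : (P + Q).Monic := hPm.add_of_left hQdd
  have hnd : (P + Q).natDegree = n := by
    rw [natDegree_add_eq_left_of_natDegree_lt hQd, hPd]
  have hQc : ∀ m, ϖ ^ 2 ∣ Q.coeff m := by
    intro m
    rw [hQ, coeff_C_mul]
    exact ⟨w' * (a ^ 2).coeff m, by ring⟩
  have hPc : ∀ m, ϖ ^ (n - m) ∣ P.coeff m := by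
    intro m
    have := coeff_prod_small (ϖ := ϖ) e Finset.univ m
    rwa [Finset.card_univ, Fintype.card_fin] at this
  have hirr : Irreducible (P + Q) := by
    refine irred_two hϖ hm (by rw [hnd]; exact hn) ?_ ?_ ?_
    · intro i hi
      rw [hnd] at hi
      rw [coeff_add]
      refine dvd_add ((dvd_pow_self ϖ (by omega)).trans (hPc i)) ?_
      exact (dvd_pow_self ϖ two_ne_zero).trans (hQc i)
    · intro i hi
      rw [hnd] at hi
      rw [coeff_add]
      exact dvd_add ((pow_dvd_pow ϖ (by omega)).trans (hPc i)) (hQc i)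
    · rw [coeff_add]
      intro h
      have h5 : ϖ ^ 3 ∣ Q.coeff 0 := by
        refine (dvd_add_right ?_).1 h
        exact (pow_dvd_pow ϖ (by omega)).trans (hPc 0)
      rw [hQ, coeff_C_mul, pow_two a, mul_coeff_zero] at h5
      obtain ⟨f, hf⟩ := h5
      have h6 : w' * (a.coeff 0 * a.coeff 0) = ϖ * f := by
        apply mul_left_cancel₀ (pow_ne_zero 2 hϖ.ne_zero)
        linear_combination hf
      exact hϖ.not_isUnit (isUnit_of_dvd_unit ⟨f, h6⟩ (hw'u.mul (ha.mul ha)))
  have h7 := (hm.irreducible_iff_irreducible_map_fraction_map (K := k)).1 hirr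
  rw [← hd, Polynomial.map_mul, map_C, irreducible_isUnit_mul] at h7
  · exact h7
  · exact isUnit_C.2 (hw'u.map (algebraMap R k))

end irr

section place

variable {k : Type} [Field k] {n : ℕ}

/-- Places at which all the `c i` are congruent to zero: `w` is a discrete valuation ring of `k` with
residue characteristic different from 2, the residues of `a` and of the `c i` are zero, that of `u` is
not zero, and `a 0` generates the maximal ideal. -/
structure PlaceZ (w : ValuationSubring k) (a : k[X]) (u : k) (c : Fin n → k) : Prop where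
  dvr : IsDiscreteValuationRing w
  two : w.valuation 2 = 1
  unit : w.valuation u = 1
  small : ∀ i, w.valuation (c i) < 1
  red : ∀ m, w.valuation (a.coeff m) < 1
  zero : ∀ x, w.valuation x < 1 → w.valuation x ≤ w.valuation (a.coeff 0)

variable {w : ValuationSubring k}

theorem PlaceZ.irred {a : k[X]} {u : k} {c : Fin n → k} (h : PlaceZ w a u c) (hn : Odd n)
    (h3 : 3 ≤ n) (hdeg : 2 * a.natDegree < n) :
    Irreducible (a ^ 2 - 4 * (C u * ∏ l, (X - C (c l)))) := by
  haveI := h.dvr
  set ϖ := a.coeff 0 with hϖ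
  have hϖ1 : w.valuation ϖ < 1 := h.red 0
  set p : w := ⟨ϖ, (w.valuation_le_one_iff _).1 hϖ1.le⟩ with hp
  have hdv : ∀ x : w, w.valuation (x : k) ≤ w.valuation ϖ → ∃ y : w, x = p * y := by
    intro x hx
    obtain ⟨y, hy⟩ := (w.valuation_le_iff _ _).1 hx
    refine ⟨y, Subtype.ext ?_⟩
    rw [← hy]
    exact mul_comm _ _
  have hp' : Irreducible p := by
    rw [IsDiscreteValuationRing.irreducible_iff_uniformizer]
    ext x
    rw [Ideal.mem_span_singleton, w.valuation_lt_one_iff]
    constructor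
    · intro hx
      exact hdv x (h.zero _ hx)
    · rintro ⟨y, rfl⟩
      have : ((p * y : w) : k) = ϖ * (y : k) := rfl
      rw [this, map_mul]
      exact mul_lt_one_of_lt_of_le hϖ1 (w.valuation_le_one y)
  obtain ⟨a', ha'⟩ := lift_poly fun m => (h.red m).le
  have hac : ∀ m, ((a'.coeff m : w) : k) = a.coeff m := by
    intro m
    rw [← ha', coeff_map]; rfl
  have hda : C p ∣ a' := by
    rw [C_dvd_iff_dvd_coeff]
    intro m
    obtain ⟨y, hy⟩ := hdv (a'.coeff m) (by rw [hac]; exact h.zero _ (h.red m))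
    exact ⟨y, hy⟩
  obtain ⟨a1, rfl⟩ := hda
  set u' : w := ⟨u, (w.valuation_le_one_iff _).1 h.unit.le⟩ with hu'
  have hce : ∀ i, ∃ y : w, c i = ϖ * (y : k) := by
    intro i
    obtain ⟨y, hy⟩ := (w.valuation_le_iff _ _).1 (h.zero _ (h.small i))
    exact ⟨y, by rw [← hy, mul_comm]⟩
  choose e he using hce
  have e1 : a ^ 2 - 4 * (C u * ∏ l, (X - C (c l))) =
      ((C p * a1) ^ 2 - 4 * (C u' * ∏ l, (X - C (p * e l)))).map (algebraMap w k) := by
    have e0 : (4 * (C u' * ∏ l, (X - C (p * e l)))).map (algebraMap w k) =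
        4 * (C u * ∏ l, (X - C (c l))) := by
      rw [Polynomial.map_mul, Polynomial.map_mul, Polynomial.map_prod, Polynomial.map_ofNat, map_C]
      simp only [Polynomial.map_sub, map_X, map_C]
      congr 2
      refine Finset.prod_congr rfl fun l _ => ?_
      rw [he l]
      rfl
    rw [Polynomial.map_sub, Polynomial.map_pow, e0, ha']
  rw [e1]
  have hp0 : p ≠ 0 := hp'.ne_zero
  refine irred_place hp' (unit_of h.two) (unit_of h.unit) hn h3 ?_ ?_
  · have h5 : (C p * a1).natDegree = a.natDegree := by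
      rw [← ha']
      exact (natDegree_map_eq_of_injective (IsFractionRing.injective w k) _).symm
    rw [natDegree_C_mul hp0] at h5
    rw [h5]; exact hdeg
  · have h6 : (C p * a1).coeff 0 = p := Subtype.ext (by rw [hac])
    rw [coeff_C_mul] at h6
    have h7 : a1.coeff 0 = 1 := mul_left_cancel₀ hp0 (by rw [h6, mul_one])
    rw [h7]; exact isUnit_one

theorem PlaceB.symm {a : k[X]} {u : k} {c : Fin n → k} {i j : Fin n} (h : PlaceB w a u c i j) :
    PlaceB w a u c j i := by
  haveI := h.dvr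
  refine ⟨h.dvr, h.two, h.unit, h.int, h.red, ?_, ?_, ?_⟩
  · obtain ⟨l, h1, h3⟩ := h.third
    exact ⟨l, h3, h1⟩
  · intro l m hlm h1 h3
    exact h.dis l m hlm h3 h1
  · obtain ⟨ϖ, h1, h3, h4, h5⟩ := h.close
    refine ⟨ϖ, h1, h3, ?_, ?_⟩
    · rw [← Valuation.map_neg, neg_sub]; exact h4
    · have h6 : w.valuation (a.eval (c j) - a.eval (c i)) < w.valuation ϖ := by
        obtain ⟨a', rfl⟩ := lift_poly fun m => (h.red m).le
        set c' : Fin n → w := fun i => ⟨c i, (w.valuation_le_one_iff _).1 (h.int i)⟩ with hc'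
        obtain ⟨y, hy⟩ := Polynomial.sub_dvd_eval_sub (c' j) (c' i) a'
        have e1 : ∀ l, (a'.map (algebraMap w k)).eval (c l) = ((a'.eval (c' l) : w) : k) := by
          intro l
          have : (c l) = algebraMap w k (c' l) := rfl
          rw [this, eval_map, eval₂_hom]
          rfl
        have e2 : ((a'.eval (c' j) : w) : k) - ((a'.eval (c' i) : w) : k) =
            (c j - c i) * (y : k) := by
          have := congrArg (fun x : w => (x : k)) hy
          exact this
        rw [e1, e1, e2, map_mul]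
        have h7 : w.valuation (c j - c i) * w.valuation (y : k) ≤ w.valuation (ϖ ^ 2) :=
          (mul_le_mul' h4 (w.valuation_le_one y)).trans (by rw [mul_one])
        refine lt_of_le_of_lt h7 ?_
        rw [map_pow, pow_two]
        have h8 : w.valuation ϖ ≠ 0 := by
          intro h0
          obtain ⟨q, hq⟩ := IsDiscreteValuationRing.exists_irreducible w
          have h9 : w.valuation (q : k) < 1 := by
            rw [← w.valuation_lt_one_iff, IsLocalRing.mem_maximalIdeal]
            exact hq.not_isUnit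
          have h10 := h3 _ h9
          rw [h0, le_zero_iff, Valuation.zero_iff] at h10
          exact hq.ne_zero (Subtype.ext h10)
        calc w.valuation ϖ * w.valuation ϖ < 1 * w.valuation ϖ :=
              mul_lt_mul_of_pos_right h1 (zero_lt_iff.2 h8)
          _ = w.valuation ϖ := one_mul _
      have e3 : a.eval (c j) = (a.eval (c j) - a.eval (c i)) + a.eval (c i) := by ring
      rw [e3, Valuation.map_add_eq_of_lt_right _ (by rw [h5]; exact h6), h5]

end place

section family

variable {k k' K F : Type} [Field k] [Field k'] [Algebra k k'] [Field K] [Algebra k[X] K]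
    [Field F] [Algebra k'[X] F] [IsFractionRing k'[X] F] [Algebra K F]

/-- Neighbours which are separated by a set. -/
theorem exists_sep {n : ℕ} {S : Finset (Fin n)} (h0 : S ≠ ∅) (h1 : S ≠ Finset.univ) :
    ∃ i j : Fin n, (i : ℕ) + 1 = j ∧ ((i ∈ S ∧ j ∉ S) ∨ (i ∉ S ∧ j ∈ S)) := by
  by_contra hcon
  push Not at hcon
  have key : ∀ i j : Fin n, (i : ℕ) + 1 = j → (i ∈ S ↔ j ∈ S) := by
    intro i j hij
    obtain ⟨h3, h4⟩ := hcon i j hij
    exact ⟨h3, fun h => by
      by_contra hi
      exact h4 hi h⟩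
  obtain ⟨s, hs⟩ := Finset.nonempty_iff_ne_empty.2 h0
  have hall : ∀ (m : ℕ) (hm : m < n), ((⟨m, hm⟩ : Fin n) ∈ S ↔ (⟨0, by omega⟩ : Fin n) ∈ S) := by
    intro m
    induction m with
    | zero => intro hm; rfl
    | succ m ih =>
      intro hm
      rw [← ih (by omega)]
      exact (key ⟨m, by omega⟩ ⟨m + 1, hm⟩ rfl).symm
  apply h1
  rw [Finset.eq_univ_iff_forall]
  intro x
  have := hall x.1 x.2
  rw [this, ← hall s.1 s.2]
  exact hs

/-- **The family given by congruences.** -/
theorem family_cong (hT : IsTower k k' K F) {n : ℕ} (hn : Odd n) (h3 : 3 ≤ n) (hnk : (n : k) ≠ 0)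
    {c : Fin n → k} (hc : Function.Injective c) {u : k} {a : k[X]} (hdeg : 2 * a.natDegree < n)
    (hZ : ∃ w : ValuationSubring k, PlaceZ w a u c)
    (hB : ∀ i j : Fin n, (i : ℕ) + 1 = j → ∃ w : ValuationSubring k, PlaceB w a u c i j) :
    TateAtTwo (F := F) k' (crvT (algebraMap k[X] K a)
      (algebraMap k[X] K (C u * ∏ l, (X - C (c l))))) := by
  obtain ⟨w, hw⟩ := hZ
  have h2 : (2 : k) ≠ 0 := by
    intro h
    have := hw.two
    rw [h, map_zero] at this
    exact zero_ne_one this
  have hu : u ≠ 0 := by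
    intro h
    have := hw.unit
    rw [h, map_zero] at this
    exact zero_ne_one this
  have h4 : (-(4 * u) : k) ≠ 0 := by
    have : (4 : k) = 2 ^ 2 := by norm_num
    rw [this]
    exact neg_ne_zero.2 (mul_ne_zero (pow_ne_zero 2 h2) hu)
  have hirr := hw.irred hn h3 hdeg
  set P : k[X] := ∏ l, (X - C (c l)) with hP
  have hPm : P.Monic := monic_prod_of_monic _ _ fun l _ => monic_X_sub_C _
  have hPd : P.natDegree = n := by
    rw [hP, natDegree_prod_of_monic _ _ fun l _ => monic_X_sub_C _]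
    simp
  have e1 : a ^ 2 - 4 * (C u * P) = C (-(4 * u)) * P + a ^ 2 := by
    rw [C_neg, C_mul, map_ofNat]; ring
  have hd1 : (C (-(4 * u)) * P).natDegree = n := by rw [natDegree_C_mul h4, hPd]
  have hlt : (a ^ 2).natDegree < (C (-(4 * u)) * P).natDegree := by
    rw [hd1, natDegree_pow]; exact hdeg
  have hnd : (a ^ 2 - 4 * (C u * P)).natDegree = n := by
    rw [e1, natDegree_add_eq_left_of_natDegree_lt hlt, hd1]
  have hlc : (a ^ 2 - 4 * (C u * P)).coeff n = -(4 * u) := by
    rw [e1, coeff_add, coeff_eq_zero_of_natDegree_lt (p := a ^ 2) (by rw [← hd1]; exact hlt), add_zero,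
      coeff_C_mul, ← hPd, hPm.coeff_natDegree, mul_one]
  have hsep : (a ^ 2 - 4 * (C u * P)).Separable := by
    rw [separable_iff_derivative_ne_zero hirr]
    intro h
    have h5 := congrArg (fun q => q.coeff (n - 1)) h
    simp only [coeff_derivative, coeff_zero] at h5
    have h6 : n - 1 + 1 = n := by omega
    rw [h6, hlc] at h5
    have h7 : (((n - 1 : ℕ) : k) + 1) = (n : k) := by
      rw [← Nat.cast_add_one, h6]
    rw [h7] at h5
    exact mul_ne_zero h4 hnk h5
  refine family hT h2 (by omega) hc hu one_ne_zero (ρ := a ^ 2 - 4 * (C u * P)) (m := 0) hirr hsep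
    (by rw [C_1]; ring) (Or.inl (by rw [hnd]; exact hn)) ?_
  intro S h0 h1 _
  right
  obtain ⟨i, j, hij, ⟨hi, hj⟩ | ⟨hi, hj⟩⟩ := exists_sep h0 h1
  · obtain ⟨w, hw⟩ := hB i j hij
    exact ⟨w, Or.inr ⟨i, hi, j, hj, hw⟩⟩
  · obtain ⟨w, hw⟩ := hB i j hij
    exact ⟨w, Or.inr ⟨j, hj, i, hi, hw.symm⟩⟩

end family

end Pool.Agent.R939.EI
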