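import Pool.Agent.R939.EI.Den3

/-!
# Counting over finite fields, products of polynomials of given degrees
-/

set_option autoImplicit false
set_option linter.all false

open Polynomial

namespace Pool.Agent.R939.EI

section pol

variable {R : Type} [CommRing R] {r s : ℕ} {m : Fin s → ℕ}

/-- The product of the polynomials with given coefficients. -/
noncomputable def polP (β : (i : Fin s) → Fin (m i + 1) → R) : R[X] := ∏ i, polA (β i)

/-- The discriminant `a² - 4 b`. -/
noncomputable def polE (a : Fin (r + 1) → R) (β : (i : Fin s) → Fin (m i + 1) → R) : R[X] :=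
  polA a ^ 2 - 4 * polP β

theorem polP_natDegree (β : (i : Fin s) → Fin (m i + 1) → R) : (polP β).natDegree ≤ ∑ i, m i := by
  unfold polP
  refine (natDegree_prod_le _ _).trans ?_
  exact Finset.sum_le_sum fun i _ => polA_natDegree (β i)

theorem polE_natDegree (a : Fin (r + 1) → R) (β : (i : Fin s) → Fin (m i + 1) → R) :
    (polE a β).natDegree ≤ 2 * r + ∑ i, m i := by
  unfold polE
  refine (natDegree_sub_le _ _).trans (max_le ?_ ?_)
  · refine natDegree_pow_le.trans ?_
    have := polA_natDegree a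
    omega
  · have h4 : (4 : R[X]) = C 4 := by rw [map_ofNat]
    rw [h4]
    refine ((natDegree_C_mul_le _ _).trans (polP_natDegree β)).trans ?_
    omega

theorem polP_map {R' : Type} [CommRing R'] (f : R →+* R')
    (β : (i : Fin s) → Fin (m i + 1) → R) : (polP β).map f = polP (fun i j => f (β i j)) := by
  unfold polP
  rw [Polynomial.map_prod]
  exact Finset.prod_congr rfl fun i _ => polA_map f (β i)

theorem polE_map {R' : Type} [CommRing R'] (f : R →+* R') (a : Fin (r + 1) → R)
    (β : (i : Fin s) → Fin (m i + 1) → R) :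
    (polE a β).map f = polE (fun j => f (a j)) (fun i j => f (β i j)) := by
  unfold polE
  rw [Polynomial.map_sub, Polynomial.map_mul, Polynomial.map_pow, Polynomial.map_ofNat, polA_map,
    polP_map]

/-- The obstruction over a finite field: `a² - 4 b` has two simple roots `e`, `e'` such that
`A(e) A(e')` is not a square, where `A` is the product of the `b i` for `i ∈ S`. -/
def ObsG (S : Finset (Fin s)) (a : Fin (r + 1) → R) (β : (i : Fin s) → Fin (m i + 1) → R) : Prop :=
  ∃ e e' : R, ((polE a β).eval e = 0 ∧ (derivative (polE a β)).eval e ≠ 0) ∧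
    ((polE a β).eval e' = 0 ∧ (derivative (polE a β)).eval e' ≠ 0) ∧
    ¬ IsSquare ((∏ i ∈ S, (polA (β i)).eval e) * ∏ i ∈ S, (polA (β i)).eval e')

end pol

section count

variable {F : Type} [Field F] [Fintype F] [DecidableEq F]

theorem ev2_surj1 {r : ℕ} (hr : 1 ≤ r) {e e' : F} (he : e ≠ e') :
    Function.Surjective (ev2 r e e') := by
  rintro ⟨s, s'⟩
  obtain ⟨r, rfl⟩ := Nat.exists_eq_add_of_le hr
  have hD : e' - e ≠ 0 := sub_ne_zero.2 he.symm
  set y := (s' - s) / (e' - e) with hy
  have hy2 : y * (e' - e) = s' - s := div_mul_cancel₀ _ hD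
  have e0 : ∀ j : ℕ, C (if j = 0 then (s - y * e) else if j = 1 then y else 0) *
      (X : F[X]) ^ j = (if j = 0 then C (s - y * e) else 0) + (if j = 1 then C y * X else 0) := by
    intro j
    rcases j with _ | _ | j
    · simp
    · simp
    · simp
  have ha : polA (fun j : Fin (1 + r + 1) => if (j : ℕ) = 0 then (s - y * e) else
      if (j : ℕ) = 1 then y else 0) = C (s - y * e) + C y * X := by
    unfold polA
    rw [Fin.sum_univ_eq_sum_range (fun j => C (if j = 0 then (s - y * e) else if j = 1 then y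
      else 0) * (X : F[X]) ^ j), Finset.sum_congr rfl fun j _ => e0 j,
      Finset.sum_add_distrib, Finset.sum_ite_eq', Finset.sum_ite_eq', if_pos, if_pos]
    · rw [Finset.mem_range]; omega
    · rw [Finset.mem_range]; omega
  refine ⟨fun j : Fin (1 + r + 1) => if (j : ℕ) = 0 then (s - y * e) else
      if (j : ℕ) = 1 then y else 0, ?_⟩
  show ((polA _).eval e, (polA _).eval e') = (s, s')
  rw [ha]
  refine Prod.ext ?_ ?_
  · simp only [eval_add, eval_mul, eval_C, eval_X]
    ring
  · simp only [eval_add, eval_mul, eval_C, eval_X]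
    linear_combination hy2

/-- Polynomials with values of given classes. -/
theorem card_vals (hF : ringChar F ≠ 2) {r : ℕ} (hr : 1 ≤ r) {e e' : F} (he : e ≠ e') {κ : ℤ}
    (hκ : κ = 1 ∨ κ = -1) {w : ℕ} (hw : 2 * w + 1 = Fintype.card F) :
    w ^ 2 * Fintype.card F ^ (r - 1) ≤ (Finset.univ.filter fun a : Fin (r + 1) → F =>
      quadraticChar F ((polA a).eval e) = 1 ∧ quadraticChar F ((polA a).eval e') = κ).card := by
  set q := Fintype.card F with hq
  have hq0 : 0 < q := Fintype.card_pos
  set G := Finset.univ.filter fun a : Fin (r + 1) → F =>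
      quadraticChar F ((polA a).eval e) = 1 ∧ quadraticChar F ((polA a).eval e') = κ with hG
  set V := (Finset.univ.filter fun x : F => quadraticChar F x = 1) ×ˢ
    (Finset.univ.filter fun x : F => quadraticChar F x = κ) with hV
  have h1 := card_chi hF (Or.inl rfl : (1 : ℤ) = 1 ∨ (1 : ℤ) = -1)
  have h2 := card_chi hF hκ
  have hVc : V.card = w ^ 2 := by
    rw [hV, Finset.card_product, pow_two]
    congr 1 <;> omega
  have h3 : G.card = ∑ v ∈ V, (G.filter fun a => ev2 r e e' a = v).card := by
    apply Finset.card_eq_sum_card_fiberwise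
    intro a ha
    rw [Finset.mem_coe, hG, Finset.mem_filter] at ha
    rw [Finset.mem_coe, hV, Finset.mem_product, Finset.mem_filter, Finset.mem_filter]
    exact ⟨⟨Finset.mem_univ _, ha.2.1⟩, ⟨Finset.mem_univ _, ha.2.2⟩⟩
  obtain ⟨ρ, rfl⟩ := Nat.exists_eq_add_of_le hr
  have e1 : 1 + ρ - 1 = ρ := by omega
  rw [e1]
  have h4 : ∀ v ∈ V, q ^ ρ ≤ (G.filter fun a => ev2 (1 + ρ) e e' a = v).card := by
    intro v hv
    rw [hV, Finset.mem_product, Finset.mem_filter, Finset.mem_filter] at hv
    have h5 := fiber_card (ev2 (1 + ρ) e e') (ev2_surj1 hr he) v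
    rw [Fintype.card_fun, Fintype.card_fin, Fintype.card_prod, ← hq] at h5
    have h6 : (Finset.univ.filter fun a => ev2 (1 + ρ) e e' a = v) ⊆
        G.filter fun a => ev2 (1 + ρ) e e' a = v := by
      intro a ha
      rw [Finset.mem_filter] at ha
      have h7 : ((polA a).eval e, (polA a).eval e') = v := ha.2
      rw [Finset.mem_filter, hG, Finset.mem_filter]
      refine ⟨⟨Finset.mem_univ _, ?_, ?_⟩, ha.2⟩
      · have := congrArg Prod.fst h7
        rw [show (polA a).eval e = v.1 from this]
        exact hv.1.2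
      · have := congrArg Prod.snd h7
        rw [show (polA a).eval e' = v.2 from this]
        exact hv.2.2
    refine le_trans ?_ (Finset.card_le_card h6)
    have h8 : q ^ ρ * (q * q) = q ^ (1 + ρ + 1) := by ring
    rw [← h8] at h5
    exact (Nat.eq_of_mul_eq_mul_right (Nat.mul_pos hq0 hq0) h5).ge
  rw [h3, ← hVc, ← smul_eq_mul, ← Finset.sum_const]
  exact Finset.sum_le_sum h4

/-- Families of polynomials. -/
theorem card_fam (hF : ringChar F ≠ 2) {s : ℕ} {m : Fin s → ℕ} (hm : ∀ i, 1 ≤ m i) {e e' : F}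
    (he : e ≠ e') {S : Finset (Fin s)} {i j : Fin s} (hi : i ∈ S) (hj : j ∉ S) {w : ℕ}
    (hw : 2 * w + 1 = Fintype.card F) :
    ∏ l, (w ^ 2 * Fintype.card F ^ (m l - 1)) ≤
      (Finset.univ.filter fun β : (l : Fin s) → Fin (m l + 1) → F =>
        (quadraticChar F ((polP β).eval e) = 1 ∧ quadraticChar F ((polP β).eval e') = 1) ∧
        quadraticChar F ((∏ l ∈ S, (polA (β l)).eval e) * ∏ l ∈ S, (polA (β l)).eval e') =
          -1).card := by
  set T : (l : Fin s) → Finset (Fin (m l + 1) → F) := fun l =>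
    Finset.univ.filter fun a : Fin (m l + 1) → F =>
      quadraticChar F ((polA a).eval e) = 1 ∧
      quadraticChar F ((polA a).eval e') = (if l = i ∨ l = j then (-1 : ℤ) else 1) with hT
  have h1 : ∀ l, w ^ 2 * Fintype.card F ^ (m l - 1) ≤ (T l).card := by
    intro l
    exact card_vals hF (hm l) he (by
      split_ifs
      · exact Or.inr rfl
      · exact Or.inl rfl) hw
  have h4 : ∏ l, (w ^ 2 * Fintype.card F ^ (m l - 1)) ≤ (Fintype.piFinset T).card := by
    rw [Fintype.card_piFinset]
    exact Finset.prod_le_prod' fun l _ => h1 l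
  refine h4.trans (Finset.card_le_card ?_)
  intro β hβ
  rw [Fintype.mem_piFinset] at hβ
  have h5 : ∀ l, quadraticChar F ((polA (β l)).eval e) = 1 := fun l =>
    (Finset.mem_filter.1 (hβ l)).2.1
  have h6 : ∀ l, quadraticChar F ((polA (β l)).eval e') =
      (if l = i ∨ l = j then (-1 : ℤ) else 1) := fun l => (Finset.mem_filter.1 (hβ l)).2.2
  have hij : i ≠ j := fun h => hj (h ▸ hi)
  rw [Finset.mem_filter]
  refine ⟨Finset.mem_univ _, ⟨?_, ?_⟩, ?_⟩
  · unfold polP
    rw [eval_prod, map_prod, Finset.prod_congr rfl fun l _ => h5 l, Finset.prod_const_one]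
  · unfold polP
    rw [eval_prod, map_prod, Finset.prod_congr rfl fun l _ => h6 l,
      ← Finset.mul_prod_erase _ _ (Finset.mem_univ i), if_pos (Or.inl rfl),
      ← Finset.mul_prod_erase _ _ (Finset.mem_erase.2 ⟨hij.symm, Finset.mem_univ j⟩),
      if_pos (Or.inr rfl), Finset.prod_eq_one]
    · norm_num
    · intro l hl
      rw [Finset.mem_erase, Finset.mem_erase] at hl
      rw [if_neg]
      rintro (h | h)
      · exact hl.2.1 h
      · exact hl.1 h
  · rw [map_mul, map_prod, map_prod, Finset.prod_congr rfl fun l _ => h5 l,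
      Finset.prod_const_one, one_mul, Finset.prod_congr rfl fun l _ => h6 l,
      ← Finset.mul_prod_erase _ _ hi, if_pos (Or.inl rfl), Finset.prod_eq_one, mul_one]
    intro l hl
    rw [Finset.mem_erase] at hl
    rw [if_neg]
    rintro (h | h)
    · exact hl.1 h
    · exact hj (h ▸ hl.2)

/-- The polynomials `a`. -/
theorem card_aG (hF : ringChar F ≠ 2) {r s : ℕ} (hr : 2 ≤ r) {m : Fin s → ℕ} {e e' : F}
    (he : e ≠ e') {β : (l : Fin s) → Fin (m l + 1) → F}
    (h1 : quadraticChar F ((polP β).eval e) = 1) (h2 : quadraticChar F ((polP β).eval e') = 1) :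
    Fintype.card F * Fintype.card F ^ (r + 1) ≤
      (Finset.univ.filter fun a : Fin (r + 1) → F =>
        ((polE a β).eval e = 0 ∧ (derivative (polE a β)).eval e ≠ 0) ∧
        ((polE a β).eval e' = 0 ∧ (derivative (polE a β)).eval e' ≠ 0)).card *
          Fintype.card F ^ 3 + 2 * Fintype.card F ^ (r + 1) := by
  have hu0 : (polP β).eval e ≠ 0 := by
    intro h
    rw [h, MulChar.map_zero] at h1
    exact zero_ne_one h1
  have hu0' : (polP β).eval e' ≠ 0 := by
    intro h
    rw [h, MulChar.map_zero] at h2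
    exact zero_ne_one h2
  have h2F : (2 : F) ≠ 0 := Ring.two_ne_zero hF
  have h4F : (4 : F) ≠ 0 := by
    have : (4 : F) = 2 ^ 2 := by norm_num
    rw [this]; exact pow_ne_zero 2 h2F
  obtain ⟨σ, hσ⟩ := (quadraticChar_one_iff_isSquare hu0).1 h1
  obtain ⟨σ', hσ'⟩ := (quadraticChar_one_iff_isSquare hu0').1 h2
  have hσ0 : σ ≠ 0 := by
    rintro rfl
    rw [mul_zero] at hσ
    exact hu0 hσ
  have hσ0' : σ' ≠ 0 := by
    rintro rfl
    rw [mul_zero] at hσ'
    exact hu0' hσ'
  have key : ∀ (a : Fin (r + 1) → F) (f σ : F), (polP β).eval f = σ * σ → σ ≠ 0 →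
      (polA a).eval f = 2 * σ → (derivative (polA a)).eval f ≠ (derivative (polP β)).eval f / σ →
      ((polE a β).eval f = 0 ∧ (derivative (polE a β)).eval f ≠ 0) := by
    intro a f σ h1 h2 h3 h4
    have e4 : (4 : F[X]) = C 4 := by rw [map_ofNat]
    constructor
    · unfold polE
      rw [eval_sub, eval_pow, e4, eval_mul, eval_C, h1, h3]
      ring
    · intro h5
      apply h4
      unfold polE at h5
      rw [derivative_sub, derivative_pow, e4, derivative_C_mul, eval_sub, eval_mul, eval_mul,
        eval_mul, eval_C, eval_C, eval_pow, h3] at h5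
      rw [eq_div_iff h2]
      apply mul_left_cancel₀ h4F
      push_cast at h5
      linear_combination h5
  refine (card_a hr he (2 * σ) (2 * σ') ((derivative (polP β)).eval e / σ)
    ((derivative (polP β)).eval e' / σ')).trans ?_
  refine Nat.add_le_add_right (Nat.mul_le_mul_right _ (Finset.card_le_card ?_)) _
  intro a ha
  rw [Finset.mem_filter] at ha ⊢
  obtain ⟨-, ⟨h5, h6⟩, h7, h8⟩ := ha
  exact ⟨Finset.mem_univ _, key a e σ hσ hσ0 h5 h7, key a e' σ' hσ' hσ0' h6 h8⟩

end count

end Pool.Agent.R939.EI
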