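import Pool.Agent.R939.EI.Gen1

/-!
# Counting over finite fields, the proportion of the obstructed parameters
-/

set_option autoImplicit false
set_option linter.all false

open Polynomial
open scoped Classical

namespace Pool.Agent.R939.EI

section total

variable {F : Type} [Field F] [Fintype F]

/-- The parameters with an obstruction. -/
noncomputable def obsSetG (F : Type) [Field F] [Fintype F] (r : ℕ) {s : ℕ} (m : Fin s → ℕ)
    (S : Finset (Fin s)) :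
    Finset ((Fin (r + 1) → F) × ((l : Fin s) → Fin (m l + 1) → F)) :=
  Finset.univ.filter fun x => ObsG S x.1 x.2

theorem card_obsG (hF : ringChar F ≠ 2) {r s : ℕ} (hr : 2 ≤ r) {m : Fin s → ℕ}
    (hm : ∀ i, 1 ≤ m i) {S : Finset (Fin s)} {i j : Fin s} (hi : i ∈ S) (hj : j ∉ S) {w : ℕ}
    (hw : 2 * w + 1 = Fintype.card F) :
    (Fintype.card F * Fintype.card F - Fintype.card F) *
      (∏ l, (w ^ 2 * Fintype.card F ^ (m l - 1))) *
      ((Fintype.card F - 2) * Fintype.card F ^ (r - 2)) ≤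
        (2 * r + ∑ i, m i) ^ 2 * (obsSetG F r m S).card := by
  set q := Fintype.card F with hq
  have hq0 : 0 < q := Fintype.card_pos
  set X0 : Finset (F × F) := (Finset.univ : Finset F).offDiag with hX0
  have c0 : X0.card = q * q - q := by rw [hX0, Finset.offDiag_card, Finset.card_univ]
  set X1 := ((X0 ×ˢ Finset.univ).filter fun z : (F × F) × ((l : Fin s) → Fin (m l + 1) → F) =>
    (quadraticChar F ((polP z.2).eval z.1.1) = 1 ∧ quadraticChar F ((polP z.2).eval z.1.2) = 1) ∧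
        quadraticChar F ((∏ l ∈ S, (polA (z.2 l)).eval z.1.1) *
          ∏ l ∈ S, (polA (z.2 l)).eval z.1.2) = -1) with hX1
  have c1 : X0.card * (∏ l, (w ^ 2 * q ^ (m l - 1))) ≤ X1.card := by
    refine card_pair X0 (fun (z : F × F) (β : (l : Fin s) → Fin (m l + 1) → F) =>
      (quadraticChar F ((polP β).eval z.1) = 1 ∧ quadraticChar F ((polP β).eval z.2) = 1) ∧
        quadraticChar F ((∏ l ∈ S, (polA (β l)).eval z.1) *
          ∏ l ∈ S, (polA (β l)).eval z.2) = -1) _ ?_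
    intro z hz
    rw [hX0, Finset.mem_offDiag] at hz
    exact card_fam hF hm hz.2.2 hi hj hw
  set X2 := ((X1 ×ˢ Finset.univ).filter
    fun z : ((F × F) × ((l : Fin s) → Fin (m l + 1) → F)) × (Fin (r + 1) → F) =>
      ((polE z.2 z.1.2).eval z.1.1.1 = 0 ∧ (derivative (polE z.2 z.1.2)).eval z.1.1.1 ≠ 0) ∧
      ((polE z.2 z.1.2).eval z.1.1.2 = 0 ∧
        (derivative (polE z.2 z.1.2)).eval z.1.1.2 ≠ 0)) with hX2
  have c2 : X1.card * ((q - 2) * q ^ (r - 2)) ≤ X2.card := by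
    refine card_pair X1 (fun (z : (F × F) × ((l : Fin s) → Fin (m l + 1) → F))
      (a : Fin (r + 1) → F) =>
      ((polE a z.2).eval z.1.1 = 0 ∧ (derivative (polE a z.2)).eval z.1.1 ≠ 0) ∧
      ((polE a z.2).eval z.1.2 = 0 ∧ (derivative (polE a z.2)).eval z.1.2 ≠ 0)) _ ?_
    intro z hz
    rw [hX1, Finset.mem_filter, Finset.mem_product, hX0, Finset.mem_offDiag] at hz
    obtain ⟨⟨⟨-, -, hz3⟩, -⟩, ⟨hz4, hz5⟩, -⟩ := hz
    have h6 := card_aG hF hr hz3 hz4 hz5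
    rw [← hq] at h6
    set N := (Finset.univ.filter fun a : Fin (r + 1) → F =>
        ((polE a z.2).eval z.1.1 = 0 ∧ (derivative (polE a z.2)).eval z.1.1 ≠ 0) ∧
        ((polE a z.2).eval z.1.2 = 0 ∧
          (derivative (polE a z.2)).eval z.1.2 ≠ 0)).card with hN
    obtain ⟨ρ, rfl⟩ := Nat.exists_eq_add_of_le hr
    have e1 : 2 + ρ - 2 = ρ := by omega
    rw [e1]
    have h7 : (q - 2) * q ^ ρ * q ^ 3 ≤ N * q ^ 3 := by
      have h8 : (q - 2) * q ^ ρ * q ^ 3 = q * q ^ (2 + ρ + 1) - 2 * q ^ (2 + ρ + 1) := by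
        rw [← Nat.sub_mul]
        ring
      rw [h8]
      omega
    exact Nat.le_of_mul_le_mul_right h7 (pow_pos hq0 3)
  have c4 : X2.card ≤ (2 * r + ∑ i, m i) ^ 2 * (obsSetG F r m S).card := by
    refine Finset.card_le_mul_card_image_of_maps_to
      (f := fun z : ((F × F) × ((l : Fin s) → Fin (m l + 1) → F)) × (Fin (r + 1) → F) =>
        (z.2, z.1.2)) ?_ _ ?_
    · intro z hz
      rw [Finset.mem_filter, Finset.mem_product, hX1, Finset.mem_filter] at hz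
      obtain ⟨⟨⟨-, -, hz1⟩, -⟩, hz2, hz3⟩ := hz
      rw [obsSetG, Finset.mem_filter]
      exact ⟨Finset.mem_univ _, z.1.1.1, z.1.1.2, hz2, hz3,
        quadraticChar_neg_one_iff_not_isSquare.1 hz1⟩
    · rintro ⟨a, β⟩ -
      set Rt := (polE a β).roots.toFinset with hRt
      have h5 : Rt.card ≤ 2 * r + ∑ i, m i :=
        (Multiset.toFinset_card_le _).trans ((card_roots' _).trans (polE_natDegree a β))
      have h6 : (Finset.filter
          (fun z : ((F × F) × ((l : Fin s) → Fin (m l + 1) → F)) × (Fin (r + 1) → F) =>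
          (z.2, z.1.2) = (a, β)) X2).card ≤ (Rt ×ˢ Rt).card := by
        apply Finset.card_le_card_of_injOn (fun z => z.1.1)
        · rintro ⟨⟨⟨e, e'⟩, β'⟩, a'⟩ hz
          rw [Finset.mem_coe, Finset.mem_filter, Finset.mem_filter] at hz
          obtain ⟨⟨-, hz2, hz3⟩, hz4⟩ := hz
          simp only [Prod.mk.injEq] at hz4 hz2 hz3
          obtain ⟨rfl, rfl⟩ := hz4
          have hne : polE a' β' ≠ 0 := by
            intro h0
            rw [h0, derivative_zero, eval_zero] at hz2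
            exact hz2.2 rfl
          rw [Finset.mem_coe, Finset.mem_product, hRt, Multiset.mem_toFinset,
            Multiset.mem_toFinset, mem_roots hne, mem_roots hne]
          exact ⟨hz2.1, hz3.1⟩
        · rintro ⟨⟨⟨e, e'⟩, β'⟩, a'⟩ hz ⟨⟨⟨e2, e2'⟩, β2⟩, a2⟩ hz2 h
          rw [Finset.mem_coe, Finset.mem_filter] at hz hz2
          have h7 := hz.2
          have h8 := hz2.2
          simp only [Prod.mk.injEq] at h7 h8 h
          obtain ⟨rfl, rfl⟩ := h7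
          obtain ⟨rfl, rfl⟩ := h8
          obtain ⟨rfl, rfl⟩ := h
          rfl
      refine h6.trans ?_
      rw [Finset.card_product, pow_two]
      exact Nat.mul_le_mul h5 h5
  calc (q * q - q) * (∏ l, (w ^ 2 * q ^ (m l - 1))) * ((q - 2) * q ^ (r - 2))
      = X0.card * (∏ l, (w ^ 2 * q ^ (m l - 1))) * ((q - 2) * q ^ (r - 2)) := by rw [c0]
    _ ≤ X1.card * ((q - 2) * q ^ (r - 2)) := Nat.mul_le_mul_right _ c1
    _ ≤ X2.card := c2
    _ ≤ _ := c4

/-- **The proportion of the parameters with an obstruction.** -/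
theorem card_obsG_real (hF : ringChar F ≠ 2) (h7 : 7 ≤ Fintype.card F) {r s : ℕ} (hr : 2 ≤ r)
    {m : Fin s → ℕ} (hm : ∀ i, 1 ≤ m i) {S : Finset (Fin s)} {i j : Fin s} (hi : i ∈ S)
    (hj : j ∉ S) :
    (Fintype.card F : ℝ) ^ (r + 1 + ∑ l, (m l + 1)) ≤
      4 * 9 ^ s * ((2 * r + ∑ i, m i : ℕ) : ℝ) ^ 2 * ((obsSetG F r m S).card : ℝ) := by
  set q := Fintype.card F with hq
  have hodd : q % 2 = 1 := FiniteField.odd_card_of_char_ne_two hF
  obtain ⟨w, hw⟩ : ∃ w, q = 2 * w + 1 := ⟨(q - 1) / 2, by omega⟩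
  have h1 := card_obsG hF hr hm hi hj (w := w) hw.symm
  rw [← hq] at h1
  have e1 : q * q - q = q * (q - 1) := by rw [Nat.mul_sub_one]
  rw [e1] at h1
  have h2 : ((q * (q - 1) * (∏ l, (w ^ 2 * q ^ (m l - 1))) * ((q - 2) * q ^ (r - 2)) : ℕ) : ℝ) ≤
      (((2 * r + ∑ i, m i) ^ 2 * (obsSetG F r m S).card : ℕ) : ℝ) := by exact_mod_cast h1
  have hq1 : ((q - 1 : ℕ) : ℝ) = (q : ℝ) - 1 := by rw [Nat.cast_sub (by omega)]; norm_num
  have hq2 : ((q - 2 : ℕ) : ℝ) = (q : ℝ) - 2 := by rw [Nat.cast_sub (by omega)]; norm_num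
  rw [Nat.cast_mul, Nat.cast_mul, Nat.cast_mul, Nat.cast_mul, Nat.cast_prod, Nat.cast_pow, hq1,
    hq2, Nat.cast_mul, Nat.cast_pow] at h2
  have hqw : (q : ℝ) = 2 * w + 1 := by rw [hw]; push_cast; ring
  have hw2 : (3 : ℝ) ≤ w := by
    have : 3 ≤ w := by omega
    exact_mod_cast this
  have b1 : (q : ℝ) / 2 ≤ (q : ℝ) - 1 := by rw [hqw]; linarith
  have b2 : (q : ℝ) / 2 ≤ (q : ℝ) - 2 := by rw [hqw]; linarith
  have b3 : (q : ℝ) / 3 ≤ (w : ℝ) := by rw [hqw]; linarith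
  have hq0 : (0 : ℝ) < q := by rw [hqw]; linarith
  obtain ⟨ρ, rfl⟩ := Nat.exists_eq_add_of_le hr
  have e2 : 2 + ρ - 2 = ρ := by omega
  rw [e2] at h2
  have b4 : ∏ l, ((q : ℝ) ^ (m l + 1) / 9) ≤ ∏ l, ((w ^ 2 * q ^ (m l - 1) : ℕ) : ℝ) := by
    refine Finset.prod_le_prod (fun l _ => by positivity) fun l _ => ?_
    obtain ⟨t, ht⟩ := Nat.exists_eq_add_of_le (hm l)
    have e3 : 1 + t - 1 = t := by omega
    rw [ht, e3]
    push_cast
    have h5 : ((q : ℝ) / 3) ^ 2 ≤ (w : ℝ) ^ 2 := pow_le_pow_left₀ (by positivity) b3 2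
    calc (q : ℝ) ^ (1 + t + 1) / 9 = ((q : ℝ) / 3) ^ 2 * (q : ℝ) ^ t := by ring
      _ ≤ (w : ℝ) ^ 2 * (q : ℝ) ^ t := mul_le_mul_of_nonneg_right h5 (by positivity)
  have b5 : ∏ l, ((q : ℝ) ^ (m l + 1) / 9) = (q : ℝ) ^ (∑ l, (m l + 1)) / 9 ^ s := by
    rw [Finset.prod_div_distrib, Finset.prod_pow_eq_pow_sum, Finset.prod_const, Finset.card_univ,
      Fintype.card_fin]
  rw [b5] at b4
  have h3 : (q : ℝ) * (q / 2) * ((q : ℝ) ^ (∑ l, (m l + 1)) / 9 ^ s) * ((q / 2) * q ^ ρ) ≤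
      (q : ℝ) * ((q : ℝ) - 1) * (∏ l, ((w ^ 2 * q ^ (m l - 1) : ℕ) : ℝ)) *
        (((q : ℝ) - 2) * (q : ℝ) ^ ρ) := by
    have c1 : (q : ℝ) * (q / 2) ≤ (q : ℝ) * ((q : ℝ) - 1) :=
      mul_le_mul_of_nonneg_left b1 hq0.le
    have c3 : ((q : ℝ) / 2) * (q : ℝ) ^ ρ ≤ ((q : ℝ) - 2) * (q : ℝ) ^ ρ :=
      mul_le_mul_of_nonneg_right b2 (by positivity)
    have p1 : (0 : ℝ) ≤ (q : ℝ) - 1 := by linarith
    have p2 : (0 : ℝ) ≤ (q : ℝ) - 2 := by linarith
    refine mul_le_mul (mul_le_mul c1 b4 (by positivity) (by positivity)) c3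
      (by positivity) (mul_nonneg (by positivity) (Finset.prod_nonneg fun l _ => by positivity))
  have h4 : (q : ℝ) * (q / 2) * ((q : ℝ) ^ (∑ l, (m l + 1)) / 9 ^ s) * ((q / 2) * q ^ ρ) =
      (q : ℝ) ^ (2 + ρ + 1 + ∑ l, (m l + 1)) / (4 * 9 ^ s) := by
    rw [pow_add, eq_div_iff (by positivity)]
    field_simp
    ring
  have h5 := h3.trans h2
  rw [h4, div_le_iff₀ (by positivity)] at h5
  calc (q : ℝ) ^ (2 + ρ + 1 + ∑ l, (m l + 1)) ≤ _ := h5
    _ = _ := by ring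

end total

end Pool.Agent.R939.EI
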