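import Pool.Agent.R939.EI.Gen2
import Pool.Agent.R939.EI.Den5

/-!
# The obstruction at a prime ideal
-/

set_option autoImplicit false
set_option linter.all false

open Polynomial
open scoped Classical

namespace Pool.Agent.R939.EI

section local_

theorem ObsG.not_splits_gen {O R K' κ k : Type} [CommRing O] [Field k] [CommRing R] [IsDomain R]
    [IsDiscreteValuationRing R] [Field K'] [Algebra R K'] [IsFractionRing R K'] [Field κ] {ϖ : R}
    (hϖ : Irreducible ϖ) (φ : IsLocalRing.ResidueField R →+* κ) (f : k →+* K') (i : O →+* k)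
    (g : O →+* R) (π : O →+* κ) (hfg : ∀ x, f (i x) = algebraMap R K' (g x))
    (hφ : ∀ x, φ (IsLocalRing.residue R (g x)) = π x) {r s : ℕ} {m : Fin s → ℕ}
    {S : Finset (Fin s)} {a : Fin (r + 1) → O} {β : (l : Fin s) → Fin (m l + 1) → O}
    (h : ObsG S (fun j => π (a j)) (fun l j => π (β l j))) {ε : k} (hε : ε ≠ 0)
    (hs : Splits (polE (fun j => i (a j)) (fun l j => i (β l j))) ε
      (∏ l ∈ S, polA fun j => i (β l j))) : False := by
  obtain ⟨e, e', ⟨h1, h2⟩, ⟨h3, h4⟩, h5⟩ := h
  have mapA : ∀ {R1 R2 : Type} [CommRing R1] [CommRing R2] (g1 : O →+* R1) (g2 : R1 →+* R2),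
      (∏ l ∈ S, polA fun j => g1 (β l j)).map g2 = ∏ l ∈ S, polA fun j => g2 (g1 (β l j)) := by
    intro R1 R2 _ _ g1 g2
    rw [Polynomial.map_prod]
    exact Finset.prod_congr rfl fun l _ => polA_map _ _
  have hs1 := hs.map f
  rw [polE_map, mapA] at hs1
  simp only [hfg] at hs1
  rw [← polE_map, ← mapA] at hs1
  have hE : ((polE (fun j => g (a j)) (fun l j => g (β l j))).map (IsLocalRing.residue R)).map φ =
      polE (fun j => π (a j)) (fun l j => π (β l j)) := by
    rw [polE_map, polE_map]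
    simp only [hφ]
  have hA : ((∏ l ∈ S, polA fun j => g (β l j)).map (IsLocalRing.residue R)).map φ =
      ∏ l ∈ S, polA fun j => π (β l j) := by
    rw [mapA, Polynomial.map_prod]
    refine Finset.prod_congr rfl fun l _ => ?_
    rw [polA_map]
    simp only [hφ]
  have hev : ∀ x : κ, (∏ l ∈ S, polA fun j => π (β l j)).eval x =
      ∏ l ∈ S, (polA fun j => π (β l j)).eval x := fun x => eval_prod _ _ _
  have hA0 : (∏ l ∈ S, polA fun j => π (β l j)) ≠ 0 := by
    intro h0
    apply h5
    rw [← hev e, h0, eval_zero, zero_mul]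
    exact ⟨0, by ring⟩
  have hAm : ((∏ l ∈ S, polA fun j => g (β l j)).map (IsLocalRing.residue R)) ≠ 0 := by
    intro h0
    rw [h0, Polynomial.map_zero] at hA
    exact hA0 hA.symm
  have hfe : f ε ≠ 0 := by rwa [_root_.map_ne_zero]
  obtain ⟨g', v, hg, hv, -, hs2⟩ := spec (k := K') (R := R) hϖ hfe (by
      intro r hr
      have h6 := congrArg (Polynomial.map φ) hr
      rw [hE, Polynomial.map_pow] at h6
      rw [← h6, eval_pow, pow_eq_zero_iff two_ne_zero] at h1
      apply h2
      rw [← h6, derivative_pow, eval_mul, eval_mul, eval_pow, h1]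
      simp) hAm hs1
  have hs3 := hs2.map φ
  rw [hE, hA] at hs3
  have hv0 : φ (IsLocalRing.residue R v) ≠ 0 := by
    rw [_root_.map_ne_zero]
    exact (hv.map (IsLocalRing.residue R)).ne_zero
  obtain ⟨g1, hg1⟩ := hs3.sq_at hv0 hA0 h1 h2
  obtain ⟨g2, hg2⟩ := hs3.sq_at hv0 hA0 h3 h4
  rw [hev] at hg1 hg2
  apply h5
  refine ⟨g1 * g2 / φ (IsLocalRing.residue R v), ?_⟩
  set w := φ (IsLocalRing.residue R v) with hw
  field_simp
  linear_combination hg1 * (w * ∏ l ∈ S, (polA fun j => π (β l j)).eval e') + g1 ^ 2 * hg2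

theorem ObsG.not_splits_loc {O k : Type} [CommRing O] [IsDomain O] [Field k]
    [Algebra O k] [IsFractionRing O k] (P : Ideal O) [hPm : P.IsMaximal] (R : Type) [CommRing R]
    [IsDomain R] [IsDiscreteValuationRing R] [Algebra O R] [IsLocalization.AtPrime R P] {r s : ℕ}
    {m : Fin s → ℕ} {S : Finset (Fin s)} {a : Fin (r + 1) → O}
    {β : (l : Fin s) → Fin (m l + 1) → O}
    (h : ObsG S (fun j => Ideal.Quotient.mk P (a j)) (fun l j => Ideal.Quotient.mk P (β l j)))
    {ε : k} (hε : ε ≠ 0)
    (hs : Splits (polE (fun j => algebraMap O k (a j)) (fun l j => algebraMap O k (β l j))) ε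
      (∏ l ∈ S, polA fun j => algebraMap O k (β l j))) : False := by
  haveI : P.IsPrime := hPm.isPrime
  letI : Field (O ⧸ P) := Ideal.Quotient.field P
  obtain ⟨ϖ, hϖ⟩ := IsDiscreteValuationRing.exists_irreducible R
  have hinj : Function.Injective ((algebraMap R (FractionRing R)).comp (algebraMap O R)) :=
    (IsFractionRing.injective R (FractionRing R)).comp
      (IsLocalization.injective R P.primeCompl_le_nonZeroDivisors)
  let φ0 : R ⧸ IsLocalRing.maximalIdeal R ≃+* O ⧸ P :=
    (IsLocalization.AtPrime.equivQuotMaximalIdeal P R).symm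
  let φ : IsLocalRing.ResidueField R →+* O ⧸ P := φ0.toRingHom
  have hφ : ∀ x, φ (IsLocalRing.residue R (algebraMap O R x)) = Ideal.Quotient.mk P x := by
    intro x
    have h1 : IsLocalization.AtPrime.equivQuotMaximalIdeal P R (Ideal.Quotient.mk P x) =
        Ideal.Quotient.mk _ (algebraMap O R x) :=
      IsLocalization.AtPrime.equivQuotMaximalIdeal_apply_mk P R x
    have h3 : φ0 (Ideal.Quotient.mk _ (algebraMap O R x)) = Ideal.Quotient.mk P x := by
      rw [← h1]
      exact (IsLocalization.AtPrime.equivQuotMaximalIdeal P R).symm_apply_apply _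
    exact h3
  exact ObsG.not_splits_gen (K' := FractionRing R) hϖ φ
    (IsFractionRing.lift hinj : k →+* FractionRing R) (algebraMap O k) (algebraMap O R)
    (Ideal.Quotient.mk P) (fun x => IsFractionRing.lift_algebraMap hinj x) hφ h hε hs

theorem ObsG.not_splits {O k : Type} [CommRing O] [IsDomain O] [IsDedekindDomain O] [Field k]
    [Algebra O k] [IsFractionRing O k] (P : Ideal O) [hPm : P.IsMaximal] (hP : P ≠ ⊥) {r s : ℕ}
    {m : Fin s → ℕ} {S : Finset (Fin s)} {a : Fin (r + 1) → O}
    {β : (l : Fin s) → Fin (m l + 1) → O}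
    (h : ObsG S (fun j => Ideal.Quotient.mk P (a j)) (fun l j => Ideal.Quotient.mk P (β l j)))
    {ε : k} (hε : ε ≠ 0)
    (hs : Splits (polE (fun j => algebraMap O k (a j)) (fun l j => algebraMap O k (β l j))) ε
      (∏ l ∈ S, polA fun j => algebraMap O k (β l j))) : False := by
  haveI : P.IsPrime := hPm.isPrime
  haveI : IsDiscreteValuationRing (Localization.AtPrime P) :=
    IsLocalization.AtPrime.isDiscreteValuationRing_of_dedekind_domain O hP (Localization.AtPrime P)
  exact ObsG.not_splits_loc P (Localization.AtPrime P) h hε hs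

end local_

end Pool.Agent.R939.EI
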