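import Pool.Agent.R939.EI.Odd4

/-!
# The criterion in towers of odd degree
-/

set_option autoImplicit false
set_option linter.all false

open Polynomial IsDedekindDomain WeierstrassCurve WeierstrassCurve.Affine
open scoped Classical

namespace Pool.Agent.R939.EI

open Pool.Agent.TH115.GD

section tower

variable {k k' K F : Type} [Field k] [Field k'] [Algebra k k'] [Field K] [Algebra k[X] K]
    [Field F] [Algebra k'[X] F] [IsFractionRing k'[X] F] [Algebra K F]

theorem enough_comp (hT : IsTower k k' K F) (h2 : (2 : k) ≠ 0) {a b h : k[X]} (hb : b ≠ 0)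
    (hodd : Odd h.natDegree) (hi : Inert b h) (hE : EnoughNorm K F a b) :
    EnoughNorm K F (a.comp h) (b.comp h) := by
  haveI := hT.sep
  haveI := hT.fracK
  haveI : IsSepClosed k' := IsSepClosure.sep_closed k
  obtain ⟨σ, τ, hσ, hτ⟩ := exists_subst hT (h := h) hodd.pos
  intro ε A' hε hA' hs' hd' hinf hsp
  obtain ⟨A, c, hA, hs, hd, hc, rfl⟩ := hi.divisor hb hodd.pos hA' hs' hd'
  have hAd : (C c * A.comp h).natDegree = A.natDegree * h.natDegree := by
    rw [natDegree_C_mul hc, natDegree_comp]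
  have e1 : (a.comp h) ^ 2 - 4 * b.comp h = (a ^ 2 - 4 * b).comp h := by
    simp
  have hsp' : Splits ((a ^ 2 - 4 * b).comp h) (ε * c) (A.comp h) := by
    obtain ⟨x, y, z, hz, e⟩ := hsp
    refine ⟨x, y, z, hz, ?_⟩
    rw [← e1, ← e, C_mul]
    ring
  have hsp2 := splits_of_comp hodd (mul_ne_zero hε hc) hA.ne_zero hsp'
  obtain ⟨P, g, hg, hP⟩ := hE (ε * c) A (mul_ne_zero hε hc) hA hs hd (by
    intro h4 h2
    have h5 := hinf (by rw [natDegree_comp]; exact h4.mul_right _) (by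
      rw [natDegree_comp, natDegree_comp, ← mul_assoc]
      exact Nat.mul_le_mul_right _ h2)
    rw [hAd, Nat.even_mul] at h5
    exact h5.resolve_right (Nat.not_even_iff_odd.2 hodd)) hsp2
  obtain ⟨P', hP'⟩ : ∃ P' : Pt (crvT (algebraMap k[X] K (a.comp h)) (algebraMap k[X] K (b.comp h))) K,
      dT (algebraMap k[X] K (b.comp h)) P' = σ (dT (algebraMap k[X] K b) P) := by
    rw [← hσ, ← hσ]
    exact pull_point σ P
  have h2' : (2 : k') ≠ 0 := by
    rw [← map_ofNat (algebraMap k k') 2]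
    exact (_root_.map_ne_zero _).2 h2
  haveI : NeZero ((2 : ℕ) : k') := ⟨by exact_mod_cast h2'⟩
  obtain ⟨s, hs⟩ := IsSepClosed.exists_pow_nat_eq (algebraMap k k' c) 2
  have hs0 : s ≠ 0 := by
    rintro rfl
    rw [zero_pow two_ne_zero] at hs
    exact (_root_.map_ne_zero _).2 hc hs.symm
  have hsF : algebraMap k'[X] F (C s) ≠ 0 := by simpa using hs0
  have hsq : algebraMap k'[X] F (C s) ^ 2 = algebraMap K F (algebraMap k[X] K (C c)) := by
    rw [← map_pow, ← C_pow, hs, hT.map, map_C]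
  refine ⟨P', algebraMap k'[X] F (C s) * τ g, mul_ne_zero hsF ((_root_.map_ne_zero _).2 hg), ?_⟩
  have h6 := congrArg τ hP
  rw [hτ, hσ, map_mul, map_pow, hτ] at h6
  rw [hP', mul_pow, hsq, mul_assoc, ← h6, map_mul, map_mul]

theorem mainN_odd (hT : IsTower k k' K F) (h2 : (2 : k) ≠ 0) {a b h : k[X]} (hb : b ≠ 0)
    (hd : a ^ 2 - 4 * b ≠ 0) (hNb : NotNorm b) (hNd : NotNorm (a ^ 2 - 4 * b))
    (hpA : EnoughNorm K F a b) (hpB : EnoughNorm K F (-2 * a) (a ^ 2 - 4 * b))
    (hodd : Odd h.natDegree) (hi : Inert (b * (a ^ 2 - 4 * b)) h) :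
    TateAtTwo (F := F) k' (crvT (algebraMap k[X] K (a.comp h)) (algebraMap k[X] K (b.comp h))) := by
  have e1 : (a.comp h) ^ 2 - 4 * b.comp h = (a ^ 2 - 4 * b).comp h := by
    simp
  have e2 : -2 * a.comp h = (-2 * a).comp h := by
    simp
  have hib : Inert b h := fun π hπ hd => hi π hπ (hd.mul_right _)
  have hid : Inert (a ^ 2 - 4 * b) h := fun π hπ hd => hi π hπ (hd.mul_left _)
  refine mainN hT h2 (comp_ne hodd.pos hb) (by rw [e1]; exact comp_ne hodd.pos hd) ?_
    (notNorm_comp hb hodd hNb) (by rw [e1]; exact notNorm_comp hd hodd hNd)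
    (enough_comp hT h2 hb hodd hib hpA) ?_
  · intro q hq hqd
    rw [e1] at hqd
    have e3 : b.comp h * (a ^ 2 - 4 * b).comp h = (b * (a ^ 2 - 4 * b)).comp h :=
      (mul_comp _ _ _).symm
    rw [e3] at hqd
    obtain ⟨π, hπ, hπd, hqπ⟩ := Inert.exists_prime (mul_ne_zero hb hd) hq hqd
    exact (hi π hπ hπd).2.of_dvd hqπ
  · rw [e1, e2]
    exact enough_comp hT h2 hd hodd hid hpB

/-- **The criterion in towers of odd degree.** -/
theorem criterion_odd (hT : IsTower k k' K F) (h2 : (2 : k) ≠ 0) {a b h : k[X]} (hb : b ≠ 0)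
    (hd : a ^ 2 - 4 * b ≠ 0) (hNb : NotNorm b) (hNd : NotNorm (a ^ 2 - 4 * b))
    (hpA : PointsForNorms K F a b) (hpB : PointsForNorms K F (-2 * a) (a ^ 2 - 4 * b))
    (hodd : Odd h.natDegree) (hi : Inert (b * (a ^ 2 - 4 * b)) h) :
    TateAtTwo (F := F) k' (crvT (algebraMap k[X] K (a.comp h)) (algebraMap k[X] K (b.comp h))) :=
  mainN_odd hT h2 hb hd hNb hNd hpA.enough hpB.enough hodd hi

end tower

end Pool.Agent.R939.EI
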