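import Pool.Agent.R939.EI.Gen3
import Pool.Agent.R939.EI.Odd5
import Pool.Agent.R939.EI.Fam4

/-!
# Surfaces with given factors of `b`
-/

set_option autoImplicit false
set_option linter.all false

open Polynomial IsDedekindDomain WeierstrassCurve WeierstrassCurve.Affine
open scoped Classical

namespace Pool.Agent.R939.EI

open Pool.Agent.TH115.GD

section alg

variable {k : Type} [Field k]

theorem notNorm_smul {p : k[X]} {v : k} (hv : v ≠ 0) (h : NotNorm p) : NotNorm (C v * p) := by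
  intro u D U V e
  refine h (v⁻¹ * u) D U V ?_
  have : C v⁻¹ * C v = (1 : k[X]) := by rw [← C_mul, inv_mul_cancel₀ hv, C_1]
  rw [C_mul, mul_assoc, ← e]
  linear_combination (-p) * this

theorem dvd_prod_irr {s : ℕ} {q : Fin s → k[X]} (hq : ∀ i, Irreducible (q i)) (T : Finset (Fin s)) :
    ∀ A : k[X], A ∣ ∏ i ∈ T, q i → ∃ S : Finset (Fin s), S ⊆ T ∧ Associated A (∏ i ∈ S, q i) := by
  induction T using Finset.induction_on with
  | empty =>
    intro A hA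
    rw [Finset.prod_empty] at hA
    exact ⟨∅, Finset.Subset.refl _, by
      rw [Finset.prod_empty]
      exact associated_one_iff_isUnit.2 (isUnit_of_dvd_one hA)⟩
  | insert i T hi ih =>
    intro A hA
    rw [Finset.prod_insert hi] at hA
    by_cases h : q i ∣ A
    · obtain ⟨A', rfl⟩ := h
      obtain ⟨S, hS, hS'⟩ := ih A' ((mul_dvd_mul_iff_left (hq i).ne_zero).1 hA)
      refine ⟨insert i S, Finset.insert_subset_insert i hS, ?_⟩
      rw [Finset.prod_insert fun h => hi (hS h)]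
      exact hS'.mul_left _
    · have hcop : IsCoprime (q i) A := (hq i).coprime_iff_not_dvd.2 h
      obtain ⟨S, hS, hS'⟩ := ih A (hcop.symm.dvd_of_dvd_mul_left hA)
      exact ⟨S, hS.trans (Finset.subset_insert i T), hS'⟩

end alg

section family

variable {k k' K F : Type} [Field k] [Field k'] [Algebra k k'] [Field K] [Algebra k[X] K]
    [Field F] [Algebra k'[X] F] [IsFractionRing k'[X] F] [Algebra K F]

theorem enough_irr (hT : IsTower k k' K F) (h2 : (2 : k) ≠ 0) {s : ℕ} {q : Fin s → k[X]}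
    (hq : ∀ i, Irreducible (q i)) {a : k[X]}
    (hS : ∀ S : Finset (Fin s), S ≠ ∅ → S ≠ Finset.univ → ∀ ε : k, ε ≠ 0 →
      ¬ Splits (a ^ 2 - 4 * ∏ i, q i) ε (∏ i ∈ S, q i)) {D : k} (hD : D ≠ 0) :
    EnoughNorm K F (C D * a) (C (D ^ 2) * ∏ i, q i) := by
  haveI := hT.sep
  haveI := hT.fracK
  haveI : IsSepClosed k' := IsSepClosure.sep_closed k
  have hKF := hT.map
  have hD2 : D ^ 2 ≠ 0 := pow_ne_zero 2 hD
  have hP0 : ∏ i, q i ≠ 0 := Finset.prod_ne_zero_iff.2 fun i _ => (hq i).ne_zero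
  have hb0 : C (D ^ 2) * ∏ i, q i ≠ 0 := mul_ne_zero (C_ne_zero.2 hD2) hP0
  have hbK : algebraMap k[X] K (C (D ^ 2) * ∏ i, q i) ≠ 0 := by
    rw [Ne, IsFractionRing.to_map_eq_zero_iff]
    exact hb0
  have h2' : (2 : k') ≠ 0 := by
    rw [← map_ofNat (algebraMap k k') 2]
    exact (_root_.map_ne_zero _).2 h2
  haveI : NeZero ((2 : ℕ) : k') := ⟨by exact_mod_cast h2'⟩
  intro ε A hε hA hs hd hinf hsp
  rw [(isUnit_C.2 (isUnit_iff_ne_zero.2 hD2)).dvd_mul_left] at hd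
  obtain ⟨S, -, hS'⟩ := dvd_prod_irr hq Finset.univ A hd
  obtain ⟨w, hw⟩ := hS'.symm
  obtain ⟨c, hc, hcw⟩ := Polynomial.isUnit_iff.1 w.isUnit
  have hc0 : c ≠ 0 := hc.ne_zero
  have hAe : A = C c * ∏ i ∈ S, q i := by rw [← hw, hcw]; ring
  by_cases h0 : S = ∅
  · have hA1 : A = 1 := by
      rw [h0, Finset.prod_empty, mul_one] at hAe
      have h3 := hA
      rw [hAe, Monic, leadingCoeff_C] at h3
      rw [hAe, h3, C_1]
    refine ⟨0, 1, one_ne_zero, ?_⟩
    show algebraMap K F (algebraMap k[X] K A) = 1 ^ 2 * algebraMap K F 1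
    rw [hA1, map_one, one_pow, one_mul]
  by_cases h1 : S = Finset.univ
  · subst h1
    refine ⟨Point.some 0 0 (nons_zero _ hbK), ?_⟩
    obtain ⟨t, ht⟩ := IsSepClosed.exists_pow_nat_eq (algebraMap k k' (c * (D ^ 2)⁻¹)) 2
    have ht0 : t ≠ 0 := by
      rintro rfl
      rw [zero_pow two_ne_zero] at ht
      exact (_root_.map_ne_zero _).2 (mul_ne_zero hc0 (inv_ne_zero hD2)) ht.symm
    have htF : algebraMap k'[X] F (C t) ≠ 0 := by simpa using ht0
    refine ⟨algebraMap k'[X] F (C t), htF, ?_⟩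
    have hsq : algebraMap k'[X] F (C t) ^ 2 =
        algebraMap K F (algebraMap k[X] K (C (c * (D ^ 2)⁻¹))) := by
      rw [← map_pow, ← C_pow, ht, hKF, map_C]
    have hdd : dT (algebraMap k[X] K (C (D ^ 2) * ∏ i, q i))
        (Point.some 0 0 (nons_zero (algebraMap k[X] K (C D * a)) hbK)) =
        algebraMap k[X] K (C (D ^ 2) * ∏ i, q i) := by
      simp [dT]
    rw [hdd, hsq, ← map_mul, ← map_mul, hAe]
    congr 2
    have : C (D ^ 2)⁻¹ * C (D ^ 2) = (1 : k[X]) := by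
      rw [← C_mul, inv_mul_cancel₀ hD2, C_1]
    rw [C_mul]
    linear_combination (-(C c * ∏ i, q i)) * this
  · exfalso
    refine hS S h0 h1 (ε * c) (mul_ne_zero hε hc0) ?_
    obtain ⟨x, y, z, hz, e⟩ := hsp
    refine ⟨x, C D * y, z, hz, ?_⟩
    rw [hAe] at e
    rw [C_mul]
    simp only [C_pow] at e
    linear_combination e

/-- **Surfaces without divisors which satisfy the norm condition.** -/
theorem family_gen (hT : IsTower k k' K F) (h2 : (2 : k) ≠ 0) {s : ℕ} {q : Fin s → k[X]}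
    (hq : ∀ i, Irreducible (q i)) {a : k[X]} (hirr : Irreducible (a ^ 2 - 4 * ∏ i, q i))
    (hNb : NotNorm (∏ i, q i)) (hNd : NotNorm (a ^ 2 - 4 * ∏ i, q i))
    (hS : ∀ S : Finset (Fin s), S ≠ ∅ → S ≠ Finset.univ → ∀ ε : k, ε ≠ 0 →
      ¬ Splits (a ^ 2 - 4 * ∏ i, q i) ε (∏ i ∈ S, q i))
    {D : k} (hD : D ≠ 0) {h : k[X]} (hodd : Odd h.natDegree)
    (hi : Inert ((∏ i, q i) * (a ^ 2 - 4 * ∏ i, q i)) h) :
    TateAtTwo (F := F) k' (crvT (algebraMap k[X] K ((C D * a).comp h))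
      (algebraMap k[X] K ((C (D ^ 2) * ∏ i, q i).comp h))) := by
  have hD2 : D ^ 2 ≠ 0 := pow_ne_zero 2 hD
  have hP0 : ∏ i, q i ≠ 0 := Finset.prod_ne_zero_iff.2 fun i _ => (hq i).ne_zero
  have hb0 : C (D ^ 2) * ∏ i, q i ≠ 0 := mul_ne_zero (C_ne_zero.2 hD2) hP0
  have ed : (C D * a) ^ 2 - 4 * (C (D ^ 2) * ∏ i, q i) =
      C (D ^ 2) * (a ^ 2 - 4 * ∏ i, q i) := by
    rw [C_pow]; ring
  have hUD : IsUnit (C (D ^ 2) : k[X]) := isUnit_C.2 (isUnit_iff_ne_zero.2 hD2)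
  refine mainN_odd hT h2 hb0 ?_ (notNorm_smul hD2 hNb) (by rw [ed]; exact notNorm_smul hD2 hNd)
    (enough_irr hT h2 hq hS hD) ?_ hodd ?_
  · rw [ed]
    exact mul_ne_zero (C_ne_zero.2 hD2) hirr.ne_zero
  · intro ε A _ hA hs hdv _ _
    exact enough_pow hT h2 hD2 hirr (n := 0) (by rw [ed]; ring) A hA hs hdv
  · intro π hπ hdv
    refine hi π hπ ?_
    rw [ed] at hdv
    have e3 : C (D ^ 2) * (∏ i, q i) * (C (D ^ 2) * (a ^ 2 - 4 * ∏ i, q i)) =
        (C (D ^ 2) * C (D ^ 2)) * ((∏ i, q i) * (a ^ 2 - 4 * ∏ i, q i)) := by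
      ring
    rw [e3] at hdv
    exact ((hUD.mul hUD).dvd_mul_left).1 hdv

end family

end Pool.Agent.R939.EI
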