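import Pool.Agent.R939.EI.Den1
import Pool.Agent.R939.EI.Gen4

/-!
# Almost all surfaces over a number field
-/

set_option autoImplicit false
set_option linter.all false

open Polynomial IsDedekindDomain WeierstrassCurve WeierstrassCurve.Affine NumberField
open scoped Classical

namespace Pool.Agent.R939.EI

open Pool.Agent.TH115.GD

section residue

variable {O J : Type} [CommRing O] [Fintype J] (B : J → O)

/-- The element with given coordinates. -/
def elt (z : J → ℤ) : O := ∑ t, (z t : O) * B t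

theorem mk_elt {P : Ideal O} {p : ℕ} (hp : (p : O) ∈ P) {z z' : J → ℤ}
    (h : ∀ t, (z t : ZMod p) = (z' t : ZMod p)) :
    Ideal.Quotient.mk P (elt B z) = Ideal.Quotient.mk P (elt B z') := by
  rw [Ideal.Quotient.mk_eq_mk_iff_sub_mem, elt, elt, ← Finset.sum_sub_distrib]
  refine P.sum_mem fun t _ => ?_
  have h1 := h t
  rw [eq_comm, ZMod.intCast_eq_intCast_iff_dvd_sub] at h1
  obtain ⟨c, hc⟩ := h1
  have h3 : (z t : O) * B t - (z' t : O) * B t = (p : O) * ((c : O) * B t) := by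
    have : (z t : O) - (z' t : O) = (p : O) * (c : O) := by
      rw [← Int.cast_sub, hc]
      push_cast
      ring
    linear_combination B t * this
  rw [h3]
  exact P.mul_mem_right _ hp

variable (r : ℕ) {s : ℕ} (m : Fin s → ℕ)

/-- The index set of the parameters. -/
abbrev IdxG := Fin (r + 1) ⊕ (i : Fin s) × Fin (m i + 1)

theorem card_idxG : Fintype.card (IdxG r m) = r + 1 + ∑ l, (m l + 1) := by
  rw [Fintype.card_sum, Fintype.card_fin, Fintype.card_sigma]
  simp only [Fintype.card_fin]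

/-- The residues with an obstruction for `S`. -/
def omegaG (S : Finset (Fin s)) (p : ℕ) : Set (IdxG r m × J → ZMod p) :=
  {y | ∃ (P : Ideal O) (_ : P.IsMaximal), P ≠ ⊥ ∧ (p : O) ∈ P ∧
    ObsG S (fun j => Ideal.Quotient.mk P (elt B fun t => ((y (Sum.inl j, t)).val : ℤ)))
      (fun i j => Ideal.Quotient.mk P (elt B fun t => ((y (Sum.inr ⟨i, j⟩, t)).val : ℤ)))}

/-- Reduction. -/
noncomputable def redG {κ : Type} [CommRing κ] (p : ℕ) [CharP κ p] (π : O →+* κ) (I : Type) :
    (I × J → ZMod p) →+ (I → κ) where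
  toFun y i := ∑ t, ZMod.castHom (dvd_refl p) κ (y (i, t)) * π (B t)
  map_zero' := by
    funext i
    simp
  map_add' y y' := by
    funext i
    simp only [Pi.add_apply, map_add, add_mul, Finset.sum_add_distrib]

theorem redG_eq {κ : Type} [CommRing κ] (p : ℕ) [NeZero p] [CharP κ p] (π : O →+* κ) {I : Type}
    (y : I × J → ZMod p) (i : I) :
    redG B p π I y i = π (elt B fun t => ((y (i, t)).val : ℤ)) := by
  show ∑ t, ZMod.castHom (dvd_refl p) κ (y (i, t)) * π (B t) = _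
  rw [elt, map_sum]
  refine Finset.sum_congr rfl fun t _ => ?_
  rw [map_mul, map_intCast, Int.cast_natCast, ZMod.castHom_apply, ZMod.natCast_val]

theorem redG_surj {κ : Type} [CommRing κ] (p : ℕ) [NeZero p] [CharP κ p] {π : O →+* κ}
    (hπ : Function.Surjective π) (hB : ∀ x : O, ∃ z : J → ℤ, x = elt B z) (I : Type) :
    Function.Surjective (redG B p π I) := by
  intro z
  have h1 : ∀ i, ∃ w : J → ℤ, π (elt B w) = z i := by
    intro i
    obtain ⟨x, hx⟩ := hπ (z i)
    obtain ⟨w, rfl⟩ := hB x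
    exact ⟨w, hx⟩
  choose w hw using h1
  refine ⟨fun q => (w q.1 q.2 : ZMod p), ?_⟩
  funext i
  rw [← hw i]
  show ∑ t, ZMod.castHom (dvd_refl p) κ ((w i t : ℤ) : ZMod p) * π (B t) = _
  rw [elt, map_sum]
  refine Finset.sum_congr rfl fun t _ => ?_
  rw [map_mul, map_intCast, map_intCast]

theorem card_preim {G H : Type} [AddCommGroup G] [Fintype G] [AddCommGroup H] [Fintype H]
    (f : G →+ H) (hf : Function.Surjective f) (Z : Set H) :
    {x | f x ∈ Z}.ncard * Fintype.card H = Z.ncard * Fintype.card G := by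
  have e1 : {x | f x ∈ Z}.ncard = (Finset.univ.filter fun x => f x ∈ Z).card := by
    rw [← Set.ncard_coe_finset]
    congr 1
    ext x
    simp
  have e2 : Z.ncard = (Finset.univ.filter fun z => z ∈ Z).card := by
    rw [← Set.ncard_coe_finset]
    congr 1
    ext x
    simp
  have h1 : (Finset.univ.filter fun x => f x ∈ Z).card =
      ∑ z ∈ (Finset.univ.filter fun z => z ∈ Z),
        ((Finset.univ.filter fun x => f x ∈ Z).filter fun x => f x = z).card := by
    apply Finset.card_eq_sum_card_fiberwise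
    intro x hx
    rw [Finset.mem_coe, Finset.mem_filter] at hx
    rw [Finset.mem_coe, Finset.mem_filter]
    exact ⟨Finset.mem_univ _, hx.2⟩
  rw [e1, e2, h1, Finset.sum_mul, ← smul_eq_mul, ← Finset.sum_const]
  refine Finset.sum_congr rfl fun z hz => ?_
  rw [Finset.mem_filter] at hz
  rw [← fiber_card f hf z]
  congr 2
  ext x
  simp only [Finset.mem_filter, Finset.mem_univ, true_and]
  constructor
  · exact fun h => h.2
  · intro h
    exact ⟨by rw [h]; exact hz.2, h⟩

/-- Transfer of a proportion. -/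
theorem proportion {G H : Type} [AddCommGroup G] [Fintype G] [AddCommGroup H] [Fintype H]
    (f : G →+ H) (hf : Function.Surjective f) (Z : Set H) {δ : ℝ}
    (hδ : δ * (Fintype.card H : ℝ) ≤ (Z.ncard : ℝ)) {Ω : Set G} (hΩ : ∀ x, f x ∈ Z → x ∈ Ω) :
    δ * (Fintype.card G : ℝ) ≤ (Ω.ncard : ℝ) := by
  have h1 := card_preim f hf Z
  have h2 : ({x | f x ∈ Z}.ncard : ℝ) * (Fintype.card H : ℝ) =
      (Z.ncard : ℝ) * (Fintype.card G : ℝ) := by exact_mod_cast h1
  have h3 : ({x | f x ∈ Z}.ncard : ℝ) ≤ (Ω.ncard : ℝ) := by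
    exact_mod_cast Set.ncard_le_ncard hΩ (Set.toFinite _)
  have hH : (0 : ℝ) < (Fintype.card H : ℝ) := by
    haveI : Nonempty H := ⟨0⟩
    exact_mod_cast Fintype.card_pos
  refine le_of_mul_le_mul_right ?_ hH
  calc δ * (Fintype.card G : ℝ) * (Fintype.card H : ℝ)
      = δ * (Fintype.card H : ℝ) * (Fintype.card G : ℝ) := by ring
    _ ≤ (Z.ncard : ℝ) * (Fintype.card G : ℝ) := mul_le_mul_of_nonneg_right hδ (by positivity)
    _ = ({x | f x ∈ Z}.ncard : ℝ) * (Fintype.card H : ℝ) := h2.symm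
    _ ≤ (Ω.ncard : ℝ) * (Fintype.card H : ℝ) := mul_le_mul_of_nonneg_right h3 (by positivity)

end residue

section count

theorem card_obsFun {κ : Type} [Field κ] [Fintype κ] (hF : ringChar κ ≠ 2)
    (h7 : 7 ≤ Fintype.card κ) (r : ℕ) {s : ℕ} (m : Fin s → ℕ) (hr : 2 ≤ r) (hm : ∀ i, 1 ≤ m i)
    {S : Finset (Fin s)} (h0 : S ≠ ∅) (h1 : S ≠ Finset.univ) :
    (1 / (4 * 9 ^ s * ((2 * r + ∑ i, m i : ℕ) : ℝ) ^ 2)) *
      (Fintype.card (IdxG r m → κ) : ℝ) ≤ ({z : IdxG r m → κ |
        ObsG S (fun j => z (Sum.inl j)) (fun i j => z (Sum.inr ⟨i, j⟩))}.ncard : ℝ) := by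
  obtain ⟨i, hi⟩ := Finset.nonempty_iff_ne_empty.2 h0
  obtain ⟨j, hj⟩ : ∃ j, j ∉ S := by
    by_contra hcon
    push Not at hcon
    exact h1 (Finset.eq_univ_iff_forall.2 hcon)
  have h3 := card_obsG_real hF h7 hr hm hi hj
  have hM0 : (0 : ℝ) < ((2 * r + ∑ i, m i : ℕ) : ℝ) := by
    have : 0 < 2 * r + ∑ i, m i := by omega
    exact_mod_cast this
  have h4 : (obsSetG κ r m S).card ≤ {z : IdxG r m → κ |
        ObsG S (fun j => z (Sum.inl j)) (fun i j => z (Sum.inr ⟨i, j⟩))}.ncard := by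
    rw [← Set.ncard_coe_finset]
    refine Set.ncard_le_ncard_of_injOn
      (fun x o => match o with
        | Sum.inl j => x.1 j
        | Sum.inr ⟨i, j⟩ => x.2 i j) ?_ ?_ (Set.toFinite _)
    · intro x hx
      rw [Finset.mem_coe, obsSetG, Finset.mem_filter] at hx
      exact hx.2
    · intro x _ y _ hxy
      refine Prod.ext ?_ ?_
      · funext j
        exact congrFun hxy (Sum.inl j)
      · funext i j
        exact congrFun hxy (Sum.inr ⟨i, j⟩)
  have h8 : ((obsSetG κ r m S).card : ℝ) ≤ ({z : IdxG r m → κ |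
        ObsG S (fun j => z (Sum.inl j)) (fun i j => z (Sum.inr ⟨i, j⟩))}.ncard : ℝ) := by
    exact_mod_cast h4
  rw [Fintype.card_fun, card_idxG, Nat.cast_pow, one_div, inv_mul_le_iff₀ (by positivity)]
  exact h3.trans (mul_le_mul_of_nonneg_left h8 (by positivity))

theorem card_omegaG {O J : Type} [CommRing O] [IsDomain O] [Fintype J] (B : J → O) (r : ℕ) {s : ℕ}
    (m : Fin s → ℕ) {p : ℕ} (hp : p.Prime) (h7 : 7 ≤ p) (hr : 2 ≤ r) (hm : ∀ i, 1 ≤ m i)
    (hB : ∀ x : O, ∃ z : J → ℤ, x = elt B z) {S : Finset (Fin s)} (h0 : S ≠ ∅)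
    (h1 : S ≠ Finset.univ) {P : Ideal O} (hPm : P.IsMaximal) (hPb : P ≠ ⊥) (hpP : (p : O) ∈ P)
    (hfin : Finite (O ⧸ P)) :
    (1 / (4 * 9 ^ s * ((2 * r + ∑ i, m i : ℕ) : ℝ) ^ 2)) *
      (p : ℝ) ^ Fintype.card (IdxG r m × J) ≤ ((omegaG B r m S p).ncard : ℝ) := by
  haveI : Fact p.Prime := ⟨hp⟩
  haveI : NeZero p := ⟨hp.ne_zero⟩
  haveI := hPm
  letI : Field (O ⧸ P) := Ideal.Quotient.field P
  haveI : Fintype (O ⧸ P) := Fintype.ofFinite _
  have hpz : ((p : ℕ) : O ⧸ P) = 0 := by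
    rw [← map_natCast (Ideal.Quotient.mk P)]
    exact Ideal.Quotient.eq_zero_iff_mem.2 hpP
  haveI hch : CharP (O ⧸ P) p := (CharP.charP_iff_prime_eq_zero hp).2 hpz
  have hF : ringChar (O ⧸ P) ≠ 2 := by
    rw [ringChar.eq_iff.2 hch]; omega
  have hcard : 7 ≤ Fintype.card (O ⧸ P) := by
    have h3 := Fintype.card_le_of_injective _ (ZMod.castHom (dvd_refl p) (O ⧸ P)).injective
    rw [ZMod.card] at h3
    omega
  have h3 := card_obsFun hF hcard r m hr hm h0 h1
  have h5 := proportion (redG B p (Ideal.Quotient.mk P) (IdxG r m))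
    (redG_surj B p Ideal.Quotient.mk_surjective hB (IdxG r m)) _ h3
    (Ω := omegaG B r m S p) (by
      intro y hy
      refine ⟨P, hPm, hPb, hpP, ?_⟩
      have h7 : ObsG S (fun j => redG B p (Ideal.Quotient.mk P) (IdxG r m) y (Sum.inl j))
        (fun i j => redG B p (Ideal.Quotient.mk P) (IdxG r m) y (Sum.inr ⟨i, j⟩)) := hy
      simp only [redG_eq] at h7
      exact h7)
  rw [Fintype.card_fun, ZMod.card, Nat.cast_pow] at h5
  exact h5

end count

end Pool.Agent.R939.EI
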