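import Mathlib

/-!
# The 2-isogeny over a field of characteristic different from two

Adapted from `Pool/Agent/Y676/IS` (characteristic zero).
-/

set_option autoImplicit false
set_option linter.unusedSectionVars false

namespace Pool.Agent.R939.EI

open WeierstrassCurve

section part1
section Curve

variable {F : Type} [Field F] [NeZero (2 : F)]

/-- the curve `y² = x³ + a x² + b x` -/
def Cu (a b : F) : WeierstrassCurve.Affine F := ⟨0, a, 0, b, 0⟩

lemma cu_eq {a b x y : F} : (Cu a b).Equation x y ↔ y ^ 2 = x ^ 3 + a * x ^ 2 + b * x := by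
  rw [Affine.equation_iff]
  simp [Cu]

lemma cu_ns {a b x y : F} (hb : b ≠ 0) (hd : a ^ 2 - 4 * b ≠ 0)
    (h : y ^ 2 = x ^ 3 + a * x ^ 2 + b * x) : (Cu a b).Nonsingular x y := by
  rw [Affine.nonsingular_iff', Affine.equation_iff']
  have e1 : (Cu a b).a₁ = 0 := rfl
  have e2 : (Cu a b).a₂ = a := rfl
  have e3 : (Cu a b).a₃ = 0 := rfl
  have e4 : (Cu a b).a₄ = b := rfl
  have e6 : (Cu a b).a₆ = 0 := rfl
  rw [e1, e2, e3, e4, e6]
  refine ⟨by linear_combination h, ?_⟩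
  by_contra hcon
  push Not at hcon
  obtain ⟨h1, h2⟩ := hcon
  have hy : y = 0 := by
    have : (2 : F) * y = 0 := by linear_combination h2
    exact (mul_eq_zero.1 this).resolve_left two_ne_zero
  have h3 : 3 * x ^ 2 + 2 * a * x + b = 0 := by linear_combination -h1
  have h4 : x * (x ^ 2 + a * x + b) = 0 := by
    rw [hy] at h
    linear_combination -h
  rcases mul_eq_zero.1 h4 with h5 | h5
  · rw [h5] at h3
    apply hb
    linear_combination h3
  · -- `x² + a x + b = 0` and `2 x + a = 0`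
    have h6 : x * (2 * x + a) = 0 := by linear_combination h3 - h5
    rcases mul_eq_zero.1 h6 with h7 | h7
    · rw [h7] at h5
      apply hb
      linear_combination h5
    · apply hd
      linear_combination (a + 2 * x) * h7 - 4 * h5

lemma ns_eq {a b x y : F} (h : (Cu a b).Nonsingular x y) :
    y ^ 2 = x ^ 3 + a * x ^ 2 + b * x := cu_eq.1 h.1

/-- the data of a 2-isogeny -/
structure Dat (a b a' b' u : F) : Prop where
  hb : b ≠ 0
  hb' : b' ≠ 0
  hu : u ≠ 0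
  e1 : u ^ 2 * a' = -2 * a
  e2 : u ^ 4 * b' = a ^ 2 - 4 * b

variable {a b a' b' u : F}

lemma Dat.hd (h : Dat a b a' b' u) : a ^ 2 - 4 * b ≠ 0 := by
  rw [← h.e2]
  exact mul_ne_zero (pow_ne_zero 4 h.hu) h.hb'

lemma Dat.ea (h : Dat a b a' b' u) : a' = -2 * a / u ^ 2 := by
  rw [eq_div_iff (pow_ne_zero 2 h.hu), mul_comm]
  exact h.e1

lemma Dat.eb (h : Dat a b a' b' u) : b' = (a ^ 2 - 4 * b) / u ^ 4 := by
  rw [eq_div_iff (pow_ne_zero 4 h.hu), mul_comm]
  exact h.e2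

lemma Dat.hd' (h : Dat a b a' b' u) : a' ^ 2 - 4 * b' ≠ 0 := by
  have hu := h.hu
  have : a' ^ 2 - 4 * b' = 16 * b / u ^ 4 := by
    rw [h.ea, h.eb]
    field_simp
    ring
  rw [this]
  have h16 : (16 : F) ≠ 0 := by
    have : (16 : F) = 2 ^ 4 := by norm_num
    rw [this]
    exact pow_ne_zero 4 two_ne_zero
  exact div_ne_zero (mul_ne_zero h16 h.hb) (pow_ne_zero 4 h.hu)

lemma img (h : Dat a b a' b' u) {x y : F} (hx : x ≠ 0) (he : y ^ 2 = x ^ 3 + a * x ^ 2 + b * x) :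
    (y * (b - x ^ 2) / (u ^ 3 * x ^ 2)) ^ 2 = (y ^ 2 / (u ^ 2 * x ^ 2)) ^ 3 +
      a' * (y ^ 2 / (u ^ 2 * x ^ 2)) ^ 2 + b' * (y ^ 2 / (u ^ 2 * x ^ 2)) := by
  have hu := h.hu
  have e0 : (y * (b - x ^ 2) / (u ^ 3 * x ^ 2)) ^ 2 = y ^ 2 * (b - x ^ 2) ^ 2 / (u ^ 6 * x ^ 4) := by
    field_simp
  rw [e0, h.ea, h.eb, he]
  field_simp
  ring

/-- the image of a point -/
noncomputable def isoF (h : Dat a b a' b' u) : (Cu a b).Point → (Cu a' b').Point
  | .zero => .zero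
  | .some x y hxy => open Classical in if hx : x = 0 then .zero else
      .some (y ^ 2 / (u ^ 2 * x ^ 2)) (y * (b - x ^ 2) / (u ^ 3 * x ^ 2))
        (cu_ns h.hb' h.hd' (img h hx (ns_eq hxy)))

/-- the point `(0, 0)` -/
def TT (hb : b ≠ 0) (hd : a ^ 2 - 4 * b ≠ 0) : (Cu a b).Point :=
  .some 0 0 (cu_ns hb hd (by ring))

end Curve

/-! ### The line through two points -/

section Line

variable {F : Type} [Field F] [NeZero (2 : F)] {a b a' b' u : F}

/-- the image of a point of the line `y = l x + n` is on the line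
`u n Y + (l n - b) X + ... = 0` -/
lemma line (h : Dat a b a' b' u) {x y l n : F} (hx : x ≠ 0)
    (he : y ^ 2 = x ^ 3 + a * x ^ 2 + b * x) (hl : y = l * x + n) :
    u ^ 3 * n * (y * (b - x ^ 2) / (u ^ 3 * x ^ 2)) +
      (l * n - b) * u ^ 2 * (y ^ 2 / (u ^ 2 * x ^ 2)) + (l ^ 2 * b - a * l * n + n ^ 2) = 0 := by
  have hu := h.hu
  have key : n * y * (b - x ^ 2) + (l * n - b) * y ^ 2 + (l ^ 2 * b - a * l * n + n ^ 2) * x ^ 2
      = 0 := by
    have hn : n = y - l * x := by rw [hl]; ring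
    subst hn
    linear_combination (l * (y - l * x)) * he
  field_simp
  linear_combination key

/-- the relations of Vieta -/
lemma vieta {x1 y1 x2 y2 l n : F} (he1 : y1 ^ 2 = x1 ^ 3 + a * x1 ^ 2 + b * x1)
    (he2 : y2 ^ 2 = x2 ^ 3 + a * x2 ^ 2 + b * x2) (h12 : x1 ≠ x2) (hl1 : y1 = l * x1 + n)
    (hl2 : y2 = l * x2 + n) :
    x1 * x2 + (l ^ 2 - a - x1 - x2) * (x1 + x2) = b - 2 * l * n ∧
      x1 * x2 * (l ^ 2 - a - x1 - x2) = n ^ 2 := by
  have hs : x1 - x2 ≠ 0 := sub_ne_zero.2 h12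
  subst hl1 hl2
  have h1 : x1 * x2 + (l ^ 2 - a - x1 - x2) * (x1 + x2) = b - 2 * l * n := by
    apply mul_left_cancel₀ hs
    linear_combination he1 - he2
  refine ⟨h1, ?_⟩
  linear_combination x1 * h1 - he1

/-- the sum of the three abscissas of the images -/
lemma sumX {x1 x2 x3 l n : F} (hu : u ≠ 0) (h1 : x1 ≠ 0) (h2 : x2 ≠ 0) (h3 : x3 ≠ 0)
    (hn : n ≠ 0) (e1 : x1 + x2 + x3 = l ^ 2 - a) (e2 : x1 * x2 + x3 * (x1 + x2) = b - 2 * l * n)
    (e3 : x1 * x2 * x3 = n ^ 2) :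
    (l * x1 + n) ^ 2 / (u ^ 2 * x1 ^ 2) + (l * x2 + n) ^ 2 / (u ^ 2 * x2 ^ 2) +
      (l * x3 + n) ^ 2 / (u ^ 2 * x3 ^ 2) = ((b - l * n) / (u * n)) ^ 2 + 2 * a / u ^ 2 := by
  have s1 : 1 / x1 + 1 / x2 + 1 / x3 = (b - 2 * l * n) / n ^ 2 := by
    rw [← e2, ← e3]
    field_simp
    ring
  have s2 : 1 / (x1 * x2) + 1 / (x1 * x3) + 1 / (x2 * x3) = (l ^ 2 - a) / n ^ 2 := by
    rw [← e1, ← e3]
    field_simp
    ring
  have t : ∀ x : F, x ≠ 0 → (l * x + n) ^ 2 / (u ^ 2 * x ^ 2) = (l + n * (1 / x)) ^ 2 / u ^ 2 := by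
    intro x hx
    field_simp
  rw [t x1 h1, t x2 h2, t x3 h3]
  have q : ∀ p q r : F, (l + n * p) ^ 2 / u ^ 2 + (l + n * q) ^ 2 / u ^ 2 + (l + n * r) ^ 2 / u ^ 2 =
      (3 * l ^ 2 + 2 * l * n * (p + q + r) + n ^ 2 * ((p + q + r) ^ 2 -
        2 * (p * q + p * r + q * r))) / u ^ 2 := by
    intro p q r
    ring
  rw [q, s1]
  have s3 : 1 / x1 * (1 / x2) + 1 / x1 * (1 / x3) + 1 / x2 * (1 / x3) = (l ^ 2 - a) / n ^ 2 := by
    rw [← s2]
    field_simp
  rw [s3]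
  field_simp
  ring

end Line

end part1

section part2
variable {F : Type} [Field F] [NeZero (2 : F)] {a b a' b' u : F}

lemma isoF_zero (h : Dat a b a' b' u) : isoF h (0 : (Cu a b).Point) = 0 := rfl

lemma isoF_x0 (h : Dat a b a' b' u) {x y : F} (hxy : (Cu a b).Nonsingular x y) (hx : x = 0) :
    isoF h (.some x y hxy) = 0 := dif_pos hx

lemma isoF_some (h : Dat a b a' b' u) {x y : F} (hxy : (Cu a b).Nonsingular x y) (hx : x ≠ 0) :
    isoF h (.some x y hxy) = .some (y ^ 2 / (u ^ 2 * x ^ 2)) (y * (b - x ^ 2) / (u ^ 3 * x ^ 2))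
      (cu_ns h.hb' h.hd' (img h hx (ns_eq hxy))) := dif_neg hx

lemma some_congr {W : WeierstrassCurve.Affine F} {x y x' y' : F} (h : W.Nonsingular x y)
    (h' : W.Nonsingular x' y') (hx : x = x') (hy : y = y') :
    (.some x y h : W.Point) = .some x' y' h' := by
  subst hx hy
  rfl

variable [DecidableEq F]

lemma add_ne {x1 y1 x2 y2 x3 y3 : F} (h1 : (Cu a b).Nonsingular x1 y1)
    (h2 : (Cu a b).Nonsingular x2 y2) (h3 : (Cu a b).Nonsingular x3 y3) (hx : x1 ≠ x2)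
    (e3 : x3 = ((y1 - y2) / (x1 - x2)) ^ 2 - a - x1 - x2)
    (f3 : y3 = -((y1 - y2) / (x1 - x2) * (x3 - x1) + y1)) :
    (.some x1 y1 h1 : (Cu a b).Point) + .some x2 y2 h2 = .some x3 y3 h3 := by
  rw [Affine.Point.add_of_X_ne hx]
  have a1 : (Cu a b).a₁ = 0 := rfl
  have a2 : (Cu a b).a₂ = a := rfl
  have a3 : (Cu a b).a₃ = 0 := rfl
  apply some_congr
  · rw [Affine.slope_of_X_ne hx, Affine.addX, a1, a2, e3]
    ring
  · rw [Affine.slope_of_X_ne hx, Affine.addY, Affine.negY, Affine.negAddY, Affine.addX, a1, a2, a3,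
      f3, e3]
    ring

lemma neg_some {x y : F} (h : (Cu a b).Nonsingular x y) (h' : (Cu a b).Nonsingular x (-y)) :
    -(.some x y h : (Cu a b).Point) = .some x (-y) h' := by
  rw [Affine.Point.neg_some]
  have a1 : (Cu a b).a₁ = 0 := rfl
  have a3 : (Cu a b).a₃ = 0 := rfl
  apply some_congr _ _ rfl
  rw [Affine.negY, a1, a3]
  ring

/-- the translation by `T = (0, 0)` -/
lemma add_T (hb : b ≠ 0) (hd : a ^ 2 - 4 * b ≠ 0) {x y : F} (h : (Cu a b).Nonsingular x y)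
    (hx : x ≠ 0) (h' : (Cu a b).Nonsingular (b / x) (-(b * y / x ^ 2))) :
    (.some x y h : (Cu a b).Point) + TT hb hd = .some (b / x) (-(b * y / x ^ 2)) h' := by
  have e0 := ns_eq h
  unfold TT
  refine add_ne _ _ _ hx ?_ ?_
  · rw [sub_zero, sub_zero, sub_zero]
    field_simp
    linear_combination -e0
  · rw [sub_zero, sub_zero]
    field_simp
    ring

lemma T_add_T (hb : b ≠ 0) (hd : a ^ 2 - 4 * b ≠ 0) : TT hb hd + TT hb hd = 0 := by
  unfold TT
  apply Affine.Point.add_of_Y_eq rfl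
  have a1 : (Cu a b).a₁ = 0 := rfl
  have a3 : (Cu a b).a₃ = 0 := rfl
  rw [Affine.negY, a1, a3]
  ring

/-- **additivity in general position** -/
theorem gen (h : Dat a b a' b' u) {x1 y1 x2 y2 : F} (h1 : (Cu a b).Nonsingular x1 y1)
    (h2 : (Cu a b).Nonsingular x2 y2) (hx1 : x1 ≠ 0) (hx2 : x2 ≠ 0) (h12 : x1 ≠ x2)
    (h12' : x1 * x2 ≠ b) (hn : y1 * x2 ≠ y2 * x1) :
    isoF h ((.some x1 y1 h1 : (Cu a b).Point) + .some x2 y2 h2) =
      isoF h (.some x1 y1 h1) + isoF h (.some x2 y2 h2) := by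
  have hu := h.hu
  have he1 := ns_eq h1
  have he2 := ns_eq h2
  have hs : x1 - x2 ≠ 0 := sub_ne_zero.2 h12
  obtain ⟨l, hl⟩ : ∃ l, l = (y1 - y2) / (x1 - x2) := ⟨_, rfl⟩
  obtain ⟨n, hn'⟩ : ∃ n, n = y1 - l * x1 := ⟨_, rfl⟩
  have hl1 : y1 = l * x1 + n := by rw [hn']; ring
  have hl2 : y2 = l * x2 + n := by
    rw [hn', hl]
    field_simp
    ring
  have hn0 : n ≠ 0 := by
    intro h0
    apply hn
    rw [hl1, hl2, h0]
    ring
  obtain ⟨x3, hx3⟩ : ∃ x3, x3 = l ^ 2 - a - x1 - x2 := ⟨_, rfl⟩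
  obtain ⟨v1, v2⟩ := vieta he1 he2 h12 hl1 hl2
  rw [← hx3] at v1 v2
  have hx30 : x3 ≠ 0 := by
    intro h0
    rw [h0, mul_zero] at v2
    exact hn0 (pow_eq_zero_iff two_ne_zero |>.1 v2.symm)
  have s1 : x1 + x2 + x3 = l ^ 2 - a := by rw [hx3]; ring
  -- the third point
  have e3 : (-(l * x3 + n)) ^ 2 = x3 ^ 3 + a * x3 ^ 2 + b * x3 := by
    have g1 : (l * x3 + n) ^ 2 = x3 ^ 3 + a * x3 ^ 2 + b * x3 := by
      linear_combination (-x3 ^ 2) * s1 + x3 * v1 - v2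
    rw [neg_sq, g1]
  have h3 : (Cu a b).Nonsingular x3 (-(l * x3 + n)) := cu_ns h.hb h.hd e3
  rw [add_ne h1 h2 h3 h12 (by rw [← hl, hx3]) (by rw [← hl]; linear_combination hl1), isoF_some h h3 hx30,
    isoF_some h h1 hx1, isoF_some h h2 hx2]
  have q3 : (-(l * x3 + n)) ^ 2 / (u ^ 2 * x3 ^ 2) = (l * x3 + n) ^ 2 / (u ^ 2 * x3 ^ 2) := by
    rw [neg_sq]
  have k1 := line h hx1 he1 hl1
  have k2 := line h hx2 he2 hl2
  have k3 := line h hx30 (y := l * x3 + n) (l := l) (n := n) (by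
    rw [← e3]
    ring) rfl
  have X12 : y1 ^ 2 / (u ^ 2 * x1 ^ 2) - y2 ^ 2 / (u ^ 2 * x2 ^ 2) =
      (x1 - x2) * (x1 * x2 - b) / (u ^ 2 * x1 * x2) := by
    rw [he1, he2]
    field_simp
    ring
  have hX : y1 ^ 2 / (u ^ 2 * x1 ^ 2) ≠ y2 ^ 2 / (u ^ 2 * x2 ^ 2) := by
    intro h0
    rw [h0, sub_self] at X12
    have h4 : (x1 - x2) * (x1 * x2 - b) / (u ^ 2 * x1 * x2) ≠ 0 := by
      refine div_ne_zero (mul_ne_zero hs (sub_ne_zero.2 h12')) ?_
      exact mul_ne_zero (mul_ne_zero (pow_ne_zero 2 hu) hx1) hx2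
    exact h4 X12.symm
  obtain ⟨X1, hX1⟩ : ∃ X1, X1 = y1 ^ 2 / (u ^ 2 * x1 ^ 2) := ⟨_, rfl⟩
  obtain ⟨X2, hX2⟩ : ∃ X2, X2 = y2 ^ 2 / (u ^ 2 * x2 ^ 2) := ⟨_, rfl⟩
  obtain ⟨Y1, hY1⟩ : ∃ Y1, Y1 = y1 * (b - x1 ^ 2) / (u ^ 3 * x1 ^ 2) := ⟨_, rfl⟩
  obtain ⟨Y2, hY2⟩ : ∃ Y2, Y2 = y2 * (b - x2 ^ 2) / (u ^ 3 * x2 ^ 2) := ⟨_, rfl⟩
  obtain ⟨X3, hX3⟩ : ∃ X3, X3 = (l * x3 + n) ^ 2 / (u ^ 2 * x3 ^ 2) := ⟨_, rfl⟩
  obtain ⟨Y3, hY3⟩ : ∃ Y3, Y3 = (l * x3 + n) * (b - x3 ^ 2) / (u ^ 3 * x3 ^ 2) := ⟨_, rfl⟩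
  have sX := sumX hu hx1 hx2 hx30 hn0 s1 v1 v2
  rw [← hl1, ← hl2, ← hX1, ← hX2, ← hX3] at sX
  rw [← hX1, ← hY1] at k1
  rw [← hX2, ← hY2] at k2
  rw [← hX3, ← hY3] at k3
  rw [← hX1, ← hX2] at hX
  have hXs : X1 - X2 ≠ 0 := sub_ne_zero.2 hX
  have hsl : (Y1 - Y2) / (X1 - X2) = (b - l * n) / (u * n) := by
    rw [div_eq_div_iff hXs (mul_ne_zero hu hn0)]
    apply mul_left_cancel₀ (pow_ne_zero 2 hu)
    linear_combination k1 - k2
  symm
  refine (add_ne (a := a') (b := b') _ _ (cu_ns h.hb' h.hd' (img h hx30 (ns_eq h3))) ?_ ?_ ?_)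
  · rw [← hX1, ← hX2]
    exact hX
  · rw [← hX1, ← hX2, ← hY1, ← hY2, hsl, q3, ← hX3, h.ea]
    linear_combination sX
  · rw [← hX1, ← hX2, ← hY1, ← hY2, hsl, q3, ← hX3]
    have e4 : -(l * x3 + n) * (b - x3 ^ 2) / (u ^ 3 * x3 ^ 2) = - Y3 := by
      rw [hY3]
      ring
    have k4 : u * n * (Y3 - Y1) + (l * n - b) * (X3 - X1) = 0 := by
      apply mul_left_cancel₀ (pow_ne_zero 2 hu)
      linear_combination k3 - k1
    rw [e4, neg_inj]
    field_simp
    linear_combination k4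

end part2

section part3
variable {F : Type} [Field F] [NeZero (2 : F)] {a b a' b' u : F} [DecidableEq F]

/-- the points `0`, `T` -/
def Sm (hb : b ≠ 0) (hd : a ^ 2 - 4 * b ≠ 0) (P : (Cu a b).Point) : Prop := P = 0 ∨ P = TT hb hd

lemma neg_T (hb : b ≠ 0) (hd : a ^ 2 - 4 * b ≠ 0) : -(TT hb hd) = TT hb hd :=
  neg_eq_of_add_eq_zero_left (T_add_T hb hd)

lemma isT_of_x0 (hb : b ≠ 0) (hd : a ^ 2 - 4 * b ≠ 0) {x y : F} (h : (Cu a b).Nonsingular x y)
    (hx : x = 0) : (.some x y h : (Cu a b).Point) = TT hb hd := by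
  have e := ns_eq h
  subst hx
  have hy : y = 0 := by
    have : y ^ 2 = 0 := by rw [e]; ring
    exact pow_eq_zero_iff two_ne_zero |>.1 this
  exact some_congr _ _ rfl hy

lemma ns_neg {x y : F} (hb : b ≠ 0) (hd : a ^ 2 - 4 * b ≠ 0) (h : (Cu a b).Nonsingular x y) :
    (Cu a b).Nonsingular x (-y) := cu_ns hb hd (by rw [neg_sq]; exact ns_eq h)

lemma ns_T {x y : F} (hb : b ≠ 0) (hd : a ^ 2 - 4 * b ≠ 0) (h : (Cu a b).Nonsingular x y)
    (hx : x ≠ 0) : (Cu a b).Nonsingular (b / x) (-(b * y / x ^ 2)) := by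
  apply cu_ns hb hd
  have e := ns_eq h
  have e1 : (-(b * y / x ^ 2)) ^ 2 = b ^ 2 * y ^ 2 / x ^ 4 := by
    field_simp
  rw [e1, e]
  field_simp
  ring

lemma isoF_neg (h : Dat a b a' b' u) (P : (Cu a b).Point) : isoF h (-P) = -isoF h P := by
  rcases P with _ | ⟨x, y, hxy⟩
  · change isoF h (-0) = -isoF h 0
    rw [neg_zero, isoF_zero, neg_zero]
  · rw [neg_some hxy (ns_neg h.hb h.hd hxy)]
    by_cases hx : x = 0
    · rw [isoF_x0 h _ hx, isoF_x0 h _ hx, neg_zero]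
    · rw [isoF_some h _ hx, isoF_some h _ hx, neg_some _ (ns_neg h.hb' h.hd' (cu_ns h.hb' h.hd'
        (img h hx (ns_eq hxy))))]
      apply some_congr
      · rw [neg_sq]
      · ring

lemma isoF_T (h : Dat a b a' b' u) : isoF h (TT h.hb h.hd) = 0 := isoF_x0 h _ rfl

lemma isoF_addT (h : Dat a b a' b' u) (P : (Cu a b).Point) :
    isoF h (P + TT h.hb h.hd) = isoF h P := by
  rcases P with _ | ⟨x, y, hxy⟩
  · change isoF h (0 + _) = isoF h 0
    rw [zero_add, isoF_T, isoF_zero]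
  · by_cases hx : x = 0
    · rw [isT_of_x0 h.hb h.hd hxy hx, T_add_T, isoF_zero, isoF_T]
    · have hu := h.hu
      have hb := h.hb
      have e0 := ns_eq hxy
      rw [add_T h.hb h.hd hxy hx (ns_T h.hb h.hd hxy hx), isoF_some h _ (div_ne_zero h.hb hx),
        isoF_some h _ hx]
      apply some_congr
      · field_simp
      · field_simp
        ring

/-- the good pairs -/
lemma good_pair (h : Dat a b a' b' u) (P Q : (Cu a b).Point) (hP : ¬ Sm h.hb h.hd P)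
    (hQ : ¬ Sm h.hb h.hd Q) (h1 : ¬ Sm h.hb h.hd (P + Q)) (h2 : ¬ Sm h.hb h.hd (P - Q)) :
    isoF h (P + Q) = isoF h P + isoF h Q := by
  rcases P with _ | ⟨x1, y1, hP1⟩
  · exact absurd (Or.inl rfl) hP
  rcases Q with _ | ⟨x2, y2, hP2⟩
  · exact absurd (Or.inl rfl) hQ
  have hx1 : x1 ≠ 0 := fun h0 => hP (Or.inr (isT_of_x0 h.hb h.hd hP1 h0))
  have hx2 : x2 ≠ 0 := fun h0 => hQ (Or.inr (isT_of_x0 h.hb h.hd hP2 h0))
  have e1 := ns_eq hP1
  have e2 := ns_eq hP2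
  have h12 : x1 ≠ x2 := by
    intro h0
    subst h0
    have : y1 ^ 2 = y2 ^ 2 := by rw [e1, e2]
    rcases sq_eq_sq_iff_eq_or_eq_neg.1 this with h3 | h3
    · apply h2
      left
      rw [sub_eq_zero]
      exact some_congr _ _ rfl h3
    · apply h1
      left
      have h4 : (.some x1 y1 hP1 : (Cu a b).Point) = -(.some x1 y2 hP2) := by
        rw [neg_some hP2 (ns_neg h.hb h.hd hP2)]
        exact some_congr _ _ rfl h3
      rw [h4, neg_add_cancel]
  have h12' : x1 * x2 ≠ b := by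
    intro h0
    have hx2' : x2 = b / x1 := by
      rw [eq_div_iff hx1, mul_comm]
      exact h0
    have hT := add_T h.hb h.hd hP1 hx1 (ns_T h.hb h.hd hP1 hx1)
    have e3 := ns_eq (ns_T h.hb h.hd hP1 hx1)
    rw [← hx2', ← e2] at e3
    rcases sq_eq_sq_iff_eq_or_eq_neg.1 e3.symm with h3 | h3
    · -- `Q = P + T`
      apply h2
      right
      have h4 : (.some x2 y2 hP2 : (Cu a b).Point) = .some x1 y1 hP1 + TT h.hb h.hd := by
        rw [hT]
        exact some_congr _ _ hx2' h3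
      rw [h4, sub_add_cancel_left, neg_T]
    · apply h1
      right
      have h4 : (.some x2 y2 hP2 : (Cu a b).Point) = -(.some x1 y1 hP1 + TT h.hb h.hd) := by
        rw [hT, neg_some _ (ns_neg h.hb h.hd (ns_T h.hb h.hd hP1 hx1))]
        exact some_congr _ _ hx2' h3
      rw [h4, neg_add, neg_T, add_neg_cancel_left]
  have hn : y1 * x2 ≠ y2 * x1 := by
    intro h0
    apply h12'
    have hs : x1 - x2 ≠ 0 := sub_ne_zero.2 h12
    have h5 : (y1 * x2) ^ 2 = (y2 * x1) ^ 2 := by rw [h0]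
    have h6 : x1 * x2 * ((x1 - x2) * (x1 * x2 - b)) = 0 := by
      rw [mul_pow, mul_pow, e1, e2] at h5
      linear_combination h5
    have h7 : x1 * x2 - b = 0 := by
      rcases mul_eq_zero.1 h6 with h8 | h8
      · exact absurd h8 (mul_ne_zero hx1 hx2)
      · exact (mul_eq_zero.1 h8).resolve_left hs
    exact sub_eq_zero.1 h7
  exact gen h hP1 hP2 hx1 hx2 h12 h12' hn

/-- there are infinitely many points -/
lemma inf_pts [IsAlgClosed F] (hb : b ≠ 0) (hd : a ^ 2 - 4 * b ≠ 0) :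
    Infinite (Cu a b).Point := by
  have : Infinite F := IsAlgClosed.instInfinite
  have hex : ∀ x : F, ∃ y : F, y ^ 2 = x ^ 3 + a * x ^ 2 + b * x := fun x =>
    IsAlgClosed.exists_pow_nat_eq _ two_pos
  choose y hy using hex
  refine Infinite.of_injective (fun x : F => (.some x (y x) (cu_ns hb hd (hy x)) :
    (Cu a b).Point)) ?_
  intro x x' hxx
  exact ((Affine.Point.some.injEq _ _ _ _ _ _).mp hxx).1

/-- pairs whose sum is not `0`, `T` -/
lemma mid_pair [IsAlgClosed F] (h : Dat a b a' b' u) (P Q : (Cu a b).Point)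
    (hP : ¬ Sm h.hb h.hd P) (h1 : ¬ Sm h.hb h.hd (P + Q)) (hQ : ¬ Sm h.hb h.hd Q) :
    isoF h (P + Q) = isoF h P + isoF h Q := by
  have hinf := inf_pts (a := a) (b := b) h.hb h.hd
  set T := TT h.hb h.hd with hT
  let S : Finset (Cu a b).Point := by
    classical
    exact {0, T, -Q, T - Q, Q, Q - T, -(P + Q), T - (P + Q), P - Q, P - Q - T, P + Q, P + Q - T}
  obtain ⟨R, hR⟩ := Infinite.exists_notMem_finset S
  simp only [S, Finset.mem_insert, Finset.mem_singleton, not_or] at hR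
  obtain ⟨r1, r2, r3, r4, r5, r6, r7, r8, r9, r10, r11, r12⟩ := hR
  have g1 : ¬ Sm h.hb h.hd R := by
    rintro (g | g)
    · exact r1 g
    · exact r2 g
  have g2 : ¬ Sm h.hb h.hd (Q + R) := by
    rintro (g | g)
    · exact r3 (by rw [eq_neg_iff_add_eq_zero, add_comm]; exact g)
    · exact r4 (by rw [eq_sub_iff_add_eq, add_comm]; exact g)
  have g3 : ¬ Sm h.hb h.hd (Q - R) := by
    rintro (g | g)
    · exact r5 (sub_eq_zero.1 g).symm
    · exact r6 (by rw [hT, ← g]; abel)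
  have g4 : ¬ Sm h.hb h.hd (P + (Q + R)) := by
    rintro (g | g)
    · exact r7 (by rw [eq_neg_iff_add_eq_zero, ← g]; abel)
    · exact r8 (by rw [hT, ← g]; abel)
  have g5 : ¬ Sm h.hb h.hd (P - (Q + R)) := by
    rintro (g | g)
    · exact r9 (by rw [sub_eq_zero.1 g]; abel)
    · exact r10 (by rw [hT, ← g]; abel)
  have g6 : ¬ Sm h.hb h.hd (P + Q - R) := by
    rintro (g | g)
    · exact r11 (sub_eq_zero.1 g).symm
    · exact r12 (by rw [hT, ← g]; abel)
  have k1 := good_pair h Q R hQ g1 g2 g3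
  have k2 := good_pair h P (Q + R) hP g2 g4 g5
  have k3 := good_pair h (P + Q) R h1 g1 (by rw [add_assoc]; exact g4) g6
  rw [← add_assoc, k3, k1, ← add_assoc] at k2
  exact add_right_cancel k2

/-- **additivity over algebraically closed fields** -/
theorem add_all [IsAlgClosed F] (h : Dat a b a' b' u) (P Q : (Cu a b).Point) :
    isoF h (P + Q) = isoF h P + isoF h Q := by
  by_cases hP : Sm h.hb h.hd P
  · rcases hP with hP | hP
    · rw [hP, zero_add, isoF_zero, zero_add]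
    · rw [hP, add_comm, isoF_addT, isoF_T, zero_add]
  by_cases hQ : Sm h.hb h.hd Q
  · rcases hQ with hQ | hQ
    · rw [hQ, add_zero, isoF_zero, add_zero]
    · rw [hQ, isoF_addT, isoF_T, add_zero]
  by_cases h1 : Sm h.hb h.hd (P + Q)
  · rcases h1 with h1 | h1
    · rw [h1, isoF_zero, eq_neg_of_add_eq_zero_left h1, isoF_neg, neg_add_cancel]
    · rw [h1, isoF_T]
      have h2 : P = -Q + TT h.hb h.hd := by
        rw [← h1]
        abel
      rw [h2, isoF_addT, isoF_neg, neg_add_cancel]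
  · exact mid_pair h P Q hP h1 hQ

end part3

section part4
variable {F : Type} [Field F] [NeZero (2 : F)] {a b a' b' u u' : F} [DecidableEq F]

lemma add_self' {x y x3 y3 : F} (h : (Cu a b).Nonsingular x y)
    (h3 : (Cu a b).Nonsingular x3 y3) (hy : y ≠ 0)
    (e3 : x3 = ((3 * x ^ 2 + 2 * a * x + b) / (2 * y)) ^ 2 - a - 2 * x)
    (f3 : y3 = -((3 * x ^ 2 + 2 * a * x + b) / (2 * y) * (x3 - x) + y)) :
    (.some x y h : (Cu a b).Point) + .some x y h = .some x3 y3 h3 := by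
  have a1 : (Cu a b).a₁ = 0 := rfl
  have a2 : (Cu a b).a₂ = a := rfl
  have a3 : (Cu a b).a₃ = 0 := rfl
  have a4 : (Cu a b).a₄ = b := rfl
  have hne : y ≠ (Cu a b).negY x y := by
    rw [Affine.negY, a1, a3]
    intro h0
    apply hy
    have : (2 : F) * y = 0 := by linear_combination h0
    exact (mul_eq_zero.1 this).resolve_left two_ne_zero
  have hsl : (Cu a b).slope x x y y = (3 * x ^ 2 + 2 * a * x + b) / (2 * y) := by
    rw [Affine.slope_of_Y_ne rfl hne, Affine.negY, a1, a2, a3, a4]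
    congr 1 <;> ring
  rw [Affine.Point.add_self_of_Y_ne hne]
  apply some_congr
  · rw [hsl, Affine.addX, a1, a2, e3]
    ring
  · rw [hsl, Affine.addY, Affine.negY, Affine.negAddY, Affine.addX, a1, a2, a3, f3, e3]
    ring

theorem dbl (h : Dat a b a' b' u) (h' : Dat a' b' a b u') (huu : u * u' = 2)
    (P : (Cu a b).Point) : isoF h' (isoF h P) = P + P := by
  rcases P with _ | ⟨x, y, hxy⟩
  · change isoF h' (isoF h 0) = 0 + 0
    rw [isoF_zero, isoF_zero, add_zero]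
  · by_cases hx : x = 0
    · rw [isT_of_x0 h.hb h.hd hxy hx, isoF_T, isoF_zero, T_add_T]
    · have hu := h.hu
      have hu' := h'.hu
      have e0 := ns_eq hxy
      rw [isoF_some h _ hx]
      by_cases hy : y = 0
      · have h1 : y ^ 2 / (u ^ 2 * x ^ 2) = 0 := by
          rw [hy]
          simp
        rw [isoF_x0 h' _ h1]
        symm
        apply Affine.Point.add_of_Y_eq rfl
        have a1 : (Cu a b).a₁ = 0 := rfl
        have a3 : (Cu a b).a₃ = 0 := rfl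
        rw [Affine.negY, a1, a3, hy]
        ring
      · have hX : y ^ 2 / (u ^ 2 * x ^ 2) ≠ 0 :=
          div_ne_zero (pow_ne_zero 2 hy) (mul_ne_zero (pow_ne_zero 2 hu) (pow_ne_zero 2 hx))
        rw [isoF_some h' _ hX]
        symm
        have hu2 : u' = 2 / u := by
          rw [eq_div_iff hu, mul_comm]
          exact huu
        have h20 : (2 : F) ≠ 0 := two_ne_zero
        have h4 : (4 : F) ≠ 0 := by
          have : (4 : F) = 2 ^ 2 := by norm_num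
          rw [this]
          exact pow_ne_zero 2 two_ne_zero
        have h8 : (8 : F) ≠ 0 := by
          have : (8 : F) = 2 ^ 3 := by norm_num
          rw [this]
          exact pow_ne_zero 3 two_ne_zero
        have k1 : (y * (b - x ^ 2) / (u ^ 3 * x ^ 2)) ^ 2 /
            (u' ^ 2 * (y ^ 2 / (u ^ 2 * x ^ 2)) ^ 2) = (b - x ^ 2) ^ 2 / (4 * y ^ 2) := by
          rw [hu2]
          field_simp
          ring
        have k2 : (y * (b - x ^ 2) / (u ^ 3 * x ^ 2)) * (b' - (y ^ 2 / (u ^ 2 * x ^ 2)) ^ 2) /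
            (u' ^ 3 * (y ^ 2 / (u ^ 2 * x ^ 2)) ^ 2) =
            (b - x ^ 2) * (((a ^ 2 - 4 * b) * x ^ 4 - y ^ 4)) / (8 * x ^ 2 * y ^ 3) := by
          rw [hu2, h.eb]
          field_simp
          ring
        apply add_self' _ _ hy
        · rw [k1]
          field_simp
          linear_combination (16 * (a + 2 * x)) * e0
        · rw [k1, k2]
          field_simp
          linear_combination (-32 * x ^ 3 * (3 * x ^ 2 + 2 * a * x + b) +
            (72 * x ^ 2 - 8 * b) * (y ^ 2 + (x ^ 3 + a * x ^ 2 + b * x))) * e0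

/-- the kernel -/
lemma ker (h : Dat a b a' b' u) (P : (Cu a b).Point) (hP : isoF h P = 0) :
    P = 0 ∨ P = TT h.hb h.hd := by
  rcases P with _ | ⟨x, y, hxy⟩
  · exact Or.inl rfl
  · by_cases hx : x = 0
    · exact Or.inr (isT_of_x0 h.hb h.hd hxy hx)
    · rw [isoF_some h _ hx] at hP
      exact absurd hP (Affine.Point.some_ne_zero _)

end part4

end Pool.Agent.R939.EI
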