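import Pool.Agent.R939.EI.Iso1
import Pool.Agent.TH115.ID.Gener

/-!
# The 2-isogeny as a natural homomorphism between the groups of points

Adapted from `Pool/Agent/R432/Iso.lean`.
-/

set_option autoImplicit false
set_option linter.unusedSectionVars false
set_option linter.all false

open WeierstrassCurve WeierstrassCurve.Affine
open scoped Classical

namespace Pool.Agent.R939.EI

open Pool.Agent.TH115.GD

/-- the isogeny between curves equal to `Cu a b`, `Cu a' b'` -/
noncomputable def isoW {F : Type} [Field F] [NeZero (2 : F)] {W W' : WeierstrassCurve.Affine F}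
    {a b a' b' u : F} (hW : W = Cu a b) (hW' : W' = Cu a' b') (h : Dat a b a' b' u) :
    W.Point → W'.Point := fun P => hW'.symm ▸ isoF h (hW ▸ P)

lemma isoW_zero {F : Type} [Field F] [NeZero (2 : F)] {W W' : WeierstrassCurve.Affine F}
    {a b a' b' u : F} (hW : W = Cu a b) (hW' : W' = Cu a' b') (h : Dat a b a' b' u) :
    isoW hW hW' h .zero = .zero := by
  subst hW hW'
  rfl

lemma isoW_x0 {F : Type} [Field F] [NeZero (2 : F)] {W W' : WeierstrassCurve.Affine F}
    {a b a' b' u : F} (hW : W = Cu a b) (hW' : W' = Cu a' b') (h : Dat a b a' b' u)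
    {x y : F} (hxy : W.Nonsingular x y) (hx : x = 0) :
    isoW hW hW' h (.some x y hxy) = .zero := by
  subst hW hW'
  exact isoF_x0 h hxy hx

lemma isoW_some {F : Type} [Field F] [NeZero (2 : F)] {W W' : WeierstrassCurve.Affine F}
    {a b a' b' u : F} (hW : W = Cu a b) (hW' : W' = Cu a' b') (h : Dat a b a' b' u)
    {x y : F} (hxy : W.Nonsingular x y) (hx : x ≠ 0) :
    ∃ h', isoW hW hW' h (.some x y hxy) = .some (y ^ 2 / (u ^ 2 * x ^ 2))
      (y * (b - x ^ 2) / (u ^ 3 * x ^ 2)) h' := by
  subst hW hW'
  exact ⟨_, isoF_some h hxy hx⟩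

lemma isoW_add {F : Type} [Field F] [NeZero (2 : F)] [DecidableEq F] [IsAlgClosed F]
    {W W' : WeierstrassCurve.Affine F}
    {a b a' b' u : F} (hW : W = Cu a b) (hW' : W' = Cu a' b') (h : Dat a b a' b' u)
    (P Q : W.Point) : isoW hW hW' h (P + Q) = isoW hW hW' h P + isoW hW hW' h Q := by
  subst hW hW'
  exact add_all h P Q

lemma isoW_dbl {F : Type} [Field F] [NeZero (2 : F)] [DecidableEq F]
    {W W' : WeierstrassCurve.Affine F}
    {a b a' b' u u' : F} (hW : W = Cu a b) (hW' : W' = Cu a' b') (h : Dat a b a' b' u)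
    (h' : Dat a' b' a b u') (huu : u * u' = 2) (P : W.Point) :
    isoW hW' hW h' (isoW hW hW' h P) = P + P := by
  subst hW hW'
  exact dbl h h' huu P

variable {k : Type} [Field k] [NeZero (2 : k)] {a b a' b' u : k}

lemma bc (a b : k) (L : Type) [Field L] [Algebra k L] :
    ((crvT a b).baseChange L).toAffine = Cu (algebraMap k L a) (algebraMap k L b) := by
  apply WeierstrassCurve.ext
  · exact map_zero (algebraMap k L)
  · rfl
  · exact map_zero (algebraMap k L)
  · rfl
  · exact map_zero (algebraMap k L)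

lemma nz (k L : Type) [Field k] [NeZero (2 : k)] [Field L] [Algebra k L] : NeZero (2 : L) := ⟨by
  rw [← map_ofNat (algebraMap k L) 2]
  exact (_root_.map_ne_zero _).2 two_ne_zero⟩

variable (L : Type) [Field L] [Algebra k L]

lemma Dat.base (h : Dat a b a' b' u) [NeZero (2 : L)] :
    Dat (algebraMap k L a) (algebraMap k L b) (algebraMap k L a') (algebraMap k L b')
      (algebraMap k L u) where
  hb := (_root_.map_ne_zero _).2 h.hb
  hb' := (_root_.map_ne_zero _).2 h.hb'
  hu := (_root_.map_ne_zero _).2 h.hu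
  e1 := by
    have := congrArg (algebraMap k L) h.e1
    rwa [map_mul, map_pow, map_mul, map_neg, map_ofNat] at this
  e2 := by
    have := congrArg (algebraMap k L) h.e2
    rwa [map_mul, map_pow, map_sub, map_mul, map_pow, map_ofNat] at this

/-- the isogeny over `L` -/
noncomputable def isoL (h : Dat a b a' b' u) [NeZero (2 : L)] :
    Pt (crvT a b) L → Pt (crvT a' b') L :=
  isoW (bc a b L) (bc a' b' L) (h.base L)

lemma act_some' {L L' : Type} [Field L] [Field L'] [Algebra k L] [Algebra k L']
    (W : WeierstrassCurve k) (φ : L →ₐ[k] L') {x y : L}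
    (h : (W.baseChange L).toAffine.Nonsingular x y) :
    act W φ (.some x y h) =
      .some (φ x) (φ y) ((Affine.baseChange_nonsingular W φ.injective ..).mpr h) := rfl

lemma act_zero' {L L' : Type} [Field L] [Field L'] [Algebra k L] [Algebra k L']
    (W : WeierstrassCurve k) (φ : L →ₐ[k] L') : act W φ Affine.Point.zero = Affine.Point.zero := rfl

lemma act_inj {L L' : Type} [Field L] [Field L'] [Algebra k L] [Algebra k L']
    (W : WeierstrassCurve k) (φ : L →ₐ[k] L') : Function.Injective (act W φ) :=
  @Affine.Point.map_injective k k L L' _ _ _ _ W (Classical.decEq L) (Classical.decEq L') _ _ _ _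
    _ _ _ φ

lemma pt_congr {L : Type} [Field L] {W : WeierstrassCurve.Affine L} {x y x' y' : L}
    (h : W.Nonsingular x y)
    (h' : W.Nonsingular x' y') (hx : x = x') (hy : y = y') :
    (.some x y h : W.Point) = .some x' y' h' := by
  subst hx hy
  rfl

lemma isoL_act {L' : Type} [Field L'] [Algebra k L'] [NeZero (2 : L)] [NeZero (2 : L')]
    (h : Dat a b a' b' u) (f : L →ₐ[k] L') (P : Pt (crvT a b) L) :
    act (crvT a' b') f (isoL L h P) = isoL L' h (act (crvT a b) f P) := by
  rcases P with _ | ⟨x, y, hxy⟩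
  · have e1 : isoL L h .zero = Affine.Point.zero := isoW_zero _ _ _
    have e2 : isoL L' h .zero = Affine.Point.zero := isoW_zero _ _ _
    rw [e1]
    change act (crvT a' b') f Affine.Point.zero = isoL L' h (act (crvT a b) f Affine.Point.zero)
    rw [act_zero', act_zero', e2]
  · by_cases hx : x = 0
    · have e1 : isoL L h (.some x y hxy) = Affine.Point.zero := isoW_x0 _ _ _ _ hx
      rw [e1, act_some']
      have e2 : isoL L' h (.some (f x) (f y)
        ((Affine.baseChange_nonsingular (crvT a b) f.injective ..).mpr hxy)) = Affine.Point.zero :=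
        isoW_x0 _ _ _ _ (by rw [hx, map_zero])
      rw [e2]
      rfl
    · obtain ⟨g1, e1⟩ := isoW_some (bc a b L) (bc a' b' L) (h.base L) hxy hx
      have e1' : isoL L h (.some x y hxy) = _ := e1
      rw [e1', act_some', act_some']
      obtain ⟨g2, e2⟩ := isoW_some (bc a b L') (bc a' b' L') (h.base L')
        ((Affine.baseChange_nonsingular (crvT a b) f.injective ..).mpr hxy)
        (by rwa [Ne, map_eq_zero])
      have e2' : isoL L' h (.some (f x) (f y)
        ((Affine.baseChange_nonsingular (crvT a b) f.injective ..).mpr hxy)) = _ := e2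
      rw [e2']
      apply pt_congr
      · simp [map_div₀]
      · simp [map_div₀]

lemma isoL_add [NeZero (2 : L)] (h : Dat a b a' b' u) (P Q : Pt (crvT a b) L) :
    isoL L h (P + Q) = isoL L h P + isoL L h Q := by
  haveI : NeZero (2 : AlgebraicClosure L) := nz k _
  let f : L →ₐ[k] AlgebraicClosure L := IsScalarTower.toAlgHom k L (AlgebraicClosure L)
  apply act_inj (crvT a' b') f
  have h1 : ∀ P Q : Pt (crvT a b) (AlgebraicClosure L), isoL (AlgebraicClosure L) h (P + Q) =
      isoL (AlgebraicClosure L) h P + isoL (AlgebraicClosure L) h Q := fun P Q =>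
    @isoW_add (AlgebraicClosure L) _ _ (Classical.decEq _) _ _ _ _ _ _ _ _ (bc a b _) (bc a' b' _)
      (h.base _) P Q
  rw [map_add, isoL_act, isoL_act, isoL_act, map_add, h1]

/-- the isogeny as a homomorphism -/
noncomputable def isoH (h : Dat a b a' b' u) : Pt (crvT a b) L →+ Pt (crvT a' b') L :=
  have : NeZero (2 : L) := nz k L
  AddMonoidHom.mk' (isoL L h) (isoL_add L h)

lemma isoH_act {L' : Type} [Field L'] [Algebra k L'] (h : Dat a b a' b' u) (f : L →ₐ[k] L')
    (P : Pt (crvT a b) L) : act (crvT a' b') f (isoH L h P) = isoH L' h (act (crvT a b) f P) := by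
  have : NeZero (2 : L) := nz k L
  have : NeZero (2 : L') := nz k L'
  exact isoL_act L h f P

lemma isoH_dbl {u' : k} (h : Dat a b a' b' u) (h' : Dat a' b' a b u')
    (huu : u * u' = 2) (P : Pt (crvT a b) L) : isoH L h' (isoH L h P) = P + P := by
  have : NeZero (2 : L) := nz k L
  refine @isoW_dbl L _ _ (Classical.decEq L) _ _ _ _ _ _ _ _ (bc a b L) (bc a' b' L) (h.base L)
    (h'.base L) ?_ P
  rw [← map_mul, huu, map_ofNat]

lemma isoH_zero (h : Dat a b a' b' u) {x y : L} (hxy) (hx : x = 0) :
    isoH L h (Affine.Point.some x y hxy : ((crvT a b).baseChange L).toAffine.Point) = 0 := by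
  have : NeZero (2 : L) := nz k L
  exact isoW_x0 (bc a b L) (bc a' b' L) (h.base L) hxy hx

end Pool.Agent.R939.EI
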