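import Pool.Agent.R939.EI.IsoH

/-!
# Galois-invariant classes of `Gal(Ω / F)` extend to `Gal(Ω / K)`
-/

set_option autoImplicit false
set_option linter.all false

open WeierstrassCurve WeierstrassCurve.Affine
open scoped Classical Pointwise

namespace Pool.Agent.R939.EI

open Pool.Agent.TH115.GD
open Pool.Agent.W309.TD (locConst_apply)

universe u

section top

variable {F Ω : Type u} [Field F] [Field Ω] [Algebra F Ω] [IsGalois F Ω]

theorem open_fix {S : Set Ω} (hS : S.Finite) (τ : Ω → Ω) :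
    IsOpen {σ : Ω ≃ₐ[F] Ω | ∀ x ∈ S, σ x = τ x} := by
  have : {σ : Ω ≃ₐ[F] Ω | ∀ x ∈ S, σ x = τ x} = ⋂ x ∈ S, {σ : Ω ≃ₐ[F] Ω | σ x = τ x} := by
    ext σ
    simp
  rw [this]
  refine hS.isOpen_biInter fun x _ => ?_
  exact (locConst_apply (K := F) x).isOpen_fiber (τ x)

/-- A locally constant function only depends on the values of the automorphism on a finite set. -/
theorem fin_det {X : Type*} {f : (Ω ≃ₐ[F] Ω) → X} (hf : IsLocallyConstant f) :
    ∃ S : Set Ω, S.Finite ∧ ∀ σ σ' : Ω ≃ₐ[F] Ω, (∀ x ∈ S, σ x = σ' x) → f σ = f σ' := by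
  have h1 : ∀ σ : Ω ≃ₐ[F] Ω, ∃ S : Set Ω, S.Finite ∧
      ∀ σ' : Ω ≃ₐ[F] Ω, (∀ x ∈ S, σ' x = σ x) → f σ' = f σ := by
    intro σ
    obtain ⟨U, hU, hσ, hUf⟩ := (IsLocallyConstant.iff_exists_open f).1 hf σ
    have hV : (σ⁻¹ • U : Set (Ω ≃ₐ[F] Ω)) ∈ nhds (1 : Ω ≃ₐ[F] Ω) := by
      refine (hU.smul σ⁻¹).mem_nhds ?_
      exact ⟨σ, hσ, inv_mul_cancel σ⟩
    rw [krullTopology_mem_nhds_one_iff] at hV
    obtain ⟨E, hE, hEV⟩ := hV
    obtain ⟨s, hs⟩ := (IntermediateField.essFiniteType_iff (K := E)).1 inferInstance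
    refine ⟨s, s.finite_toSet, fun σ' h => ?_⟩
    have h2 : σ⁻¹ * σ' ∈ E.fixingSubgroup := by
      rw [IntermediateField.mem_fixingSubgroup_iff]
      have h3 : E ≤ IntermediateField.fixedField (Subgroup.zpowers (σ⁻¹ * σ')) := by
        rw [← hs, IntermediateField.adjoin_le_iff]
        intro x hx
        rw [SetLike.mem_coe, IntermediateField.mem_fixedField_iff]
        have h4 : (σ⁻¹ * σ') x = x := by
          rw [AlgEquiv.mul_apply, h x hx, ← AlgEquiv.mul_apply, inv_mul_cancel]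
          rfl
        intro g hg
        have h5 : Subgroup.zpowers (σ⁻¹ * σ') ≤ MulAction.stabilizer (Ω ≃ₐ[F] Ω) x := by
          rw [Subgroup.zpowers_le]
          exact h4
        exact h5 hg
      intro x hx
      have h4 := h3 hx
      rw [IntermediateField.mem_fixedField_iff] at h4
      exact h4 _ (Subgroup.mem_zpowers _)
    obtain ⟨g, hg, hgg⟩ := hEV h2
    have h6 : σ' = g := by
      have : σ⁻¹ * g = σ⁻¹ * σ' := hgg
      exact (mul_left_cancel this).symm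
    rw [h6]
    exact hUf g hg
  choose S hS hSf using h1
  -- finitely many of them suffice
  obtain ⟨t, ht⟩ := isCompact_univ.elim_finite_subcover
    (fun σ : Ω ≃ₐ[F] Ω => {σ' : Ω ≃ₐ[F] Ω | ∀ x ∈ S σ, σ' x = σ x})
    (fun σ => open_fix (hS σ) σ) (fun σ _ => Set.mem_iUnion.2 ⟨σ, fun x _ => rfl⟩)
  refine ⟨⋃ σ ∈ t, S σ, t.finite_toSet.biUnion fun σ _ => hS σ, fun σ σ' h => ?_⟩
  have h2 := ht (Set.mem_univ σ)
  simp only [Set.mem_iUnion] at h2
  obtain ⟨g, hg, hσ⟩ := h2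
  rw [hSf g σ hσ, hSf g σ' fun x hx => ?_]
  rw [← h x (Set.mem_biUnion hg hx)]
  exact hσ x hx

end top

section nbhd

variable {K F Ω : Type u} [Field K] [Field F] [Field Ω] [Algebra K F] [Algebra F Ω] [Algebra K Ω]
  [IsScalarTower K F Ω] [IsGalois F Ω] (W : WeierstrassCurve K)

/-- The coordinates of a point. -/
def crd : Pt W Ω → Set Ω
  | .zero => ∅
  | .some x y _ => {x, y}

theorem crd_fin (P : Pt W Ω) : (crd W P).Finite := by
  rcases P with _ | ⟨x, y, h⟩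
  · exact Set.finite_empty
  · exact Set.toFinite ({x, y} : Set Ω)

theorem act_crd {P : Pt W Ω} {φ : Ω →ₐ[K] Ω} (h : ∀ x ∈ crd W P, φ x = x) : act W φ P = P := by
  rcases P with _ | ⟨x, y, hxy⟩
  · rfl
  · obtain ⟨h1, h2⟩ := act_some W φ hxy
    rw [h2]
    have hx : φ x = x := h x (Or.inl rfl)
    have hy : φ y = y := h y (Or.inr rfl)
    simp only [hx, hy]

/-- Near `1` the automorphisms over `K` fix a given locally constant function. -/
theorem near_one {f : (Ω ≃ₐ[F] Ω) → Pt W Ω} (hf : IsLocallyConstant f) :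
    ∃ S : Set Ω, S.Finite ∧ ∀ u : Ω ≃ₐ[K] Ω, (∀ x ∈ S, u x = x) →
      ∀ σ σ' : Ω ≃ₐ[F] Ω, (∀ x, u (σ' x) = σ (u x)) → act W (ak u) (f σ') = f σ := by
  obtain ⟨S, hS, hSf⟩ := fin_det hf
  refine ⟨(⋃ b ∈ S, Set.range fun σ : Ω ≃ₐ[F] Ω => σ b) ∪ ⋃ P ∈ Set.range f, crd W P, ?_, ?_⟩
  · refine Set.Finite.union (hS.biUnion fun b _ => ?_) (hf.range_finite.biUnion fun P _ =>
      crd_fin W P)
    exact (locConst_apply (K := F) b).range_finite
  · intro u hu σ σ' h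
    have h1 : f σ' = f σ := by
      apply hSf
      intro b hb
      have e1 := h b
      have e2 : u b = b := hu b (Or.inl (Set.mem_biUnion hb ⟨1, rfl⟩))
      have e3 : u (σ' b) = σ' b := hu _ (Or.inl (Set.mem_biUnion hb ⟨σ', rfl⟩))
      rw [e2, e3] at e1
      exact e1
    rw [h1]
    apply act_crd
    intro x hx
    exact hu x (Or.inr (Set.mem_biUnion ⟨σ, rfl⟩ hx))

end nbhd

section lift

variable {K F Ω : Type u} [Field K] [Field F] [Field Ω] [Algebra K F] [Algebra F Ω] [Algebra K Ω]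
  [IsScalarTower K F Ω] [IsGalois F Ω] [IsSepClosed Ω] (W : WeierstrassCurve K)

/-- `τ c - c` is the coboundary of `R`, an element of the Tate module. -/
structure IsR (c : ℕ → (Ω ≃ₐ[F] Ω) → Pt W Ω) (τ : Ω ≃ₐ[K] Ω) (R : ℕ → Pt W Ω) : Prop where
  two : ∀ j, 2 • R (j + 1) = R j
  rel : ∀ (j : ℕ) (σ σ' : Ω ≃ₐ[F] Ω), (∀ x, τ (σ' x) = σ (τ x)) →
    act W (ak τ) (c j σ') - c j σ = act W (rs K σ) (R j) - R j

variable {W}

theorem pow_c {c : ℕ → (Ω ≃ₐ[F] Ω) → Pt W Ω} (hc : IsTC W c) (m j : ℕ) (σ : Ω ≃ₐ[F] Ω) :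
    2 ^ m • c (j + m) σ = c j σ := by
  induction m with
  | zero => rw [pow_zero, one_smul, add_zero]
  | succ m ih => rw [pow_succ, mul_smul, ← add_assoc, hc.two, ih]

theorem pow_R {R : ℕ → Pt W Ω} (hR : ∀ j, 2 • R (j + 1) = R j) (m : ℕ) : 2 ^ m • R m = R 0 := by
  induction m with
  | zero => rw [pow_zero, one_smul]
  | succ m ih => rw [pow_succ, mul_smul, hR, ih]

/-- Existence of `R`. -/
theorem exists_R (hN : Preserves K F Ω) {T : Pt W Ω}
    (htor : ∀ (m : ℕ) (X : Pt W Ω), (∀ σ : Ω ≃ₐ[F] Ω, act W (rs K σ) X = X) → 2 ^ m • X = 0 →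
      X = 0 ∨ X = T)
    {c : ℕ → (Ω ≃ₐ[F] Ω) → Pt W Ω} (hc : IsTC W c) (hi : IsInv W c) (τ : Ω ≃ₐ[K] Ω) :
    ∃ R : ℕ → Pt W Ω, IsR W c τ R ∧ (R 0 = 0 ∨ R 0 = T) := by
  obtain ⟨m, Q, hQ, hinv⟩ := hi τ
  have hR : IsR W c τ (fun j => Q (j + m)) := by
    refine ⟨fun j => ?_, fun j σ σ' h => ?_⟩
    · show 2 • Q (j + 1 + m) = Q (j + m)
      rw [add_right_comm, hQ.two]
    · have h1 := hinv (j + m) σ σ' h
      rw [smul_sub, ← map_nsmul, pow_c hc, pow_c hc] at h1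
      exact h1
  refine ⟨_, hR, ?_⟩
  show Q (0 + m) = 0 ∨ Q (0 + m) = T
  rw [zero_add]
  apply htor m
  · intro σ
    obtain ⟨σ', hσ'⟩ := exists_conj hN τ σ
    have h1 := hR.rel 0 σ σ' hσ'
    rw [hc.zero, hc.zero, map_zero, sub_zero] at h1
    have h2 : act W (rs K σ) (Q (0 + m)) - Q (0 + m) = 0 := h1.symm
    rw [zero_add] at h2
    exact sub_eq_zero.1 h2
  · have h1 := pow_R hQ.two m
    rw [h1, hQ.zero]

variable {T : Pt W Ω} (hT : T + T = 0)
    (htor : ∀ (m : ℕ) (X : Pt W Ω), (∀ σ : Ω ≃ₐ[F] Ω, act W (rs K σ) X = X) → 2 ^ m • X = 0 →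
      X = 0 ∨ X = T)

include hT htor in
/-- Uniqueness of `R`. -/
theorem unique_R (hN : Preserves K F Ω) {c : ℕ → (Ω ≃ₐ[F] Ω) → Pt W Ω} {τ : Ω ≃ₐ[K] Ω}
    {R R' : ℕ → Pt W Ω} (h : IsR W c τ R) (h' : IsR W c τ R') (h0 : R 0 = 0) (h0' : R' 0 = 0)
    (j : ℕ) : R j = R' j := by
  have hD : ∀ j, R j - R' j = 0 ∨ R j - R' j = T := by
    intro j
    apply htor j
    · intro σ
      obtain ⟨σ', hσ'⟩ := exists_conj hN τ σ
      have e1 := h.rel j σ σ' hσ'
      have e2 := h'.rel j σ σ' hσ'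
      rw [e1] at e2
      rw [map_sub]
      have e3 : act W (rs K σ) (R j) = act W (rs K σ) (R' j) - R' j + R j := by
        rw [← e2]; abel
      rw [e3]; abel
    · rw [smul_sub, pow_R h.two, pow_R h'.two, h0, h0', sub_zero]
  have h1 := hD (j + 1)
  rw [← sub_eq_zero, ← h.two j, ← h'.two j, ← smul_sub, two_nsmul]
  rcases h1 with h1 | h1
  · rw [h1, add_zero]
  · rw [h1, hT]

/-- The class extends: there is a cocycle `ρ` of `Gal(Ω / K)` with values in the points of order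
two, determined on a neighbourhood of `1`, which extends `c 1`. -/
theorem lift_one (hN : Preserves K F Ω) (hT : T + T = 0)
    (htor : ∀ (m : ℕ) (X : Pt W Ω), (∀ σ : Ω ≃ₐ[F] Ω, act W (rs K σ) X = X) → 2 ^ m • X = 0 →
      X = 0 ∨ X = T)
    {c : ℕ → (Ω ≃ₐ[F] Ω) → Pt W Ω} (hc : IsTC W c) (hi : IsInv W c)
    (h0 : ∀ (τ : Ω ≃ₐ[K] Ω) (R : ℕ → Pt W Ω), IsR W c τ R → R 0 = 0 ∨ R 0 = T → R 0 = 0) :
    ∃ ρ : (Ω ≃ₐ[K] Ω) → Pt W Ω, (∀ τ, ρ τ + ρ τ = 0) ∧
      (∀ σ τ, ρ (σ * τ) = ρ σ + act W (ak σ) (ρ τ)) ∧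
      (∀ σ : Ω ≃ₐ[F] Ω, ρ (σ.restrictScalars K) = c 1 σ) ∧
      ∃ S : Set Ω, S.Finite ∧ ∀ u : Ω ≃ₐ[K] Ω, (∀ x ∈ S, u x = x) → ρ u = 0 := by
  choose R hR hR' using fun τ => exists_R hN htor hc hi τ
  have hR0 : ∀ τ, R τ 0 = 0 := fun τ => h0 τ (R τ) (hR τ) (hR' τ)
  refine ⟨fun τ => R τ 1, fun τ => ?_, fun σ τ => ?_, fun σ => ?_, ?_⟩
  · show R τ 1 + R τ 1 = 0
    rw [← two_nsmul, (hR τ).two 0, hR0]
  · -- the cocycle relation
    have h1 : IsR W c (σ * τ) (fun j => R σ j + act W (ak σ) (R τ j)) := by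
      refine ⟨fun j => ?_, fun j n n' h => ?_⟩
      · show 2 • (R σ (j + 1) + act W (ak σ) (R τ (j + 1))) = R σ j + act W (ak σ) (R τ j)
        rw [smul_add, ← map_nsmul, (hR σ).two, (hR τ).two]
      · obtain ⟨n'', hn''⟩ := exists_conj hN σ n
        have h2 : ∀ x, τ (n' x) = n'' (τ x) := by
          intro x
          apply σ.injective
          rw [hn'']
          exact h x
        have e1 := (hR σ).rel j n n'' hn''
        have e2 := (hR τ).rel j n'' n' h2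
        have e3 : act W (ak (σ * τ)) (c j n') = act W (ak σ) (act W (ak τ) (c j n')) := by
          rw [act_act]
          rfl
        have e4 : act W (ak σ) (act W (rs K n'') (R τ j)) =
            act W (rs K n) (act W (ak σ) (R τ j)) := by
          have h5 : (ak σ).comp (rs K n'') = (rs K n).comp (ak σ) := AlgHom.ext fun x => hn'' x
          rw [act_act, act_act, h5]
        have e5 : act W (ak τ) (c j n') = c j n'' + (act W (rs K n'') (R τ j) - R τ j) := by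
          rw [← e2]; abel
        have e6 : act W (ak σ) (c j n'') = c j n + (act W (rs K n) (R σ j) - R σ j) := by
          rw [← e1]; abel
        show act W (ak (σ * τ)) (c j n') - c j n =
          act W (rs K n) (R σ j + act W (ak σ) (R τ j)) - (R σ j + act W (ak σ) (R τ j))
        rw [e3, e5, map_add, map_sub, e4, e6, map_add]
        abel
    have h2 := unique_R hT htor hN (hR (σ * τ)) h1 (hR0 _) (by
      show R σ 0 + act W (ak σ) (R τ 0) = 0
      rw [hR0, hR0, map_zero, add_zero]) 1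
    exact h2
  · -- extension
    have h1 : IsR W c (σ.restrictScalars K) (fun j => c j σ) := by
      refine ⟨fun j => hc.two j σ, fun j n n' h => ?_⟩
      have e0 : σ * n' = n * σ := AlgEquiv.ext fun x => h x
      have e1 := (hc.coc j).mul σ n'
      have e2 := (hc.coc j).mul n σ
      rw [e0, e2] at e1
      have e3 : act W (ak (σ.restrictScalars K)) (c j n') = act W (rs K σ) (c j n') := rfl
      show act W (ak (σ.restrictScalars K)) (c j n') - c j n =
        act W (rs K n) (c j σ) - c j σ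
      rw [e3]
      have e4 : act W (rs K σ) (c j n') = c j n + act W (rs K n) (c j σ) - c j σ := by
        rw [e1]; abel
      rw [e4]; abel
    exact unique_R hT htor hN (hR _) h1 (hR0 _) (hc.zero σ) 1
  · obtain ⟨S, hS, hSc⟩ := near_one (K := K) W (hc.coc 2).lc
    refine ⟨S, hS, fun u hu => ?_⟩
    have h1 : R u 2 = 0 ∨ R u 2 = T := by
      apply htor 2
      · intro σ
        obtain ⟨σ', hσ'⟩ := exists_conj hN u σ
        have e1 := (hR u).rel 2 σ σ' hσ'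
        rw [hSc u hu σ σ' hσ', sub_self] at e1
        exact (sub_eq_zero.1 e1.symm)
      · rw [pow_R (hR u).two 2, hR0]
    show R u 1 = 0
    rw [← (hR u).two 1, two_nsmul]
    rcases h1 with h1 | h1
    · rw [show (1 + 1) = 2 from rfl, h1, add_zero]
    · rw [show (1 + 1) = 2 from rfl, h1, hT]

end lift

end Pool.Agent.R939.EI
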