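import Pool.Agent.R939.EI.Den5

/-!
# The obstruction at a prime ideal, for arbitrary polynomials
-/

set_option autoImplicit false
set_option linter.all false

open Polynomial
open scoped Classical

namespace Pool.Agent.R939.EI

section local_

/-- `D` has two simple roots `e`, `e'` such that `A(e) A(e')` is not a square. -/
def ObsAt {R : Type} [CommRing R] (D A : R[X]) : Prop :=
  ∃ e e' : R, (D.eval e = 0 ∧ (derivative D).eval e ≠ 0) ∧
    (D.eval e' = 0 ∧ (derivative D).eval e' ≠ 0) ∧ ¬ IsSquare (A.eval e * A.eval e')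

/-- The obstructions at the place `π` prevent splitting over `k`. -/
def GoodPlace {O κ : Type} [CommRing O] [CommRing κ] (k : Type) [Field k] [Algebra O k]
    (π : O →+* κ) : Prop :=
  ∀ D A : O[X], ObsAt (D.map π) (A.map π) → ∀ ε : k, ε ≠ 0 →
    ¬ Splits (D.map (algebraMap O k)) ε (A.map (algebraMap O k))

theorem good_gen {O R K' k : Type} [CommRing O] [Field k] [Algebra O k] [CommRing R] [IsDomain R]
    [IsDiscreteValuationRing R] [Field K'] [Algebra R K'] [IsFractionRing R K']
    (f : k →+* K') (g : O →+* R)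
    (hfg : ∀ x, f (algebraMap O k x) = algebraMap R K' (g x)) :
    GoodPlace k ((IsLocalRing.residue R).comp g) := by
  intro D A h ε hε hs
  obtain ⟨ϖ, hϖ⟩ := IsDiscreteValuationRing.exists_irreducible R
  obtain ⟨e, e', ⟨h1, h2⟩, ⟨h3, h4⟩, h5⟩ := h
  have hfg' : f.comp (algebraMap O k) = (algebraMap R K').comp g := RingHom.ext hfg
  have hs1 := hs.map f
  rw [Polynomial.map_map, Polynomial.map_map, hfg', ← Polynomial.map_map,
    ← Polynomial.map_map] at hs1
  rw [← Polynomial.map_map] at h1 h2 h3 h4 h5
  have hA0 : (A.map g).map (IsLocalRing.residue R) ≠ 0 := by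
    intro h0
    apply h5
    rw [h0, eval_zero, zero_mul]
    exact ⟨0, by ring⟩
  have hfe : f ε ≠ 0 := by rwa [_root_.map_ne_zero]
  obtain ⟨g', v, hg, hv, -, hs2⟩ := spec (k := K') (R := R) hϖ hfe (by
      intro r hr
      rw [← hr, eval_pow, pow_eq_zero_iff two_ne_zero] at h1
      apply h2
      rw [← hr, derivative_pow, eval_mul, eval_mul, eval_pow, h1]
      simp) hA0 hs1
  have hv0 : IsLocalRing.residue R v ≠ 0 := (hv.map (IsLocalRing.residue R)).ne_zero
  obtain ⟨g1, hg1⟩ := hs2.sq_at hv0 hA0 h1 h2
  obtain ⟨g2, hg2⟩ := hs2.sq_at hv0 hA0 h3 h4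
  apply h5
  refine ⟨g1 * g2 / (IsLocalRing.residue R v), ?_⟩
  set w := IsLocalRing.residue R v with hw
  set x := ((A.map g).map (IsLocalRing.residue R)).eval e with hx
  set x' := ((A.map g).map (IsLocalRing.residue R)).eval e' with hx'
  field_simp
  linear_combination hg1 * (w * x') + g1 ^ 2 * hg2

theorem good_loc {O k : Type} [CommRing O] [IsDomain O] [Field k]
    [Algebra O k] [IsFractionRing O k] (P : Ideal O) [hPm : P.IsPrime] (R : Type) [CommRing R]
    [IsDomain R] [IsDiscreteValuationRing R] [Algebra O R] [IsLocalization.AtPrime R P] :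
    GoodPlace k ((IsLocalRing.residue R).comp (algebraMap O R)) := by
  have hinj : Function.Injective ((algebraMap R (FractionRing R)).comp (algebraMap O R)) :=
    (IsFractionRing.injective R (FractionRing R)).comp
      (IsLocalization.injective R P.primeCompl_le_nonZeroDivisors)
  exact good_gen (K' := FractionRing R) (IsFractionRing.lift hinj : k →+* FractionRing R)
    (algebraMap O R) (fun x => IsFractionRing.lift_algebraMap hinj x)

/-- **The place attached to a prime ideal.** -/
theorem exists_good {O : Type} [CommRing O] [IsDomain O] [IsDedekindDomain O] (k : Type) [Field k]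
    [Algebra O k] [IsFractionRing O k] {P : Ideal O} (hPm : P.IsMaximal) (hP : P ≠ ⊥) :
    ∃ (κ : Type) (_ : Field κ) (π : O →+* κ), GoodPlace k π ∧ Function.Surjective π ∧
      (∀ x ∈ P, π x = 0) ∧ (Finite (O ⧸ P) → Finite κ) := by
  haveI : P.IsPrime := hPm.isPrime
  haveI : IsDiscreteValuationRing (Localization.AtPrime P) :=
    IsLocalization.AtPrime.isDiscreteValuationRing_of_dedekind_domain O hP (Localization.AtPrime P)
  have hmk : ∀ x : O, IsLocalization.AtPrime.equivQuotMaximalIdeal P (Localization.AtPrime P)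
      (Ideal.Quotient.mk P x) = Ideal.Quotient.mk _ (algebraMap O (Localization.AtPrime P) x) :=
    fun x => IsLocalization.AtPrime.equivQuotMaximalIdeal_apply_mk P (Localization.AtPrime P) x
  refine ⟨IsLocalRing.ResidueField (Localization.AtPrime P), inferInstance,
    (IsLocalRing.residue _).comp (algebraMap O _), good_loc P (Localization.AtPrime P), ?_, ?_, ?_⟩
  · intro y
    obtain ⟨z, hz⟩ := (IsLocalization.AtPrime.equivQuotMaximalIdeal P
      (Localization.AtPrime P)).surjective y
    obtain ⟨x, rfl⟩ := Ideal.Quotient.mk_surjective z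
    refine ⟨x, ?_⟩
    rw [← hz, hmk]
    rfl
  · intro x hx
    have h1 := hmk x
    rw [Ideal.Quotient.eq_zero_iff_mem.2 hx, map_zero] at h1
    exact h1.symm
  · intro hf
    exact Finite.of_surjective _ (IsLocalization.AtPrime.equivQuotMaximalIdeal P
      (Localization.AtPrime P)).surjective

end local_

end Pool.Agent.R939.EI
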