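import Pool.Agent.R939.EI.Step

/-!
# The descent by 2-isogenies over `k(t)` for Tate classes
-/

set_option autoImplicit false
set_option linter.all false

open Polynomial IsDedekindDomain WeierstrassCurve WeierstrassCurve.Affine
open scoped Classical

namespace Pool.Agent.R939.EI

open Pool.Agent.TH115.GD

section classes

variable {k' K F : Type} [Field k'] [Field K] [Field F] [Algebra K F] [Algebra k'[X] F]
  [IsFractionRing k'[X] F]

/-- Subtraction of the class of a point. -/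
theorem sub_class {W : WeierstrassCurve K} {c : ℕ → (Sep F ≃ₐ[F] Sep F) → Pt W (Sep F)}
    (hT : IsTateClass k' W c) {P : Pt W K} {H : ℕ → Pt W (Sep F)}
    (H0 : H 0 = act W (incl K K (Sep F)) P) (HS : ∀ j, 2 • H (j + 1) = H j) :
    IsTateClass k' W (fun j σ => c j σ - (act W (rs K σ) (H j) - H j)) := by
  have hc := hT.tc
  have hi := hT.inv
  have hloc := hT.loc
  have PK : ∀ φ : Sep F →ₐ[K] Sep F, act W φ (act W (incl K K (Sep F)) P) =
      act W (incl K K (Sep F)) P := by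
    intro φ
    have h1 : φ.comp (incl K K (Sep F)) = incl K K (Sep F) := AlgHom.ext fun x => φ.commutes x
    rw [act_act, h1]
  have hc'T : IsTC W (fun j σ => c j σ - (act W (rs K σ) (H j) - H j)) := by
    refine ⟨fun j => (hc.coc j).sub W (cob_isCoc W _), fun σ => ?_, fun j σ => ?_⟩
    · show c 0 σ - (act W (rs K σ) (H 0) - H 0) = 0
      rw [hc.zero, H0, PK, sub_self, sub_zero]
    · show 2 • (c (j + 1) σ - (act W (rs K σ) (H (j + 1)) - H (j + 1))) =
        c j σ - (act W (rs K σ) (H j) - H j)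
      rw [smul_sub, smul_sub, ← map_nsmul, HS j, hc.two j]
  have hc'I : IsInv W (fun j σ => c j σ - (act W (rs K σ) (H j) - H j)) := by
    intro τ
    obtain ⟨m, Q, hQ, hinv⟩ := hi τ
    refine ⟨m, fun j => Q j - 2 ^ m • (act W (ak τ) (H j) - H j), ⟨?_, fun j => ?_⟩, ?_⟩
    · show Q 0 - 2 ^ m • (act W (ak τ) (H 0) - H 0) = 0
      rw [hQ.zero, H0, PK, sub_self, smul_zero, sub_zero]
    · show 2 • (Q (j + 1) - 2 ^ m • (act W (ak τ) (H (j + 1)) - H (j + 1))) =
        Q j - 2 ^ m • (act W (ak τ) (H j) - H j)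
      rw [smul_sub, hQ.two, smul_comm, smul_sub, ← map_nsmul, HS]
    · intro j σ σ' h
      have h1 := hinv j σ σ' h
      have hcomp : act W (ak τ) (act W (rs K σ') (H j)) = act W (rs K σ) (act W (ak τ) (H j)) := by
        have h5 : (ak τ).comp (rs K σ') = (rs K σ).comp (ak τ) := AlgHom.ext fun x => h x
        rw [act_act, act_act, h5]
      show 2 ^ m • (act W (ak τ) (c j σ' - (act W (rs K σ') (H j) - H j)) -
          (c j σ - (act W (rs K σ) (H j) - H j))) =
        act W (rs K σ) (Q j - 2 ^ m • (act W (ak τ) (H j) - H j)) -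
          (Q j - 2 ^ m • (act W (ak τ) (H j) - H j))
      rw [map_sub (act W (ak τ)), map_sub (act W (ak τ)), hcomp]
      have h4 : act W (ak τ) (c j σ') -
          (act W (rs K σ) (act W (ak τ) (H j)) - act W (ak τ) (H j)) -
          (c j σ - (act W (rs K σ) (H j) - H j)) =
          (act W (ak τ) (c j σ') - c j σ) -
          (act W (rs K σ) (act W (ak τ) (H j) - H j) - (act W (ak τ) (H j) - H j)) := by
        rw [map_sub (act W (rs K σ))]; abel
      rw [h4, smul_sub, h1, map_sub (act W (rs K σ)) (Q j), map_nsmul (act W (rs K σ)), smul_sub]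
      abel
  exact ⟨hc'T, fun j => lt_subT (hloc j) _, hc'I⟩

variable {a b a' b' u : K} [NeZero (2 : K)]

/-- A class with values in the kernel of the isogeny comes from the isogenous curve. -/
theorem iso_class (D : Dat a b a' b' u) {c : ℕ → (Sep F ≃ₐ[F] Sep F) → Pt (crvT a b) (Sep F)}
    (hT : IsTateClass k' (crvT a b) c) (h1 : ∀ σ, isoH (Sep F) D (c 1 σ) = 0) :
    IsTateClass k' (crvT a' b') (fun j σ => isoH (Sep F) D (c (j + 1) σ)) := by
  have hc := hT.tc
  have hi := hT.inv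
  have hloc := hT.loc
  have hlt : ∀ (L Ω' : Type) [Field L] [Field Ω'] [Algebra K L] [Algebra L Ω'] [Algebra K Ω']
      [Algebra F Ω'] [IsScalarTower K L Ω'] [IsScalarTower K F Ω']
      (f : (Sep F ≃ₐ[F] Sep F) → Pt (crvT a b) (Sep F)), LocTriv (crvT a b) L Ω' f →
      LocTriv (crvT a' b') L Ω' (fun σ => isoH (Sep F) D (f σ)) := by
    intro L Ω' _ _ _ _ _ _ _ _ f ⟨ι, P, hP⟩
    refine ⟨ι, isoH Ω' D P, fun τ σ h => ?_⟩
    rw [isoH_act, hP τ σ h, map_sub, isoH_act]
  refine ⟨⟨fun j => ⟨?_, fun σ τ => ?_⟩, h1, fun j σ => ?_⟩, fun j => ⟨fun v => ?_, ?_⟩, ?_⟩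
  · exact (hc.coc (j + 1)).lc.comp _
  · show isoH (Sep F) D (c (j + 1) (σ * τ)) = _
    rw [(hc.coc (j + 1)).mul, map_add, isoH_act]
  · show 2 • isoH (Sep F) D (c (j + 1 + 1) σ) = isoH (Sep F) D (c (j + 1) σ)
    rw [← map_nsmul, hc.two]
  · exact hlt _ _ _ ((hloc (j + 1)).1 v)
  · exact hlt _ _ _ (hloc (j + 1)).2
  · intro τ
    obtain ⟨m, Q, hQ, hinv⟩ := hi τ
    refine ⟨m + 1, fun j => isoH (Sep F) D (Q j), ⟨?_, fun j => ?_⟩, fun j σ σ' h => ?_⟩
    · show isoH (Sep F) D (Q 0) = 0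
      rw [hQ.zero, map_zero]
    · show 2 • isoH (Sep F) D (Q (j + 1)) = isoH (Sep F) D (Q j)
      rw [← map_nsmul, hQ.two]
    · show 2 ^ (m + 1) • (act (crvT a' b') (ak τ) (isoH (Sep F) D (c (j + 1) σ')) -
        isoH (Sep F) D (c (j + 1) σ)) = act (crvT a' b') (rs K σ) (isoH (Sep F) D (Q j)) -
          isoH (Sep F) D (Q j)
      rw [isoH_act, isoH_act, ← map_sub, ← map_sub, ← map_nsmul]
      congr 1
      have h2 := hinv (j + 1) σ σ' h
      rw [pow_succ', mul_smul, h2, smul_sub, ← map_nsmul, hQ.two]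

end classes

section main

variable {k k' K F : Type} [Field k] [Field k'] [Algebra k k'] [Field K] [Algebra k[X] K]
    [Field F] [Algebra k'[X] F] [IsFractionRing k'[X] F] [Algebra K F]

/-- For all nonzero constants `ε` and all monic squarefree divisors `A` of `b` for which the
condition at infinity holds and `ε A` is a norm from `K(√(a² - 4 b))`, there is a point `P` of
`y² = x (x² + a x + b)` over `K` with `x(P) = ε A` modulo squares (`b` in place of `x(P)` if `P` is the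
point `(0, 0)`). -/
def Enough (K : Type) [Field K] [Algebra k[X] K] (a b : k[X]) : Prop :=
  ∀ (ε : k) (A : k[X]), ε ≠ 0 → A.Monic → Squarefree A → A ∣ b → InfT a b A →
    Splits (a ^ 2 - 4 * b) ε A →
      ∃ (P : Pt (crvT (algebraMap k[X] K a) (algebraMap k[X] K b)) K) (g : K), g ≠ 0 ∧
        algebraMap k[X] K (C ε * A) = g ^ 2 * dT (algebraMap k[X] K b) P

/-- One step with the point. -/
theorem step_point (hT : IsTower k k' K F) (h2 : (2 : k) ≠ 0) {a b : k[X]} (hb : b ≠ 0)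
    (hd : a ^ 2 - 4 * b ≠ 0)
    (hsb : ∀ π : k[X], Irreducible π → π ∣ b → π.Separable)
    (hsd : ∀ π : k[X], Irreducible π → π ∣ a ^ 2 - 4 * b → π.Separable)
    (hNb : NotNorm b) (hNd : NotNorm (a ^ 2 - 4 * b)) (hE : Enough K a b)
    {c : ℕ → (Sep F ≃ₐ[F] Sep F) →
      Pt (crvT (algebraMap k[X] K a) (algebraMap k[X] K b)) (Sep F)}
    (hc : IsTateClass k' (crvT (algebraMap k[X] K a) (algebraMap k[X] K b)) c) :
    ∃ (P : Pt (crvT (algebraMap k[X] K a) (algebraMap k[X] K b)) K)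
      (H : Pt (crvT (algebraMap k[X] K a) (algebraMap k[X] K b)) (Sep F)),
      H + H = act _ (incl K K (Sep F)) P ∧
      ∀ σ, c 1 σ - (act _ (rs K σ) H - H) = 0 ∨ ∃ h,
        c 1 σ - (act _ (rs K σ) H - H) = Point.some 0 0 h := by
  haveI := hT.sep
  haveI := hT.fracK
  have hKF := hT.map
  have h2K : (2 : K) ≠ 0 := tt h2
  have injK := IsFractionRing.injective k[X] K
  have hbK0 : algebraMap k[X] K b ≠ 0 := by simpa using hb
  have hdK : algebraMap k[X] K (a ^ 2 - 4 * b) =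
      algebraMap k[X] K a ^ 2 - 4 * algebraMap k[X] K b := by
    rw [map_sub, map_mul, map_pow, map_ofNat]
  have hdK0 : algebraMap k[X] K a ^ 2 - 4 * algebraMap k[X] K b ≠ 0 := by
    rw [← hdK]
    intro h
    apply hd
    apply injK
    rw [h, map_zero]
  obtain ⟨α, β, hR⟩ := exists_roots (Ω := Sep F) h2K hbK0 hdK0
  have hf2 : ∀ σ, c 1 σ + c 1 σ = 0 := fun σ => by
    rw [← two_nsmul, hc.tc.two 0 σ, hc.tc.zero]
  obtain ⟨ε, A, t, hε, hA1, hA2, hA3, hA4, hA5, ht, htA, hσ⟩ :=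
    one_step hT h2 hb hd hsb hsd hNb hNd hc
  obtain ⟨P, g, hg, hP⟩ := hE ε A hε hA1 hA2 hA3 hA4 hA5
  obtain ⟨H, hH⟩ := halve_sep hR.E
    (act (crvT (algebraMap k[X] K a) (algebraMap k[X] K b)) (incl K K (Sep F)) P)
  have PK : ∀ φ : Sep F →ₐ[K] Sep F,
      act (crvT (algebraMap k[X] K a) (algebraMap k[X] K b)) φ
        (act (crvT (algebraMap k[X] K a) (algebraMap k[X] K b)) (incl K K (Sep F)) P) =
      act (crvT (algebraMap k[X] K a) (algebraMap k[X] K b)) (incl K K (Sep F)) P := by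
    intro φ
    have h1 : φ.comp (incl K K (Sep F)) = incl K K (Sep F) := AlgHom.ext fun x => φ.commutes x
    rw [act_act, h1]
  refine ⟨P, H, hH, fun σ => ?_⟩
  have h5 : dT (algebraMap K (Sep F) (algebraMap k[X] K b))
      (act (crvT (algebraMap k[X] K a) (algebraMap k[X] K b)) (incl K K (Sep F)) P) =
        algebraMap K (Sep F) (dT (algebraMap k[X] K b) P) :=
    dT_act (crvT (algebraMap k[X] K a) (algebraMap k[X] K b)) (incl K K (Sep F))
      (algebraMap k[X] K b) P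
  have h6 := step0 hR hf2 ht hσ (H := H) (fun σ => by rw [hH]; exact PK _)
    (c0 := algebraMap K F g) (by
      rw [hH, h5, htA, hP, map_mul, map_pow, IsScalarTower.algebraMap_apply K F (Sep F) g]) σ
  rcases h6 with h6 | h6
  · exact Or.inl h6
  · exact Or.inr ⟨_, h6⟩

theorem notNorm_16 {b : k[X]} (h2 : (2 : k) ≠ 0) (h : NotNorm b) : NotNorm (16 * b) := by
  intro u D U V e
  apply h (u / 16) D U V
  have h16 : (16 : k) ≠ 0 := by
    have : (16 : k) = 2 ^ 4 := by norm_num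
    rw [this]
    exact pow_ne_zero 4 h2
  have e1 : (C (16 : k)⁻¹ : k[X]) * 16 = 1 := by
    have : (16 : k[X]) = C 16 := by rw [map_ofNat]
    rw [this, ← C_mul, inv_mul_cancel₀ h16, C_1]
  rw [div_eq_mul_inv, C_mul]
  linear_combination C (16 : k)⁻¹ * e - b * e1

/-- **The criterion.** -/
theorem mainE (hT : IsTower k k' K F) (h2 : (2 : k) ≠ 0) {a b : k[X]} (hb : b ≠ 0)
    (hd : a ^ 2 - 4 * b ≠ 0)
    (hsep : ∀ π : k[X], Irreducible π → π ∣ b * (a ^ 2 - 4 * b) → π.Separable)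
    (hNb : NotNorm b) (hNd : NotNorm (a ^ 2 - 4 * b))
    (hpA : Enough K a b) (hpB : Enough K (-2 * a) (a ^ 2 - 4 * b)) :
    TateAtTwo (F := F) k' (crvT (algebraMap k[X] K a) (algebraMap k[X] K b)) := by
  haveI := hT.sep
  haveI := hT.fracK
  have hKF := hT.map
  have h2K : (2 : K) ≠ 0 := tt h2
  haveI : NeZero (2 : K) := ⟨h2K⟩
  have injK := IsFractionRing.injective k[X] K
  have hbK0 : algebraMap k[X] K b ≠ 0 := by simpa using hb
  have hdK : algebraMap k[X] K (a ^ 2 - 4 * b) =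
      algebraMap k[X] K a ^ 2 - 4 * algebraMap k[X] K b := by
    rw [map_sub, map_mul, map_pow, map_ofNat]
  have hdK0 : algebraMap k[X] K (a ^ 2 - 4 * b) ≠ 0 := by
    intro h
    apply hd
    apply injK
    rw [h, map_zero]
  have haK : algebraMap k[X] K (-2 * a) = -2 * algebraMap k[X] K a := by
    rw [map_mul, map_neg, map_ofNat]
  have hsb : ∀ π : k[X], Irreducible π → π ∣ b → π.Separable :=
    fun π h h' => hsep π h (h'.mul_right _)
  have hsd : ∀ π : k[X], Irreducible π → π ∣ a ^ 2 - 4 * b → π.Separable :=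
    fun π h h' => hsep π h (h'.mul_left _)
  have h16 : (-2 * a) ^ 2 - 4 * (a ^ 2 - 4 * b) = 16 * b := by ring
  have h16k : (16 : k) ≠ 0 := by
    have : (16 : k) = 2 ^ 4 := by norm_num
    rw [this]
    exact pow_ne_zero 4 h2
  have h16p : (16 : k[X]) = C 16 := by rw [map_ofNat]
  have h16u : IsUnit (16 : k[X]) := by
    rw [h16p]
    exact isUnit_C.2 (isUnit_iff_ne_zero.2 h16k)
  have D1 : Dat (algebraMap k[X] K a) (algebraMap k[X] K b) (algebraMap k[X] K (-2 * a))
      (algebraMap k[X] K (a ^ 2 - 4 * b)) 1 := by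
    refine ⟨hbK0, hdK0, one_ne_zero, ?_, ?_⟩
    · rw [haK]; ring
    · rw [hdK]; ring
  have D2 : Dat (algebraMap k[X] K (-2 * a)) (algebraMap k[X] K (a ^ 2 - 4 * b))
      (algebraMap k[X] K a) (algebraMap k[X] K b) 2 := by
    refine ⟨hdK0, hbK0, h2K, ?_, ?_⟩
    · rw [haK]; ring
    · rw [hdK, haK]; ring
  have h12 : (1 : K) * 2 = 2 := one_mul _
  obtain ⟨α, β, hR⟩ := exists_roots (Ω := Sep F) h2K hbK0 (by rw [← hdK]; exact hdK0)
  have hdiv : ∀ X : Pt (crvT (algebraMap k[X] K a) (algebraMap k[X] K b)) (Sep F),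
      ∃ Y, Y + Y = X := halve_sep hR.E
  refine tate_of_half hdiv fun c hc => ?_
  obtain ⟨PA, HA, hHA, hA⟩ := step_point hT h2 hb hd hsb hsd hNb hNd hpA hc
  obtain ⟨G, G0, G1, GS⟩ := halves hdiv hHA
  have hc1 := sub_class hc G0 GS
  have hc1z : ∀ σ, isoH (Sep F) D1 (c 1 σ - (act _ (rs K σ) (G 1) - G 1)) = 0 := by
    intro σ
    rw [G1]
    rcases hA σ with h | ⟨h0, h⟩
    · rw [h, map_zero]
    · rw [h]
      exact isoH_zero (Sep F) D1 h0 rfl
  have hc2 := iso_class D1 hc1 hc1z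
  obtain ⟨PB, HB, hHB, hB⟩ := step_point hT h2 hd (by
      rw [h16]
      exact mul_ne_zero h16u.ne_zero hb) hsd (by
      intro π hπ h
      rw [h16] at h
      exact hsb π hπ ((h16u.dvd_mul_left).1 h)) hNd (by
      rw [h16]
      exact notNorm_16 h2 hNb) hpB hc2
  refine ⟨PA + isoH K D2 PB, HA + isoH (Sep F) D2 HB, ?_, fun σ => ?_⟩
  · rw [add_add_add_comm, hHA, ← map_add, hHB, map_add, isoH_act]
  · have h3 : isoH (Sep F) D2 (isoH (Sep F) D1 (c (1 + 1) σ -
        (act _ (rs K σ) (G (1 + 1)) - G (1 + 1))) - (act _ (rs K σ) HB - HB)) = 0 := by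
      rcases hB σ with h | ⟨h0, h⟩
      · rw [h, map_zero]
      · rw [h]
        exact isoH_zero (Sep F) D2 h0 rfl
    rw [map_sub (isoH (Sep F) D2), isoH_dbl (Sep F) D1 D2 h12, sub_eq_zero, ← two_nsmul] at h3
    have h4 : 2 • (c (1 + 1) σ - (act _ (rs K σ) (G (1 + 1)) - G (1 + 1))) =
        c 1 σ - (act _ (rs K σ) HA - HA) := by
      rw [smul_sub, smul_sub, ← map_nsmul, GS 1, G1, hc.tc.two 1]
    rw [h4, sub_eq_iff_eq_add, map_sub (isoH (Sep F) D2)] at h3
    rw [h3, map_add, isoH_act]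
    abel

end main

end Pool.Agent.R939.EI
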