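import Pool.Agent.R939.EI.Crit

/-!
# Norms from quadratic extensions and extensions of odd degree
-/

set_option autoImplicit false
set_option linter.all false

open Polynomial
open scoped Classical

namespace Pool.Agent.R939.EI

section det

variable {R S : Type} [CommRing R] [CommRing S] [StarRing S] {m : ℕ}

theorem odd_det_star (f : R →+* S) {w : S} {d n : R} (hw : w * w = f d)
    (hsf : ∀ r, star (f r) = f r) (hsw : star w = -w) {A B Z : Matrix (Fin m) (Fin m) R}
    (hAB : A * B = B * A) (h : n • (Z * Z) = A * A - d • (B * B)) :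
    ∃ z : S, z * star z = f (n ^ m * Z.det ^ 2) := by
  let M : Matrix (Fin m) (Fin m) S := A.map f + w • B.map f
  let M' : Matrix (Fin m) (Fin m) S := A.map f - w • B.map f
  have hM' : M.map (starRingEnd S) = M' := by
    ext i j
    simp only [M, M', Matrix.map_apply, Matrix.add_apply, Matrix.sub_apply, Matrix.smul_apply,
      smul_eq_mul, map_add, map_mul, starRingEnd_apply, hsf, hsw]
    ring
  have hdet : star M.det = M'.det := by
    rw [← starRingEnd_apply, RingHom.map_det, RingHom.mapMatrix_apply, hM']
  have hprod : M * M' = (n • (Z * Z)).map f := by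
    rw [h]
    have e1 : (A * A - d • (B * B)).map f = A.map f * A.map f - (f d) • (B.map f * B.map f) := by
      ext i j
      simp only [Matrix.map_apply, Matrix.sub_apply, Matrix.smul_apply, smul_eq_mul, map_sub,
        map_mul, Matrix.mul_apply, map_sum]
    have e2 : A.map f * B.map f = B.map f * A.map f := by
      rw [← Matrix.map_mul, ← Matrix.map_mul, hAB]
    rw [e1, ← hw]
    simp only [M, M']
    rw [add_mul, mul_sub, mul_sub, Matrix.mul_smul, Matrix.smul_mul, Matrix.smul_mul,
      Matrix.mul_smul, e2, smul_smul]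
    abel
  refine ⟨M.det, ?_⟩
  rw [hdet, ← Matrix.det_mul, hprod]
  have h3 : ((n • (Z * Z)).map f).det = f (n • (Z * Z)).det := by
    rw [RingHom.map_det]; rfl
  rw [h3, Matrix.det_smul, Matrix.det_mul, Fintype.card_fin, pow_two]

theorem odd_det {d n : R} {A B Z : Matrix (Fin m) (Fin m) R} (hAB : A * B = B * A)
    (h : n • (Z * Z) = A * A - d • (B * B)) :
    ∃ p q : R, n ^ m * Z.det ^ 2 = p ^ 2 - d * q ^ 2 := by
  obtain ⟨z, hz⟩ := odd_det_star (S := QuadraticAlgebra R d 0)
    (algebraMap R (QuadraticAlgebra R d 0)) (w := QuadraticAlgebra.omega) (d := d) (n := n) (by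
      rw [QuadraticAlgebra.omega_mul_omega_eq_mk]
      rfl) (fun r => by
      apply QuadraticAlgebra.ext <;> simp [QuadraticAlgebra.re_star, QuadraticAlgebra.im_star]) (by
      apply QuadraticAlgebra.ext <;> simp [QuadraticAlgebra.re_star, QuadraticAlgebra.im_star])
    hAB h
  rw [← QuadraticAlgebra.algebraMap_norm_eq_mul_star] at hz
  have h5 := congrArg QuadraticAlgebra.re hz
  have h6 : QuadraticAlgebra.norm z = n ^ m * Z.det ^ 2 := h5
  refine ⟨z.re, z.im, ?_⟩
  rw [← h6, QuadraticAlgebra.norm_def]
  ring

end det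

end Pool.Agent.R939.EI
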