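import Pool.Agent.R939.EI.Odd1

/-!
# The conics and base change of odd degree
-/

set_option autoImplicit false
set_option linter.all false

open Polynomial
open scoped Classical

namespace Pool.Agent.R939.EI

section comp

variable {k : Type} [Field k]

/-- The polynomial `h(T) - s` over `k[s]`. -/
noncomputable def fib (h : k[X]) : k[X][X] := h.map C - C X

theorem fib_monic {h : k[X]} (hm : h.Monic) (hd : 0 < h.natDegree) : (fib h).Monic := by
  unfold fib
  apply (hm.map C).sub_of_left
  refine lt_of_le_of_lt degree_C_le ?_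
  rw [degree_map_eq_of_injective C_injective]
  exact natDegree_pos_iff_degree_pos.1 hd

theorem fib_deg {h : k[X]} (hd : 0 < h.natDegree) : (fib h).natDegree = h.natDegree := by
  unfold fib
  rw [natDegree_sub_C, natDegree_map_eq_of_injective C_injective]

/-- The inverse map. -/
noncomputable def th (h : k[X]) : AdjoinRoot (fib h) →+* k[X] :=
  AdjoinRoot.lift (compRingHom h) X (by
    unfold fib
    rw [eval₂_sub, eval₂_C, eval₂_map, coe_compRingHom_apply, X_comp]
    have : ((compRingHom h).comp C : k →+* k[X]) = C := by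
      ext c
      simp
    rw [this, eval₂_C_X, sub_self])

noncomputable def ps (h : k[X]) : k[X] →+* AdjoinRoot (fib h) :=
  eval₂RingHom ((AdjoinRoot.of (fib h)).comp C) (AdjoinRoot.root (fib h))

theorem fib_eval {R : Type} [CommRing R] (h : k[X]) (f : k[X] →+* R) (r : R) :
    (fib h).eval₂ f r = h.eval₂ (f.comp C) r - f X := by
  unfold fib
  rw [eval₂_sub, eval₂_C, eval₂_map]

theorem ps_comp (h A : k[X]) : ps h (A.comp h) = algebraMap k[X] (AdjoinRoot (fib h)) A := by
  have hX : ps h h = AdjoinRoot.of (fib h) X := by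
    have h1 : (fib h).eval₂ (AdjoinRoot.of (fib h)) (AdjoinRoot.root (fib h)) = 0 :=
      AdjoinRoot.eval₂_root (fib h)
    rw [fib_eval, sub_eq_zero] at h1
    exact h1
  have h2 : (ps h).comp (compRingHom h) = AdjoinRoot.of (fib h) := by
    apply Polynomial.ringHom_ext
    · intro c
      simp [ps]
    · simp only [RingHom.coe_comp, Function.comp_apply, coe_compRingHom_apply, X_comp]
      exact hX
  have h3 := congrArg (fun g : k[X] →+* AdjoinRoot (fib h) => g A) h2
  exact h3

theorem th_ps (h x : k[X]) : th h (ps h x) = x := by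
  have h2 : (th h).comp (ps h) = RingHom.id k[X] := by
    apply Polynomial.ringHom_ext
    · intro c
      simp [ps, th]
    · simp [ps, th]
  exact congrArg (fun g : k[X] →+* k[X] => g x) h2

theorem ps_th (h : k[X]) (x : AdjoinRoot (fib h)) : ps h (th h x) = x := by
  induction x using AdjoinRoot.induction_on with
  | _ p =>
    induction p using Polynomial.induction_on' with
    | add p q hp hq => rw [map_add, map_add, map_add, hp, hq]
    | monomial n a =>
      rw [← C_mul_X_pow_eq_monomial, map_mul, map_pow, map_mul, map_pow, map_mul, map_pow]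
      have e1 : th h (AdjoinRoot.mk (fib h) (C a)) = a.comp h := by
        rw [AdjoinRoot.mk_C]
        simp [th]
      have e2 : th h (AdjoinRoot.mk (fib h) X) = X := by
        rw [AdjoinRoot.mk_X]
        simp [th]
      rw [e1, e2, ps_comp]
      have e3 : ps h X = AdjoinRoot.mk (fib h) X := by
        rw [AdjoinRoot.mk_X]
        simp [ps]
      rw [e3]
      rfl

/-- Base change of odd degree, monic case. -/
theorem splits_of_comp_monic {d A h : k[X]} {ε : k} (hm : h.Monic) (hodd : Odd h.natDegree)
    (hε : ε ≠ 0) (hA : A ≠ 0) (hs : Splits (d.comp h) ε (A.comp h)) : Splits d ε A := by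
  have hd : 0 < h.natDegree := hodd.pos
  haveI : IsDomain (AdjoinRoot (fib h)) :=
    (Function.LeftInverse.injective (ps_th h)).isDomain (th h)
  set pb := AdjoinRoot.powerBasis' (fib_monic hm hd) with hpb
  haveI : Module.Free k[X] (AdjoinRoot (fib h)) := Module.Free.of_basis pb.basis
  haveI : Module.Finite k[X] (AdjoinRoot (fib h)) := Module.Finite.of_basis pb.basis
  have hdim : pb.dim = h.natDegree := by
    rw [← fib_deg hd]
    rfl
  set φ := Algebra.leftMulMatrix pb.basis with hφ
  obtain ⟨x, y, z, hz, e⟩ := hs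
  have h1 := congrArg (ps h) e
  rw [map_mul, map_sub, map_mul (ps h) (d.comp h), map_pow, map_pow, map_pow, ps_comp] at h1
  have h2 : ps h (C ε * A.comp h) = algebraMap k[X] (AdjoinRoot (fib h)) (C ε * A) := by
    rw [← ps_comp, mul_comp, C_comp]
  rw [h2] at h1
  have h3 := congrArg φ h1
  rw [map_mul, map_sub, map_mul φ (algebraMap k[X] _ d), map_pow, map_pow, map_pow,
    AlgHom.commutes, AlgHom.commutes] at h3
  obtain ⟨p, q, hpq⟩ := odd_det (d := d) (n := C ε * A) (A := φ (ps h x)) (B := φ (ps h y))
    (Z := φ (ps h z)) ((map_mul φ _ _).symm.trans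
      ((congrArg φ (mul_comm _ _)).trans (map_mul φ _ _))) (by
      rw [← pow_two, ← pow_two, ← pow_two, Algebra.smul_def, Algebra.smul_def]
      exact h3)
  have hdet : (φ (ps h z)).det ≠ 0 := by
    rw [hφ, ← Algebra.norm_eq_matrix_det, Algebra.norm_ne_zero_iff]
    intro h0
    apply hz
    rw [← th_ps h z, h0, map_zero]
  obtain ⟨j, hj⟩ := hodd
  have hn : C ε * A ≠ 0 := mul_ne_zero (C_ne_zero.2 hε) hA
  refine ⟨p, q, (C ε * A) ^ j * (φ (ps h z)).det, mul_ne_zero (pow_ne_zero _ hn) hdet, ?_⟩
  have hpow : (C ε * A) ^ pb.dim = (C ε * A) ^ (2 * j + 1) := by rw [hdim, hj]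
  rw [← hpq, hpow]
  ring

/-- **Base change of odd degree.** -/
theorem splits_of_comp {d A h : k[X]} {ε : k} (hodd : Odd h.natDegree)
    (hε : ε ≠ 0) (hA : A ≠ 0) (hs : Splits (d.comp h) ε (A.comp h)) : Splits d ε A := by
  have hh : h ≠ 0 := by
    rintro rfl
    rw [natDegree_zero] at hodd
    exact absurd hodd (by decide)
  have hl : h.leadingCoeff ≠ 0 := leadingCoeff_ne_zero.2 hh
  set l := h.leadingCoeff with hl'
  set h1 : k[X] := C l⁻¹ * h with hh1
  have hm : h1.Monic := by
    rw [hh1, Monic, leadingCoeff_mul, leadingCoeff_C, ← hl', inv_mul_cancel₀ hl]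
  have hnd : h1.natDegree = h.natDegree := natDegree_C_mul (inv_ne_zero hl)
  have e1 : h = (C 0 + C l * X : k[X]).comp h1 := by
    rw [add_comp, mul_comp, C_comp, C_comp, X_comp, hh1, C_0, zero_add, ← mul_assoc, ← C_mul,
      mul_inv_cancel₀ hl, C_1, one_mul]
  rw [e1, ← comp_assoc, ← comp_assoc] at hs
  have hA' : A.comp (C 0 + C l * X) ≠ 0 := by
    intro h0
    rw [comp_eq_zero_iff] at h0
    rcases h0 with h0 | ⟨-, h0⟩
    · exact hA h0
    · have hd : (C 0 + C l * X : k[X]).natDegree = 1 := by
        rw [add_comm]; exact natDegree_linear hl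
      rw [h0, natDegree_C] at hd
      exact absurd hd zero_ne_one
  have h3 := splits_of_comp_monic hm (by rw [hnd]; exact hodd) hε hA' hs
  have h4 := h3.comp_lin (α := 0) (β := l⁻¹) (inv_ne_zero hl)
  have e2 : (C 0 + C l * X : k[X]).comp (C 0 + C l⁻¹ * X) = X := by
    rw [add_comp, mul_comp, C_comp, C_comp, X_comp, C_0, zero_add, zero_add, ← mul_assoc, ← C_mul,
      mul_inv_cancel₀ hl, C_1, one_mul]
  rwa [comp_assoc, comp_assoc, e2, comp_X, comp_X] at h4

end comp

end Pool.Agent.R939.EI
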