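import Pool.Agent.R939.EI.Odd2

/-!
# Base change of odd degree: points and norms from constant extensions
-/

set_option autoImplicit false
set_option linter.all false

open Polynomial IsDedekindDomain WeierstrassCurve WeierstrassCurve.Affine
open scoped Classical

namespace Pool.Agent.R939.EI

open Pool.Agent.TH115.GD

section comp

theorem comp_inj {k : Type} [Field k] {h : k[X]} (hd : 0 < h.natDegree) :
    Function.Injective (compRingHom h) := by
  rw [injective_iff_map_eq_zero]
  intro p hp
  rw [coe_compRingHom_apply, comp_eq_zero_iff] at hp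
  rcases hp with hp | ⟨-, hp⟩
  · exact hp
  · rw [hp, natDegree_C] at hd
    exact absurd hd (lt_irrefl 0)

theorem comp_ne {k : Type} [Field k] {h p : k[X]} (hd : 0 < h.natDegree) (hp : p ≠ 0) :
    p.comp h ≠ 0 := fun h0 => hp (comp_inj hd (by
      rw [coe_compRingHom_apply, h0, map_zero]))

end comp

section points

theorem pull_point {K : Type} [Field K] {a b : K} (σ : K →+* K) (P : Pt (crvT a b) K) :
    ∃ P' : Pt (crvT (σ a) (σ b)) K, dT (σ b) P' = σ (dT b P) := by
  rcases P with _ | ⟨x, y, hxy⟩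
  · exact ⟨0, (map_one σ).symm⟩
  · have e : ((crvT a b).baseChange K).map σ = (crvT (σ a) (σ b)).baseChange K := by
      ext <;> simp [crvT]
    have h1 : ((crvT (σ a) (σ b)).baseChange K).toAffine.Nonsingular (σ x) (σ y) := by
      rw [← e]
      exact (Affine.map_nonsingular _ σ.injective x y).2 hxy
    refine ⟨Point.some (σ x) (σ y) h1, ?_⟩
    simp only [dT]
    by_cases hx : x = 0
    · rw [if_pos hx, if_pos (by rw [hx, map_zero])]
    · rw [if_neg hx, if_neg (fun h0 => hx (σ.injective (by rw [h0, map_zero])))]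

variable {k k' K F : Type} [Field k] [Field k'] [Algebra k k'] [Field K] [Algebra k[X] K]
    [Field F] [Algebra k'[X] F] [IsFractionRing k'[X] F] [Algebra K F]

theorem exists_subst (hT : IsTower k k' K F) {h : k[X]} (hd : 0 < h.natDegree) :
    ∃ (σ : K →+* K) (τ : F →+* F),
      (∀ p : k[X], σ (algebraMap k[X] K p) = algebraMap k[X] K (p.comp h)) ∧
      ∀ x : K, τ (algebraMap K F x) = algebraMap K F (σ x) := by
  haveI := hT.fracK
  have hg : Function.Injective ((algebraMap k[X] K).comp (compRingHom h)) :=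
    (IsFractionRing.injective k[X] K).comp (comp_inj hd)
  have hd' : 0 < (h.map (algebraMap k k')).natDegree := by
    rwa [natDegree_map]
  have hg' : Function.Injective ((algebraMap k'[X] F).comp (compRingHom (h.map (algebraMap k k')))) :=
    (IsFractionRing.injective k'[X] F).comp (comp_inj hd')
  set σ : K →+* K := IsFractionRing.lift hg with hσ
  set τ : F →+* F := IsFractionRing.lift hg' with hτ
  have e1 : ∀ p : k[X], σ (algebraMap k[X] K p) = algebraMap k[X] K (p.comp h) := fun p =>
    IsFractionRing.lift_algebraMap hg p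
  have e2 : ∀ p : k'[X], τ (algebraMap k'[X] F p) =
      algebraMap k'[X] F (p.comp (h.map (algebraMap k k'))) := fun p =>
    IsFractionRing.lift_algebraMap hg' p
  refine ⟨σ, τ, e1, ?_⟩
  have e3 : τ.comp (algebraMap K F) = (algebraMap K F).comp σ := by
    apply IsLocalization.ringHom_ext (nonZeroDivisors k[X])
    apply RingHom.ext
    intro p
    simp only [RingHom.comp_apply]
    rw [hT.map, e2, e1, hT.map, Polynomial.map_comp]
  intro x
  exact congrArg (fun g : K →+* F => g x) e3

/-- The primes of `b` remain primes. -/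
def Inert (b h : k[X]) : Prop :=
  ∀ π : k[X], Irreducible π → π ∣ b → Irreducible (π.comp h) ∧ (π.comp h).Separable

theorem Inert.exists_prime {b h : k[X]} (hb : b ≠ 0) {q : k[X]}
    (hq : Irreducible q) (hqb : q ∣ b.comp h) :
    ∃ π : k[X], Irreducible π ∧ π ∣ b ∧ q ∣ π.comp h := by
  obtain ⟨f, hf, u, hu⟩ := UniqueFactorizationMonoid.exists_prime_factors b hb
  rw [← hu, mul_comp] at hqb
  rcases hq.prime.dvd_or_dvd hqb with h1 | h1
  · have h3 : f.prod.comp h = (f.map fun p => p.comp h).prod := by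
      rw [multiset_prod_comp]
    rw [h3] at h1
    obtain ⟨p, hp, hqp⟩ := hq.prime.exists_mem_multiset_map_dvd h1
    refine ⟨p, (hf p hp).irreducible, ?_, hqp⟩
    rw [← hu]
    exact (Multiset.dvd_prod hp).mul_right _
  · exfalso
    obtain ⟨c, hc, hcu⟩ := Polynomial.isUnit_iff.1 u.isUnit
    rw [← hcu, C_comp] at h1
    exact hq.not_isUnit (isUnit_of_dvd_unit h1 (isUnit_C.2 hc))

/-- Divisors of `b(h)`. -/
theorem Inert.divisor {b h : k[X]} (hi : Inert b h) (hb : b ≠ 0) (hh : 0 < h.natDegree) {A' : k[X]}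
    (hA : A'.Monic) (hs : Squarefree A') (hd : A' ∣ b.comp h) :
    ∃ (A : k[X]) (c : k), A.Monic ∧ Squarefree A ∧ A ∣ b ∧ c ≠ 0 ∧ A' = C c * A.comp h := by
  induction hn : A'.natDegree using Nat.strong_induction_on generalizing A' with
  | _ n ih =>
    by_cases hu : IsUnit A'
    · refine ⟨1, 1, monic_one, squarefree_one, one_dvd _, one_ne_zero, ?_⟩
      rw [hA.eq_one_of_isUnit hu, C_1, one_mul, one_comp]
    obtain ⟨q, hq, hqA⟩ := WfDvdMonoid.exists_irreducible_factor hu hA.ne_zero
    obtain ⟨π, hπ, hπb, hqπ⟩ := Inert.exists_prime hb hq (hqA.trans hd)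
    have hass : Associated q (π.comp h) := hq.associated_of_dvd (hi π hπ hπb).1 hqπ
    -- normalise `π`
    have hl0 : π.leadingCoeff ≠ 0 := leadingCoeff_ne_zero.2 hπ.ne_zero
    set π1 : k[X] := C π.leadingCoeff⁻¹ * π with hπ1
    have hπ1m : π1.Monic := by
      rw [hπ1, Monic, leadingCoeff_mul, leadingCoeff_C, inv_mul_cancel₀ hl0]
    have hassπ : Associated π1 π := by
      rw [hπ1]
      exact associated_unit_mul_left _ _ (isUnit_C.2 (isUnit_iff_ne_zero.2 (inv_ne_zero hl0)))
    have hπ1i : Irreducible π1 := hassπ.symm.irreducible hπ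
    have hπ1b : π1 ∣ b := hassπ.dvd.trans hπb
    have hcomp : Associated (π1.comp h) (π.comp h) := by
      rw [hπ1, mul_comp, C_comp]
      exact associated_unit_mul_left _ _ (isUnit_C.2 (isUnit_iff_ne_zero.2 (inv_ne_zero hl0)))
    have hc1 : π1.comp h ∣ A' := (hcomp.trans hass.symm).dvd.trans hqA
    set c1 := (π1.comp h).leadingCoeff with hc1'
    have hπ1c : π1.comp h ≠ 0 := comp_ne hh hπ1i.ne_zero
    have hc10 : c1 ≠ 0 := leadingCoeff_ne_zero.2 hπ1c
    obtain ⟨B, hB⟩ := hc1
    have hB' : A' = (C c1⁻¹ * π1.comp h) * (C c1 * B) := by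
      rw [hB]
      have : C c1⁻¹ * C c1 = (1 : k[X]) := by rw [← C_mul, inv_mul_cancel₀ hc10, C_1]
      linear_combination (-(π1.comp h * B)) * this
    have hmon1 : (C c1⁻¹ * π1.comp h).Monic := by
      rw [Monic, leadingCoeff_mul, leadingCoeff_C, ← hc1', inv_mul_cancel₀ hc10]
    have hmonB : (C c1 * B).Monic := by
      rw [hB'] at hA
      exact hmon1.of_mul_monic_left hA
    have hdeg1 : 0 < (C c1⁻¹ * π1.comp h).natDegree := by
      rw [natDegree_C_mul (inv_ne_zero hc10), natDegree_comp]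
      exact Nat.mul_pos hπ1i.natDegree_pos hh
    have hdegB : (C c1 * B).natDegree < n := by
      rw [← hn, hB', hmon1.natDegree_mul hmonB]
      omega
    have hBd : (C c1 * B) ∣ A' := ⟨C c1⁻¹ * π1.comp h, by rw [mul_comm]; exact hB'⟩
    obtain ⟨A, c, hAm, hAs, hAb, hc, hAe⟩ := ih _ hdegB hmonB (hs.squarefree_of_dvd hBd)
      (hBd.trans hd) rfl
    have hnd : ¬ π1 ∣ A := by
      rintro ⟨A1, rfl⟩
      have h5 : (π1.comp h) * (π1.comp h) ∣ A' := by
        refine ⟨C c1⁻¹ * (C c * A1.comp h), ?_⟩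
        have e5 : (π1 * A1).comp h = π1.comp h * A1.comp h := mul_comp _ _ _
        rw [hB', hAe, e5]
        ring
      have := hs _ h5
      exact (hcomp.trans hass.symm).symm.irreducible hq |>.not_isUnit this
    have hcop : IsCoprime π1 A := hπ1i.coprime_iff_not_dvd.2 hnd
    refine ⟨π1 * A, c1⁻¹ * c, hπ1m.mul hAm, ?_, ?_, mul_ne_zero (inv_ne_zero hc10) hc, ?_⟩
    · rw [squarefree_mul_iff]
      exact ⟨hcop.isRelPrime, hπ1i.squarefree, hAs⟩
    · exact hcop.mul_dvd hπ1b hAb
    · rw [mul_comp, hB', hAe, C_mul]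
      ring

end points

end Pool.Agent.R939.EI
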