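import Pool.Agent.R939.EI.Lift

/-!
# The quaternion condition on the first Kummer generator
-/

set_option autoImplicit false
set_option linter.all false

open WeierstrassCurve WeierstrassCurve.Affine
open scoped Classical Pointwise

namespace Pool.Agent.R939.EI

open Pool.Agent.TH115.GD
open Pool.Agent.W309.TD (locConst_apply exists_root)

universe u

section quat

variable {K Ω : Type u} [Field K] [Field Ω] [Algebra K Ω] [IsGalois K Ω] [IsSepClosed Ω] {a b : K}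
  {α β : Ω} (hR : Roots a b Ω α β)

include hR

theorem s0_mul {P : Pt (crvT a b) Ω} (hP : P + P = 0) : s0 P = s1 α P * s1 β P := by
  rcases tor_cases hR.E hP with ⟨h1, -⟩ | ⟨hn, h1, -⟩ | ⟨hn, h1, h2, -⟩ | ⟨hn, h1, h2, -⟩
  · rw [h1]
    show (1 : Ω) = 1 * 1
    rw [one_mul]
  · rw [h1]
    simp [s0, s1, Ne.symm hR.E.nea, Ne.symm hR.E.neb]
  · rw [h1]
    have := hR.E.neab
    simp [s0, s1, hR.E.nea, this]
  · rw [h1]
    have := hR.E.neab
    simp [s0, s1, hR.E.neb, Ne.symm this]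

theorem rootsSymm : Roots a b Ω β α := by
  refine ⟨by rw [add_comm]; exact hR.sum, by rw [mul_comm]; exact hR.prod, ?_⟩
  have h := hR.E
  exact ⟨h.1, by rw [add_comm β α]; exact h.2, h.3, by rw [mul_comm β α]; exact h.4, h.5, h.two,
    h.neb, h.nea, Ne.symm h.neab⟩

theorem s1_addβ {S T : Pt (crvT a b) Ω} (hS : S + S = 0) (hT : T + T = 0) :
    s1 β (S + T) = s1 β S * s1 β T := (s_addA (rootsSymm hR).E hS hT).2

omit hR [IsGalois K Ω] [IsSepClosed Ω] in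
theorem s1_fix (W : WeierstrassCurve K) (φ : Ω →ₐ[K] Ω) (γ : Ω) (P : Pt W Ω) :
    s1 (φ γ) (act W φ P) = s1 γ P := by
  rw [s1_act]
  rcases s1_sq γ P with h | h <;> rw [h] <;> simp

omit hR [IsSepClosed Ω] [IsGalois K Ω] in
theorem fix_adjoin {σ : Ω ≃ₐ[K] Ω} {γ : Ω} (h : σ γ = γ) {x : Ω}
    (hx : x ∈ IntermediateField.adjoin K {γ}) : σ x = x := by
  have h3 : IntermediateField.adjoin K {γ} ≤
      IntermediateField.fixedField (Subgroup.zpowers σ) := by
    rw [IntermediateField.adjoin_le_iff]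
    intro y hy
    rw [Set.mem_singleton_iff] at hy
    rw [SetLike.mem_coe, IntermediateField.mem_fixedField_iff, hy]
    intro g hg
    have h5 : Subgroup.zpowers σ ≤ MulAction.stabilizer (Ω ≃ₐ[K] Ω) γ := by
      rw [Subgroup.zpowers_le]
      exact h
    exact h5 hg
  have h4 := h3 hx
  rw [IntermediateField.mem_fixedField_iff] at h4
  exact h4 _ (Subgroup.mem_zpowers _)

/-- **The quaternion condition.** -/
theorem quat (hds : ∀ g : K, g ^ 2 ≠ a ^ 2 - 4 * b) {ρ : (Ω ≃ₐ[K] Ω) → Pt (crvT a b) Ω}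
    (h2 : ∀ τ, ρ τ + ρ τ = 0) (hmul : ∀ σ τ, ρ (σ * τ) = ρ σ + act (crvT a b) (ak σ) (ρ τ))
    {S : Set Ω} (hS : S.Finite) (hSρ : ∀ u : Ω ≃ₐ[K] Ω, (∀ x ∈ S, u x = x) → ρ u = 0) :
    ∃ (t0 : Ω) (A : K), t0 ≠ 0 ∧ t0 ^ 2 = algebraMap K Ω A ∧ (∀ σ, σ t0 = s0 (ρ σ) * t0) ∧
      ∃ p q w : K, w ≠ 0 ∧ A * w ^ 2 = p ^ 2 - (a ^ 2 - 4 * b) * q ^ 2 := by
  have hlc : IsLocallyConstant ρ := by
    rw [IsLocallyConstant.iff_exists_open]
    intro σ₀
    refine ⟨_, open_fix hS σ₀, fun x _ => rfl, fun σ hσ => ?_⟩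
    have h1 : ρ (σ₀⁻¹ * σ) = 0 := by
      apply hSρ
      intro x hx
      rw [AlgEquiv.mul_apply, hσ x hx, ← AlgEquiv.mul_apply, inv_mul_cancel]
      rfl
    have h3 := hmul σ₀ (σ₀⁻¹ * σ)
    rw [h1, map_zero, add_zero, mul_inv_cancel_left] at h3
    exact h3
  have hcoc : IsCoc (K := K) (F := K) (crvT a b) ρ := ⟨hlc, hmul⟩
  obtain ⟨t0, A, ht0, htA, hσt⟩ := kummer0 (F := K) hR hcoc h2
  refine ⟨t0, A, ht0, htA, hσt, ?_⟩
  have hact2 : ∀ (σ : Ω ≃ₐ[K] Ω) {P : Pt (crvT a b) Ω}, P + P = 0 →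
      act (crvT a b) (ak σ) P + act (crvT a b) (ak σ) P = 0 := fun σ P hP => (two_act _ _ _).2 hP
  -- the Kummer generator over `K(α)`
  set L := IntermediateField.adjoin K {α} with hL
  have hαL : α ∈ L := IntermediateField.mem_adjoin_simple_self K α
  have hres : ∀ σ : Ω ≃ₐ[L] Ω, (σ.restrictScalars K) α = α := fun σ => σ.commutes ⟨α, hαL⟩
  have hfixα : ∀ (σ : Ω ≃ₐ[K] Ω), σ α = α → ∀ P : Pt (crvT a b) Ω, s1 α (act (crvT a b) (ak σ) P) = s1 α P := by
    intro σ h P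
    have h3 := s1_fix (crvT a b) (ak σ) α P
    have h4 : ak σ α = α := h
    rwa [h4] at h3
  have hfixβ' : ∀ (σ : Ω ≃ₐ[K] Ω), σ α = α → σ β = β := by
    intro σ h
    rcases hR.perm (ak σ) with ⟨-, h3⟩ | ⟨h3, -⟩
    · exact h3
    · exact absurd (h.symm.trans h3) hR.E.neab
  have hfixβ : ∀ (σ : Ω ≃ₐ[K] Ω), σ α = α → ∀ P : Pt (crvT a b) Ω, s1 β (act (crvT a b) (ak σ) P) = s1 β P := by
    intro σ h P
    have h3 := s1_fix (crvT a b) (ak σ) β P
    have h4 : ak σ β = β := hfixβ' σ h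
    rwa [h4] at h3
  obtain ⟨u, γ, hu, huγ, hσu⟩ := exists_root (K := L) hR.E.two
    (fun σ => s1 α (ρ (σ.restrictScalars K))) (fun σ => s1_sq _ _) (fun σ τ => by
      show s1 α (ρ ((σ.restrictScalars K) * (τ.restrictScalars K))) = _
      rw [hmul, (s_addA hR.E (h2 _) (hact2 _ (h2 _))).2, hfixα _ (hres σ)]) (by
      rw [IsLocallyConstant.iff_exists_open]
      intro σ₀
      refine ⟨_, open_fix hS σ₀, fun x _ => rfl, fun σ hσ => ?_⟩
      have h1 : ρ ((σ₀⁻¹ * σ).restrictScalars K) = 0 := by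
        apply hSρ
        intro x hx
        show (σ₀⁻¹ * σ) x = x
        rw [AlgEquiv.mul_apply, hσ x hx, ← AlgEquiv.mul_apply, inv_mul_cancel]
        rfl
      have h3 := hmul (σ₀.restrictScalars K) ((σ₀⁻¹ * σ).restrictScalars K)
      rw [h1, map_zero, add_zero] at h3
      have h4 : (σ₀.restrictScalars K) * ((σ₀⁻¹ * σ).restrictScalars K) =
          σ.restrictScalars K := by
        ext x
        show σ₀ ((σ₀⁻¹ * σ) x) = σ x
        rw [← AlgEquiv.mul_apply, mul_inv_cancel_left]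
      rw [h4] at h3
      show s1 α (ρ (σ.restrictScalars K)) = s1 α (ρ (σ₀.restrictScalars K))
      rw [h3])
  have hσu' : ∀ σ : Ω ≃ₐ[K] Ω, σ α = α → σ u = s1 α (ρ σ) * u := by
    intro σ h
    have hm : σ ∈ L.fixingSubgroup := by
      rw [IntermediateField.mem_fixingSubgroup_iff]
      exact fun x hx => fix_adjoin h hx
    have h3 := hσu (IntermediateField.fixingSubgroupEquiv L ⟨σ, hm⟩)
    have h4 : (IntermediateField.fixingSubgroupEquiv L ⟨σ, hm⟩).restrictScalars K = σ := by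
      ext x
      rfl
    rw [h4] at h3
    exact h3
  have hγ : ∀ σ : Ω ≃ₐ[K] Ω, σ α = α → σ (u ^ 2) = u ^ 2 := by
    intro σ h
    rw [map_pow, hσu' σ h, mul_pow]
    rcases s1_sq α (ρ σ) with h3 | h3 <;> rw [h3] <;> ring
  -- an automorphism which exchanges the roots
  have hd : (2 * α + algebraMap K Ω a) ^ 2 = algebraMap K Ω (a ^ 2 - 4 * b) := by
    rw [map_sub, map_mul, map_pow, map_ofNat]
    linear_combination 4 * hR.eq0
  have hδ : 2 * α + algebraMap K Ω a = α - β := by linear_combination hR.sum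
  obtain ⟨τ, hτ⟩ : ∃ τ : Ω ≃ₐ[K] Ω, τ α ≠ α := by
    by_contra hcon
    push Not at hcon
    have h3 : α ∈ Set.range (algebraMap K Ω) := by
      rw [InfiniteGalois.mem_range_algebraMap_iff_fixed]
      exact hcon
    obtain ⟨g, hg⟩ := h3
    apply hds (2 * g + a)
    apply (algebraMap K Ω).injective
    rw [map_pow, map_add, map_mul, map_ofNat, hg, hd]
  have hτα : τ α = β ∧ τ β = α := by
    rcases hR.perm (ak τ) with ⟨h3, -⟩ | h3
    · exact absurd h3 hτ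
    · exact h3
  have hτs : ∀ P : Pt (crvT a b) Ω, s1 β (act (crvT a b) (ak τ) P) = s1 α P := by
    intro P
    have h3 := s1_fix (crvT a b) (ak τ) α P
    have h4 : ak τ α = β := hτα.1
    rwa [h4] at h3
  have hτs' : ∀ P : Pt (crvT a b) Ω, s1 α (act (crvT a b) (ak τ) P) = s1 β P := by
    intro P
    have h3 := s1_fix (crvT a b) (ak τ) β P
    have h4 : ak τ β = α := hτα.2
    rwa [h4] at h3
  -- the action on `τ u`
  have hτu : ∀ σ : Ω ≃ₐ[K] Ω, σ α = α → σ (τ u) = s1 β (ρ σ) * τ u := by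
    intro σ h
    set σ' := τ⁻¹ * σ * τ with hσ'
    have hτσ : τ * σ' = σ * τ := by rw [hσ', mul_assoc, mul_inv_cancel_left]
    have h3 : σ' α = α := by
      rw [hσ', AlgEquiv.mul_apply, AlgEquiv.mul_apply, hτα.1, hfixβ' σ h, ← hτα.1,
        ← AlgEquiv.mul_apply, inv_mul_cancel]
      rfl
    have h4 : σ (τ u) = τ (σ' u) := by
      rw [← AlgEquiv.mul_apply, ← AlgEquiv.mul_apply, hτσ]
    have h5 : s1 α (ρ σ') = s1 β (ρ σ) := by
      have e1 := hmul τ σ'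
      rw [hτσ, hmul σ τ] at e1
      have e2 := congrArg (s1 β) e1
      rw [s1_addβ hR (h2 _) (hact2 _ (h2 _)), s1_addβ hR (h2 _) (hact2 _ (h2 _)), hfixβ σ h,
        hτs] at e2
      have e3 := s1_ne β (ρ τ)
      apply mul_left_cancel₀ e3
      rw [← e2]; ring
    rw [h4, hσu' σ' h3, map_mul, h5]
    congr 1
    rcases s1_sq β (ρ σ) with h6 | h6 <;> rw [h6] <;> simp
  have hττ : τ (τ u) = s0 (ρ τ) * u := by
    have h3 : (τ * τ) α = α := by rw [AlgEquiv.mul_apply, hτα.1, hτα.2]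
    rw [← AlgEquiv.mul_apply, hσu' _ h3, hmul, (s_addA hR.E (h2 _) (hact2 _ (h2 _))).2, hτs',
      s0_mul hR (h2 τ)]
  -- `w = u τ(u) / t0` is in `K`
  have hw : u * τ u / t0 ∈ Set.range (algebraMap K Ω) := by
    rw [InfiniteGalois.mem_range_algebraMap_iff_fixed]
    have c1 : ∀ σ : Ω ≃ₐ[K] Ω, σ α = α → σ (u * τ u / t0) = u * τ u / t0 := by
      intro σ h
      rw [map_div₀, map_mul, hσu' σ h, hτu σ h, hσt, s0_mul hR (h2 σ)]
      have n1 := s1_ne α (ρ σ)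
      have n2 := s1_ne β (ρ σ)
      field_simp
    have c2 : τ (u * τ u / t0) = u * τ u / t0 := by
      rw [map_div₀, map_mul, hττ, hσt]
      have n1 := s0_ne (ρ τ)
      field_simp
    intro σ
    by_cases h : σ α = α
    · exact c1 σ h
    · have h3 : σ α = β ∧ σ β = α := by
        rcases hR.perm (ak σ) with ⟨h3, -⟩ | h3
        · exact absurd h3 h
        · exact h3
      have h4 : (τ⁻¹ * σ) α = α := by
        rw [AlgEquiv.mul_apply, h3.1, ← hτα.1, ← AlgEquiv.mul_apply, inv_mul_cancel]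
        rfl
      have h5 := c1 _ h4
      have h6 := congrArg τ h5
      rw [c2, ← AlgEquiv.mul_apply, mul_inv_cancel_left] at h6
      exact h6
  obtain ⟨w, hw⟩ := hw
  have hw0 : w ≠ 0 := by
    rintro rfl
    rw [map_zero] at hw
    exact div_ne_zero (mul_ne_zero hu ((_root_.map_ne_zero τ).2 hu)) ht0 hw.symm
  -- the coordinates of `γ`
  have h2Ω : (2 : Ω) ≠ 0 := hR.E.two
  have hδ0 : α - β ≠ 0 := sub_ne_zero.2 hR.E.neab
  have hτγ : τ (τ (u ^ 2)) = u ^ 2 := by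
    rw [map_pow, map_pow, hττ, mul_pow]
    rcases s0_sq (ρ τ) with h | h <;> rw [h] <;> ring
  have hγτ : ∀ σ : Ω ≃ₐ[K] Ω, σ α = α → σ (τ (u ^ 2)) = τ (u ^ 2) := by
    intro σ h
    rw [map_pow, map_pow, hτu σ h, mul_pow]
    rcases s1_sq β (ρ σ) with h3 | h3 <;> rw [h3] <;> ring
  have hall : ∀ σ : Ω ≃ₐ[K] Ω,
      (σ (u ^ 2) = u ^ 2 ∧ σ (τ (u ^ 2)) = τ (u ^ 2) ∧ σ α = α ∧ σ β = β) ∨
      (σ (u ^ 2) = τ (u ^ 2) ∧ σ (τ (u ^ 2)) = u ^ 2 ∧ σ α = β ∧ σ β = α) := by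
    intro σ
    by_cases h : σ α = α
    · exact Or.inl ⟨hγ σ h, hγτ σ h, h, hfixβ' σ h⟩
    · right
      have h3 : σ α = β ∧ σ β = α := by
        rcases hR.perm (ak σ) with ⟨h3, -⟩ | h3
        · exact absurd h3 h
        · exact h3
      have h4 : (τ⁻¹ * σ) α = α := by
        rw [AlgEquiv.mul_apply, h3.1, ← hτα.1, ← AlgEquiv.mul_apply, inv_mul_cancel]
        rfl
      have h5 := congrArg τ (hγ _ h4)
      have h6 := congrArg τ (hγτ _ h4)
      rw [← AlgEquiv.mul_apply, mul_inv_cancel_left] at h5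
      rw [← AlgEquiv.mul_apply, mul_inv_cancel_left, hτγ] at h6
      exact ⟨h5, h6, h3⟩
  obtain ⟨p, hp⟩ : (u ^ 2 + τ (u ^ 2)) / 2 ∈ Set.range (algebraMap K Ω) := by
    rw [InfiniteGalois.mem_range_algebraMap_iff_fixed]
    intro σ
    rcases hall σ with ⟨h1, h3, -, -⟩ | ⟨h1, h3, -, -⟩
    · rw [map_div₀, map_add, h1, h3, map_ofNat]
    · rw [map_div₀, map_add, h1, h3, map_ofNat, add_comm]
  obtain ⟨q, hq⟩ : (u ^ 2 - τ (u ^ 2)) / (2 * (α - β)) ∈ Set.range (algebraMap K Ω) := by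
    rw [InfiniteGalois.mem_range_algebraMap_iff_fixed]
    intro σ
    rcases hall σ with ⟨h1, h3, h4, h5⟩ | ⟨h1, h3, h4, h5⟩
    · rw [map_div₀, map_sub, h1, h3, map_mul, map_sub, h4, h5, map_ofNat]
    · rw [map_div₀, map_sub, h1, h3, map_mul, map_sub, h4, h5, map_ofNat]
      have hδ0' : β - α ≠ 0 := sub_ne_zero.2 (Ne.symm hR.E.neab)
      field_simp
      ring
  refine ⟨p, q, w, hw0, ?_⟩
  apply (algebraMap K Ω).injective
  have hd' : algebraMap K Ω (a ^ 2 - 4 * b) = (α - β) ^ 2 := by rw [← hd, hδ]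
  rw [map_mul, map_pow, map_sub, map_mul, map_pow, map_pow, hd', ← htA, hw, hp, hq]
  rw [map_pow]
  field_simp
  ring

end quat

end Pool.Agent.R939.EI
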