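import Pool.Agent.R939.EI.Gen2
import Pool.Agent.R939.EI.Loc

/-!
# Counting over finite fields, surfaces with a section
-/

set_option autoImplicit false
set_option linter.all false

open Polynomial
open scoped Classical

namespace Pool.Agent.R939.EI

section pol

variable {R : Type} [CommRing R] {r s : ℕ} {m : Fin s → ℕ}

/-- The product of some of the polynomials. -/
noncomputable def secP (W : Finset (Fin s)) (β : (i : Fin s) → Fin (m i + 1) → R) : R[X] :=
  ∏ l ∈ W, polA (β l)

/-- The coefficient `a = g² - A - B`. -/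
noncomputable def polS (U : Finset (Fin s)) (g : Fin (r + 1) → R)
    (β : (i : Fin s) → Fin (m i + 1) → R) : R[X] := polA g ^ 2 - secP U β - secP Uᶜ β

/-- The discriminant `a² - 4 b`. -/
noncomputable def polT (U : Finset (Fin s)) (g : Fin (r + 1) → R)
    (β : (i : Fin s) → Fin (m i + 1) → R) : R[X] := polS U g β ^ 2 - 4 * polP β

theorem secP_mul (U : Finset (Fin s)) (β : (i : Fin s) → Fin (m i + 1) → R) :
    secP U β * secP Uᶜ β = polP β := Finset.prod_mul_prod_compl U fun l => polA (β l)

theorem secP_natDegree (W : Finset (Fin s)) (β : (i : Fin s) → Fin (m i + 1) → R) :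
    (secP W β).natDegree ≤ ∑ i, m i := by
  unfold secP
  refine (natDegree_prod_le _ _).trans ?_
  refine (Finset.sum_le_sum fun i _ => polA_natDegree (β i)).trans ?_
  exact Finset.sum_le_sum_of_subset (Finset.subset_univ W)

theorem polT_natDegree (U : Finset (Fin s)) (g : Fin (r + 1) → R)
    (β : (i : Fin s) → Fin (m i + 1) → R) : (polT U g β).natDegree ≤ 4 * r + 2 * ∑ i, m i := by
  have h1 : (polS U g β).natDegree ≤ 2 * r + ∑ i, m i := by
    unfold polS
    refine (natDegree_sub_le _ _).trans (max_le ((natDegree_sub_le _ _).trans (max_le ?_ ?_)) ?_)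
    · refine natDegree_pow_le.trans ?_
      have := polA_natDegree g
      omega
    · have := secP_natDegree U β
      omega
    · have := secP_natDegree Uᶜ β
      omega
  unfold polT
  refine (natDegree_sub_le _ _).trans (max_le ?_ ?_)
  · refine natDegree_pow_le.trans ?_
    omega
  · have h4 : (4 : R[X]) = C 4 := by rw [map_ofNat]
    rw [h4]
    refine ((natDegree_C_mul_le _ _).trans (polP_natDegree β)).trans ?_
    omega

theorem secP_map {R' : Type} [CommRing R'] (f : R →+* R') (W : Finset (Fin s))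
    (β : (i : Fin s) → Fin (m i + 1) → R) :
    (secP W β).map f = secP W (fun i j => f (β i j)) := by
  unfold secP
  rw [Polynomial.map_prod]
  exact Finset.prod_congr rfl fun i _ => polA_map f (β i)

theorem polT_map {R' : Type} [CommRing R'] (f : R →+* R') (U : Finset (Fin s))
    (g : Fin (r + 1) → R) (β : (i : Fin s) → Fin (m i + 1) → R) :
    (polT U g β).map f = polT U (fun j => f (g j)) (fun i j => f (β i j)) := by
  unfold polT polS
  rw [Polynomial.map_sub, Polynomial.map_mul, Polynomial.map_pow, Polynomial.map_ofNat, polP_map,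
    Polynomial.map_sub, Polynomial.map_sub, Polynomial.map_pow, polA_map, secP_map, secP_map]

end pol

section count

variable {F : Type} [Field F] [Fintype F]

theorem prod_signs {s : ℕ} {W : Finset (Fin s)} {i j : Fin s} (hij : i ≠ j)
    (h : i ∈ W ↔ j ∈ W) : ∏ l ∈ W, (if l = i ∨ l = j then (-1 : ℤ) else 1) = 1 := by
  by_cases hi : i ∈ W
  · have hj := h.1 hi
    rw [← Finset.mul_prod_erase _ _ hi, if_pos (Or.inl rfl),
      ← Finset.mul_prod_erase _ _ (Finset.mem_erase.2 ⟨hij.symm, hj⟩), if_pos (Or.inr rfl),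
      Finset.prod_eq_one]
    · norm_num
    · intro l hl
      rw [Finset.mem_erase, Finset.mem_erase] at hl
      rw [if_neg]
      rintro (h | h)
      · exact hl.2.1 h
      · exact hl.1 h
  · have hj : j ∉ W := fun h' => hi (h.2 h')
    apply Finset.prod_eq_one
    intro l hl
    rw [if_neg]
    rintro (h | h)
    · exact hi (h ▸ hl)
    · exact hj (h ▸ hl)

/-- Families of polynomials. -/
theorem card_famU (hF : ringChar F ≠ 2) {s : ℕ} {m : Fin s → ℕ} (hm : ∀ i, 1 ≤ m i) {e e' : F}
    (he : e ≠ e') {S U : Finset (Fin s)} {i j : Fin s} (hi : i ∈ S) (hj : j ∉ S)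
    (hU : i ∈ U ↔ j ∈ U) {w : ℕ} (hw : 2 * w + 1 = Fintype.card F) :
    ∏ l, (w ^ 2 * Fintype.card F ^ (m l - 1)) ≤
      (Finset.univ.filter fun β : (l : Fin s) → Fin (m l + 1) → F =>
        ((quadraticChar F ((secP U β).eval e) = 1 ∧ quadraticChar F ((secP U β).eval e') = 1) ∧
        (quadraticChar F ((secP Uᶜ β).eval e) = 1 ∧ quadraticChar F ((secP Uᶜ β).eval e') = 1)) ∧
        quadraticChar F ((secP S β).eval e * (secP S β).eval e') = -1).card := by
  have hij : i ≠ j := fun h => hj (h ▸ hi)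
  set T : (l : Fin s) → Finset (Fin (m l + 1) → F) := fun l =>
    Finset.univ.filter fun a : Fin (m l + 1) → F =>
      quadraticChar F ((polA a).eval e) = 1 ∧
      quadraticChar F ((polA a).eval e') = (if l = i ∨ l = j then (-1 : ℤ) else 1) with hT
  have h1 : ∀ l, w ^ 2 * Fintype.card F ^ (m l - 1) ≤ (T l).card := by
    intro l
    exact card_vals hF (hm l) he (by
      split_ifs
      · exact Or.inr rfl
      · exact Or.inl rfl) hw
  have h4 : ∏ l, (w ^ 2 * Fintype.card F ^ (m l - 1)) ≤ (Fintype.piFinset T).card := by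
    rw [Fintype.card_piFinset]
    exact Finset.prod_le_prod' fun l _ => h1 l
  refine h4.trans (Finset.card_le_card ?_)
  intro β hβ
  rw [Fintype.mem_piFinset] at hβ
  have h5 : ∀ l, quadraticChar F ((polA (β l)).eval e) = 1 := fun l =>
    (Finset.mem_filter.1 (hβ l)).2.1
  have h6 : ∀ l, quadraticChar F ((polA (β l)).eval e') =
      (if l = i ∨ l = j then (-1 : ℤ) else 1) := fun l => (Finset.mem_filter.1 (hβ l)).2.2
  have a1 : ∀ W : Finset (Fin s), quadraticChar F ((secP W β).eval e) = 1 := by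
    intro W
    unfold secP
    rw [eval_prod, map_prod, Finset.prod_congr rfl fun l _ => h5 l, Finset.prod_const_one]
  have a2 : ∀ W : Finset (Fin s), quadraticChar F ((secP W β).eval e') =
      ∏ l ∈ W, (if l = i ∨ l = j then (-1 : ℤ) else 1) := by
    intro W
    unfold secP
    rw [eval_prod, map_prod, Finset.prod_congr rfl fun l _ => h6 l]
  rw [Finset.mem_filter]
  refine ⟨Finset.mem_univ _, ⟨⟨a1 U, ?_⟩, ⟨a1 Uᶜ, ?_⟩⟩, ?_⟩
  · rw [a2, prod_signs hij hU]
  · rw [a2, prod_signs hij (by rw [Finset.mem_compl, Finset.mem_compl, hU])]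
  · rw [map_mul, a1, a2, one_mul, ← Finset.mul_prod_erase _ _ hi, if_pos (Or.inl rfl),
      Finset.prod_eq_one, mul_one]
    intro l hl
    rw [Finset.mem_erase] at hl
    rw [if_neg]
    rintro (h | h)
    · exact hl.1 h
    · exact hj (h ▸ hl.2)

/-- Two square roots with nonzero sum. -/
theorem exists_roots (hF : ringChar F ≠ 2) {x y : F} (hx : quadraticChar F x = 1)
    (hy : quadraticChar F y = 1) :
    ∃ α β : F, x = α ^ 2 ∧ y = β ^ 2 ∧ α ≠ 0 ∧ β ≠ 0 ∧ α + β ≠ 0 := by
  have hx0 : x ≠ 0 := by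
    rintro rfl
    rw [MulChar.map_zero] at hx
    exact zero_ne_one hx
  have hy0 : y ≠ 0 := by
    rintro rfl
    rw [MulChar.map_zero] at hy
    exact zero_ne_one hy
  obtain ⟨α, hα⟩ := (quadraticChar_one_iff_isSquare hx0).1 hx
  obtain ⟨β, hβ⟩ := (quadraticChar_one_iff_isSquare hy0).1 hy
  have hα0 : α ≠ 0 := by
    rintro rfl
    rw [mul_zero] at hα
    exact hx0 hα
  have hβ0 : β ≠ 0 := by
    rintro rfl
    rw [mul_zero] at hβ
    exact hy0 hβ
  by_cases h : α + β = 0
  · refine ⟨α, -β, by rw [hα]; ring, by rw [hβ]; ring, hα0, neg_ne_zero.2 hβ0, ?_⟩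
    intro h'
    have h2 : (2 : F) * α = 0 := by linear_combination h + h'
    exact mul_ne_zero (Ring.two_ne_zero hF) hα0 h2
  · exact ⟨α, β, by rw [hα]; ring, by rw [hβ]; ring, hα0, hβ0, h⟩

/-- The polynomials `g`. -/
theorem card_gU (hF : ringChar F ≠ 2) {r s : ℕ} (hr : 2 ≤ r) {m : Fin s → ℕ} {e e' : F}
    (he : e ≠ e') {U : Finset (Fin s)} {β : (l : Fin s) → Fin (m l + 1) → F}
    (h1 : quadraticChar F ((secP U β).eval e) = 1)
    (h2 : quadraticChar F ((secP U β).eval e') = 1)
    (h3 : quadraticChar F ((secP Uᶜ β).eval e) = 1)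
    (h4 : quadraticChar F ((secP Uᶜ β).eval e') = 1) :
    Fintype.card F * Fintype.card F ^ (r + 1) ≤
      (Finset.univ.filter fun g : Fin (r + 1) → F =>
        ((polT U g β).eval e = 0 ∧ (derivative (polT U g β)).eval e ≠ 0) ∧
        ((polT U g β).eval e' = 0 ∧ (derivative (polT U g β)).eval e' ≠ 0)).card *
          Fintype.card F ^ 3 + 2 * Fintype.card F ^ (r + 1) := by
  have h2F : (2 : F) ≠ 0 := Ring.two_ne_zero hF
  have h8F : (8 : F) ≠ 0 := by
    have : (8 : F) = 2 ^ 3 := by norm_num
    rw [this]; exact pow_ne_zero 3 h2F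
  have key : ∀ f : F, quadraticChar F ((secP U β).eval f) = 1 →
      quadraticChar F ((secP Uᶜ β).eval f) = 1 → ∃ v τ : F, ∀ g : Fin (r + 1) → F,
      (polA g).eval f = v → (derivative (polA g)).eval f ≠ τ →
      ((polT U g β).eval f = 0 ∧ (derivative (polT U g β)).eval f ≠ 0) := by
    intro f hf hf'
    obtain ⟨α, γ, hα, hγ, hα0, hγ0, hαγ⟩ := exists_roots hF hf hf'
    have hc : 8 * α * γ * (α + γ) ≠ 0 :=
      mul_ne_zero (mul_ne_zero (mul_ne_zero h8F hα0) hγ0) hαγ
    refine ⟨α + γ, (4 * α * γ * ((derivative (secP U β)).eval f +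
      (derivative (secP Uᶜ β)).eval f) + 4 * (derivative (polP β)).eval f) /
        (8 * α * γ * (α + γ)), ?_⟩
    intro g hg hg'
    have e4 : (4 : F[X]) = C 4 := by rw [map_ofNat]
    have hP : (polP β).eval f = α ^ 2 * γ ^ 2 := by
      rw [← secP_mul U β, eval_mul, hα, hγ]
    have hS : (polS U g β).eval f = 2 * α * γ := by
      unfold polS
      rw [eval_sub, eval_sub, eval_pow, hg, hα, hγ]
      ring
    constructor
    · unfold polT
      rw [eval_sub, eval_pow, e4, eval_mul, eval_C, hP, hS]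
      ring
    · intro h5
      apply hg'
      rw [eq_div_iff hc]
      have hS' : (derivative (polS U g β)).eval f = 2 * (α + γ) * (derivative (polA g)).eval f -
          (derivative (secP U β)).eval f - (derivative (secP Uᶜ β)).eval f := by
        unfold polS
        rw [derivative_sub, derivative_sub, derivative_pow, eval_sub, eval_sub, eval_mul, eval_mul,
          eval_C, eval_pow, hg]
        push_cast
        ring
      unfold polT at h5
      rw [derivative_sub, derivative_pow, e4, derivative_C_mul, eval_sub, eval_mul, eval_mul,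
        eval_mul, eval_C, eval_C, eval_pow, hS, hS'] at h5
      push_cast at h5
      linear_combination h5
  obtain ⟨v, τ, hv⟩ := key e h1 h3
  obtain ⟨v', τ', hv'⟩ := key e' h2 h4
  refine (card_a hr he v v' τ τ').trans ?_
  refine Nat.add_le_add_right (Nat.mul_le_mul_right _ (Finset.card_le_card ?_)) _
  intro a ha
  rw [Finset.mem_filter] at ha ⊢
  obtain ⟨-, ⟨h5, h6⟩, h7, h8⟩ := ha
  exact ⟨Finset.mem_univ _, hv a h5 h7, hv' a h6 h8⟩

end count

end Pool.Agent.R939.EI
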