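import Pool.Agent.R939.EI.Sec1
import Pool.Agent.R939.EI.Gen5

/-!
# Counting over finite fields, surfaces with a section
-/

set_option autoImplicit false
set_option linter.all false

open Polynomial
open scoped Classical

namespace Pool.Agent.R939.EI

section total

variable {F : Type} [Field F] [Fintype F]

/-- The parameters with an obstruction. -/
noncomputable def obsSetU (F : Type) [Field F] [Fintype F] (r : ℕ) {s : ℕ} (m : Fin s → ℕ)
    (U S : Finset (Fin s)) :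
    Finset ((Fin (r + 1) → F) × ((l : Fin s) → Fin (m l + 1) → F)) :=
  Finset.univ.filter fun x => ObsAt (polT U x.1 x.2) (secP S x.2)

theorem card_obsU (hF : ringChar F ≠ 2) {r s : ℕ} (hr : 2 ≤ r) {m : Fin s → ℕ}
    (hm : ∀ i, 1 ≤ m i) {S U : Finset (Fin s)} {i j : Fin s} (hi : i ∈ S) (hj : j ∉ S)
    (hU : i ∈ U ↔ j ∈ U) {w : ℕ} (hw : 2 * w + 1 = Fintype.card F) :
    (Fintype.card F * Fintype.card F - Fintype.card F) *
      (∏ l, (w ^ 2 * Fintype.card F ^ (m l - 1))) *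
      ((Fintype.card F - 2) * Fintype.card F ^ (r - 2)) ≤
        (4 * r + 2 * ∑ i, m i) ^ 2 * (obsSetU F r m U S).card := by
  set q := Fintype.card F with hq
  have hq0 : 0 < q := Fintype.card_pos
  set X0 : Finset (F × F) := (Finset.univ : Finset F).offDiag with hX0
  have c0 : X0.card = q * q - q := by rw [hX0, Finset.offDiag_card, Finset.card_univ]
  set X1 := ((X0 ×ˢ Finset.univ).filter fun z : (F × F) × ((l : Fin s) → Fin (m l + 1) → F) =>
    ((quadraticChar F ((secP U z.2).eval z.1.1) = 1 ∧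
      quadraticChar F ((secP U z.2).eval z.1.2) = 1) ∧
      (quadraticChar F ((secP Uᶜ z.2).eval z.1.1) = 1 ∧
        quadraticChar F ((secP Uᶜ z.2).eval z.1.2) = 1)) ∧
        quadraticChar F ((secP S z.2).eval z.1.1 * (secP S z.2).eval z.1.2) = -1) with hX1
  have c1 : X0.card * (∏ l, (w ^ 2 * q ^ (m l - 1))) ≤ X1.card := by
    refine card_pair X0 (fun (z : F × F) (β : (l : Fin s) → Fin (m l + 1) → F) =>
      ((quadraticChar F ((secP U β).eval z.1) = 1 ∧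
      quadraticChar F ((secP U β).eval z.2) = 1) ∧
      (quadraticChar F ((secP Uᶜ β).eval z.1) = 1 ∧
        quadraticChar F ((secP Uᶜ β).eval z.2) = 1)) ∧
        quadraticChar F ((secP S β).eval z.1 * (secP S β).eval z.2) = -1) _ ?_
    intro z hz
    rw [hX0, Finset.mem_offDiag] at hz
    exact card_famU hF hm hz.2.2 hi hj hU hw
  set X2 := ((X1 ×ˢ Finset.univ).filter
    fun z : ((F × F) × ((l : Fin s) → Fin (m l + 1) → F)) × (Fin (r + 1) → F) =>
      ((polT U z.2 z.1.2).eval z.1.1.1 = 0 ∧ (derivative (polT U z.2 z.1.2)).eval z.1.1.1 ≠ 0) ∧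
      ((polT U z.2 z.1.2).eval z.1.1.2 = 0 ∧
        (derivative (polT U z.2 z.1.2)).eval z.1.1.2 ≠ 0)) with hX2
  have c2 : X1.card * ((q - 2) * q ^ (r - 2)) ≤ X2.card := by
    refine card_pair X1 (fun (z : (F × F) × ((l : Fin s) → Fin (m l + 1) → F))
      (a : Fin (r + 1) → F) =>
      ((polT U a z.2).eval z.1.1 = 0 ∧ (derivative (polT U a z.2)).eval z.1.1 ≠ 0) ∧
      ((polT U a z.2).eval z.1.2 = 0 ∧ (derivative (polT U a z.2)).eval z.1.2 ≠ 0)) _ ?_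
    intro z hz
    rw [hX1, Finset.mem_filter, Finset.mem_product, hX0, Finset.mem_offDiag] at hz
    obtain ⟨⟨⟨-, -, hz3⟩, -⟩, ⟨⟨hz4, hz5⟩, hz6, hz7⟩, -⟩ := hz
    have h6 := card_gU hF hr hz3 hz4 hz5 hz6 hz7
    rw [← hq] at h6
    set N := (Finset.univ.filter fun a : Fin (r + 1) → F =>
        ((polT U a z.2).eval z.1.1 = 0 ∧ (derivative (polT U a z.2)).eval z.1.1 ≠ 0) ∧
        ((polT U a z.2).eval z.1.2 = 0 ∧
          (derivative (polT U a z.2)).eval z.1.2 ≠ 0)).card with hN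
    obtain ⟨ρ, rfl⟩ := Nat.exists_eq_add_of_le hr
    have e1 : 2 + ρ - 2 = ρ := by omega
    rw [e1]
    have h7 : (q - 2) * q ^ ρ * q ^ 3 ≤ N * q ^ 3 := by
      have h8 : (q - 2) * q ^ ρ * q ^ 3 = q * q ^ (2 + ρ + 1) - 2 * q ^ (2 + ρ + 1) := by
        rw [← Nat.sub_mul]
        ring
      rw [h8]
      omega
    exact Nat.le_of_mul_le_mul_right h7 (pow_pos hq0 3)
  have c4 : X2.card ≤ (4 * r + 2 * ∑ i, m i) ^ 2 * (obsSetU F r m U S).card := by
    refine Finset.card_le_mul_card_image_of_maps_to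
      (f := fun z : ((F × F) × ((l : Fin s) → Fin (m l + 1) → F)) × (Fin (r + 1) → F) =>
        (z.2, z.1.2)) ?_ _ ?_
    · intro z hz
      rw [Finset.mem_filter, Finset.mem_product, hX1, Finset.mem_filter] at hz
      obtain ⟨⟨⟨-, -, hz1⟩, -⟩, hz2, hz3⟩ := hz
      rw [obsSetU, Finset.mem_filter]
      exact ⟨Finset.mem_univ _, z.1.1.1, z.1.1.2, hz2, hz3,
        quadraticChar_neg_one_iff_not_isSquare.1 hz1⟩
    · rintro ⟨a, β⟩ -
      set Rt := (polT U a β).roots.toFinset with hRt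
      have h5 : Rt.card ≤ 4 * r + 2 * ∑ i, m i :=
        (Multiset.toFinset_card_le _).trans ((card_roots' _).trans (polT_natDegree U a β))
      have h6 : (Finset.filter
          (fun z : ((F × F) × ((l : Fin s) → Fin (m l + 1) → F)) × (Fin (r + 1) → F) =>
          (z.2, z.1.2) = (a, β)) X2).card ≤ (Rt ×ˢ Rt).card := by
        apply Finset.card_le_card_of_injOn (fun z => z.1.1)
        · rintro ⟨⟨⟨e, e'⟩, β'⟩, a'⟩ hz
          rw [Finset.mem_coe, Finset.mem_filter, Finset.mem_filter] at hz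
          obtain ⟨⟨-, hz2, hz3⟩, hz4⟩ := hz
          simp only [Prod.mk.injEq] at hz4 hz2 hz3
          obtain ⟨rfl, rfl⟩ := hz4
          have hne : polT U a' β' ≠ 0 := by
            intro h0
            rw [h0, derivative_zero, eval_zero] at hz2
            exact hz2.2 rfl
          rw [Finset.mem_coe, Finset.mem_product, hRt, Multiset.mem_toFinset,
            Multiset.mem_toFinset, mem_roots hne, mem_roots hne]
          exact ⟨hz2.1, hz3.1⟩
        · rintro ⟨⟨⟨e, e'⟩, β'⟩, a'⟩ hz ⟨⟨⟨e2, e2'⟩, β2⟩, a2⟩ hz2 h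
          rw [Finset.mem_coe, Finset.mem_filter] at hz hz2
          have h7 := hz.2
          have h8 := hz2.2
          simp only [Prod.mk.injEq] at h7 h8 h
          obtain ⟨rfl, rfl⟩ := h7
          obtain ⟨rfl, rfl⟩ := h8
          obtain ⟨rfl, rfl⟩ := h
          rfl
      refine h6.trans ?_
      rw [Finset.card_product, pow_two]
      exact Nat.mul_le_mul h5 h5
  calc (q * q - q) * (∏ l, (w ^ 2 * q ^ (m l - 1))) * ((q - 2) * q ^ (r - 2))
      = X0.card * (∏ l, (w ^ 2 * q ^ (m l - 1))) * ((q - 2) * q ^ (r - 2)) := by rw [c0]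
    _ ≤ X1.card * ((q - 2) * q ^ (r - 2)) := Nat.mul_le_mul_right _ c1
    _ ≤ X2.card := c2
    _ ≤ _ := c4

/-- The inequality over the real numbers. -/
theorem real_ineq {q w r s : ℕ} (hw : q = 2 * w + 1) (h7 : 7 ≤ q) (hr : 2 ≤ r) {m : Fin s → ℕ}
    (hm : ∀ i, 1 ≤ m i) {N : ℕ}
    (h1 : (q * q - q) * (∏ l, (w ^ 2 * q ^ (m l - 1))) * ((q - 2) * q ^ (r - 2)) ≤ N) :
    (q : ℝ) ^ (r + 1 + ∑ l, (m l + 1)) ≤ 4 * 9 ^ s * (N : ℝ) := by
  have e1 : q * q - q = q * (q - 1) := by rw [Nat.mul_sub_one]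
  rw [e1] at h1
  have h2 : ((q * (q - 1) * (∏ l, (w ^ 2 * q ^ (m l - 1))) * ((q - 2) * q ^ (r - 2)) : ℕ) : ℝ) ≤
      (N : ℝ) := by exact_mod_cast h1
  have hq1 : ((q - 1 : ℕ) : ℝ) = (q : ℝ) - 1 := by rw [Nat.cast_sub (by omega)]; norm_num
  have hq2 : ((q - 2 : ℕ) : ℝ) = (q : ℝ) - 2 := by rw [Nat.cast_sub (by omega)]; norm_num
  rw [Nat.cast_mul, Nat.cast_mul, Nat.cast_mul, Nat.cast_mul, Nat.cast_prod, Nat.cast_pow, hq1,
    hq2] at h2
  have hqw : (q : ℝ) = 2 * w + 1 := by rw [hw]; push_cast; ring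
  have hw2 : (3 : ℝ) ≤ w := by
    have : 3 ≤ w := by omega
    exact_mod_cast this
  have b1 : (q : ℝ) / 2 ≤ (q : ℝ) - 1 := by rw [hqw]; linarith
  have b2 : (q : ℝ) / 2 ≤ (q : ℝ) - 2 := by rw [hqw]; linarith
  have b3 : (q : ℝ) / 3 ≤ (w : ℝ) := by rw [hqw]; linarith
  have hq0 : (0 : ℝ) < q := by rw [hqw]; linarith
  obtain ⟨ρ, rfl⟩ := Nat.exists_eq_add_of_le hr
  have e2 : 2 + ρ - 2 = ρ := by omega
  rw [e2] at h2
  have b4 : ∏ l, ((q : ℝ) ^ (m l + 1) / 9) ≤ ∏ l, ((w ^ 2 * q ^ (m l - 1) : ℕ) : ℝ) := by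
    refine Finset.prod_le_prod (fun l _ => by positivity) fun l _ => ?_
    obtain ⟨t, ht⟩ := Nat.exists_eq_add_of_le (hm l)
    have e3 : 1 + t - 1 = t := by omega
    rw [ht, e3]
    push_cast
    have h5 : ((q : ℝ) / 3) ^ 2 ≤ (w : ℝ) ^ 2 := pow_le_pow_left₀ (by positivity) b3 2
    calc (q : ℝ) ^ (1 + t + 1) / 9 = ((q : ℝ) / 3) ^ 2 * (q : ℝ) ^ t := by ring
      _ ≤ (w : ℝ) ^ 2 * (q : ℝ) ^ t := mul_le_mul_of_nonneg_right h5 (by positivity)
  have b5 : ∏ l, ((q : ℝ) ^ (m l + 1) / 9) = (q : ℝ) ^ (∑ l, (m l + 1)) / 9 ^ s := by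
    rw [Finset.prod_div_distrib, Finset.prod_pow_eq_pow_sum, Finset.prod_const, Finset.card_univ,
      Fintype.card_fin]
  rw [b5] at b4
  have h3 : (q : ℝ) * (q / 2) * ((q : ℝ) ^ (∑ l, (m l + 1)) / 9 ^ s) * ((q / 2) * q ^ ρ) ≤
      (q : ℝ) * ((q : ℝ) - 1) * (∏ l, ((w ^ 2 * q ^ (m l - 1) : ℕ) : ℝ)) *
        (((q : ℝ) - 2) * (q : ℝ) ^ ρ) := by
    have c1 : (q : ℝ) * (q / 2) ≤ (q : ℝ) * ((q : ℝ) - 1) :=
      mul_le_mul_of_nonneg_left b1 hq0.le
    have c3 : ((q : ℝ) / 2) * (q : ℝ) ^ ρ ≤ ((q : ℝ) - 2) * (q : ℝ) ^ ρ :=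
      mul_le_mul_of_nonneg_right b2 (by positivity)
    have p1 : (0 : ℝ) ≤ (q : ℝ) - 1 := by linarith
    have p2 : (0 : ℝ) ≤ (q : ℝ) - 2 := by linarith
    refine mul_le_mul (mul_le_mul c1 b4 (by positivity) (by positivity)) c3
      (by positivity) (mul_nonneg (by positivity) (Finset.prod_nonneg fun l _ => by positivity))
  have h4 : (q : ℝ) * (q / 2) * ((q : ℝ) ^ (∑ l, (m l + 1)) / 9 ^ s) * ((q / 2) * q ^ ρ) =
      (q : ℝ) ^ (2 + ρ + 1 + ∑ l, (m l + 1)) / (4 * 9 ^ s) := by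
    rw [pow_add, eq_div_iff (by positivity)]
    field_simp
    ring
  have h5 := h3.trans h2
  rw [h4, div_le_iff₀ (by positivity)] at h5
  calc (q : ℝ) ^ (2 + ρ + 1 + ∑ l, (m l + 1)) ≤ _ := h5
    _ = _ := by ring

theorem card_obsFunU {κ : Type} [Field κ] [Fintype κ] (hF : ringChar κ ≠ 2)
    (h7 : 7 ≤ Fintype.card κ) (r : ℕ) {s : ℕ} (m : Fin s → ℕ) (hr : 2 ≤ r) (hm : ∀ i, 1 ≤ m i)
    {S U : Finset (Fin s)} {i j : Fin s} (hi : i ∈ S) (hj : j ∉ S) (hU : i ∈ U ↔ j ∈ U) :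
    (1 / (4 * 9 ^ s * ((4 * r + 2 * ∑ i, m i : ℕ) : ℝ) ^ 2)) *
      (Fintype.card (IdxG r m → κ) : ℝ) ≤ ({z : IdxG r m → κ |
        ObsAt (polT U (fun j => z (Sum.inl j)) (fun i j => z (Sum.inr ⟨i, j⟩)))
          (secP S fun i j => z (Sum.inr ⟨i, j⟩))}.ncard : ℝ) := by
  have hodd : Fintype.card κ % 2 = 1 := FiniteField.odd_card_of_char_ne_two hF
  obtain ⟨w, hw⟩ : ∃ w, Fintype.card κ = 2 * w + 1 := ⟨(Fintype.card κ - 1) / 2, by omega⟩
  have h3 := real_ineq hw h7 hr hm (card_obsU hF hr hm hi hj hU hw.symm)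
  have hM0 : (0 : ℝ) < ((4 * r + 2 * ∑ i, m i : ℕ) : ℝ) := by
    have : 0 < 4 * r + 2 * ∑ i, m i := by omega
    exact_mod_cast this
  have h4 : (obsSetU κ r m U S).card ≤ {z : IdxG r m → κ |
        ObsAt (polT U (fun j => z (Sum.inl j)) (fun i j => z (Sum.inr ⟨i, j⟩)))
          (secP S fun i j => z (Sum.inr ⟨i, j⟩))}.ncard := by
    rw [← Set.ncard_coe_finset]
    refine Set.ncard_le_ncard_of_injOn
      (fun x o => match o with
        | Sum.inl j => x.1 j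
        | Sum.inr ⟨i, j⟩ => x.2 i j) ?_ ?_ (Set.toFinite _)
    · intro x hx
      rw [Finset.mem_coe, obsSetU, Finset.mem_filter] at hx
      exact hx.2
    · intro x _ y _ hxy
      refine Prod.ext ?_ ?_
      · funext j
        exact congrFun hxy (Sum.inl j)
      · funext i j
        exact congrFun hxy (Sum.inr ⟨i, j⟩)
  have h8 : ((obsSetU κ r m U S).card : ℝ) ≤ ({z : IdxG r m → κ |
        ObsAt (polT U (fun j => z (Sum.inl j)) (fun i j => z (Sum.inr ⟨i, j⟩)))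
          (secP S fun i j => z (Sum.inr ⟨i, j⟩))}.ncard : ℝ) := by
    exact_mod_cast h4
  rw [Fintype.card_fun, card_idxG, Nat.cast_pow, one_div, inv_mul_le_iff₀ (by positivity)]
  refine h3.trans ?_
  rw [Nat.cast_mul, Nat.cast_pow, ← mul_assoc]
  exact mul_le_mul_of_nonneg_left h8 (by positivity)

end total

end Pool.Agent.R939.EI
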