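import Pool.Agent.R939.EI.Sec2
import Pool.Agent.R939.EI.Dens

/-!
# Almost all surfaces with a section
-/

set_option autoImplicit false
set_option linter.all false

open Polynomial IsDedekindDomain WeierstrassCurve WeierstrassCurve.Affine NumberField
open scoped Classical

namespace Pool.Agent.R939.EI

open Pool.Agent.TH115.GD

section alg

variable {k k' K F : Type} [Field k] [Field k'] [Algebra k k'] [Field K] [Algebra k[X] K]
    [Field F] [Algebra k'[X] F] [IsFractionRing k'[X] F] [Algebra K F]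

theorem Represents.const (hT : IsTower k k' K F) (h2 : (2 : k) ≠ 0) {A : k[X]} {c : k}
    (hc : c ≠ 0) {d : K} (h : Represents K F A d) : Represents K F (C c * A) d := by
  haveI := hT.sep
  haveI : IsSepClosed k' := IsSepClosure.sep_closed k
  have h2' : (2 : k') ≠ 0 := by
    rw [← map_ofNat (algebraMap k k') 2]
    exact (_root_.map_ne_zero _).2 h2
  haveI : NeZero ((2 : ℕ) : k') := ⟨by exact_mod_cast h2'⟩
  obtain ⟨t, ht⟩ := IsSepClosed.exists_pow_nat_eq (algebraMap k k' c) 2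
  have ht0 : t ≠ 0 := by
    rintro rfl
    rw [zero_pow two_ne_zero] at ht
    exact (_root_.map_ne_zero _).2 hc ht.symm
  have htF : algebraMap k'[X] F (C t) ≠ 0 := by simpa using ht0
  have hsq : algebraMap k'[X] F (C t) ^ 2 = algebraMap K F (algebraMap k[X] K (C c)) := by
    rw [← map_pow, ← C_pow, ht, hT.map, map_C]
  obtain ⟨e, he, hh⟩ := h
  refine ⟨algebraMap k'[X] F (C t) * e, mul_ne_zero htF he, ?_⟩
  rw [mul_pow, hsq, mul_assoc, ← hh, map_mul, map_mul]

theorem enough_pts (hT : IsTower k k' K F) (h2 : (2 : k) ≠ 0) {s : ℕ} {q : Fin s → k[X]}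
    (hq : ∀ i, Irreducible (q i)) {a : k[X]}
    (hS : ∀ S : Finset (Fin s), (∃ P : Pt (crvT (algebraMap k[X] K a)
        (algebraMap k[X] K (∏ i, q i))) K,
        Represents K F (∏ i ∈ S, q i) (dT (algebraMap k[X] K (∏ i, q i)) P)) ∨
      ∀ ε : k, ε ≠ 0 → ¬ Splits (a ^ 2 - 4 * ∏ i, q i) ε (∏ i ∈ S, q i)) :
    EnoughNorm K F a (∏ i, q i) := by
  intro ε A hε hA hs hd hinf hsp
  obtain ⟨S, -, hS'⟩ := dvd_prod_irr hq Finset.univ A hd
  obtain ⟨w, hw⟩ := hS'.symm
  obtain ⟨c, hc, hcw⟩ := Polynomial.isUnit_iff.1 w.isUnit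
  have hc0 : c ≠ 0 := hc.ne_zero
  have hAe : A = C c * ∏ i ∈ S, q i := by rw [← hw, hcw]; ring
  rcases hS S with ⟨P, hP⟩ | h
  · exact ⟨P, by rw [hAe]; exact Represents.const hT h2 hc0 hP⟩
  · exfalso
    refine h (ε * c) (mul_ne_zero hε hc0) ?_
    obtain ⟨x, y, z, hz, e⟩ := hsp
    refine ⟨x, y, z, hz, ?_⟩
    rw [hAe] at e
    rw [C_mul]
    linear_combination e

theorem represents_self {A : k[X]} : Represents K F A (algebraMap k[X] K A) :=
  ⟨1, one_ne_zero, by rw [one_pow, one_mul]⟩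

/-- The section. -/
theorem exists_point [IsFractionRing k[X] K] (h2 : (2 : k) ≠ 0) {A B G : k[X]} (hA : A ≠ 0)
    (hG : G ≠ 0) :
    ∃ P : Pt (crvT (algebraMap k[X] K (G ^ 2 - A - B)) (algebraMap k[X] K (A * B))) K,
      Represents K F A (dT (algebraMap k[X] K (A * B)) P) := by
  set x := algebraMap k[X] K A with hx
  set y := algebraMap k[X] K (A * G) with hy
  have hx0 : x ≠ 0 := by
    rw [hx, Ne, IsFractionRing.to_map_eq_zero_iff]; exact hA
  have hy0 : y ≠ 0 := by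
    rw [hy, Ne, IsFractionRing.to_map_eq_zero_iff]; exact mul_ne_zero hA hG
  have h2K : (2 : K) ≠ 0 := by
    have : (2 : K) = algebraMap k[X] K (C 2) := by
      rw [← map_ofNat (algebraMap k[X] K) 2, map_ofNat C 2]
    rw [this, Ne, IsFractionRing.to_map_eq_zero_iff]
    exact C_ne_zero.2 h2
  have hns : ((crvT (algebraMap k[X] K (G ^ 2 - A - B))
      (algebraMap k[X] K (A * B))).baseChange K).toAffine.Nonsingular x y := by
    have e1 : ((crvT (algebraMap k[X] K (G ^ 2 - A - B))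
      (algebraMap k[X] K (A * B))).baseChange K).toAffine.a₁ = 0 := map_zero _
    have e2 : ((crvT (algebraMap k[X] K (G ^ 2 - A - B))
      (algebraMap k[X] K (A * B))).baseChange K).toAffine.a₂ =
        algebraMap k[X] K (G ^ 2 - A - B) := rfl
    have e3 : ((crvT (algebraMap k[X] K (G ^ 2 - A - B))
      (algebraMap k[X] K (A * B))).baseChange K).toAffine.a₃ = 0 := map_zero _
    have e4 : ((crvT (algebraMap k[X] K (G ^ 2 - A - B))
      (algebraMap k[X] K (A * B))).baseChange K).toAffine.a₄ =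
        algebraMap k[X] K (A * B) := rfl
    have e6 : ((crvT (algebraMap k[X] K (G ^ 2 - A - B))
      (algebraMap k[X] K (A * B))).baseChange K).toAffine.a₆ = 0 := map_zero _
    rw [Affine.nonsingular_iff, Affine.equation_iff, e1, e2, e3, e4, e6]
    constructor
    · rw [hx, hy]
      simp only [map_sub, map_mul, map_pow]
      ring
    · right
      intro h
      have : 2 * y = 0 := by linear_combination h
      exact mul_ne_zero h2K hy0 this
  refine ⟨Point.some x y hns, ?_⟩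
  have hdd : dT (algebraMap k[X] K (A * B)) (Point.some x y hns) = x := by
    simp only [dT]
    rw [if_neg hx0]
  rw [hdd]
  exact represents_self

theorem cases_four {s : ℕ} {S U : Finset (Fin s)}
    (h : ¬ ∃ i ∈ S, ∃ j ∉ S, (i ∈ U ↔ j ∈ U)) :
    S = ∅ ∨ S = Finset.univ ∨ S = U ∨ S = Uᶜ := by
  push Not at h
  have key : ∀ i ∈ S, ∀ j, (i ∈ U ↔ j ∈ U) → j ∈ S := by
    intro i hi j hij
    by_contra hj
    rcases h i hi j hj with ⟨h1, h2⟩ | ⟨h1, h2⟩
    · exact h2 (hij.1 h1)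
    · exact h1 (hij.2 h2)
  by_cases h1 : ∃ i ∈ S, i ∈ U
  · obtain ⟨i, hi, hiU⟩ := h1
    by_cases h2 : ∃ j ∈ S, j ∉ U
    · obtain ⟨j, hj, hjU⟩ := h2
      right; left
      rw [Finset.eq_univ_iff_forall]
      intro l
      by_cases hl : l ∈ U
      · exact key i hi l ⟨fun _ => hl, fun _ => hiU⟩
      · exact key j hj l ⟨fun h' => absurd h' hjU, fun h' => absurd h' hl⟩
    · push Not at h2
      right; right; left
      ext l
      exact ⟨fun hl => h2 l hl, fun hl => key i hi l ⟨fun _ => hl, fun _ => hiU⟩⟩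
  · push Not at h1
    by_cases h2 : ∃ j ∈ S, j ∉ U
    · obtain ⟨j, hj, hjU⟩ := h2
      right; right; right
      ext l
      rw [Finset.mem_compl]
      exact ⟨fun hl => h1 l hl, fun hl =>
        key j hj l ⟨fun h' => absurd h' hjU, fun h' => absurd h' hl⟩⟩
    · push Not at h2
      left
      rw [Finset.eq_empty_iff_forall_notMem]
      intro l hl
      exact h1 l hl (h2 l hl)

/-- **Surfaces with a section.** -/
theorem family_sec (hT : IsTower k k' K F) (h2 : (2 : k) ≠ 0) {s : ℕ} {q : Fin s → k[X]}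
    (hq : ∀ i, Irreducible (q i)) {U : Finset (Fin s)} {G : k[X]}
    (hirr : Irreducible ((G ^ 2 - (∏ i ∈ U, q i) - ∏ i ∈ Uᶜ, q i) ^ 2 - 4 * ∏ i, q i))
    (hNb : NotNorm (∏ i, q i))
    (hNd : NotNorm ((G ^ 2 - (∏ i ∈ U, q i) - ∏ i ∈ Uᶜ, q i) ^ 2 - 4 * ∏ i, q i))
    (hS : ∀ S : Finset (Fin s), (∃ i ∈ S, ∃ j ∉ S, (i ∈ U ↔ j ∈ U)) → ∀ ε : k, ε ≠ 0 →
      ¬ Splits ((G ^ 2 - (∏ i ∈ U, q i) - ∏ i ∈ Uᶜ, q i) ^ 2 - 4 * ∏ i, q i) ε
        (∏ i ∈ S, q i))
    {h : k[X]} (hodd : Odd h.natDegree)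
    (hi : Inert ((∏ i, q i) *
      ((G ^ 2 - (∏ i ∈ U, q i) - ∏ i ∈ Uᶜ, q i) ^ 2 - 4 * ∏ i, q i)) h) :
    TateAtTwo (F := F) k' (crvT
      (algebraMap k[X] K ((G ^ 2 - (∏ i ∈ U, q i) - ∏ i ∈ Uᶜ, q i).comp h))
      (algebraMap k[X] K ((∏ i, q i).comp h))) := by
  haveI := hT.fracK
  set A := ∏ i ∈ U, q i with hA
  set B := ∏ i ∈ Uᶜ, q i with hB
  have hAB : A * B = ∏ i, q i := Finset.prod_mul_prod_compl U q
  have hA0 : A ≠ 0 := Finset.prod_ne_zero_iff.2 fun i _ => (hq i).ne_zero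
  have hB0 : B ≠ 0 := Finset.prod_ne_zero_iff.2 fun i _ => (hq i).ne_zero
  have hP0 : ∏ i, q i ≠ 0 := Finset.prod_ne_zero_iff.2 fun i _ => (hq i).ne_zero
  have hG : G ≠ 0 := by
    rintro rfl
    have e : ((0 : k[X]) ^ 2 - A - B) ^ 2 - 4 * ∏ i, q i = (A - B) * (A - B) := by
      rw [← hAB]; ring
    rw [e] at hirr
    rcases irreducible_mul_iff.1 hirr with ⟨h3, h4⟩ | ⟨h3, h4⟩
    · exact h3.not_isUnit h4
    · exact h3.not_isUnit h4
  refine mainN_odd hT h2 hP0 hirr.ne_zero hNb hNd (enough_pts hT h2 hq ?_) ?_ hodd hi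
  · intro S
    by_cases h3 : ∃ i ∈ S, ∃ j ∉ S, (i ∈ U ↔ j ∈ U)
    · exact Or.inr (hS S h3)
    · left
      rcases cases_four h3 with rfl | rfl | rfl | rfl
      · refine ⟨0, 1, one_ne_zero, ?_⟩
        show algebraMap K F (algebraMap k[X] K (∏ i ∈ (∅ : Finset (Fin s)), q i)) =
          1 ^ 2 * algebraMap K F 1
        rw [Finset.prod_empty, map_one, one_pow, one_mul]
      · have hbK : algebraMap k[X] K (∏ i, q i) ≠ 0 := by
          rw [Ne, IsFractionRing.to_map_eq_zero_iff]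
          exact hP0
        refine ⟨Point.some 0 0 (nons_zero _ hbK), ?_⟩
        have hdd : dT (algebraMap k[X] K (∏ i, q i))
            (Point.some 0 0 (nons_zero (algebraMap k[X] K (G ^ 2 - A - B)) hbK)) =
            algebraMap k[X] K (∏ i, q i) := by
          simp [dT]
        rw [hdd]
        exact represents_self
      · have := exists_point (K := K) (F := F) (B := B) h2 hA0 hG
        rw [hAB] at this
        exact this
      · have := exists_point (K := K) (F := F) (B := A) h2 hB0 hG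
        have e1 : G ^ 2 - B - A = G ^ 2 - A - B := by ring
        rw [mul_comm B A, hAB, e1] at this
        exact this
  · intro ε A' _ hA' hs hdv _ _
    exact enough_pow hT h2 one_ne_zero hirr (n := 0) (by rw [C_1]; ring) A' hA' hs hdv

end alg

section main

variable {k k' K F : Type} [Field k] [Field k'] [Algebra k k'] [Field K] [Algebra k[X] K]
    [Field F] [Algebra k'[X] F] [IsFractionRing k'[X] F] [Algebra K F]

/-- The Tate conjecture at 2 for all the base changes of odd degree with inert bad places of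
`y² = x (x² + a x + b)`: for every polynomial `h` over `k` of odd degree such that the irreducible
divisors of `b (a² - 4 b)` remain irreducible after the substitution `t ↦ h(t)`, the Tate conjecture
at 2 holds for `y² = x (x² + a(h(t)) x + b(h(t)))`. -/
def TateC (k' K F : Type) {k : Type} [Field k] [Field k'] [Field K] [Algebra k[X] K]
    [Field F] [Algebra k'[X] F] [IsFractionRing k'[X] F] [Algebra K F] (a b : k[X]) : Prop :=
  ∀ h : k[X], Odd h.natDegree →
    (∀ π : k[X], Irreducible π → π ∣ b * (a ^ 2 - 4 * b) → Irreducible (π.comp h)) →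
    TateAtTwo (F := F) k' (crvT (algebraMap k[X] K (a.comp h)) (algebraMap k[X] K (b.comp h)))

/-- **Almost all surfaces with a section.** -/
theorem density_sec [NumberField k] (hT : IsTower k k' K F) {J : Type} [Fintype J]
    (B : Module.Basis J ℤ (𝓞 k)) {r s : ℕ} (m : Fin s → ℕ) (hr : 2 ≤ r) (hm : ∀ i, 1 ≤ m i)
    (U : Finset (Fin s)) {η : ℝ} (hη : 0 < η) : ∃ H0 : ℕ, ∀ H : ℕ, H0 ≤ H →
    (({x : (Fin (r + 1) → 𝓞 k) × ((i : Fin s) → Fin (m i + 1) → 𝓞 k) |
      ((∀ j t, |B.repr (x.1 j) t| ≤ (H : ℤ)) ∧ ∀ i j t, |B.repr (x.2 i j) t| ≤ (H : ℤ)) ∧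
      (∀ i, Irreducible (polA fun j => algebraMap (𝓞 k) k (x.2 i j))) ∧
      Irreducible (polT U (fun j => algebraMap (𝓞 k) k (x.1 j))
        (fun i j => algebraMap (𝓞 k) k (x.2 i j))) ∧
      NotNorm (polP fun i j => algebraMap (𝓞 k) k (x.2 i j)) ∧
      NotNorm (polT U (fun j => algebraMap (𝓞 k) k (x.1 j))
        (fun i j => algebraMap (𝓞 k) k (x.2 i j))) ∧
      ¬ TateC k' K F (polS U (fun j => algebraMap (𝓞 k) k (x.1 j))
          (fun i j => algebraMap (𝓞 k) k (x.2 i j)))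
        (polP fun i j => algebraMap (𝓞 k) k (x.2 i j))}.ncard : ℕ) : ℝ) ≤
      η * (2 * H + 1) ^ (Fintype.card J * (r + 1 + ∑ i, (m i + 1))) := by
  set T : Finset (Finset (Fin s)) :=
    Finset.univ.filter fun S => ∃ i ∈ S, ∃ j ∉ S, (i ∈ U ↔ j ∈ U) with hTT
  have hM0 : (0 : ℝ) < ((4 * r + 2 * ∑ i, m i : ℕ) : ℝ) := by
    have : 0 < 4 * r + 2 * ∑ i, m i := by omega
    exact_mod_cast this
  have hδ0 : (0 : ℝ) < 1 / (4 * 9 ^ s * ((4 * r + 2 * ∑ i, m i : ℕ) : ℝ) ^ 2) := by positivity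
  have hδ1 : 1 / (4 * 9 ^ s * ((4 * r + 2 * ∑ i, m i : ℕ) : ℝ) ^ 2) ≤ 1 := by
    rw [div_le_one (by positivity)]
    have h3 : (1 : ℝ) ≤ 9 ^ s := one_le_pow₀ (by norm_num)
    have h5 : (1 : ℝ) ≤ ((4 * r + 2 * ∑ i, m i : ℕ) : ℝ) := by
      have : 1 ≤ 4 * r + 2 * ∑ i, m i := by omega
      exact_mod_cast this
    have h4 : (1 : ℝ) ≤ ((4 * r + 2 * ∑ i, m i : ℕ) : ℝ) ^ 2 := one_le_pow₀ h5
    nlinarith
  obtain ⟨H0, hH0⟩ := density_gen k B (fun P hP => Ideal.finiteQuotientOfFreeOfNeBot P hP)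
    (I := IdxG r m) (Λ := Finset (Fin s))
    (fun S κ _ z => ObsAt (polT U (fun j => z (Sum.inl j)) (fun i j => z (Sum.inr ⟨i, j⟩)))
          (secP S fun i j => z (Sum.inr ⟨i, j⟩))) T hδ0 hδ1 (by
      intro S hS κ _ _ hF h7
      rw [hTT, Finset.mem_filter] at hS
      obtain ⟨-, i, hi, j, hj, hU⟩ := hS
      have h9 := card_obsFunU hF h7 r m hr hm hi hj hU
      convert h9) hη
  refine ⟨H0, fun H hH => ?_⟩
  set Bad := {x : (Fin (r + 1) → 𝓞 k) × ((i : Fin s) → Fin (m i + 1) → 𝓞 k) |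
      ((∀ j t, |B.repr (x.1 j) t| ≤ (H : ℤ)) ∧ ∀ i j t, |B.repr (x.2 i j) t| ≤ (H : ℤ)) ∧
      (∀ i, Irreducible (polA fun j => algebraMap (𝓞 k) k (x.2 i j))) ∧
      Irreducible (polT U (fun j => algebraMap (𝓞 k) k (x.1 j))
        (fun i j => algebraMap (𝓞 k) k (x.2 i j))) ∧
      NotNorm (polP fun i j => algebraMap (𝓞 k) k (x.2 i j)) ∧
      NotNorm (polT U (fun j => algebraMap (𝓞 k) k (x.1 j))
        (fun i j => algebraMap (𝓞 k) k (x.2 i j))) ∧
      ¬ TateC k' K F (polS U (fun j => algebraMap (𝓞 k) k (x.1 j))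
          (fun i j => algebraMap (𝓞 k) k (x.2 i j)))
        (polP fun i j => algebraMap (𝓞 k) k (x.2 i j))} with hBad
  set χ : ((Fin (r + 1) → 𝓞 k) × ((i : Fin s) → Fin (m i + 1) → 𝓞 k)) → (IdxG r m → 𝓞 k) :=
    fun x o => match o with
      | Sum.inl j => x.1 j
      | Sum.inr ⟨i, j⟩ => x.2 i j with hχ
  have hχi : Function.Injective χ := by
    intro x y hxy
    refine Prod.ext ?_ ?_
    · funext j
      exact congrFun hxy (Sum.inl j)
    · funext i j
      exact congrFun hxy (Sum.inr ⟨i, j⟩)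
  rw [← Set.ncard_image_of_injective Bad hχi, Nat.mul_comm (Fintype.card J), ← card_idxG r m]
  refine hH0 H hH (χ '' Bad) ?_
  rintro _ ⟨⟨g, β⟩, ⟨⟨hb1, hb2⟩, hq, hirr, hNb, hNd, hbad⟩, rfl⟩
  refine ⟨?_, ?_⟩
  · rintro (j | ⟨i, j⟩) t
    · exact hb1 j t
    · exact hb2 i j t
  · by_contra hno
    push Not at hno
    apply hbad
    intro h hodd hi
    refine family_sec hT two_ne_zero hq (U := U) (G := polA fun j => algebraMap (𝓞 k) k (g j))
      hirr hNb hNd ?_ hodd ?_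
    · intro S hS ε hε hs
      obtain ⟨κ, hκ, π, hgood, hO⟩ := hno S (by
        rw [hTT, Finset.mem_filter]
        exact ⟨Finset.mem_univ _, hS⟩)
      refine hgood (polT U g β) (secP S β) ?_ ε hε ?_
      · rw [polT_map, secP_map]
        exact hO
      · rw [polT_map, secP_map]
        exact hs
    · intro π hπ hdv
      have h3 := hi π hπ hdv
      exact ⟨h3, h3.separable⟩

end main

end Pool.Agent.R939.EI
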