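import Pool.Agent.R939.EI.Cst

/-!
# One step of the descent
-/

set_option autoImplicit false
set_option linter.all false

open Polynomial IsDedekindDomain WeierstrassCurve WeierstrassCurve.Affine
open scoped Classical

namespace Pool.Agent.R939.EI

open Pool.Agent.TH115.GD
open Pool.Agent.W309.TD (compare)

section inv

variable {K F Ω : Type} [Field K] [Field F] [Field Ω] [Algebra K F] [Algebra F Ω] [Algebra K Ω]
  [IsScalarTower K F Ω] [IsGalois F Ω] [IsSepClosed Ω] {a b : K} {α β : Ω} (hR : Roots a b Ω α β)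

include hR

/-- The action on the Kummer generator, in terms of `R`. -/
theorem inv_R (hN : Preserves K F Ω) {f : (Ω ≃ₐ[F] Ω) → Pt (crvT a b) Ω}
    (hf2 : ∀ σ, f σ + f σ = 0) {t0 : Ω} {a0 : F} (n0 : t0 ≠ 0)
    (e0 : t0 ^ 2 = algebraMap F Ω a0) (k0 : ∀ σ, σ t0 = s0 (f σ) * t0) (τ : Ω ≃ₐ[K] Ω)
    {R : Pt (crvT a b) Ω} (hrel : ∀ σ σ' : Ω ≃ₐ[F] Ω, (∀ x, τ (σ' x) = σ (τ x)) →
      act (crvT a b) (ak τ) (f σ') - f σ = act (crvT a b) (rs K σ) R - R) :
    ∃ u : F, u ≠ 0 ∧ τ (algebraMap F Ω a0) = algebraMap F Ω u ^ 2 * (algebraMap F Ω a0 *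
      dT (algebraMap K Ω b) (R + R)) := by
  have hd : ∀ σ : Ω ≃ₐ[F] Ω, (act (crvT a b) (rs K σ) R - R) +
      (act (crvT a b) (rs K σ) R - R) = 0 := by
    intro σ
    obtain ⟨σ', hσ'⟩ := exists_conj hN τ σ
    rw [← hrel σ σ' hσ']
    have h1 : act (crvT a b) (ak τ) (f σ') + act (crvT a b) (ak τ) (f σ') = 0 :=
      (two_act _ (ak τ) _).2 (hf2 σ')
    rw [sub_add_sub_comm, h1, hf2, sub_zero]
  have hfix : ∀ σ : Ω ≃ₐ[F] Ω, act (crvT a b) (rs K σ) (R + R) = R + R := by
    intro σ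
    have h1 := hd σ
    rw [sub_add_sub_comm, ← map_add] at h1
    exact sub_eq_zero.1 h1
  have key : ∀ σ σ' : Ω ≃ₐ[F] Ω, (∀ x, τ (σ' x) = σ (τ x)) →
      act (crvT a b) (ak τ) (f σ') = f σ + (act (crvT a b) (rs K σ) R - R) := by
    intro σ σ' h
    rw [← hrel σ σ' h]; abel
  have s0τ : ∀ P : Pt (crvT a b) Ω, τ (s0 P) = s0 (act (crvT a b) (ak τ) P) :=
    fun P => (s0_act (crvT a b) (ak τ) P).symm
  obtain ⟨u0, hu0, q0⟩ := compare (K := F) (t := τ t0) (u := t0 * h0 α β R)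
    ((map_ne_zero τ).2 n0) (mul_ne_zero n0 (h0_ne hR.E R))
    (fun σ => s0 (f σ) * s0 (act (crvT a b) (rs K σ) R - R))
    (fun σ => mul_ne_zero (s0_ne _) (s0_ne _)) (fun σ => by
      obtain ⟨σ', hσ'⟩ := exists_conj hN τ σ
      rw [← hσ', k0, map_mul, s0τ, key σ σ' hσ', (s_addA hR.E (hf2 σ) (hd σ)).1])
    (fun σ => by
      rw [map_mul, k0, (sign0 hR hfix σ).2]; ring)
  refine ⟨u0, hu0, ?_⟩
  rw [← e0, map_pow, q0, mul_pow, mul_pow, h0_sq hR.E, hR.d0_eq]

end inv

section step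

variable {k k' K F : Type} [Field k] [Field k'] [Algebra k k'] [Field K] [Algebra k[X] K]
    [Field F] [Algebra k'[X] F] [IsFractionRing k'[X] F] [Algebra K F]

/-- The conic `ε A z² = x² - d y²` has a point with `z ≠ 0` over `k(t)`. -/
def Splits (d : k[X]) (ε : k) (A : k[X]) : Prop :=
  ∃ x y z : k[X], z ≠ 0 ∧ C ε * A * z ^ 2 = x ^ 2 - d * y ^ 2

theorem splits_of_frac [IsFractionRing k[X] K] {d : k[X]} {ε : k} {A : k[X]} {p q w : K}
    (hw : w ≠ 0) (h : algebraMap k[X] K (C ε * A) * w ^ 2 = p ^ 2 - algebraMap k[X] K d * q ^ 2) :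
    Splits d ε A := by
  obtain ⟨p1, p2, hp, rfl⟩ := IsFractionRing.div_surjective (A := k[X]) p
  obtain ⟨q1, q2, hq, rfl⟩ := IsFractionRing.div_surjective (A := k[X]) q
  obtain ⟨w1, w2, hw', rfl⟩ := IsFractionRing.div_surjective (A := k[X]) w
  have hp2 : algebraMap k[X] K p2 ≠ 0 := by simpa using nonZeroDivisors.ne_zero hp
  have hq2 : algebraMap k[X] K q2 ≠ 0 := by simpa using nonZeroDivisors.ne_zero hq
  have hw2 : algebraMap k[X] K w2 ≠ 0 := by simpa using nonZeroDivisors.ne_zero hw'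
  have hw1 : w1 ≠ 0 := by
    rintro rfl
    simp at hw
  refine ⟨p1 * q2 * w2, q1 * p2 * w2, w1 * p2 * q2, ?_, ?_⟩
  · exact mul_ne_zero (mul_ne_zero hw1 (nonZeroDivisors.ne_zero hp)) (nonZeroDivisors.ne_zero hq)
  · apply IsFractionRing.injective k[X] K
    rw [map_mul, map_sub, map_mul (algebraMap k[X] K) d]
    simp only [map_mul, map_pow] at h ⊢
    field_simp at h
    linear_combination h

/-- **One step of the descent.** -/
theorem one_step (hT : IsTower k k' K F) (h2 : (2 : k) ≠ 0) {a b : k[X]} (hb : b ≠ 0)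
    (hd : a ^ 2 - 4 * b ≠ 0)
    (hsb : ∀ π : k[X], Irreducible π → π ∣ b → π.Separable)
    (hsd : ∀ π : k[X], Irreducible π → π ∣ a ^ 2 - 4 * b → π.Separable)
    (hNb : NotNorm b) (hNd : NotNorm (a ^ 2 - 4 * b))
    {c : ℕ → (Sep F ≃ₐ[F] Sep F) →
      Pt (crvT (algebraMap k[X] K a) (algebraMap k[X] K b)) (Sep F)}
    (hc : IsTateClass k' (crvT (algebraMap k[X] K a) (algebraMap k[X] K b)) c) :
    ∃ (ε : k) (A : k[X]) (t : Sep F), ε ≠ 0 ∧ A.Monic ∧ Squarefree A ∧ A ∣ b ∧ InfT a b A ∧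
      Splits (a ^ 2 - 4 * b) ε A ∧ t ≠ 0 ∧
      t ^ 2 = algebraMap K (Sep F) (algebraMap k[X] K (C ε * A)) ∧
      ∀ σ : Sep F ≃ₐ[F] Sep F, σ t = s0 (c 1 σ) * t := by
  haveI := hT.sep
  haveI := hT.fracK
  have hKF := hT.map
  have h2K : (2 : K) ≠ 0 := tt h2
  have injK := IsFractionRing.injective k[X] K
  have injk := (algebraMap k k').injective
  have hbK0 : algebraMap k[X] K b ≠ 0 := by simpa using hb
  have hdK : algebraMap k[X] K (a ^ 2 - 4 * b) =
      algebraMap k[X] K a ^ 2 - 4 * algebraMap k[X] K b := by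
    rw [map_sub, map_mul, map_pow, map_ofNat]
  have hdK0 : algebraMap k[X] K a ^ 2 - 4 * algebraMap k[X] K b ≠ 0 := by
    rw [← hdK]
    intro h
    apply hd
    apply injK
    rw [h, map_zero]
  obtain ⟨α, β, hR⟩ := exists_roots (Ω := Sep F) h2K hbK0 hdK0
  have hbs : ∀ g : F, g ^ 2 ≠ algebraMap K F (algebraMap k[X] K b) := notSq hKF hb hsb hNb
  have hds : ∀ g : F, g ^ 2 ≠
      algebraMap K F (algebraMap k[X] K a ^ 2 - 4 * algebraMap k[X] K b) := by
    rw [← hdK]
    exact notSq hKF hd hsd hNd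
  haveI : IsSepClosure K (Sep F) := sepKΩ hKF
  haveI : Algebra.IsSeparable K (Sep F) := IsSepClosure.separable
  haveI : IsGalois K (Sep F) := inferInstance
  have hpres : Preserves K F (Sep F) := preserves hKF
  have vle : ∀ (v : HeightOneSpectrum k'[X]) (p : k[X]),
      v.valuation F (algebraMap K F (algebraMap k[X] K p)) ≤ 1 := by
    intro v p
    rw [hKF]
    exact v.valuation_le_one _
  have vone : ∀ (v : HeightOneSpectrum k'[X]) (p : k[X]),
      p.map (algebraMap k k') ∉ v.asIdeal →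
      v.valuation F (algebraMap K F (algebraMap k[X] K p)) = 1 := by
    intro v p hp
    rw [hKF, v.valuation_of_algebraMap, HeightOneSpectrum.intValuation_eq_one_iff]
    exact hp
  have hcc := hc.tc
  have hf2 : ∀ σ, c 1 σ + c 1 σ = 0 := fun σ => by
    rw [← two_nsmul, hcc.two 0 σ, hcc.zero]
  obtain ⟨t0, a0, n0, e0, k0⟩ := kummer0 hR (hcc.coc 1) hf2
  have ha0 : a0 ≠ 0 := by
    rintro rfl
    rw [map_zero] at e0
    exact pow_ne_zero 2 n0 e0
  -- existence of `R`
  have hT2 : pt0 hR.E + pt0 hR.E = 0 := pt0_two hR.E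
  have htor := torsF (F := F) hR hbs hds
  have hi0 : InvOne (crvT (algebraMap k[X] K a) (algebraMap k[X] K b)) (c 1) := by
    intro τ
    obtain ⟨R, hR1, hR0⟩ := exists_R hpres htor hcc hc.inv τ
    refine ⟨R 1, ⟨2, ?_⟩, fun σ σ' h => hR1.rel 1 σ σ' h⟩
    have h3 : 2 • R 1 = R 0 := hR1.two 0
    rw [pow_two, mul_smul, h3, two_nsmul]
    rcases hR0 with h | h
    · rw [h, add_zero]
    · rw [h, hT2]
  obtain ⟨A, hA1, hA2, hA3, cA, hcA, rA⟩ := global1 (Ω := Sep F) hKF h2 hb hsb hNb ha0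
    (fun v hv => by
      rw [par_eq_zero]
      exact gen0 (F := F) (L := Comp k'[X] F v)
        (Valued.v (R := v.adicCompletion F) (Γ₀ := WithZero (Multiplicative ℤ)))
        (v.valuation F) (wFin v) (vle v a) (vone v b hv)
        (loc0T hR hf2 ((hc.loc 1).1 v) n0 e0 k0))
    (inv0 hR hbs hds hpres hf2 hi0 n0 e0 k0)
  have hA0K : algebraMap k[X] K A ≠ 0 := by simpa using hA1.ne_zero
  -- the condition at infinity
  have hinf : InfT a b A := by
    intro h4 hle
    obtain ⟨N, hN⟩ := h4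
    have vdeg : ∀ p : k[X], p ≠ 0 → vInf k' F (algebraMap K F (algebraMap k[X] K p)) =
        WithZero.exp (p.natDegree : ℤ) := by
      intro p hp
      rw [hKF, vInf_poly ((Polynomial.map_ne_zero_iff injk).2 hp), natDegree_map]
    have hs : IsSquare (vInf k' F a0) := by
      refine genM (F := F) (L := CompInf k' F)
        (Valued.v (R := (pl (0 : k')).adicCompletion (AtInf F))
          (Γ₀ := WithZero (Multiplicative ℤ)))
        (vInf k' F) wInf (M := WithZero.exp (2 * N : ℤ)) WithZero.exp_ne_zero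
        (isSquare_exp.2 (even_two_mul _)) ?_ ?_
        (loc0T hR hf2 (hc.loc 1).2 n0 e0 k0)
      · by_cases ha : a = 0
        · rw [ha, map_zero, map_zero, map_zero]
          exact zero_le'
        · rw [vdeg a ha, WithZero.exp_le_exp]
          have : a.natDegree ≤ 2 * N := by omega
          exact_mod_cast this
      · rw [vdeg b hb, hN, ← WithZero.exp_nsmul]
        congr 1
        push_cast
        simp
        ring
    rw [rA, map_mul, map_pow, pow_two] at hs
    have h3 := Pool.Agent.W309.TD.IsSquare.of_mul_left' ⟨vInf k' F cA, rfl⟩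
      (mul_ne_zero ((Valuation.ne_zero_iff _).2 hcA) ((Valuation.ne_zero_iff _).2 hcA)) hs
    rw [vdeg A hA1.ne_zero, isSquare_exp] at h3
    exact_mod_cast h3
  -- the invariants `R 0` vanish
  have hR0 : ∀ (τ : Sep F ≃ₐ[K] Sep F) (R : ℕ → Pt (crvT (algebraMap k[X] K a)
      (algebraMap k[X] K b)) (Sep F)),
      IsR (crvT (algebraMap k[X] K a) (algebraMap k[X] K b)) c τ R →
      R 0 = 0 ∨ R 0 = pt0 hR.E → R 0 = 0 := by
    rintro τ R hR1 (h | h)
    · exact h
    · exfalso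
      obtain ⟨u, hu, q⟩ := inv_R hR hpres hf2 n0 e0 k0 τ (R := R 1) (hR1.rel 1)
      have h3 : R 1 + R 1 = pt0 hR.E := by rw [← two_nsmul, hR1.two 0, h]
      have h5 : dT (algebraMap K (Sep F) (algebraMap k[X] K b)) (pt0 hR.E) =
          algebraMap K (Sep F) (algebraMap k[X] K b) := by simp [pt0, dT]
      rw [h3, h5] at q
      obtain ⟨y, hy⟩ := hpres τ cA
      have hy0 : y ≠ 0 := by
        rintro rfl
        rw [map_zero] at hy
        exact hcA ((_root_.map_eq_zero (algebraMap F (Sep F))).1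
          ((map_eq_zero τ).1 hy))
      apply hbs (y / (cA * u))
      apply (algebraMap F (Sep F)).injective
      have hAΩ : algebraMap F (Sep F) (algebraMap K F (algebraMap k[X] K A)) ≠ 0 := by
        simpa using hA1.ne_zero
      have hcΩ : algebraMap F (Sep F) cA ≠ 0 := (_root_.map_ne_zero _).2 hcA
      have huΩ : algebraMap F (Sep F) u ≠ 0 := (_root_.map_ne_zero _).2 hu
      have e3 : τ (algebraMap F (Sep F) a0) = (algebraMap F (Sep F) y) ^ 2 *
          algebraMap F (Sep F) (algebraMap K F (algebraMap k[X] K A)) := by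
        rw [rA, map_mul, map_pow, map_mul, map_pow, hy, ← IsScalarTower.algebraMap_apply K F (Sep F),
          τ.commutes]
      have e4 : algebraMap F (Sep F) a0 = (algebraMap F (Sep F) cA) ^ 2 *
          algebraMap F (Sep F) (algebraMap K F (algebraMap k[X] K A)) := by
        rw [rA, map_mul, map_pow]
      rw [e3, e4] at q
      have q' : (algebraMap F (Sep F) y) ^ 2 = algebraMap F (Sep F) u ^ 2 *
          ((algebraMap F (Sep F) cA) ^ 2 * algebraMap K (Sep F) (algebraMap k[X] K b)) := by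
        apply mul_right_cancel₀ hAΩ
        rw [q]; ring
      rw [map_pow, map_div₀, map_mul, div_pow, q', ← IsScalarTower.algebraMap_apply K F (Sep F)]
      field_simp
  obtain ⟨ρ, hρ2, hρm, hρe, S, hS, hSρ⟩ := lift_one hpres hT2 htor hcc hc.inv hR0
  have hdsK : ∀ g : K, g ^ 2 ≠ algebraMap k[X] K a ^ 2 - 4 * algebraMap k[X] K b := by
    intro g hg
    exact hds (algebraMap K F g) (by rw [← map_pow, hg])
  obtain ⟨t1, g, n1, e1, k1, p, q, w, hw, hpq⟩ := quat hR hdsK hρ2 hρm hS hSρ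
  have k1' : ∀ σ : Sep F ≃ₐ[F] Sep F, σ t1 = s0 (c 1 σ) * t1 := by
    intro σ
    have := k1 (σ.restrictScalars K)
    rw [hρe] at this
    exact this
  obtain ⟨f, hf, hft⟩ := compare (K := F) n1 n0 (fun σ => s0 (c 1 σ)) (fun σ => s0_ne _) k1' k0
  have hg0 : g ≠ 0 := by
    rintro rfl
    rw [map_zero] at e1
    exact pow_ne_zero 2 n1 e1
  have hgA : algebraMap K F (g / algebraMap k[X] K A) = (f * cA) ^ 2 := by
    have hAF : algebraMap K F (algebraMap k[X] K A) ≠ 0 := (_root_.map_ne_zero _).2 hA0K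
    rw [map_div₀, div_eq_iff hAF]
    apply (algebraMap F (Sep F)).injective
    rw [← IsScalarTower.algebraMap_apply K F (Sep F), ← e1, hft, mul_pow, e0, rA]
    simp only [map_mul, map_pow]
    ring
  obtain ⟨ε, h, hε, hh, hgε⟩ := sq_const hKF (div_ne_zero hg0 hA0K) hgA
  have hgε' : g = algebraMap k[X] K (C ε * A) * h ^ 2 := by
    rw [div_eq_iff hA0K] at hgε
    rw [hgε, map_mul]; ring
  have hhΩ : algebraMap K (Sep F) h ≠ 0 := (_root_.map_ne_zero _).2 hh
  refine ⟨ε, A, t1 / algebraMap K (Sep F) h, hε, hA1, hA2, hA3, hinf, ?_, div_ne_zero n1 hhΩ, ?_,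
    fun σ => ?_⟩
  · apply splits_of_frac (K := K) (p := p) (q := q) (w := h * w) (mul_ne_zero hh hw)
    rw [hdK, ← hpq, hgε']
    ring
  · rw [div_pow, e1, hgε', map_mul, map_pow]
    field_simp
  · rw [map_div₀, k1', IsScalarTower.algebraMap_apply K F (Sep F), σ.commutes, mul_div_assoc]

end step

end Pool.Agent.R939.EI
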